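import Pool.Agent.H.MP_b77b2b_ag.Lin

/-!
# MP_b77b2b_ag, Core: vectors over a valued field with prescribed pairings
-/

set_option autoImplicit false

namespace Pentad

open IsLocalRing

theorem exists_single_notMem {F ι : Type} [Field F] [Fintype ι] [DecidableEq ι]
    (W : Submodule F (ι → F)) (h : Module.finrank F W < Fintype.card ι) :
    ∃ i, Pi.single i (1 : F) ∉ W := by
  by_contra hcon
  push Not at hcon
  have h1 : W = ⊤ := by
    rw [eq_top_iff, ← (Pi.basisFun F ι).span_eq, Submodule.span_le]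
    rintro _ ⟨i, rfl⟩
    rw [Pi.basisFun_apply]
    exact hcon i
  rw [h1, finrank_top, Module.finrank_pi] at h
  exact lt_irrefl _ h

theorem finrank_sup_single {F ι : Type} [Field F] [Fintype ι]
    (W : Submodule F (ι → F)) (v : ι → F) :
    Module.finrank F (W ⊔ F ∙ v : Submodule F (ι → F)) ≤ Module.finrank F W + 1 :=
  (Submodule.finrank_add_le_finrank_add_finrank W (F ∙ v)).trans
    (Nat.add_le_add_left ((finrank_span_le_card {v}).trans (by simp)) _)

/-- A vector supported on two coordinates. -/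
theorem mem_of_two {F ι : Type} [Field F] [Fintype ι] [DecidableEq ι] {W : Submodule F (ι → F)}
    {w : ι → F} (hw : w ∈ W) {a b : ι} (hab : a ≠ b) (h0 : ∀ i, i ≠ a → i ≠ b → w i = 0)
    (hb : w b ≠ 0) : Pi.single b (1 : F) ∈ W ⊔ F ∙ (Pi.single a (1 : F)) := by
  have h1 : Pi.single b (1 : F) = (w b)⁻¹ • w - ((w b)⁻¹ * w a) • Pi.single a (1 : F) := by
    funext i
    simp only [Pi.sub_apply, Pi.smul_apply, smul_eq_mul]
    by_cases hia : i = a
    · subst hia
      rw [Pi.single_eq_of_ne hab, Pi.single_eq_same]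
      ring
    · rw [Pi.single_eq_of_ne hia]
      by_cases hib : i = b
      · subst hib
        rw [Pi.single_eq_same]
        field_simp
        ring
      · rw [Pi.single_eq_of_ne hib, h0 i hia hib]
        ring
  rw [h1]
  exact Submodule.sub_mem _ (Submodule.smul_mem _ _ (Submodule.mem_sup_left hw))
    (Submodule.smul_mem _ _ (Submodule.mem_sup_right (Submodule.mem_span_singleton_self _)))

theorem mem_of_one {F ι : Type} [Field F] [Fintype ι] [DecidableEq ι] {W : Submodule F (ι → F)}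
    {w : ι → F} (hw : w ∈ W) {b : ι} (h0 : ∀ i, i ≠ b → w i = 0)
    (hb : w b ≠ 0) : Pi.single b (1 : F) ∈ W := by
  have h1 : Pi.single b (1 : F) = (w b)⁻¹ • w := by
    funext i
    rw [Pi.smul_apply, smul_eq_mul]
    by_cases hib : i = b
    · subst hib
      rw [Pi.single_eq_same]
      field_simp
    · rw [Pi.single_eq_of_ne hib, h0 i hib]
      ring
  rw [h1]
  exact W.smul_mem _ hw

variable {K : Type} [Field K] {B : ValuationSubring K}
variable {𝒳 : Type} [AddCommGroup 𝒳] [Module K 𝒳] [FiniteDimensional K 𝒳] {n : ℕ}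

/-- The hypotheses on the vectors and the functionals. -/
structure Hyp (B : ValuationSubring K) (o : 𝒳) (X : Fin n → 𝒳) (Y : Fin n → Fin n → 𝒳)
    (o' : 𝒳 →ₗ[K] K) (X' : Fin n → 𝒳 →ₗ[K] K) (Z : Fin n → Fin n → 𝒳 →ₗ[K] K)
    (q : Fin n → Fin n → ResidueField B) : Prop where
  oo : B.valuation (o' o) < 1
  oX : ∀ j, B.valuation (X' j o) < 1
  Xo : ∀ i, B.valuation (o' (X i)) < 1
  XX : ∀ i j, i ≠ j → X' j (X i) ∈ B ∧ res B (X' j (X i)) = q i j
  Yo : ∀ a b, a ≠ b → o' (Y a b) ∈ B ∧ res B (o' (Y a b)) ≠ 0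
  YX : ∀ a b, a ≠ b → ∀ j, j ≠ a → j ≠ b → B.valuation (X' j (Y a b)) < 1
  oZ : ∀ c d, c ≠ d → Z c d o ∈ B ∧ res B (Z c d o) ≠ 0
  sym : ∀ c d, c ≠ d → ∀ i, B.valuation (Z c d (X i) - X' i (Y c d)) < 1
  YZ : ∀ a b c d, a ≠ b → c ≠ d → a ≠ c → a ≠ d → b ≠ c → b ≠ d →
    B.valuation (Z c d (Y a b)) < 1

/-- All functionals together. -/
def LL (o' : 𝒳 →ₗ[K] K) (X' : Fin n → 𝒳 →ₗ[K] K) : 𝒳 →ₗ[K] (Option (Fin n) → K) :=
  LinearMap.pi fun t => match t with
    | none => o'
    | some i => X' i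

/-- The residue of the row space. -/
noncomputable def Ek (B : ValuationSubring K) (o' : 𝒳 →ₗ[K] K) (X' : Fin n → 𝒳 →ₗ[K] K) :
    Submodule (ResidueField B) (Option (Fin n) → ResidueField B) :=
  resSub (B := B) (LinearMap.range (LL o' X'))

theorem finrank_Ek {o' : 𝒳 →ₗ[K] K} {X' : Fin n → 𝒳 →ₗ[K] K} :
    Module.finrank (ResidueField B) (Ek B o' X') ≤ Module.finrank K 𝒳 :=
  (finrank_resSub_le _).trans (LinearMap.finrank_range_le _)

variable {o : 𝒳} {X : Fin n → 𝒳} {Y : Fin n → Fin n → 𝒳}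
    {o' : 𝒳 →ₗ[K] K} {X' : Fin n → 𝒳 →ₗ[K] K} {Z : Fin n → Fin n → 𝒳 →ₗ[K] K}
    {q : Fin n → Fin n → ResidueField B}

/-- The relation given by a pair, first form. -/
theorem rel (H : Hyp B o X Y o' X' Z q) {a b : Fin n} (hab : a ≠ b) : ∃ p : Option (Fin n),
    (p = none ∨ p = some a ∨ p = some b) ∧
    LL o' X' (Y a b) p ≠ 0 ∧
    (∀ r, B.valuation (LL o' X' (Y a b) r) ≤ B.valuation (LL o' X' (Y a b) p)) ∧
    ∃ w ∈ Ek B o' X', (∀ r, w r = res B (LL o' X' (Y a b) r / LL o' X' (Y a b) p)) ∧ w p = 1 ∧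
      ∀ i, i ≠ a → i ≠ b → w (some i) = 0 := by
  set r := LL o' X' (Y a b) with hr
  have hnone : r none = o' (Y a b) := rfl
  have hv1 : B.valuation (r none) = 1 := by
    rw [hnone]
    exact val_eq_one (H.Yo a b hab).1 (H.Yo a b hab).2
  have hr0 : r ≠ 0 := by
    intro h0
    rw [h0, Pi.zero_apply, map_zero] at hv1
    exact zero_ne_one hv1
  obtain ⟨p, hp0, hmax⟩ := exists_max (B := B) r hr0
  have hge : 1 ≤ B.valuation (r p) := by
    rw [← hv1]
    exact hmax none
  have hsmall : ∀ i, i ≠ a → i ≠ b → B.valuation (r (some i)) < 1 := fun i hia hib =>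
    H.YX a b hab i hia hib
  have hmem : ∀ t, r t / r p ∈ B := fun t => div_mem_of_le hp0 (hmax t)
  refine ⟨p, ?_, hp0, hmax, fun t => res B (r t / r p), ?_, fun t => rfl, ?_, ?_⟩
  · rcases p with _ | i
    · exact Or.inl rfl
    · right
      by_cases hia : i = a
      · exact Or.inl (by rw [hia])
      · by_cases hib : i = b
        · exact Or.inr (by rw [hib])
        · exact absurd (hsmall i hia hib) (not_lt.2 hge)
  · refine ⟨(r p)⁻¹ • r, Submodule.smul_mem _ _ ⟨_, rfl⟩, fun t => ?_, fun t => ?_⟩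
    · rw [Pi.smul_apply, smul_eq_mul, mul_comm, ← div_eq_mul_inv]
      exact hmem t
    · rw [Pi.smul_apply, smul_eq_mul, mul_comm, ← div_eq_mul_inv]
  · show res B (r p / r p) = 1
    rw [div_self hp0, res_one]
  · intro i hia hib
    apply res_of_lt
    rw [map_div₀]
    exact (div_lt_one₀ (lt_of_lt_of_le one_pos hge)).2 ((hsmall i hia hib).trans_le hge)

/-- The relation given by a pair, second form. -/
theorem rel' (H : Hyp B o X Y o' X' Z q) {a b : Fin n} (hab : a ≠ b)
    (hE : Pi.single none (1 : ResidueField B) ∈ Ek B o' X')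
    (hns : ¬ (B.valuation (X' a (Y a b)) < 1 ∧ B.valuation (X' b (Y a b)) < 1)) :
    ∃ w ∈ Ek B o' X', w none = 0 ∧ (∀ i, i ≠ a → i ≠ b → w (some i) = 0) ∧
      (w (some a) ≠ 0 ∨ w (some b) ≠ 0) := by
  obtain ⟨p, hp, hp0, hmax, w, hw, hwr, hwp, hwi⟩ := rel H hab
  refine ⟨w - w none • Pi.single none 1, Submodule.sub_mem _ hw (Submodule.smul_mem _ _ hE),
    ?_, ?_, ?_⟩
  · simp
  · intro i hia hib
    simp [hwi i hia hib]
  · have key : w (some a) ≠ 0 ∨ w (some b) ≠ 0 := by
      rcases hp with rfl | rfl | rfl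
      · by_contra hcon
        push Not at hcon
        apply hns
        have hv1 : B.valuation (LL o' X' (Y a b) none) = 1 :=
          val_eq_one (H.Yo a b hab).1 (H.Yo a b hab).2
        have h1 : ∀ t, w (some t) = 0 → B.valuation (LL o' X' (Y a b) (some t)) < 1 := by
          intro t ht
          rw [hwr, res_eq_zero_iff (div_mem_of_le hp0 (hmax _)), map_div₀, hv1, div_one] at ht
          exact ht
        exact ⟨h1 a hcon.1, h1 b hcon.2⟩
      · left
        rw [hwp]
        exact one_ne_zero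
      · right
        rw [hwp]
        exact one_ne_zero
    rcases key with h | h
    · left
      simpa using h
    · right
      simpa using h

end Pentad
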