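import Pool.Agent.H.MP_b77b2b_ag.Core

/-!
# MP_b77b2b_ag, Core2: two disjoint small pairs and the quadratic part
-/

set_option autoImplicit false

namespace Pentad

open IsLocalRing

variable {K : Type} [Field K] {B : ValuationSubring K}
variable {𝒳 : Type} [AddCommGroup 𝒳] [Module K 𝒳] [FiniteDimensional K 𝒳] {n : ℕ}
variable {o : 𝒳} {X : Fin n → 𝒳} {Y : Fin n → Fin n → 𝒳}
    {o' : 𝒳 →ₗ[K] K} {X' : Fin n → 𝒳 →ₗ[K] K} {Z : Fin n → Fin n → 𝒳 →ₗ[K] K}
    {q : Fin n → Fin n → ResidueField B}

/-- The pair is small. -/
def Small (B : ValuationSubring K) (Y : Fin n → Fin n → 𝒳) (X' : Fin n → 𝒳 →ₗ[K] K)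
    (a b : Fin n) : Prop := ∀ i, B.valuation (X' i (Y a b)) < 1

theorem small_of (H : Hyp B o X Y o' X' Z q) {a b : Fin n} (hab : a ≠ b)
    (h : B.valuation (X' a (Y a b)) < 1 ∧ B.valuation (X' b (Y a b)) < 1) :
    Small B Y X' a b := by
  intro i
  by_cases hia : i = a
  · rw [hia]
    exact h.1
  · by_cases hib : i = b
    · rw [hib]
      exact h.2
    · exact H.YX a b hab i hia hib

/-- The first basis vector is in the residue of the row space. -/
theorem none_mem (H : Hyp B o X Y o' X' Z q) (hn : Module.finrank K 𝒳 + 2 ≤ n) :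
    Pi.single none (1 : ResidueField B) ∈ Ek B o' X' := by
  classical
  by_contra hcon
  have hE := finrank_Ek (B := B) (o' := o') (X' := X')
  have hcard : Fintype.card (Option (Fin n)) = n + 1 := by simp
  set W1 := Ek B o' X' ⊔ (ResidueField B) ∙ (Pi.single none (1 : ResidueField B)) with hW1
  have hf1 := finrank_sup_single (Ek B o' X') (Pi.single none (1 : ResidueField B))
  rw [← hW1] at hf1
  obtain ⟨a, ha⟩ := exists_single_notMem W1 (by rw [hcard]; omega)
  obtain ⟨a, rfl⟩ : ∃ a', a = some a' := by
    rcases a with _ | a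
    · exact absurd (Submodule.mem_sup_right (Submodule.mem_span_singleton_self _)) ha
    · exact ⟨a, rfl⟩
  set W2 := W1 ⊔ (ResidueField B) ∙ (Pi.single (some a) (1 : ResidueField B)) with hW2
  have hf2 := finrank_sup_single W1 (Pi.single (some a) (1 : ResidueField B))
  rw [← hW2] at hf2
  obtain ⟨b, hb⟩ := exists_single_notMem W2 (by rw [hcard]; omega)
  obtain ⟨b, rfl⟩ : ∃ b', b = some b' := by
    rcases b with _ | b
    · exact absurd (Submodule.mem_sup_left
        (Submodule.mem_sup_right (Submodule.mem_span_singleton_self _))) hb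
    · exact ⟨b, rfl⟩
  have hab : a ≠ b := by
    rintro rfl
    exact hb (Submodule.mem_sup_right (Submodule.mem_span_singleton_self _))
  obtain ⟨p, hp, -, -, w, hw, -, hwp, hwi⟩ := rel H hab
  -- the vector with the first coordinate removed lies in W1
  have hw' : w - w none • (Pi.single none 1 : Option (Fin n) → ResidueField B) ∈ W1 :=
    Submodule.sub_mem _ (Submodule.mem_sup_left hw) (Submodule.smul_mem _ _
      (Submodule.mem_sup_right (Submodule.mem_span_singleton_self _)))
  have hz : ∀ i, i ≠ some a → i ≠ some b →
      (w - w none • (Pi.single none 1 : Option (Fin n) → ResidueField B)) i = 0 := by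
    intro i hia hib
    rcases i with _ | i
    · simp
    · have h1 := hwi i (fun h => hia (by rw [h])) (fun h => hib (by rw [h]))
      simp [h1]
  have hab' : some a ≠ some b := fun h => hab (Option.some.inj h)
  by_cases hwb : w (some b) = 0
  · by_cases hwa : w (some a) = 0
    · have hpn : p = none := by
        rcases hp with h | h | h
        · exact h
        · rw [h, hwa] at hwp
          exact absurd hwp zero_ne_one
        · rw [h, hwb] at hwp
          exact absurd hwp zero_ne_one
      refine hcon (mem_of_one hw ?_ (b := none) ?_)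
      · intro i hi
        rcases i with _ | i
        · exact absurd rfl hi
        · by_cases hia : i = a
          · rw [hia, hwa]
          · by_cases hib : i = b
            · rw [hib, hwb]
            · exact hwi i hia hib
      · rw [← hpn, hwp]
        exact one_ne_zero
    · refine ha (mem_of_one hw' ?_ ?_)
      · intro i hi
        by_cases hib : i = some b
        · subst hib
          simp [hwb]
        · exact hz i hi hib
      · simpa using hwa
  · refine hb (mem_of_two hw' hab' hz ?_)
    simpa using hwb

/-- Two disjoint small pairs. -/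
theorem exists_small (H : Hyp B o X Y o' X' Z q) (hn : Module.finrank K 𝒳 + 3 ≤ n) : ∃ a b c d : Fin n,
    a ≠ b ∧ c ≠ d ∧ a ≠ c ∧ a ≠ d ∧ b ≠ c ∧ b ≠ d ∧ Small B Y X' a b ∧ Small B Y X' c d := by
  classical
  have hN := none_mem H (by omega)
  have hE := finrank_Ek (B := B) (o' := o') (X' := X')
  have hcard : Fintype.card (Option (Fin n)) = n + 1 := by simp
  set E := Ek B o' X' with hEdef
  obtain ⟨a, ha⟩ := exists_single_notMem E (by rw [hcard]; omega)
  obtain ⟨a, rfl⟩ : ∃ a', a = some a' := by
    rcases a with _ | a
    · exact absurd hN ha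
    · exact ⟨a, rfl⟩
  set W1 := E ⊔ (ResidueField B) ∙ (Pi.single (some a) (1 : ResidueField B)) with hW1
  have hf1 := finrank_sup_single E (Pi.single (some a) (1 : ResidueField B))
  rw [← hW1] at hf1
  obtain ⟨b, hb⟩ := exists_single_notMem W1 (by rw [hcard]; omega)
  obtain ⟨b, rfl⟩ : ∃ b', b = some b' := by
    rcases b with _ | b
    · exact absurd (Submodule.mem_sup_left hN) hb
    · exact ⟨b, rfl⟩
  set W2 := W1 ⊔ (ResidueField B) ∙ (Pi.single (some b) (1 : ResidueField B)) with hW2
  have hf2 := finrank_sup_single W1 (Pi.single (some b) (1 : ResidueField B))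
  rw [← hW2] at hf2
  obtain ⟨c, hc⟩ := exists_single_notMem W2 (by rw [hcard]; omega)
  obtain ⟨c, rfl⟩ : ∃ c', c = some c' := by
    rcases c with _ | c
    · exact absurd (Submodule.mem_sup_left (Submodule.mem_sup_left hN)) hc
    · exact ⟨c, rfl⟩
  set W3 := W2 ⊔ (ResidueField B) ∙ (Pi.single (some c) (1 : ResidueField B)) with hW3
  have hf3 := finrank_sup_single W2 (Pi.single (some c) (1 : ResidueField B))
  rw [← hW3] at hf3
  obtain ⟨d, hd⟩ := exists_single_notMem W3 (by rw [hcard]; omega)
  obtain ⟨d, rfl⟩ : ∃ d', d = some d' := by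
    rcases d with _ | d
    · exact absurd (Submodule.mem_sup_left (Submodule.mem_sup_left (Submodule.mem_sup_left hN))) hd
    · exact ⟨d, rfl⟩
  have hself : ∀ (W : Submodule (ResidueField B) (Option (Fin n) → ResidueField B)) (i : Fin n),
      Pi.single (some i) (1 : ResidueField B) ∈ W ⊔ (ResidueField B) ∙
        (Pi.single (some i) (1 : ResidueField B)) := fun W i =>
    Submodule.mem_sup_right (Submodule.mem_span_singleton_self _)
  have hab : a ≠ b := by
    rintro rfl
    exact hb (hself _ _)
  have hac : a ≠ c := by
    rintro rfl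
    exact hc (Submodule.mem_sup_left (hself _ _))
  have had : a ≠ d := by
    rintro rfl
    exact hd (Submodule.mem_sup_left (Submodule.mem_sup_left (hself _ _)))
  have hbc : b ≠ c := by
    rintro rfl
    exact hc (hself _ _)
  have hbd : b ≠ d := by
    rintro rfl
    exact hd (Submodule.mem_sup_left (hself _ _))
  have hcd : c ≠ d := by
    rintro rfl
    exact hd (hself _ _)
  -- the general argument
  have key : ∀ a b : Fin n, a ≠ b → Pi.single (some a) (1 : ResidueField B) ∉ E →
      Pi.single (some b) (1 : ResidueField B) ∉ E ⊔ (ResidueField B) ∙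
        (Pi.single (some a) (1 : ResidueField B)) → Small B Y X' a b := by
    intro a b hab ha hb
    refine small_of H hab ?_
    by_contra hcon
    obtain ⟨w, hw, hw0, hwi, hwab⟩ := rel' H hab hN hcon
    have hab' : some a ≠ some b := fun h => hab (Option.some.inj h)
    have hz : ∀ i, i ≠ some a → i ≠ some b → w i = 0 := by
      intro i hia hib
      rcases i with _ | i
      · exact hw0
      · exact hwi i (fun h => hia (by rw [h])) (fun h => hib (by rw [h]))
    by_cases hwb : w (some b) = 0
    · have hwa : w (some a) ≠ 0 := by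
        rcases hwab with h | h
        · exact h
        · exact absurd hwb h
      refine ha (mem_of_one hw ?_ hwa)
      intro i hi
      by_cases hib : i = some b
      · rw [hib, hwb]
      · exact hz i hi hib
    · exact hb (mem_of_two hw hab' hz hwb)
  refine ⟨a, b, c, d, hab, hcd, hac, had, hbc, hbd, key a b hab ha hb, key c d hcd ?_ ?_⟩
  · exact fun h => hc (Submodule.mem_sup_left (Submodule.mem_sup_left h))
  · intro h
    refine hd ?_
    have hle : E ≤ W2 := le_sup_left.trans le_sup_left
    exact sup_le_sup_right hle _ h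

end Pentad
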