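import Pool.Agent.H.MP_b77b2b_ag.Core2

/-!
# MP_b77b2b_ag, Core3: the residue of the quadratic part
-/

set_option autoImplicit false

namespace Pentad

open IsLocalRing

variable {K : Type} [Field K] {B : ValuationSubring K}
variable {𝒳 : Type} [AddCommGroup 𝒳] [Module K 𝒳] [FiniteDimensional K 𝒳] {n : ℕ}
variable {o : 𝒳} {X : Fin n → 𝒳} {Y : Fin n → Fin n → 𝒳}
    {o' : 𝒳 →ₗ[K] K} {X' : Fin n → 𝒳 →ₗ[K] K} {Z : Fin n → Fin n → 𝒳 →ₗ[K] K}
    {q : Fin n → Fin n → ResidueField B}

omit [FiniteDimensional K 𝒳] in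
/-- The system of two linear equations. -/
theorem solve {p q r t D t0 t1 : K} (hD : p * t - q * r = D) (h0 : D ≠ 0) :
    (t0 * t - t1 * q) / D * p + (p * t1 - r * t0) / D * q = t0 ∧
    (t0 * t - t1 * q) / D * r + (p * t1 - r * t0) / D * t = t1 := by
  constructor
  · rw [div_mul_eq_mul_div, div_mul_eq_mul_div, ← add_div, div_eq_iff h0]
    linear_combination t0 * hD
  · rw [div_mul_eq_mul_div, div_mul_eq_mul_div, ← add_div, div_eq_iff h0]
    linear_combination t1 * hD

theorem val_mul_lt {x y : K} (hx : B.valuation x < 1) (hy : y ∈ B) : B.valuation (x * y) < 1 := by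
  rw [map_mul]
  exact mul_lt_one_of_lt_of_le hx ((B.valuation_le_one_iff y).2 hy)

theorem val_sub_lt {x y : K} (hx : B.valuation x < 1) (hy : B.valuation y < 1) :
    B.valuation (x - y) < 1 := B.valuation.map_sub_lt hx hy

/-- The main statement on decompositions over a valued field. -/
theorem exists_G (H : Hyp B o X Y o' X' Z q) (hn : Module.finrank K 𝒳 + 3 ≤ n) :
    ∃ G : Submodule (ResidueField B) (Fin n → ResidueField B),
      Module.finrank (ResidueField B) G + 2 ≤ Module.finrank K 𝒳 ∧
      ∀ i, (Pi.single i 1 : Fin n → ResidueField B) ∈ G ∨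
        ∃ g ∈ G, ∀ j, j ≠ i → g j = q i j := by
  classical
  obtain ⟨a, b, c, d, hab, hcd, hac, had, hbc, hbd, hs1, hs2⟩ := exists_small H hn
  set y := Y a b with hy
  set z := Z c d with hz
  have m00 : o' o ∈ B := mem_of_lt H.oo
  obtain ⟨m10, r10⟩ := H.Yo a b hab
  obtain ⟨m01, r01⟩ := H.oZ c d hcd
  have v11 : B.valuation (z y) < 1 := H.YZ a b c d hab hcd hac had hbc hbd
  have m11 := mem_of_lt v11
  set D := o' o * z y - o' y * z o with hD
  have hDB : D ∈ B := B.toSubring.sub_mem (B.mul_mem _ _ m00 m11) (B.mul_mem _ _ m10 m01)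
  have hDr : res B D ≠ 0 := by
    have h1 : D = o' o * z y + -(o' y * z o) := by
      rw [hD]
      ring
    rw [h1, res_add (B.mul_mem _ _ m00 m11) (B.neg_mem _ (B.mul_mem _ _ m10 m01)),
      res_mul m00 m11, res_neg (B.mul_mem _ _ m10 m01), res_mul m10 m01, res_of_lt H.oo,
      zero_mul, zero_add]
    exact neg_ne_zero.2 (mul_ne_zero r10 r01)
  have hDv := val_eq_one hDB hDr
  have hD0 : D ≠ 0 := by
    intro h0
    rw [h0, map_zero] at hDv
    exact zero_ne_one hDv
  -- the kernel
  set M : 𝒳 →ₗ[K] K × K := o'.prod z with hM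
  have hsurj : Function.Surjective M := by
    intro t
    obtain ⟨h1, h2⟩ := solve (t0 := t.1) (t1 := t.2) hD.symm hD0
    refine ⟨((t.1 * z y - t.2 * o' y) / D) • o + ((o' o * t.2 - z o * t.1) / D) • y, ?_⟩
    apply Prod.ext
    · show o' _ = t.1
      rw [map_add, map_smul, map_smul, smul_eq_mul, smul_eq_mul]
      exact h1
    · show z _ = t.2
      rw [map_add, map_smul, map_smul, smul_eq_mul, smul_eq_mul]
      exact h2
  have hker : Module.finrank K (LinearMap.ker M) + 2 = Module.finrank K 𝒳 := by
    have h1 := LinearMap.finrank_range_add_finrank_ker M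
    rw [LinearMap.range_eq_top.2 hsurj, finrank_top, Module.finrank_prod,
      Module.finrank_self] at h1
    omega
  set N : 𝒳 →ₗ[K] (Fin n → K) := LinearMap.pi X' with hN
  have hNa : ∀ v j, N v j = X' j v := fun v j => rfl
  set G := resSub (B := B) ((LinearMap.ker M).map N) with hG
  refine ⟨G, ?_, ?_⟩
  · have h1 := finrank_resSub_le (B := B) ((LinearMap.ker M).map N)
    have h2 := Submodule.finrank_map_le N (LinearMap.ker M)
    rw [← hG] at h1
    omega
  · intro i
    have ui : B.valuation (z (X i)) < 1 := by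
      have h1 := H.sym c d hcd i
      have h2 := hs2 i
      have h3 : z (X i) = (z (X i) - X' i (Y c d)) + X' i (Y c d) := by ring
      rw [h3]
      exact B.valuation.map_add_lt h1 h2
    obtain ⟨h1, h2⟩ := solve (t0 := o' (X i)) (t1 := z (X i)) hD.symm hD0
    set α := (o' (X i) * z y - z (X i) * o' y) / D with hα
    set γ := (o' o * z (X i) - z o * o' (X i)) / D with hγ
    have vα : B.valuation α < 1 := by
      rw [hα, map_div₀, hDv, div_one]
      exact val_sub_lt (val_mul_lt (H.Xo i) m11) (val_mul_lt ui m10)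
    have vγ : B.valuation γ < 1 := by
      rw [hγ, map_div₀, hDv, div_one]
      refine val_sub_lt (val_mul_lt H.oo (mem_of_lt ui)) ?_
      rw [mul_comm]
      exact val_mul_lt (H.Xo i) m01
    set v := X i - α • o - γ • y with hv
    have hvker : v ∈ LinearMap.ker M := by
      rw [LinearMap.mem_ker]
      apply Prod.ext
      · show o' v = 0
        rw [hv, map_sub, map_sub, map_smul, map_smul, smul_eq_mul, smul_eq_mul]
        linear_combination -h1
      · show z v = 0
        rw [hv, map_sub, map_sub, map_smul, map_smul, smul_eq_mul, smul_eq_mul]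
        linear_combination -h2
    have hvmem : N v ∈ (LinearMap.ker M).map N := Submodule.mem_map_of_mem hvker
    have hval : ∀ j, N v j = X' j (X i) - (α * X' j o + γ * X' j y) := by
      intro j
      rw [hNa, hv, map_sub, map_sub, map_smul, map_smul, smul_eq_mul, smul_eq_mul]
      ring
    have hcorr : ∀ j, B.valuation (α * X' j o + γ * X' j y) < 1 := by
      intro j
      exact B.valuation.map_add_lt (val_mul_lt vα (mem_of_lt (H.oX j)))
        (val_mul_lt vγ (mem_of_lt (hs1 j)))
    have hoff : ∀ j, j ≠ i → N v j ∈ B ∧ res B (N v j) = q i j := by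
      intro j hj
      obtain ⟨hm, hr⟩ := H.XX i j (Ne.symm hj)
      rw [hval, sub_eq_add_neg]
      refine ⟨B.add_mem _ _ hm (B.neg_mem _ (mem_of_lt (hcorr j))), ?_⟩
      rw [res_add hm (B.neg_mem _ (mem_of_lt (hcorr j))), res_neg (mem_of_lt (hcorr j)),
        res_of_lt (hcorr j), neg_zero, add_zero, hr]
    by_cases hδ : N v i ∈ B
    · right
      refine ⟨fun j => res B (N v j), ⟨_, hvmem, ?_, fun j => rfl⟩,
        fun j hj => (hoff j hj).2⟩
      intro j
      by_cases hj : j = i
      · rw [hj]
        exact hδ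
      · exact (hoff j hj).1
    · left
      set δ := N v i with hδd
      have hδ0 : δ ≠ 0 := by
        intro h0
        rw [h0] at hδ
        exact hδ B.zero_mem
      have hδv : 1 < B.valuation δ := by
        rw [← B.valuation_le_one_iff] at hδ
        exact not_le.1 hδ
      have hlt : ∀ j, j ≠ i → B.valuation (δ⁻¹ * N v j) < 1 := by
        intro j hj
        rw [map_mul, map_inv₀]
        have h3 := (B.valuation_le_one_iff _).2 (hoff j hj).1
        exact mul_lt_one_of_lt_of_le (inv_lt_one_of_one_lt₀ hδv) h3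
      refine ⟨δ⁻¹ • N v, Submodule.smul_mem _ _ hvmem, ?_, ?_⟩
      · intro j
        rw [Pi.smul_apply, smul_eq_mul]
        by_cases hj : j = i
        · rw [hj, ← hδd, inv_mul_cancel₀ hδ0]
          exact B.one_mem
        · exact mem_of_lt (hlt j hj)
      · intro j
        rw [Pi.smul_apply, smul_eq_mul]
        by_cases hj : j = i
        · rw [hj, ← hδd, inv_mul_cancel₀ hδ0, Pi.single_eq_same, res_one]
        · rw [Pi.single_eq_of_ne hj, res_of_lt (hlt j hj)]

end Pentad
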