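import Pool.Agent.H.MP_b77b2b_ag.Sym

/-!
# MP_b77b2b_ag, Sym2: the count
-/

set_option autoImplicit false

namespace Pentad

variable {F : Type} [Field F]

/-- Coefficients of a combination with respect to an invertible matrix over a subfield lie in the
subfield. -/
theorem coeff_mem {ι : Type} [Fintype ι] [DecidableEq ι] (L : Subfield F) (P : Matrix ι ι F)
    (hP : P.det ≠ 0) (hL : ∀ i j, P i j ∈ L) (c : ι → F)
    (hc : ∀ j, (∑ i, c i * P i j) ∈ L) (i : ι) : c i ∈ L := by
  let P' : Matrix ι ι L := fun i j => ⟨P i j, hL i j⟩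
  have hP' : P = L.subtype.mapMatrix P' := rfl
  have hdet : P'.det ≠ 0 := by
    intro h0
    apply hP
    rw [hP', ← RingHom.map_det, h0, map_zero]
  let r : ι → L := fun j => ⟨∑ i, c i * P i j, hc j⟩
  let c' : ι → L := Matrix.vecMul r P'⁻¹
  have h1 : Matrix.vecMul c' P' = r := by
    show Matrix.vecMul (Matrix.vecMul r P'⁻¹) P' = r
    rw [Matrix.vecMul_vecMul, Matrix.nonsing_inv_mul _ (Ne.isUnit hdet), Matrix.vecMul_one]
  have h2 : Matrix.vecMul (c - fun j => (c' j : F)) P = 0 := by
    funext j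
    have h3 := congrArg (fun f : ι → L => ((f j : L) : F)) h1
    simp only [Matrix.vecMul, dotProduct, r] at h3
    simp only [Matrix.vecMul, dotProduct, Pi.sub_apply, sub_mul, Finset.sum_sub_distrib,
      Pi.zero_apply]
    rw [← h3]
    push_cast
    rw [sub_eq_zero]
  have h4 := Matrix.eq_zero_of_vecMul_eq_zero hP h2
  have h5 := congrFun h4 i
  rw [Pi.sub_apply, Pi.zero_apply, sub_eq_zero] at h5
  rw [h5]
  exact (c' i).2

/-- The count. -/
theorem count [Algebra ℚ F] {n : ℕ} (q : Fin n → Fin n → F) (hsym : ∀ i j, q i j = q j i)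
    (hind : AlgebraicIndependent ℚ
      (fun e : {p : Fin n × Fin n // p.1 < p.2} => q e.1.1 e.1.2))
    (G : Submodule F (Fin n → F))
    (hG : ∀ i, (Pi.single i 1 : Fin n → F) ∈ G ∨ ∃ g ∈ G, ∀ j, j ≠ i → g j = q i j) :
    (n - Module.finrank F G) * (n - Module.finrank F G + 1) ≤ 2 * n := by
  classical
  have hG' : ∀ i, ∃ g ∈ G, g = Pi.single i 1 ∨ ∀ j, j ≠ i → g j = q i j := by
    intro i
    rcases hG i with h | ⟨g, hg, h⟩
    · exact ⟨_, h, Or.inl rfl⟩
    · exact ⟨g, hg, Or.inr h⟩
  choose g hgG hg using hG'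
  set Z : Set (Fin n) := {i | g i = Pi.single i 1} with hZ
  have hgq : ∀ i, i ∉ Z → ∀ j, j ≠ i → g i j = q i j := by
    intro i hi
    rcases hg i with h | h
    · exact absurd h hi
    · exact h
  have hZind : LinearIndepOn F g Z := by
    have h1 : LinearIndependent F (fun i : Z => (Pi.single i.1 1 : Fin n → F)) := by
      have h2 := (Pi.basisFun F (Fin n)).linearIndependent.comp (fun i : Z => i.1)
        Subtype.val_injective
      convert h2 using 1
      funext i
      simp
    unfold LinearIndepOn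
    convert h1 using 1
    funext i
    exact i.2
  obtain ⟨J, -, hZJ, hJspan, hJ⟩ := exists_linearIndepOn_extension hZind (Set.subset_univ Z)
  set Jf := Finset.univ.filter fun i => i ∈ J with hJf
  have hmemJf : ∀ i, i ∈ Jf ↔ i ∈ J := fun i => by simp [hJf]
  -- coefficients
  have hcoef : ∀ j, ∃ c : Fin n → F, g j = ∑ i ∈ Jf, c i • g i := by
    intro j
    have h1 : g j ∈ Submodule.span F (g '' (Jf : Set (Fin n))) := by
      have h2 : (Jf : Set (Fin n)) = J := by
        ext i
        rw [Finset.mem_coe, hmemJf]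
      rw [h2]
      exact hJspan ⟨j, Set.mem_univ j, rfl⟩
    rw [Submodule.mem_span_image_finset_iff_exists_fun] at h1
    obtain ⟨c, hc⟩ := h1
    refine ⟨fun i => if h : i ∈ Jf then c ⟨i, h⟩ else 0, ?_⟩
    rw [← hc, ← Finset.sum_coe_sort Jf fun i => (if h : i ∈ Jf then c ⟨i, h⟩ else 0) • g i]
    refine Finset.sum_congr rfl fun i _ => ?_
    rw [dif_pos i.2]
  choose c hc using hcoef
  set If := Jf.filter fun i => i ∉ Z with hIf
  set C := Finset.univ.filter fun i => i ∉ J with hC
  have hmemC : ∀ i, i ∈ C ↔ i ∉ J := fun i => by simp [hC]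
  have hCZ : ∀ j ∈ C, j ∉ Z := fun j hj hjZ => (hmemC j).1 hj (hZJ hjZ)
  have hmemIf : ∀ i, i ∈ If ↔ i ∈ J ∧ i ∉ Z := fun i => by simp [hIf, hmemJf]
  -- evaluation at coordinates outside Z
  have heval : ∀ j l, l ∉ Z → g j l = ∑ i ∈ If, c j i * g i l := by
    intro j l hl
    have h1 := congrFun (hc j) l
    rw [Finset.sum_apply] at h1
    rw [h1, hIf, Finset.sum_filter (s := Jf) (p := fun i => i ∉ Z)]
    refine Finset.sum_congr rfl fun i _ => ?_
    rw [Pi.smul_apply, smul_eq_mul]
    by_cases hi : i ∈ Z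
    · have h2 : g i l = 0 := by
        have h3 : g i = Pi.single i 1 := hi
        rw [h3, Pi.single_eq_of_ne]
        rintro rfl
        exact hl hi
      rw [h2, mul_zero, if_neg (not_not.2 hi)]
    · rw [if_pos hi]
  -- the matrix
  let P : Matrix If If F := fun a b => g a.1 b.1
  have hPsymm : ∀ a b : If, P a b = P b a := by
    intro a b
    by_cases hab : a = b
    · rw [hab]
    · have hab' : a.1 ≠ b.1 := fun h => hab (Subtype.ext h)
      show g a.1 b.1 = g b.1 a.1
      rw [hgq a.1 ((hmemIf _).1 a.2).2 b.1 (Ne.symm hab'), hgq b.1 ((hmemIf _).1 b.2).2 a.1 hab',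
        hsym]
  have hdet : P.det ≠ 0 := by
    intro h0
    obtain ⟨v, hv0, hv⟩ := Matrix.exists_vecMul_eq_zero_iff.2 h0
    -- w = sum v_i g_i
    let v' : Fin n → F := fun i => if h : i ∈ If then v ⟨i, h⟩ else 0
    have hv' : ∀ a : If, v' a.1 = v a := fun a => by simp [v']
    set w : Fin n → F := ∑ i ∈ If, v' i • g i with hw
    have hwI : ∀ l ∈ If, w l = 0 := by
      intro l hl
      have h1 := congrFun hv ⟨l, hl⟩
      simp only [Matrix.vecMul, dotProduct, Pi.zero_apply] at h1
      rw [hw, Finset.sum_apply, ← Finset.sum_coe_sort, ← h1]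
      refine Finset.sum_congr rfl fun a _ => ?_
      rw [Pi.smul_apply, smul_eq_mul, hv']
    have hwC : ∀ l ∈ C, w l = 0 := by
      intro l hl
      have hlZ := hCZ l hl
      have hlI : ∀ i ∈ If, i ≠ l := fun i hi h => (hmemC l).1 hl (h ▸ ((hmemIf i).1 hi).1)
      rw [hw, Finset.sum_apply]
      have h1 : ∀ i ∈ If, (v' i • g i) l = ∑ i' ∈ If, c l i' * (v' i * g i i') := by
        intro i hi
        rw [Pi.smul_apply, smul_eq_mul, hgq i ((hmemIf i).1 hi).2 l (hlI i hi).symm, hsym,
          ← hgq l hlZ i (hlI i hi), heval l i ((hmemIf i).1 hi).2, Finset.mul_sum]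
        refine Finset.sum_congr rfl fun i' hi' => ?_
        have h2 := hPsymm ⟨i, hi⟩ ⟨i', hi'⟩
        have h3 : g i i' = g i' i := h2
        rw [h3]
        ring
      rw [Finset.sum_congr rfl h1, Finset.sum_comm]
      refine Finset.sum_eq_zero fun i' hi' => ?_
      rw [← Finset.mul_sum]
      have h4 := hwI i' hi'
      rw [hw, Finset.sum_apply] at h4
      simp only [Pi.smul_apply, smul_eq_mul] at h4
      rw [h4, mul_zero]
    -- w is supported on Z
    have hwZ : w = ∑ i ∈ Jf.filter (fun i => i ∈ Z), w i • g i := by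
      funext l
      rw [Finset.sum_apply]
      by_cases hl : l ∈ Z
      · rw [Finset.sum_eq_single l]
        · have h3 : g l = Pi.single l 1 := hl
          rw [Pi.smul_apply, smul_eq_mul, h3, Pi.single_eq_same, mul_one]
        · intro i hi hil
          have h3 : g i = Pi.single i 1 := (Finset.mem_filter.1 hi).2
          rw [Pi.smul_apply, smul_eq_mul, h3, Pi.single_eq_of_ne (Ne.symm hil), mul_zero]
        · intro h4
          exact absurd (Finset.mem_filter.2 ⟨(hmemJf l).2 (hZJ hl), hl⟩) h4
      · have h5 : w l = 0 := by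
          by_cases hlJ : l ∈ J
          · exact hwI l ((hmemIf l).2 ⟨hlJ, hl⟩)
          · exact hwC l ((hmemC l).2 hlJ)
        rw [h5]
        symm
        refine Finset.sum_eq_zero fun i hi => ?_
        have h3 : g i = Pi.single i 1 := (Finset.mem_filter.1 hi).2
        have hil : l ≠ i := by
          rintro rfl
          exact hl (Finset.mem_filter.1 hi).2
        rw [Pi.smul_apply, smul_eq_mul, h3, Pi.single_eq_of_ne hil, mul_zero]
    -- linear dependence
    have hrel : ∑ i ∈ Jf, (if i ∈ Z then -w i else v' i) • g i = 0 := by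
      have h6 : ∑ i ∈ Jf, (if i ∈ Z then -w i else v' i) • g i
          = ∑ i ∈ Jf.filter (fun i => i ∈ Z), (-w i) • g i + ∑ i ∈ If, v' i • g i := by
        rw [hIf, ← Finset.sum_filter_add_sum_filter_not Jf (fun i => i ∈ Z)]
        congr 1
        · refine Finset.sum_congr rfl fun i hi => ?_
          rw [if_pos (Finset.mem_filter.1 hi).2]
        · refine Finset.sum_congr rfl fun i hi => ?_
          rw [if_neg (Finset.mem_filter.1 hi).2]
      rw [h6, ← hw]
      simp only [neg_smul, Finset.sum_neg_distrib]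
      rw [← hwZ, neg_add_cancel]
    have hJind : LinearIndepOn F g (Jf : Set (Fin n)) := by
      have h2 : (Jf : Set (Fin n)) = J := by
        ext i
        rw [Finset.mem_coe, hmemJf]
      rw [h2]
      exact hJ
    rw [linearIndepOn_finset_iff] at hJind
    have h7 := hJind _ hrel
    apply hv0
    funext a
    have h8 := h7 a.1 (Finset.mem_filter.1 a.2).1
    rw [if_neg ((hmemIf _).1 a.2).2, hv'] at h8
    exact h8
  -- the subfield
  set T := Finset.univ.filter fun e : Fin n × Fin n => e.1 < e.2 with hT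
  set TC := Finset.univ.filter fun e : Fin n × Fin n => e.1 < e.2 ∧ e.1 ∈ C ∧ e.2 ∈ C with hTC
  let Q : Fin n × Fin n → F := fun e => q e.1 e.2
  set S : Set F := ((T \ TC).image Q : Finset F) ∪ (If.image fun a => g a a : Finset F) with hS
  have hqS : ∀ a b, a ≠ b → ¬ (a ∈ C ∧ b ∈ C) → q a b ∈ Subfield.closure S := by
    intro a b hab hnc
    apply Subfield.subset_closure
    left
    rcases lt_or_gt_of_ne hab with h | h
    · refine Finset.mem_coe.2 (Finset.mem_image.2 ⟨(a, b), ?_, rfl⟩)
      simp only [Finset.mem_sdiff, hT, hTC, Finset.mem_filter, Finset.mem_univ, true_and]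
      exact ⟨h, fun h' => hnc h'.2⟩
    · rw [hsym]
      refine Finset.mem_coe.2 (Finset.mem_image.2 ⟨(b, a), ?_, rfl⟩)
      simp only [Finset.mem_sdiff, hT, hTC, Finset.mem_filter, Finset.mem_univ, true_and]
      exact ⟨h, fun h' => hnc ⟨h'.2.2, h'.2.1⟩⟩
  have hIC : ∀ i ∈ If, i ∉ C := fun i hi hiC => (hmemC i).1 hiC ((hmemIf i).1 hi).1
  have hPL : ∀ a b : If, P a b ∈ Subfield.closure S := by
    intro a b
    show g a.1 b.1 ∈ Subfield.closure S
    by_cases hab : b.1 = a.1
    · rw [hab]
      apply Subfield.subset_closure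
      right
      exact Finset.mem_coe.2 (Finset.mem_image.2 ⟨a.1, a.2, rfl⟩)
    · rw [hgq a.1 ((hmemIf _).1 a.2).2 b.1 hab]
      exact hqS _ _ (Ne.symm hab) fun h => hIC _ a.2 h.1
  have hcL : ∀ j ∈ C, ∀ i ∈ If, c j i ∈ Subfield.closure S := by
    intro j hj i hi
    refine coeff_mem (Subfield.closure S) P hdet hPL (fun a => c j a.1) ?_ ⟨i, hi⟩
    intro b
    have h1 := heval j b.1 ((hmemIf _).1 b.2).2
    rw [← Finset.sum_coe_sort] at h1
    have h2 : ∑ a : If, c j a.1 * P a b = g j b.1 := h1.symm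
    rw [h2]
    have hne : b.1 ≠ j := fun h => hIC _ b.2 (h ▸ hj)
    rw [hgq j (hCZ j hj) b.1 hne]
    exact hqS _ _ (Ne.symm hne) fun h => hIC _ b.2 h.2
  have hall : ∀ a b, a ≠ b → q a b ∈ Subfield.closure S := by
    intro a b hab
    by_cases hnc : a ∈ C ∧ b ∈ C
    · rw [← hgq a (hCZ a hnc.1) b (Ne.symm hab), heval a b (hCZ b hnc.2)]
      refine Subfield.sum_mem _ fun i hi => ?_
      refine Subfield.mul_mem _ (hcL a hnc.1 i hi) ?_
      have hne : b ≠ i := fun h => hIC i hi (h ▸ hnc.2)
      rw [hgq i ((hmemIf i).1 hi).2 b hne]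
      exact hqS _ _ (Ne.symm hne) fun h => hIC i hi h.1
    · exact hqS a b hab hnc
  -- counting
  have hindS : AlgebraicIndepOn ℚ id ((T.image Q : Finset F) : Set F) := by
    have h1 := hind.to_subtype_range
    have h2 : ((T.image Q : Finset F) : Set F)
        = Set.range (fun e : {p : Fin n × Fin n // p.1 < p.2} => q e.1.1 e.1.2) := by
      ext y
      simp only [Finset.coe_image, Set.mem_image, Finset.mem_coe, Set.mem_range, Subtype.exists]
      constructor
      · rintro ⟨e, he, rfl⟩
        exact ⟨e, (Finset.mem_filter.1 he).2, rfl⟩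
      · rintro ⟨e, he, rfl⟩
        exact ⟨e, Finset.mem_filter.2 ⟨Finset.mem_univ _, he⟩, rfl⟩
    rw [h2]
    exact h1
  have hinj : Set.InjOn Q (T : Set (Fin n × Fin n)) := by
    intro e he f hf hef
    have h1 := hind.injective
    have h2 := @h1 ⟨e, (Finset.mem_filter.1 (Finset.mem_coe.1 he)).2⟩
      ⟨f, (Finset.mem_filter.1 (Finset.mem_coe.1 hf)).2⟩ hef
    exact congrArg Subtype.val h2
  have hle := encard_le_of_closure hindS (S := S) (by
    intro y hy
    obtain ⟨e, he, rfl⟩ := Finset.mem_image.1 (Finset.mem_coe.1 hy)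
    exact hall _ _ (Finset.mem_filter.1 he).2.ne)
  have hcardT : (T.image Q).card = T.card := Finset.card_image_of_injOn hinj
  have hle2 : T.card ≤ (T \ TC).card + If.card := by
    have h1 : S.encard ≤ ((T \ TC).card + If.card : ℕ) := by
      rw [hS, ← Finset.coe_union, Set.encard_coe_eq_coe_finsetCard]
      have h2 : ((T \ TC).image Q ∪ If.image fun a => g a a).card ≤ (T \ TC).card + If.card :=
        (Finset.card_union_le _ _).trans
          (Nat.add_le_add Finset.card_image_le Finset.card_image_le)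
      exact_mod_cast h2
    have h3 := hle.trans h1
    rw [Set.encard_coe_eq_coe_finsetCard, hcardT] at h3
    exact_mod_cast h3
  have hTCT : TC ⊆ T := by
    intro e he
    exact Finset.mem_filter.2 ⟨Finset.mem_univ _, (Finset.mem_filter.1 he).2.1⟩
  have hsd : (T \ TC).card + TC.card = T.card := Finset.card_sdiff_add_card_eq_card hTCT
  have hpairs := card_pairs C
  rw [← hTC] at hpairs
  have hJcard : Jf.card ≤ Module.finrank F G := by
    have h1 : LinearIndependent F (fun i : Jf => (⟨g i.1, hgG i.1⟩ : G)) := by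
      have h2 : LinearIndepOn F g (Jf : Set (Fin n)) := by
        have h3 : (Jf : Set (Fin n)) = J := by
          ext i
          rw [Finset.mem_coe, hmemJf]
        rw [h3]
        exact hJ
      exact LinearIndependent.of_comp G.subtype h2
    have h4 := h1.fintype_card_le_finrank
    rwa [Fintype.card_coe] at h4
  have hIJ : If.card ≤ Jf.card := Finset.card_filter_le _ _
  have hCJ : C.card + Jf.card = n := by
    have h1 := Finset.card_filter_add_card_filter_not (s := (Finset.univ : Finset (Fin n)))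
      (fun i => i ∈ J)
    rw [Finset.card_univ, Fintype.card_fin] at h1
    rw [hC, hJf]
    omega
  have hM : n - Module.finrank F G ≤ C.card := by omega
  have hfin : C.card * (C.card + 1) ≤ 2 * n := by
    have h1 : 2 * TC.card ≤ 2 * If.card := by omega
    have h2 : C.card ≤ C.card * C.card := Nat.le_mul_self _
    have h3 : C.card * (C.card + 1) = C.card * C.card + C.card := by ring
    omega
  exact (Nat.mul_le_mul hM (Nat.add_le_add_right hM 1)).trans hfin

end Pentad
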