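import Pool.Agent.H.MP_b77b2b_ag.Inst
import Pool.Agent.H.MP_b77b2b_ag.Sym2

/-!
# MP_b77b2b_ag, Not: generic quadratic tensors have large border rank
-/

set_option autoImplicit false

namespace Pentad

open IsLocalRing MvPolynomial

/-- The pairs of factors. -/
abbrev Pr (n : ℕ) : Type := {p : Fin n × Fin n // p.1 < p.2}

/-- The tensor of a quadratic form with free diagonal, plus `r` pure tensors supported in the last
two factors. -/
def TT {n : ℕ} (r : ℕ) (Q : Pr n → ℂ) (w : Fin (n + 2) → Fin (r + 2)) : ℂ :=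
  (∑ e : Pr n, if w = wd {e.1.1, e.1.2} 0 0 then Q e else 0)
    + ∑ t : Fin r, if w = wd ∅ (lt t) (lt t) then 1 else 0

/-- The symmetric matrix of the entries. -/
def QQ {n : ℕ} (Q : Pr n → ℂ) (a b : Fin n) : ℂ :=
  if h : a < b then Q ⟨(a, b), h⟩ else if h : b < a then Q ⟨(b, a), h⟩ else 0

theorem QQ_symm {n : ℕ} (Q : Pr n → ℂ) (a b : Fin n) : QQ Q a b = QQ Q b a := by
  unfold QQ
  by_cases h : a < b
  · rw [dif_pos h, dif_neg h.not_gt, dif_pos h]
  · by_cases h' : b < a
    · rw [dif_neg h, dif_pos h', dif_pos h']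
    · rw [dif_neg h, dif_neg h', dif_neg h', dif_neg h]

theorem wd_inj {n r : ℕ} {S S' : Finset (Fin n)} {c c' d d' : Fin (r + 2)}
    (h : wd S c c' = wd S' d d') : S = S' ∧ c = d ∧ c' = d' := by
  have h1 : c' = d' := by
    have := congrFun h (Fin.last (n + 1))
    unfold wd at this
    simpa only [Fin.snoc_last] using this
  have h2 : c = d := by
    have := congrFun h (Fin.last n).castSucc
    unfold wd at this
    simpa only [Fin.snoc_castSucc, Fin.snoc_last] using this
  refine ⟨?_, h2, h1⟩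
  ext i
  have h3 := congrFun h i.castSucc.castSucc
  unfold wd at h3
  simp only [Fin.snoc_castSucc] at h3
  by_cases hi : i ∈ S
  · by_cases hi' : i ∈ S'
    · exact ⟨fun _ => hi', fun _ => hi⟩
    · rw [if_pos hi, if_neg hi'] at h3
      exact absurd h3 (by simp)
  · by_cases hi' : i ∈ S'
    · rw [if_neg hi, if_pos hi'] at h3
      exact absurd h3 (by simp)
    · exact ⟨fun h => absurd h hi, fun h => absurd h hi'⟩

theorem wd_eq_iff {n r : ℕ} {S S' : Finset (Fin n)} {c c' d d' : Fin (r + 2)} :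
    wd S c c' = wd S' d d' ↔ S = S' ∧ c = d ∧ c' = d' :=
  ⟨wd_inj, by rintro ⟨rfl, rfl, rfl⟩; rfl⟩

theorem lt_ne {r : ℕ} (t : Fin r) : lt t ≠ 0 := Fin.succ_ne_zero _

theorem lt_inj {r : ℕ} {t t' : Fin r} (h : lt t = lt t') : t = t' :=
  Fin.castSucc_injective _ (Fin.succ_injective _ h)

theorem TT_pair {n r : ℕ} (Q : Pr n → ℂ) {a b : Fin n} (h : a ≠ b) :
    TT r Q (wd {a, b} 0 0) = QQ Q a b := by
  classical
  unfold TT
  have h2 : ∑ t : Fin r, (if wd {a, b} 0 0 = wd ∅ (lt t) (lt t) then (1 : ℂ) else 0) = 0 := by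
    refine Finset.sum_eq_zero fun t _ => ?_
    rw [if_neg]
    intro h3
    exact lt_ne t (wd_inj h3).2.1.symm
  rw [h2, add_zero]
  have key : ∀ a b : Fin n, ∀ h : a < b,
      ∑ e : Pr n, (if wd {a, b} 0 0 = (wd {e.1.1, e.1.2} 0 0 : Fin (n + 2) → Fin (r + 2))
        then Q e else 0) = Q ⟨(a, b), h⟩ := by
    intro a b hab
    rw [Finset.sum_eq_single (⟨(a, b), hab⟩ : Pr n)]
    · rw [if_pos rfl]
    · rintro ⟨⟨c, d⟩, hcd⟩ - hne
      rw [if_neg]
      intro h3
      have h4 := (wd_inj h3).1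
      simp only at h4 hcd
      have hc : c ∈ ({a, b} : Finset (Fin n)) := by rw [h4]; simp
      have hd : d ∈ ({a, b} : Finset (Fin n)) := by rw [h4]; simp
      simp only [Finset.mem_insert, Finset.mem_singleton] at hc hd
      apply hne
      rcases hc with rfl | rfl <;> rcases hd with rfl | rfl
      · exact absurd hcd (lt_irrefl _)
      · rfl
      · exact absurd hcd hab.not_gt
      · exact absurd hcd (lt_irrefl _)
    · intro h3
      exact absurd (Finset.mem_univ _) h3
  rcases lt_or_gt_of_ne h with h1 | h1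
  · rw [key a b h1]
    unfold QQ
    rw [dif_pos h1]
  · rw [Finset.pair_comm, key b a h1]
    unfold QQ
    rw [dif_neg h1.not_gt, dif_pos h1]

theorem TT_card {n r : ℕ} (Q : Pr n → ℂ) {S : Finset (Fin n)} (h : S.card ≠ 2) :
    TT r Q (wd S 0 0) = 0 := by
  classical
  unfold TT
  have h1 : ∑ t : Fin r, (if wd S 0 0 = wd ∅ (lt t) (lt t) then (1 : ℂ) else 0) = 0 := by
    refine Finset.sum_eq_zero fun t _ => ?_
    rw [if_neg]
    intro h3
    exact lt_ne t (wd_inj h3).2.1.symm
  have h2 : ∑ e : Pr n, (if wd S 0 0 = (wd {e.1.1, e.1.2} 0 0 : Fin (n + 2) → Fin (r + 2))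
        then Q e else 0) = 0 := by
    refine Finset.sum_eq_zero fun e _ => ?_
    rw [if_neg]
    intro h3
    apply h
    rw [(wd_inj h3).1, Finset.card_pair e.2.ne]
  rw [h1, h2, add_zero]

theorem TT_right {n r : ℕ} (Q : Pr n → ℂ) (S : Finset (Fin n)) (t : Fin r) :
    TT r Q (wd S 0 (lt t)) = 0 := by
  classical
  unfold TT
  have h1 : ∑ t' : Fin r, (if wd S 0 (lt t) = wd ∅ (lt t') (lt t') then (1 : ℂ) else 0) = 0 := by
    refine Finset.sum_eq_zero fun t' _ => ?_
    rw [if_neg]
    intro h3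
    exact lt_ne t' (wd_inj h3).2.1.symm
  have h2 : ∑ e : Pr n, (if wd S 0 (lt t) = (wd {e.1.1, e.1.2} 0 0 : Fin (n + 2) → Fin (r + 2))
        then Q e else 0) = 0 := by
    refine Finset.sum_eq_zero fun e _ => ?_
    rw [if_neg]
    intro h3
    exact lt_ne t (wd_inj h3).2.2
  rw [h1, h2, add_zero]

theorem TT_unit {n r : ℕ} (Q : Pr n → ℂ) (t t' : Fin r) :
    TT r Q (wd ∅ (lt t) (lt t')) = if t = t' then 1 else 0 := by
  classical
  unfold TT
  have h2 : ∑ e : Pr n, (if wd ∅ (lt t) (lt t') =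
      (wd {e.1.1, e.1.2} 0 0 : Fin (n + 2) → Fin (r + 2)) then Q e else 0) = 0 := by
    refine Finset.sum_eq_zero fun e _ => ?_
    rw [if_neg]
    intro h3
    exact lt_ne t (wd_inj h3).2.1
  rw [h2, zero_add]
  by_cases h : t = t'
  · subst h
    rw [if_pos rfl, Finset.sum_eq_single t]
    · rw [if_pos rfl]
    · intro t'' _ hne
      rw [if_neg]
      intro h3
      exact hne (lt_inj (wd_inj h3).2.1).symm
    · intro h3
      exact absurd (Finset.mem_univ _) h3
  · rw [if_neg h]
    refine Finset.sum_eq_zero fun t'' _ => ?_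
    rw [if_neg]
    intro h3
    have h4 := wd_inj h3
    exact h ((lt_inj h4.2.1).trans (lt_inj h4.2.2).symm)

/-- Generic quadratic tensors are not in the secant variety. -/
theorem not_mem {k n r : ℕ} (hk : k + 3 ≤ n + r) (hcount : 2 * n < (n + r + 2 - k) * (n + r + 3 - k))
    (Q : Pr n → ℂ) (hind : AlgebraicIndependent ℚ Q) :
    ∃ p : MvPolynomial (Fin (n + 2) → Fin (r + 2)) ℂ,
      (∀ v : Fin k → Fin (n + 2) → Fin (r + 2) → ℂ,
        eval (fun w => ∑ j, ∏ i, v j i (w i)) p = 0) ∧ eval (TT r Q) p ≠ 0 := by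
  by_contra hcon
  push Not at hcon
  obtain ⟨K, _, B, φ, v, hv, hall⟩ := exists_valued (TT r Q) hcon
  have : CharZero (ResidueField B) := charZero_of_injective_ringHom φ.injective
  have hQ0 : ∀ i j, i ≠ j → QQ Q i j ≠ 0 := by
    intro i j hij
    unfold QQ
    rcases lt_or_gt_of_ne hij with h1 | h1
    · rw [dif_pos h1]
      exact hind.ne_zero _
    · rw [dif_neg h1.not_gt, dif_pos h1]
      exact hind.ne_zero _
  have H : Vals B v (fun a b => φ (QQ Q a b)) :=
    { mem := fun w => (hall w).1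
      quad := fun a b hab => by
        rw [← TT_pair Q hab]
        exact (hall _).2
      ne := fun a b hab => (map_ne_zero φ).2 (hQ0 a b hab)
      zero := fun S hS => by
        rw [← map_zero φ, ← TT_card (r := r) Q hS]
        exact (hall _).2
      right := fun S t => by
        rw [← map_zero φ, ← TT_right Q S t]
        exact (hall _).2
      unit := fun t t' => by
        have h1 : (if t = t' then (1 : ResidueField B) else 0) = φ (if t = t' then 1 else 0) := by
          split_ifs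
          · rw [map_one]
          · rw [map_zero]
        rw [h1, ← TT_unit Q t t']
        exact (hall _).2 }
  obtain ⟨G, hG, hGi⟩ := inst v hv H hk
  have hind' : AlgebraicIndependent ℚ
      (fun e : {p : Fin n × Fin n // p.1 < p.2} => φ (QQ Q e.1.1 e.1.2)) := by
    have h1 : (fun e : {p : Fin n × Fin n // p.1 < p.2} => φ (QQ Q e.1.1 e.1.2))
        = fun e => φ (Q e) := by
      funext e
      unfold QQ
      rw [dif_pos e.2]
    rw [h1]
    exact hind.map' (f := φ.toRatAlgHom) φ.injective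
  have h1 := count (fun i j => φ (QQ Q i j)) (fun i j => by rw [QQ_symm]) hind' G hGi
  have h2 : n + r + 2 - k ≤ n - Module.finrank (ResidueField B) G := by omega
  have h3 : n + r + 3 - k ≤ n - Module.finrank (ResidueField B) G + 1 := by omega
  exact absurd ((Nat.mul_le_mul h2 h3).trans h1) (not_le.2 hcount)

end Pentad
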