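import Mathlib

/-!
# MP_b77b2b_ag, Sym: the number of algebraically independent off-diagonal entries
-/

set_option autoImplicit false

namespace Pentad

open Algebra

section matroid

variable {F : Type} [Field F] [Algebra ℚ F]

theorem isAlgebraic_of_mem_closure {S : Set F} {y : F} (hy : y ∈ Subfield.closure S) :
    IsAlgebraic (adjoin ℚ S) y := by
  induction hy using Subfield.closure_induction with
  | mem x hx => exact isAlgebraic_algebraMap (⟨x, subset_adjoin hx⟩ : adjoin ℚ S)
  | one => exact isAlgebraic_one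
  | add x y _ _ hx hy => exact hx.add hy
  | neg x _ hx => exact hx.neg
  | inv x _ hx => exact hx.inv
  | mul x y _ _ hx hy => exact hx.mul hy

theorem encard_le_of_closure {I S : Set F} (hI : AlgebraicIndepOn ℚ id I)
    (h : ∀ y ∈ I, y ∈ Subfield.closure S) : I.encard ≤ S.encard := by
  have h1 : (AlgebraicIndependent.matroid ℚ F).Indep I :=
    AlgebraicIndependent.matroid_indep_iff.2 hI
  rw [← h1.eRk_eq_encard]
  refine le_trans ?_ ((AlgebraicIndependent.matroid ℚ F).eRk_le_encard S)
  rw [← Matroid.eRk_closure_eq _ S]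
  refine (AlgebraicIndependent.matroid ℚ F).eRk_mono ?_
  intro y hy
  rw [AlgebraicIndependent.matroid_closure_eq]
  exact isAlgebraic_of_mem_closure (h y hy)

end matroid

theorem card_pairs {n : ℕ} (C : Finset (Fin n)) :
    2 * (Finset.univ.filter fun e : Fin n × Fin n => e.1 < e.2 ∧ e.1 ∈ C ∧ e.2 ∈ C).card
      = C.card * C.card - C.card := by
  classical
  rw [← Finset.offDiag_card]
  set E := Finset.univ.filter fun e : Fin n × Fin n => e.1 < e.2 ∧ e.1 ∈ C ∧ e.2 ∈ C with hE
  have h1 : C.offDiag = E ∪ E.image Prod.swap := by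
    ext ⟨i, j⟩
    simp only [Finset.mem_offDiag, hE, Finset.mem_union, Finset.mem_filter, Finset.mem_univ,
      true_and, Finset.mem_image, Prod.exists, Prod.swap_prod_mk, Prod.mk.injEq]
    constructor
    · rintro ⟨hi, hj, hij⟩
      rcases lt_or_gt_of_ne hij with h | h
      · exact Or.inl ⟨h, hi, hj⟩
      · exact Or.inr ⟨j, i, ⟨h, hj, hi⟩, rfl, rfl⟩
    · rintro (⟨h, hi, hj⟩ | ⟨a, b, ⟨h, ha, hb⟩, rfl, rfl⟩)
      · exact ⟨hi, hj, h.ne⟩
      · exact ⟨hb, ha, h.ne'⟩
  have h2 : Disjoint E (E.image Prod.swap) := by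
    rw [Finset.disjoint_left]
    rintro ⟨i, j⟩ h3 h4
    simp only [hE, Finset.mem_filter, Finset.mem_univ, true_and, Finset.mem_image, Prod.exists,
      Prod.swap_prod_mk, Prod.mk.injEq] at h3 h4
    obtain ⟨a, b, ⟨h5, -, -⟩, rfl, rfl⟩ := h4
    exact absurd h3.1 (not_lt.2 h5.le)
  rw [h1, Finset.card_union_of_disjoint h2, Finset.card_image_of_injective _ Prod.swap_injective]
  ring

end Pentad
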