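import Pool.Agent.H.MP_b77b2b_ag.Jac
import Pool.Agent.H.MP_b77b2b_ag.Sym
import Pool.Agent.H.MP_b77b2b_ag.Not

/-!
# MP_b77b2b_ag, Dom: symmetric matrices of bounded rank, with some off-diagonal entries free
-/

set_option autoImplicit false

namespace Pentad

open MvPolynomial

theorem card_Pr (D : ℕ) : 2 * Fintype.card (Pr D) = D * D - D := by
  have h1 := card_pairs (Finset.univ : Finset (Fin D))
  simp only [Finset.mem_univ, and_true, Finset.card_univ, Fintype.card_fin] at h1
  rw [← h1, Fintype.card_subtype]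

/-- An equivalence extending an injective map. -/
theorem exists_extend {n D : ℕ} {R : Type} [Fintype R] (i : Fin D ↪ Fin n)
    (h : n = Fintype.card R + D) : ∃ e : Fin n ≃ Fin D ⊕ R, ∀ a, e (i a) = Sum.inl a := by
  classical
  have h1 : Fintype.card ↥((Set.range i)ᶜ : Set (Fin n)) = Fintype.card R := by
    rw [Fintype.card_compl_set, Set.card_range_of_injective i.injective, Fintype.card_fin,
      Fintype.card_fin]
    omega
  let e1 := Fintype.equivOfCardEq h1
  refine ⟨(Equiv.Set.sumCompl (Set.range i)).symm.trans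
    (Equiv.sumCongr (Equiv.ofInjective i i.injective).symm e1), fun a => ?_⟩
  rw [Equiv.trans_apply, Equiv.Set.sumCompl_symm_apply_of_mem (Set.mem_range_self a)]
  simp only [Equiv.sumCongr_apply, Sum.map_inl]
  congr 1
  exact Equiv.ofInjective_symm_apply i.injective a

/-- The matrix with the kernel given by the squares. -/
theorem exists_X0 {n ρ D c : ℕ} (hn : n = ρ + D) (hρ : 2 * (ρ + c) = D * D - D)
    (ι : Fin D ↪ Fin n) (F : Finset (Pr D)) (hF : F.card = c) :
    ∃ X0 : Fin n → Fin ρ → ℂ, ∀ c : Fin n → Fin n → ℂ,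
      (∀ i j, c i j = c j i) → (∀ i, c i i = 0) → (∀ p ∈ F, c (ι p.1.1) (ι p.1.2) = 0) →
      (∀ i l, ∑ j, c i j * X0 j l = 0) → ∀ i j, c i j = 0 := by
  classical
  let R := {p : Pr D // p ∉ F}
  have hcardR : Fintype.card R = ρ := by
    have h1 : Fintype.card R = Fintype.card (Pr D) - F.card := by
      have h2 := Fintype.card_subtype_compl (fun p : Pr D => p ∈ F)
      rw [Fintype.card_coe] at h2
      exact h2
    have h3 := card_Pr D
    omega
  have e2 : Fin ρ ≃ R := (Fintype.equivFinOfCardEq hcardR).symm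
  obtain ⟨e1, he1⟩ := exists_extend (R := R) ι (by rw [hcardR]; exact hn)
  let Y : Fin D ⊕ R → R → ℂ := fun x p => match x with
    | Sum.inl a => -(if a = p.1.1.1 then 1 else 0) - (if a = p.1.1.2 then 1 else 0)
    | Sum.inr p' => if p' = p then 1 else 0
  refine ⟨fun j l => Y (e1 j) (e2 l), ?_⟩
  intro c hsym hdiag h0 hc
  set c' : Fin D ⊕ R → Fin D ⊕ R → ℂ := fun x x' => c (e1.symm x) (e1.symm x') with hc'
  have hsym' : ∀ x x', c' x x' = c' x' x := fun x x' => hsym _ _
  have hdiag' : ∀ x, c' x x = 0 := fun x => hdiag _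
  have h0' : ∀ p ∈ F, c' (Sum.inl p.1.1) (Sum.inl p.1.2) = 0 := by
    intro p hp
    rw [hc', ← he1 p.1.1, ← he1 p.1.2]
    simp only [Equiv.symm_apply_apply]
    exact h0 p hp
  have hrel : ∀ x (p : R), c' x (Sum.inr p)
      = c' x (Sum.inl p.1.1.1) + c' x (Sum.inl p.1.1.2) := by
    intro x p
    have h1 := hc (e1.symm x) (e2.symm p)
    simp only [Equiv.apply_symm_apply] at h1
    rw [← e1.symm.sum_comp] at h1
    simp only [Equiv.apply_symm_apply] at h1
    rw [Fintype.sum_sum_type] at h1
    have h2 : ∑ a : Fin D, c (e1.symm x) (e1.symm (Sum.inl a)) * Y (Sum.inl a) p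
        = -c' x (Sum.inl p.1.1.1) - c' x (Sum.inl p.1.1.2) := by
      have h3 : ∀ a : Fin D, c (e1.symm x) (e1.symm (Sum.inl a)) * Y (Sum.inl a) p
          = -(if a = p.1.1.1 then c' x (Sum.inl a) else 0)
            - (if a = p.1.1.2 then c' x (Sum.inl a) else 0) := by
        intro a
        show c' x (Sum.inl a) * (-(if a = p.1.1.1 then 1 else 0) - (if a = p.1.1.2 then 1 else 0))
          = _
        split_ifs <;> ring
      rw [Finset.sum_congr rfl fun a _ => h3 a, Finset.sum_sub_distrib, Finset.sum_neg_distrib,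
        Finset.sum_ite_eq' Finset.univ, Finset.sum_ite_eq' Finset.univ,
        if_pos (Finset.mem_univ _), if_pos (Finset.mem_univ _)]
    have h4 : ∑ p' : R, c (e1.symm x) (e1.symm (Sum.inr p')) * Y (Sum.inr p') p
        = c' x (Sum.inr p) := by
      have h5 : ∀ p' : R, c (e1.symm x) (e1.symm (Sum.inr p')) * Y (Sum.inr p') p
          = if p' = p then c' x (Sum.inr p') else 0 := by
        intro p'
        show c' x (Sum.inr p') * (if p' = p then 1 else 0) = _
        split_ifs <;> ring
      rw [Finset.sum_congr rfl fun p' _ => h5 p', Finset.sum_ite_eq' Finset.univ,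
        if_pos (Finset.mem_univ _)]
    rw [h2, h4] at h1
    linear_combination h1
  have hlt : ∀ p : R, c' (Sum.inl p.1.1.1) (Sum.inl p.1.1.2) = 0 := by
    intro p
    have h1 := hrel (Sum.inr p) p
    rw [hdiag', hsym' (Sum.inr p), hsym' (Sum.inr p), hrel, hrel, hdiag', hdiag',
      hsym' (Sum.inl p.1.1.2) (Sum.inl p.1.1.1)] at h1
    linear_combination -h1 / 2
  have hll : ∀ a b : Fin D, a < b → c' (Sum.inl a) (Sum.inl b) = 0 := by
    intro a b hab
    by_cases hp : (⟨(a, b), hab⟩ : Pr D) ∈ F
    · exact h0' _ hp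
    · exact hlt ⟨⟨(a, b), hab⟩, hp⟩
  have hll' : ∀ a b : Fin D, c' (Sum.inl a) (Sum.inl b) = 0 := by
    intro a b
    rcases lt_trichotomy a b with h | h | h
    · exact hll a b h
    · rw [h, hdiag']
    · rw [hsym']
      exact hll b a h
  have hlr : ∀ (a : Fin D) (p : R), c' (Sum.inl a) (Sum.inr p) = 0 := by
    intro a p
    rw [hrel, hll', hll', add_zero]
  have hall : ∀ x x', c' x x' = 0 := by
    intro x x'
    rcases x with a | p <;> rcases x' with b | p'
    · exact hll' a b
    · exact hlr a p'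
    · rw [hsym']
      exact hlr b p
    · rw [hrel, hsym', hsym' (Sum.inr p), hlr, hlr, add_zero]
  intro i j
  have h1 := hall (e1 i) (e1 j)
  rw [hc'] at h1
  simpa only [Equiv.symm_apply_apply] using h1

theorem eval_aeval {σ τ : Type} (f : σ → MvPolynomial τ ℂ) (z : τ → ℂ) (G : MvPolynomial σ ℂ) :
    eval z (aeval f G) = eval (fun e => eval z (f e)) G := by
  have h : (eval z).comp (aeval f : MvPolynomial σ ℂ →ₐ[ℂ] MvPolynomial τ ℂ).toRingHom
      = eval (fun e => eval z (f e)) := by
    apply MvPolynomial.ringHom_ext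
    · intro r
      simp
    · intro i
      simp
  exact RingHom.congr_fun h G

theorem sum_Pr {n : ℕ} (F : Fin n × Fin n → ℂ) (hF : ∀ p, ¬ p.1 < p.2 → F p = 0) :
    ∑ e : Pr n, F e.1 = ∑ a, ∑ b, F (a, b) := by
  classical
  rw [← Fintype.sum_prod_type', ← Finset.sum_subtype
    (Finset.univ.filter fun p : Fin n × Fin n => p.1 < p.2) (by simp) F]
  refine Finset.sum_subset (Finset.filter_subset _ _) fun p _ hp => hF p fun h => ?_
  exact hp (Finset.mem_filter.2 ⟨Finset.mem_univ _, h⟩)

theorem sum_fst {n : ℕ} (i : Fin n) (g : Pr n → ℂ) :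
    ∑ j, (if h : i < j then g ⟨(i, j), h⟩ else 0) = ∑ e : Pr n, if e.1.1 = i then g e else 0 := by
  classical
  let F : Fin n × Fin n → ℂ := fun p =>
    if h : p.1 < p.2 then (if p.1 = i then g ⟨p, h⟩ else 0) else 0
  have h1 := sum_Pr F fun p hp => dif_neg hp
  have h2 : ∑ e : Pr n, F e.1 = ∑ e : Pr n, if e.1.1 = i then g e else 0 :=
    Finset.sum_congr rfl fun e _ => dif_pos e.2
  rw [← h2, h1]
  symm
  rw [Finset.sum_eq_single i]
  · refine Finset.sum_congr rfl fun j _ => ?_
    by_cases h : i < j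
    · simp only [F, dif_pos h, if_true]
    · simp only [F, dif_neg h]
  · intro a _ ha
    refine Finset.sum_eq_zero fun b _ => ?_
    by_cases h : a < b
    · simp only [F, dif_pos h, if_neg ha]
    · simp only [F, dif_neg h]
  · intro h3
    exact absurd (Finset.mem_univ _) h3

theorem sum_snd {n : ℕ} (i : Fin n) (g : Pr n → ℂ) :
    ∑ j, (if h : j < i then g ⟨(j, i), h⟩ else 0) = ∑ e : Pr n, if e.1.2 = i then g e else 0 := by
  classical
  let F : Fin n × Fin n → ℂ := fun p =>
    if h : p.1 < p.2 then (if p.2 = i then g ⟨p, h⟩ else 0) else 0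
  have h1 := sum_Pr F fun p hp => dif_neg hp
  have h2 : ∑ e : Pr n, F e.1 = ∑ e : Pr n, if e.1.2 = i then g e else 0 :=
    Finset.sum_congr rfl fun e _ => dif_pos e.2
  rw [← h2, h1]
  refine Finset.sum_congr rfl fun j _ => ?_
  rw [Finset.sum_eq_single i]
  · by_cases h : j < i
    · simp only [F, dif_pos h, if_true]
    · simp only [F, dif_neg h]
  · intro a _ ha
    by_cases h : j < a
    · simp only [F, dif_pos h, if_neg ha]
    · simp only [F, dif_neg h]
  · intro h3
    exact absurd (Finset.mem_univ _) h3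

/-- The off-diagonal entries of a symmetric matrix of rank at most `ρ`, some of them changed. -/
def Qof {n ρ : ℕ} (E : Pr n → Prop) [DecidablePred E] (X : Fin n → Fin ρ → ℂ) (y : Pr n → ℂ)
    (e : Pr n) : ℂ :=
  (∑ l, X e.1.1 l * X e.1.2 l) + if E e then y e else 0

/-- Dominance. -/
theorem dom {n ρ D c : ℕ} (hn : n = ρ + D) (hρ : 2 * (ρ + c) = D * D - D)
    {β : Type} [DecidableEq β] (τ : Fin n → β) (ι : Fin D ↪ Fin n) (F : Finset (Pr D))
    (hF : F.card = c) (hτ : ∀ p ∈ F, τ (ι p.1.1) = τ (ι p.1.2)) (G : MvPolynomial (Pr n) ℂ)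
    (h : ∀ (X : Fin n → Fin ρ → ℂ) (y : Pr n → ℂ),
      eval (Qof (fun e => τ e.1.1 = τ e.1.2) X y) G = 0) : G = 0 := by
  classical
  let f : Pr n → MvPolynomial ((Fin n × Fin ρ) ⊕ Pr n) ℂ := fun e =>
    (∑ l, X (Sum.inl (e.1.1, l)) * X (Sum.inl (e.1.2, l)))
      + if τ e.1.1 = τ e.1.2 then X (Sum.inr e) else 0
  have hev : ∀ z : (Fin n × Fin ρ) ⊕ Pr n → ℂ, (fun e => eval z (f e))
      = Qof (fun e => τ e.1.1 = τ e.1.2) (fun i l => z (Sum.inl (i, l)))
        (fun e => z (Sum.inr e)) := by
    intro z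
    funext e
    unfold Qof
    show eval z ((∑ l, X (Sum.inl (e.1.1, l)) * X (Sum.inl (e.1.2, l)))
      + if τ e.1.1 = τ e.1.2 then X (Sum.inr e) else 0) = _
    rw [map_add, map_sum]
    congr 1
    · exact Finset.sum_congr rfl fun l _ => by rw [map_mul, eval_X, eval_X]
    · split_ifs
      · rw [eval_X]
      · rw [map_zero]
  have hG : aeval f G = 0 := by
    apply MvPolynomial.funext
    intro z
    rw [map_zero]
    rw [eval_aeval, hev]
    exact h _ _
  obtain ⟨X0, hX0⟩ := exists_X0 hn hρ ι F hF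
  set x0 : (Fin n × Fin ρ) ⊕ Pr n → ℂ := fun o => match o with
    | Sum.inl t => X0 t.1 t.2
    | Sum.inr _ => 0 with hx0
  refine jac f x0 ?_ G hG
  intro c hc
  -- the values at the free pairs
  have hc0 : ∀ e : Pr n, τ e.1.1 = τ e.1.2 → c e = 0 := by
    intro e he
    have h1 := hc (Sum.inr e)
    have h2 : ∀ e' : Pr n, pderiv (Sum.inr e) (f e')
        = if e' = e then 1 else 0 := by
      intro e'
      have h3 : pderiv (Sum.inr e) (∑ l : Fin ρ, X (R := ℂ)
          (Sum.inl (e'.1.1, l) : (Fin n × Fin ρ) ⊕ Pr n) * X (Sum.inl (e'.1.2, l))) = 0 := by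
        rw [map_sum]
        refine Finset.sum_eq_zero fun l _ => ?_
        rw [pderiv_mul, pderiv_X_of_ne (by simp), pderiv_X_of_ne (by simp)]
        ring
      show pderiv (Sum.inr e) ((∑ l, X (Sum.inl (e'.1.1, l)) * X (Sum.inl (e'.1.2, l)))
        + if τ e'.1.1 = τ e'.1.2 then X (Sum.inr e') else 0) = _
      rw [map_add, h3, zero_add]
      by_cases h4 : e' = e
      · subst h4
        rw [if_pos he, if_pos rfl, pderiv_X_self]
      · rw [if_neg h4]
        split_ifs
        · rw [pderiv_X_of_ne (by simpa using h4)]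
        · rw [map_zero]
    rw [Finset.sum_eq_single e] at h1
    · rw [h2, if_pos rfl, map_one, mul_one] at h1
      exact h1
    · intro e' _ he'
      rw [h2, if_neg he', map_zero, mul_zero]
    · intro h3
      exact absurd (Finset.mem_univ _) h3
  set c' : Fin n → Fin n → ℂ := QQ c with hc'
  have hzero : ∀ i j, c' i j = 0 := by
    refine hX0 c' (QQ_symm c) ?_ ?_ ?_
    · intro i
      rw [hc']
      unfold QQ
      rw [dif_neg (lt_irrefl _), dif_neg (lt_irrefl _)]
    · intro p hp
      rw [hc']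
      unfold QQ
      split_ifs with h1 h1
      · exact hc0 _ (hτ p hp)
      · exact hc0 _ (hτ p hp).symm
      · rfl
    · intro i l
      have h1 := hc (Sum.inl (i, l))
      have hx : ∀ i l, x0 (Sum.inl (i, l)) = X0 i l := fun _ _ => rfl
      have h2 : ∀ e : Pr n, c e * eval x0 (pderiv (Sum.inl (i, l)) (f e))
          = (if e.1.1 = i then c e * X0 e.1.2 l else 0)
            + (if e.1.2 = i then c e * X0 e.1.1 l else 0) := by
        intro e
        have h3 : pderiv (Sum.inl (i, l)) (f e)
            = (if e.1.1 = i then X (Sum.inl (e.1.2, l)) else 0)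
              + (if e.1.2 = i then X (Sum.inl (e.1.1, l)) else 0) := by
          have h5 : pderiv (Sum.inl (i, l) : (Fin n × Fin ρ) ⊕ Pr n)
              (if τ e.1.1 = τ e.1.2 then X (R := ℂ) (Sum.inr e) else 0) = 0 := by
            split_ifs
            · rw [pderiv_X_of_ne (by simp)]
            · rw [map_zero]
          show pderiv (Sum.inl (i, l)) ((∑ l, X (Sum.inl (e.1.1, l)) * X (Sum.inl (e.1.2, l)))
            + if τ e.1.1 = τ e.1.2 then X (Sum.inr e) else 0) = _
          rw [map_add, h5, add_zero, map_sum, Finset.sum_eq_single l]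
          · rw [pderiv_mul]
            congr 1
            · by_cases h4 : e.1.1 = i
              · rw [if_pos h4, h4, pderiv_X_self, one_mul]
              · rw [if_neg h4, pderiv_X_of_ne (by simp [h4]), zero_mul]
            · by_cases h4 : e.1.2 = i
              · rw [if_pos h4, h4, pderiv_X_self, mul_one]
              · rw [if_neg h4, pderiv_X_of_ne (by simp [h4]), mul_zero]
          · intro l' _ hl
            rw [pderiv_mul, pderiv_X_of_ne (by simp [hl]), pderiv_X_of_ne (by simp [hl])]
            ring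
          · intro h3
            exact absurd (Finset.mem_univ _) h3
        rw [h3, map_add]
        split_ifs <;> simp only [map_zero, eval_X, hx] <;> ring
      rw [Finset.sum_congr rfl fun e _ => h2 e, Finset.sum_add_distrib] at h1
      rw [← h1]
      -- the sum over j splits
      have h5 : ∀ j, c' i j * X0 j l
          = (if h : i < j then c ⟨(i, j), h⟩ * X0 j l else 0)
            + (if h : j < i then c ⟨(j, i), h⟩ * X0 j l else 0) := by
        intro j
        rw [hc']
        unfold QQ
        by_cases h6 : i < j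
        · rw [dif_pos h6, dif_pos h6, dif_neg h6.not_gt, add_zero]
        · by_cases h7 : j < i
          · rw [dif_neg h6, dif_pos h7, dif_neg h6, dif_pos h7, zero_add]
          · rw [dif_neg h6, dif_neg h7, dif_neg h6, dif_neg h7]
            ring
      rw [Finset.sum_congr rfl fun j _ => h5 j, Finset.sum_add_distrib]
      rw [← sum_fst i (fun e => c e * X0 e.1.2 l), ← sum_snd i (fun e => c e * X0 e.1.1 l)]
  funext e
  have h1 := hzero e.1.1 e.1.2
  rw [hc'] at h1
  unfold QQ at h1
  rw [dif_pos e.2] at h1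
  exact h1

/-- Many coinciding pairs inside a set of `D` elements. -/
theorem exists_pairs {n m c D : ℕ} (τ : Fin n → Fin m) (hm : m + c ≤ n) (hD : 2 * c ≤ D)
    (hDn : D ≤ n) : ∃ (ι : Fin D ↪ Fin n) (F : Finset (Pr D)), F.card = c ∧
      ∀ p ∈ F, τ (ι p.1.1) = τ (ι p.1.2) := by
  classical
  -- the elements with an earlier element of the same value
  have hnew : ∀ (N : ℕ) (t : Fin N → Fin m) (s : Finset (Fin m)), (∀ j, t j ∈ s) →
      N ≤ (Finset.univ.filter fun j : Fin N => ∃ i, i < j ∧ t i = t j).card + s.card := by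
    intro N t s hs
    have h1 : (Finset.univ.filter fun j : Fin N => ¬ ∃ i, i < j ∧ t i = t j).card ≤ s.card := by
      refine Finset.card_le_card_of_injOn t (fun j _ => hs j) ?_
      intro j hj j' hj' hjj
      simp only [Finset.coe_filter, Finset.mem_univ, true_and, Set.mem_setOf_eq, not_exists,
        not_and] at hj hj'
      rcases lt_trichotomy j j' with h | h | h
      · exact absurd hjj (hj' j h)
      · exact h
      · exact absurd hjj.symm (hj j' h)
    have h2 := Finset.card_filter_add_card_filter_not (s := (Finset.univ : Finset (Fin N)))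
      (p := fun j => ∃ i, i < j ∧ t i = t j)
    rw [Finset.card_univ, Fintype.card_fin] at h2
    omega
  have h1 := hnew n τ Finset.univ fun j => Finset.mem_univ _
  rw [Finset.card_univ, Fintype.card_fin] at h1
  obtain ⟨A, hA, hAc⟩ := Finset.exists_subset_card_eq
    (s := Finset.univ.filter fun j : Fin n => ∃ i, i < j ∧ τ i = τ j) (n := c) (by omega)
  -- first elements with a given value
  have hfirst : ∀ j : Fin n, ∃ i, τ i = τ j ∧ ¬ ∃ i', i' < i ∧ τ i' = τ i := by
    intro j
    obtain ⟨i, hi, hmin⟩ := (Finset.univ.filter fun i : Fin n => τ i = τ j).exists_minimal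
      ⟨j, by simp⟩
    refine ⟨i, by simpa using hi, ?_⟩
    rintro ⟨i', hi', hv⟩
    have h3 : τ i = τ j := by simpa using hi
    have h4 := hmin (show i' ∈ Finset.univ.filter fun i : Fin n => τ i = τ j by
      simp [hv, h3]) hi'.le
    exact absurd h4 (not_le.2 hi')
  choose s hs1 hs2 using hfirst
  have hB : (A ∪ A.image s).card ≤ D := by
    have h3 := Finset.card_union_le A (A.image s)
    have h4 : (A.image s).card ≤ A.card := Finset.card_image_le
    omega
  obtain ⟨Y, hY1, -, hY2⟩ := Finset.exists_subsuperset_card_eq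
    (Finset.subset_univ (A ∪ A.image s)) hB (by rw [Finset.card_univ, Fintype.card_fin]; exact hDn)
  let ι : Fin D ↪ Fin n := (Y.orderEmbOfFin hY2).toEmbedding
  have hι : ∀ a, ι a ∈ Y := fun a => Finset.orderEmbOfFin_mem Y hY2 a
  have h5 := hnew D (fun a => τ (ι a)) ((Y \ A).image τ) (by
    intro a
    by_cases ha : ι a ∈ A
    · refine Finset.mem_image.2 ⟨s (ι a), ?_, hs1 _⟩
      refine Finset.mem_sdiff.2 ⟨hY1 (Finset.mem_union_right _ (Finset.mem_image_of_mem _ ha)), ?_⟩
      intro h6
      have h7 := hA h6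
      simp only [Finset.mem_filter, Finset.mem_univ, true_and] at h7
      exact hs2 _ h7
    · exact Finset.mem_image_of_mem _ (Finset.mem_sdiff.2 ⟨hι a, ha⟩))
  have h6 : ((Y \ A).image τ).card ≤ D - c := by
    refine le_trans Finset.card_image_le ?_
    rw [Finset.card_sdiff_of_subset (fun a ha => hY1 (Finset.mem_union_left _ ha)), hY2, hAc]
  have h7 : c ≤ (Finset.univ.filter fun j : Fin D => ∃ i, i < j ∧ τ (ι i) = τ (ι j)).card := by
    omega
  have h8 : (Finset.univ.filter fun j : Fin D => ∃ i, i < j ∧ τ (ι i) = τ (ι j)).card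
      ≤ (Finset.univ.filter fun p : Pr D => τ (ι p.1.1) = τ (ι p.1.2)).card := by
    refine Finset.card_le_card_of_surjOn (fun p : Pr D => p.1.2) ?_
    intro j hj
    simp only [Finset.coe_filter, Finset.mem_univ, true_and, Set.mem_setOf_eq] at hj
    obtain ⟨i, hi, hv⟩ := hj
    exact ⟨⟨(i, j), hi⟩, by simpa using hv, rfl⟩
  obtain ⟨F, hF, hFc⟩ := Finset.exists_subset_card_eq (h7.trans h8)
  refine ⟨ι, F, hFc, fun p hp => ?_⟩
  have h9 := hF hp
  simpa using h9

end Pentad
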