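import Pool.Agent.H.MP_b77b2b_ag.Lin

/-!
# MP_b77b2b_ag, Val: from the secant variety to a valued field
-/

set_option autoImplicit false

namespace Pentad

open IsLocalRing MvPolynomial

section

variable (k N L : ℕ)

/-- The parametrisation of the secant variety. -/
noncomputable def par : MvPolynomial (Fin N → Fin L) ℂ →+*
    MvPolynomial (Fin k × Fin N × Fin L) ℂ :=
  (aeval fun w : Fin N → Fin L => ∑ j, ∏ i, X (j, i, w i) :
    MvPolynomial (Fin N → Fin L) ℂ →ₐ[ℂ] MvPolynomial (Fin k × Fin N × Fin L) ℂ).toRingHom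

theorem par_X (w : Fin N → Fin L) : par k N L (X w) = ∑ j, ∏ i, X (j, i, w i) := by
  unfold par
  exact aeval_X _ _

theorem par_C (c : ℂ) : par k N L (C c) = C c := by
  unfold par
  exact aeval_C _ _

theorem eval_par (p : MvPolynomial (Fin N → Fin L) ℂ) (v : Fin k → Fin N → Fin L → ℂ) :
    eval (fun t : Fin k × Fin N × Fin L => v t.1 t.2.1 t.2.2) (par k N L p)
      = eval (fun w => ∑ j, ∏ i, v j i (w i)) p := by
  have h1 : (eval (fun t : Fin k × Fin N × Fin L => v t.1 t.2.1 t.2.2)).comp (par k N L)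
      = eval (fun w => ∑ j, ∏ i, v j i (w i)) := by
    apply MvPolynomial.ringHom_ext
    · intro c
      rw [RingHom.comp_apply, par_C, eval_C, eval_C]
    · intro w
      rw [RingHom.comp_apply, par_X, eval_X, map_sum]
      refine Finset.sum_congr rfl fun j _ => ?_
      rw [map_prod]
      refine Finset.prod_congr rfl fun i _ => ?_
      rw [eval_X]
  exact RingHom.congr_fun h1 p

end

/-- A point of the secant variety gives a decomposition over a valued field. -/
theorem exists_valued {k N L : ℕ} (T : (Fin N → Fin L) → ℂ)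
    (hT : ∀ p : MvPolynomial (Fin N → Fin L) ℂ,
      (∀ v : Fin k → Fin N → Fin L → ℂ, eval (fun w => ∑ j, ∏ i, v j i (w i)) p = 0) →
        eval T p = 0) :
    ∃ (K : Type) (_ : Field K) (B : ValuationSubring K) (φ : ℂ →+* ResidueField B)
      (v : Fin k → Fin N → Fin L → K), (∀ j i c, v j i c ≠ 0) ∧
      ∀ w : Fin N → Fin L, (∑ j, ∏ i, v j i (w i)) ∈ B ∧
        res B (∑ j, ∏ i, v j i (w i)) = φ (T w) := by
  let P := MvPolynomial (Fin k × Fin N × Fin L) ℂ
  let K := FractionRing P
  let ψ : MvPolynomial (Fin N → Fin L) ℂ →+* K := (algebraMap P K).comp (par k N L)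
  have hψ0 : ∀ p, ψ p = 0 → eval T p = 0 := by
    intro p hp
    refine hT p fun v => ?_
    have h1 : par k N L p = 0 := by
      have h2 : algebraMap P K (par k N L p) = 0 := hp
      exact (map_eq_zero_iff _ (IsFractionRing.injective P K)).1 h2
    rw [← eval_par, h1, map_zero]
  let I : Ideal ψ.range := (RingHom.ker (eval T)).map ψ.rangeRestrict
  have hI : I ≠ ⊤ := by
    intro h0
    rw [Ideal.eq_top_iff_one] at h0
    obtain ⟨p, hp, hp1⟩ := (Ideal.mem_map_iff_of_surjective _ ψ.rangeRestrict_surjective).1 h0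
    have h1 : ψ p = 1 := congrArg Subtype.val hp1
    have h2 : ψ (p - 1) = 0 := by
      rw [map_sub, map_one, h1, sub_self]
    have h3 := hψ0 _ h2
    rw [map_sub, map_one, RingHom.mem_ker.1 hp, zero_sub] at h3
    exact one_ne_zero (neg_eq_zero.1 h3)
  obtain ⟨B, hAB, hIB⟩ := Ideal.image_subset_nonunits_valuationSubring I hI
  have hmem : ∀ p, ψ p ∈ B := fun p => hAB ⟨p, rfl⟩
  let ψB : MvPolynomial (Fin N → Fin L) ℂ →+* B :=
    { toFun := fun p => ⟨ψ p, hmem p⟩
      map_one' := Subtype.ext (map_one ψ)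
      map_mul' := fun p q => Subtype.ext (map_mul ψ p q)
      map_zero' := Subtype.ext (map_zero ψ)
      map_add' := fun p q => Subtype.ext (map_add ψ p q) }
  let φ : ℂ →+* ResidueField B := ((residue B).comp ψB).comp C
  have hres : ∀ p, res B (ψ p) = φ (eval T p) := by
    intro p
    have h1 : ψ (p - C (eval T p)) ∈ B.nonunits := by
      apply hIB
      refine ⟨ψ.rangeRestrict (p - C (eval T p)), ?_, rfl⟩
      refine Ideal.mem_map_of_mem _ ?_
      rw [RingHom.mem_ker, map_sub, eval_C, sub_self]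
    have h2 : residue B (ψB (p - C (eval T p))) = 0 := by
      rw [residue_eq_zero_iff]
      exact (ValuationSubring.coe_mem_nonunits_iff).1 h1
    rw [map_sub, map_sub, sub_eq_zero] at h2
    rw [res_of_mem (hmem p)]
    exact h2
  let v : Fin k → Fin N → Fin L → K := fun j i c => algebraMap P K (X (j, i, c))
  have hv : ∀ w : Fin N → Fin L, ∑ j, ∏ i, v j i (w i) = ψ (X w) := by
    intro w
    show _ = algebraMap P K (par k N L (X w))
    rw [par_X, map_sum]
    refine Finset.sum_congr rfl fun j _ => ?_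
    rw [map_prod]
  refine ⟨K, inferInstance, B, φ, v, fun j i c => ?_, fun w => ?_⟩
  · show algebraMap P K (X (j, i, c)) ≠ 0
    rw [Ne, map_eq_zero_iff _ (IsFractionRing.injective P K)]
    exact X_ne_zero _
  · rw [hv, hres, eval_X]
    exact ⟨hmem _, rfl⟩

/-- A matrix that reduces to the identity is invertible over the valuation ring. -/
theorem inv_mem {K : Type} [Field K] {B : ValuationSubring K} {r : ℕ}
    (Γ : Matrix (Fin r) (Fin r) K) (h : ∀ i j, Γ i j ∈ B)
    (h1 : ∀ i j, res B (Γ i j) = if i = j then 1 else 0) :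
    Γ.det ≠ 0 ∧ ∀ i j, Γ⁻¹ i j ∈ B := by
  let Γ' : Matrix (Fin r) (Fin r) B := fun i j => ⟨Γ i j, h i j⟩
  have hΓ : Γ = (algebraMap B K).mapMatrix Γ' := rfl
  have hr : (residue B).mapMatrix Γ' = 1 := by
    ext i j
    rw [RingHom.mapMatrix_apply, Matrix.map_apply, Matrix.one_apply, ← h1 i j, res_of_mem (h i j)]
  have hdet : IsUnit Γ'.det := by
    have h2 : residue B Γ'.det = 1 := by
      rw [RingHom.map_det, hr, Matrix.det_one]
    by_contra hcon
    have h3 := (residue_eq_zero_iff Γ'.det).2 ((mem_maximalIdeal _).2 hcon)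
    rw [h2] at h3
    exact one_ne_zero h3
  have hdetK : Γ.det = algebraMap B K Γ'.det := by
    rw [hΓ, ← RingHom.map_det]
  have hdet0 : Γ.det ≠ 0 := by
    rw [hdetK]
    exact (hdet.map (algebraMap B K)).ne_zero
  have hinv : Γ⁻¹ = (algebraMap B K).mapMatrix Γ'⁻¹ := by
    apply Matrix.inv_eq_right_inv
    rw [hΓ, ← map_mul, Matrix.mul_nonsing_inv _ hdet, map_one]
  refine ⟨hdet0, fun i j => ?_⟩
  rw [hinv]
  exact (Γ'⁻¹ i j).2

end Pentad
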