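import Pool.Agent.H.MP_b77b2b_ag.Core3
import Pool.Agent.H.MP_b77b2b_ag.Val

/-!
# MP_b77b2b_ag, Inst: the vectors coming from a decomposition with two extra factors
-/

set_option autoImplicit false

namespace Pentad

open IsLocalRing

/-- The letter of an extra summand. -/
def lt {r : ℕ} (t : Fin r) : Fin (r + 2) := t.castSucc.succ

/-- The word with ones at the positions of `S` and the letters `c`, `c'` at the last two
positions. -/
def wd {n r : ℕ} (S : Finset (Fin n)) (c c' : Fin (r + 2)) : Fin (n + 2) → Fin (r + 2) :=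
  Fin.snoc (α := fun _ => Fin (r + 2))
    (Fin.snoc (α := fun _ => Fin (r + 2)) (fun i => if i ∈ S then 1 else 0) c) c'

variable {K : Type} [Field K] {B : ValuationSubring K} {k n r : ℕ}

section

variable (v : Fin k → Fin (n + 2) → Fin (r + 2) → K)

/-- The weights. -/
def ss (j : Fin k) : K := ∏ i, v j i 0

/-- The normalised coordinates. -/
def xi (j : Fin k) (i : Fin (n + 2)) (c : Fin (r + 2)) : K := v j i c / v j i 0

/-- The monomial vectors. -/
def mon (S : Finset (Fin n)) (c c' : Fin (r + 2)) : Fin k → K := fun j =>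
  (∏ i ∈ S, xi v j i.castSucc.castSucc 1) * xi v j (Fin.last n).castSucc c
    * xi v j (Fin.last (n + 1)) c'

/-- The value at a word. -/
def vl (w : Fin (n + 2) → Fin (r + 2)) : K := ∑ j, ∏ i, v j i (w i)

/-- The bilinear form. -/
def bb (f g : Fin k → K) : K := ∑ j, ss v j * f j * g j

/-- The bilinear form as a functional of the first vector. -/
def bL (g : Fin k → K) : (Fin k → K) →ₗ[K] K where
  toFun f := bb v f g
  map_add' f h := by
    unfold bb
    rw [← Finset.sum_add_distrib]
    exact Finset.sum_congr rfl fun j _ => by rw [Pi.add_apply]; ring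
  map_smul' c f := by
    unfold bb
    rw [RingHom.id_apply, smul_eq_mul, Finset.mul_sum]
    exact Finset.sum_congr rfl fun j _ => by rw [Pi.smul_apply, smul_eq_mul]; ring

theorem bL_apply (g f : Fin k → K) : bL v g f = bb v f g := rfl

theorem bb_comm (f g : Fin k → K) : bb v f g = bb v g f :=
  Finset.sum_congr rfl fun j _ => by ring

theorem bb_mon (hv : ∀ j i c, v j i c ≠ 0) {S S' : Finset (Fin n)} (h : Disjoint S S')
    (c c' : Fin (r + 2)) : bb v (mon v S c 0) (mon v S' 0 c') = vl v (wd (S ∪ S') c c') := by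
  classical
  unfold bb vl
  refine Finset.sum_congr rfl fun j _ => ?_
  have hxi0 : ∀ i, xi v j i 0 = 1 := fun i => div_self (hv j i 0)
  have hxi : ∀ i c, v j i 0 * xi v j i c = v j i c := fun i c => mul_div_cancel₀ _ (hv j i 0)
  have h1 : (∏ i : Fin n, v j i.castSucc.castSucc 0) * ∏ i ∈ S ∪ S', xi v j i.castSucc.castSucc 1
      = ∏ i : Fin n, v j i.castSucc.castSucc (if i ∈ S ∪ S' then 1 else 0) := by
    have h2 : ∏ i ∈ S ∪ S', xi v j i.castSucc.castSucc 1
        = ∏ i : Fin n, if i ∈ S ∪ S' then xi v j i.castSucc.castSucc 1 else 1 := by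
      rw [Finset.prod_ite_mem, Finset.univ_inter]
    rw [h2, ← Finset.prod_mul_distrib]
    refine Finset.prod_congr rfl fun i _ => ?_
    by_cases hi : i ∈ S ∪ S'
    · rw [if_pos hi, if_pos hi, hxi]
    · rw [if_neg hi, if_neg hi, mul_one]
  rw [Finset.prod_union h] at h1
  have h3 : ∏ i, v j i (wd (S ∪ S') c c' i)
      = (∏ i : Fin n, v j i.castSucc.castSucc (if i ∈ S ∪ S' then 1 else 0))
        * v j (Fin.last n).castSucc c * v j (Fin.last (n + 1)) c' := by
    rw [Fin.prod_univ_castSucc, Fin.prod_univ_castSucc]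
    unfold wd
    simp only [Fin.snoc_castSucc, Fin.snoc_last]
  have h4 : ss v j = (∏ i : Fin n, v j i.castSucc.castSucc 0) * v j (Fin.last n).castSucc 0
      * v j (Fin.last (n + 1)) 0 := by
    unfold ss
    rw [Fin.prod_univ_castSucc, Fin.prod_univ_castSucc]
  rw [h3, ← h1, h4]
  unfold mon
  rw [hxi0, hxi0, ← hxi (Fin.last n).castSucc c, ← hxi (Fin.last (n + 1)) c']
  ring

/-- The extra row vectors. -/
def yt (t : Fin r) : Fin k → K := mon v ∅ (lt t) 0

/-- The extra column vectors. -/
def zt (t : Fin r) : Fin k → K := mon v ∅ 0 (lt t)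

/-- Pairing with the extra columns. -/
def Zm : (Fin k → K) →ₗ[K] (Fin r → K) := LinearMap.pi fun t => bL v (zt v t)

/-- The Gram matrix of the extra vectors. -/
def Gm : Matrix (Fin r) (Fin r) K := fun t t' => bb v (yt v t) (zt v t')

/-- Projection to the orthogonal complement of the extra columns. -/
noncomputable def prj (f : Fin k → K) : Fin k → K :=
  f - ∑ t, Matrix.vecMul (Zm v f) (Gm v)⁻¹ t • yt v t

theorem Zm_sum (c : Fin r → K) : Zm v (∑ t, c t • yt v t) = Matrix.vecMul c (Gm v) := by
  funext t'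
  rw [map_sum, Finset.sum_apply]
  show _ = ∑ t, c t * Gm v t t'
  refine Finset.sum_congr rfl fun t _ => ?_
  rw [map_smul, Pi.smul_apply, smul_eq_mul]
  rfl

theorem prj_mem (hdet : (Gm v).det ≠ 0) (f : Fin k → K) : prj v f ∈ LinearMap.ker (Zm v) := by
  rw [LinearMap.mem_ker]
  unfold prj
  rw [map_sub, Zm_sum, Matrix.vecMul_vecMul, Matrix.nonsing_inv_mul _ (Ne.isUnit hdet),
    Matrix.vecMul_one, sub_self]

theorem finrank_ker (hdet : (Gm v).det ≠ 0) :
    Module.finrank K (LinearMap.ker (Zm v)) + r = k := by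
  have hsurj : Function.Surjective (Zm v) := by
    intro u
    refine ⟨∑ t, Matrix.vecMul u (Gm v)⁻¹ t • yt v t, ?_⟩
    rw [Zm_sum, Matrix.vecMul_vecMul, Matrix.nonsing_inv_mul _ (Ne.isUnit hdet),
      Matrix.vecMul_one]
  have h1 := LinearMap.finrank_range_add_finrank_ker (Zm v)
  rw [LinearMap.range_eq_top.2 hsurj, finrank_top, Module.finrank_pi, Module.finrank_pi,
    Fintype.card_fin, Fintype.card_fin] at h1
  omega

theorem prj_close (hinv : ∀ i j, (Gm v)⁻¹ i j ∈ B) {f g : Fin k → K}
    (hf : ∀ t, B.valuation (bb v f (zt v t)) < 1) (hg : ∀ t, bb v (yt v t) g ∈ B) :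
    B.valuation (bb v (prj v f) g - bb v f g) < 1 := by
  have h1 : bb v (prj v f) g - bb v f g
      = ∑ t, -(Matrix.vecMul (Zm v f) (Gm v)⁻¹ t * bb v (yt v t) g) := by
    rw [← bL_apply, ← bL_apply]
    unfold prj
    rw [map_sub, map_sum, sub_sub_cancel_left, ← Finset.sum_neg_distrib]
    refine Finset.sum_congr rfl fun t _ => ?_
    rw [map_smul, smul_eq_mul, bL_apply]
  rw [h1]
  refine B.valuation.map_sum_lt one_ne_zero fun t _ => ?_
  rw [Valuation.map_neg]
  refine val_mul_lt ?_ (hg t)
  show B.valuation (∑ t', Zm v f t' * (Gm v)⁻¹ t' t) < 1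
  exact B.valuation.map_sum_lt one_ne_zero fun t' _ => val_mul_lt (hf t') (hinv t' t)

end

/-- The assumptions on the values. -/
structure Vals (B : ValuationSubring K) (v : Fin k → Fin (n + 2) → Fin (r + 2) → K)
    (q : Fin n → Fin n → ResidueField B) : Prop where
  mem : ∀ w, vl v w ∈ B
  quad : ∀ a b, a ≠ b → res B (vl v (wd {a, b} 0 0)) = q a b
  ne : ∀ a b, a ≠ b → q a b ≠ 0
  zero : ∀ S : Finset (Fin n), S.card ≠ 2 → res B (vl v (wd S 0 0)) = 0
  right : ∀ (S : Finset (Fin n)) (t : Fin r), res B (vl v (wd S 0 (lt t))) = 0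
  unit : ∀ t t' : Fin r, res B (vl v (wd ∅ (lt t) (lt t'))) = if t = t' then 1 else 0

theorem inst (v : Fin k → Fin (n + 2) → Fin (r + 2) → K) (hv : ∀ j i c, v j i c ≠ 0)
    {q : Fin n → Fin n → ResidueField B} (H : Vals B v q) (hn : k + 3 ≤ n + r) :
    ∃ G : Submodule (ResidueField B) (Fin n → ResidueField B),
      Module.finrank (ResidueField B) G + 2 + r ≤ k ∧
      ∀ i, (Pi.single i 1 : Fin n → ResidueField B) ∈ G ∨
        ∃ g ∈ G, ∀ j, j ≠ i → g j = q i j := by
  classical
  have hlt : ∀ w, res B (vl v w) = 0 → B.valuation (vl v w) < 1 := fun w h =>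
    (res_eq_zero_iff (H.mem w)).1 h
  -- the Gram matrix of the extra vectors
  have hG : ∀ t t', Gm v t t' = vl v (wd ∅ (lt t) (lt t')) := by
    intro t t'
    have h1 := bb_mon v hv (Finset.disjoint_empty_left (∅ : Finset (Fin n))) (lt t) (lt t')
    rw [Finset.empty_union] at h1
    exact h1
  obtain ⟨hdet, hinv⟩ := inv_mem (B := B) (Gm v) (fun i j => by rw [hG]; exact H.mem _)
    (fun i j => by rw [hG]; exact H.unit i j)
  have hfin := finrank_ker v hdet
  let V := LinearMap.ker (Zm v)
  have hfinV : Module.finrank K V + r = k := hfin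
  let P : (Fin k → K) → V := fun f => ⟨prj v f, prj_mem v hdet f⟩
  -- pairings with the extra vectors
  have hz : ∀ (S : Finset (Fin n)) (t : Fin r),
      B.valuation (bb v (mon v S 0 0) (zt v t)) < 1 := by
    intro S t
    have h1 := bb_mon v hv (Finset.disjoint_empty_right S) 0 (lt t)
    rw [Finset.union_empty] at h1
    show B.valuation (bb v (mon v S 0 0) (mon v ∅ 0 (lt t))) < 1
    rw [h1]
    exact hlt _ (H.right S t)
  have hy : ∀ (S : Finset (Fin n)) (t : Fin r), bb v (yt v t) (mon v S 0 0) ∈ B := by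
    intro S t
    have h1 := bb_mon v hv (Finset.disjoint_empty_left S) (lt t) 0
    rw [Finset.empty_union] at h1
    show bb v (mon v ∅ (lt t) 0) (mon v S 0 0) ∈ B
    rw [h1]
    exact H.mem _
  have hclose : ∀ S S' : Finset (Fin n), B.valuation (bb v (prj v (mon v S 0 0)) (mon v S' 0 0)
      - bb v (mon v S 0 0) (mon v S' 0 0)) < 1 := fun S S' =>
    prj_close v hinv (hz S) (hy S')
  have hdisj : ∀ S S' : Finset (Fin n), Disjoint S S' →
      bb v (mon v S 0 0) (mon v S' 0 0) = vl v (wd (S ∪ S') 0 0) := fun S S' h =>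
    bb_mon v hv h 0 0
  have hsmall : ∀ S S' : Finset (Fin n), Disjoint S S' → (S ∪ S').card ≠ 2 →
      B.valuation (bb v (prj v (mon v S 0 0)) (mon v S' 0 0)) < 1 := by
    intro S S' h hc
    have h1 : bb v (prj v (mon v S 0 0)) (mon v S' 0 0)
        = (bb v (prj v (mon v S 0 0)) (mon v S' 0 0) - bb v (mon v S 0 0) (mon v S' 0 0))
          + vl v (wd (S ∪ S') 0 0) := by
      rw [hdisj S S' h]
      ring
    rw [h1]
    exact B.valuation.map_add_lt (hclose S S') (hlt _ (H.zero _ hc))
  have hbig : ∀ S S' : Finset (Fin n), Disjoint S S' →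
      bb v (prj v (mon v S 0 0)) (mon v S' 0 0) ∈ B ∧
      res B (bb v (prj v (mon v S 0 0)) (mon v S' 0 0)) = res B (vl v (wd (S ∪ S') 0 0)) := by
    intro S S' h
    have h1 : bb v (prj v (mon v S 0 0)) (mon v S' 0 0)
        = (bb v (prj v (mon v S 0 0)) (mon v S' 0 0) - bb v (mon v S 0 0) (mon v S' 0 0))
          + vl v (wd (S ∪ S') 0 0) := by
      rw [hdisj S S' h]
      ring
    have h2 := hclose S S'
    rw [h1]
    refine ⟨B.add_mem _ _ (mem_of_lt h2) (H.mem _), ?_⟩
    rw [res_add (mem_of_lt h2) (H.mem _), res_of_lt h2, zero_add]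
  have hpair : ∀ a b : Fin n, a ≠ b → Disjoint ({a} : Finset (Fin n)) {b} := fun a b h =>
    Finset.disjoint_singleton.2 h
  have hHyp : Hyp B (P (mon v ∅ 0 0)) (fun i => P (mon v {i} 0 0)) (fun a b => P (mon v {a, b} 0 0))
      ((bL v (mon v ∅ 0 0)).comp V.subtype) (fun i => (bL v (mon v {i} 0 0)).comp V.subtype)
      (fun a b => (bL v (mon v {a, b} 0 0)).comp V.subtype) q :=
    { oo := hsmall ∅ ∅ (Finset.disjoint_empty_left _) (by simp)
      oX := fun j => hsmall ∅ {j} (Finset.disjoint_empty_left _) (by simp)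
      Xo := fun i => hsmall {i} ∅ (Finset.disjoint_empty_right _) (by simp)
      XX := fun i j hij => by
        have h1 := hbig {i} {j} (hpair i j hij)
        refine ⟨h1.1, h1.2.trans ?_⟩
        exact H.quad i j hij
      Yo := fun a b hab => by
        have h1 := hbig {a, b} ∅ (Finset.disjoint_empty_right _)
        refine ⟨h1.1, ?_⟩
        have h2 := h1.2
        rw [Finset.union_empty, H.quad a b hab] at h2
        intro h0
        exact H.ne a b hab (h2.symm.trans h0)
      YX := fun a b hab j hja hjb => by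
        have hd : Disjoint ({a, b} : Finset (Fin n)) {j} := by
          rw [Finset.disjoint_singleton_right]
          simp [hja, hjb]
        refine hsmall {a, b} {j} hd ?_
        rw [Finset.card_union_of_disjoint hd, Finset.card_pair hab, Finset.card_singleton]
        omega
      oZ := fun c d hcd => by
        have h1 := hbig ∅ {c, d} (Finset.disjoint_empty_left _)
        refine ⟨h1.1, ?_⟩
        have h2 := h1.2
        rw [Finset.empty_union, H.quad c d hcd] at h2
        intro h0
        exact H.ne c d hcd (h2.symm.trans h0)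
      sym := fun c d hcd i => by
        have h1 := hclose {i} {c, d}
        have h2 := hclose {c, d} {i}
        rw [bb_comm v (mon v {c, d} 0 0) (mon v {i} 0 0)] at h2
        have h3 := val_sub_lt h1 h2
        rw [sub_sub_sub_cancel_right] at h3
        exact h3
      YZ := fun a b c d hab hcd hac had hbc hbd => by
        have hd : Disjoint ({a, b} : Finset (Fin n)) {c, d} := by
          rw [Finset.disjoint_left]
          intro x hx hx'
          simp only [Finset.mem_insert, Finset.mem_singleton] at hx hx'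
          rcases hx with rfl | rfl <;> rcases hx' with h | h
          · exact hac h
          · exact had h
          · exact hbc h
          · exact hbd h
        refine hsmall {a, b} {c, d} hd ?_
        rw [Finset.card_union_of_disjoint hd, Finset.card_pair hab, Finset.card_pair hcd]
        omega }
  obtain ⟨G, hG1, hG2⟩ := exists_G hHyp (by omega)
  refine ⟨G, by omega, hG2⟩

end Pentad
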