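import Mathlib

/-!
# MP_b77b2b_ag, Jac: the Jacobian criterion
-/

set_option autoImplicit false

namespace Pentad

open MvPolynomial

variable {E S : Type} [Fintype E] [Fintype S]

/-- The chain rule. -/
theorem pderiv_aeval' [DecidableEq E] (f : E → MvPolynomial S ℂ) (s : S) (G : MvPolynomial E ℂ) :
    pderiv s (aeval f G) = ∑ e, aeval f (pderiv e G) * pderiv s (f e) := by
  classical
  induction G using MvPolynomial.induction_on with
  | C a =>
    simp
  | add p q hp hq =>
    rw [map_add, map_add, hp, hq, ← Finset.sum_add_distrib]
    refine Finset.sum_congr rfl fun e _ => ?_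
    rw [map_add, map_add]
    ring
  | mul_X p i hp =>
    rw [map_mul, aeval_X, pderiv_mul, hp]
    have h1 : ∀ e, aeval f (pderiv e (p * X i)) * pderiv s (f e)
        = aeval f (pderiv e p) * pderiv s (f e) * f i
          + (if e = i then aeval f p * pderiv s (f e) else 0) := by
      intro e
      rw [pderiv_mul, map_add, map_mul, map_mul, aeval_X, pderiv_X]
      by_cases h : e = i
      · subst h
        rw [if_pos rfl, Pi.single_eq_same, map_one]
        ring
      · rw [if_neg h, Pi.single_eq_of_ne (Ne.symm h), map_zero]
        ring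
    rw [Finset.sum_congr rfl fun e _ => h1 e, Finset.sum_add_distrib, Finset.sum_mul,
      Finset.sum_ite_eq' Finset.univ i, if_pos (Finset.mem_univ i)]

/-- If the Jacobian matrix has independent rows at some point, then there is no relation. -/
theorem jac [DecidableEq E] (f : E → MvPolynomial S ℂ) (x0 : S → ℂ)
    (h : ∀ c : E → ℂ, (∀ s, ∑ e, c e * eval x0 (pderiv s (f e)) = 0) → c = 0)
    (G : MvPolynomial E ℂ) (hG : aeval f G = 0) : G = 0 := by
  classical
  -- a right inverse at the point
  let J0 : Matrix E S ℂ := fun e s => eval x0 (pderiv s (f e))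
  let φ : (E → ℂ) →ₗ[ℂ] (S → ℂ) := Matrix.vecMulLinear J0
  have hφ : LinearMap.ker φ = ⊥ := by
    rw [LinearMap.ker_eq_bot']
    intro c hc
    refine h c fun s => ?_
    exact congrFun hc s
  obtain ⟨ψ, hψ⟩ := φ.exists_leftInverse_of_injective hφ
  let R0 : Matrix S E ℂ := fun s e => ψ (Pi.single s 1) e
  have hψR : ∀ u : S → ℂ, ψ u = Matrix.vecMul u R0 := by
    intro u
    funext e
    have h1 : u = ∑ s, u s • (Pi.single s 1 : S → ℂ) := by
      funext t
      simp [Finset.sum_apply, Pi.single_apply]
    conv_lhs => rw [h1]
    rw [map_sum, Finset.sum_apply]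
    refine Finset.sum_congr rfl fun s _ => ?_
    rw [map_smul, Pi.smul_apply, smul_eq_mul]
  have hJR : J0 * R0 = 1 := by
    have h2 : ∀ c : E → ℂ, Matrix.vecMul c (J0 * R0) = c := by
      intro c
      rw [← Matrix.vecMul_vecMul, ← hψR]
      exact congrFun (congrArg DFunLike.coe hψ) c
    ext i j
    have h3 := congrFun (h2 (Pi.single i 1)) j
    rw [Matrix.single_one_vecMul] at h3
    rw [Matrix.one_apply]
    rw [Matrix.row_apply] at h3
    rw [h3, Pi.single_apply]
    by_cases hij : i = j
    · rw [if_pos hij, if_pos hij.symm]
    · rw [if_neg hij, if_neg (Ne.symm hij)]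
  -- the determinant
  let J : Matrix E S (MvPolynomial S ℂ) := fun e s => pderiv s (f e)
  let R : Matrix S E (MvPolynomial S ℂ) := R0.map C
  have hdet : (J * R).det ≠ 0 := by
    intro h0
    have h4 : eval x0 (J * R).det = 0 := by rw [h0, map_zero]
    rw [RingHom.map_det] at h4
    have h5 : (eval x0).mapMatrix (J * R) = J0 * R0 := by
      ext i j
      rw [RingHom.mapMatrix_apply, Matrix.map_apply, Matrix.mul_apply, Matrix.mul_apply, map_sum]
      refine Finset.sum_congr rfl fun s _ => ?_
      rw [map_mul]
      show _ * eval x0 (C (R0 s j)) = _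
      rw [eval_C]
    rw [h5, hJR, Matrix.det_one] at h4
    exact one_ne_zero h4
  -- the induction
  have main : ∀ N : ℕ, ∀ G : MvPolynomial E ℂ, (∀ m, coeff m G ≠ 0 → ∑ e, m e ≤ N) →
      aeval f G = 0 → G = 0 := by
    intro N
    induction N with
    | zero =>
      intro G hm hG
      have h6 : G = C (coeff 0 G) := by
        ext m
        rw [coeff_C]
        by_cases hm0 : 0 = m
        · rw [if_pos hm0, hm0]
        · rw [if_neg hm0]
          by_contra hne
          have h7 := hm m hne
          apply hm0
          ext e
          have h8 := (Finset.sum_eq_zero_iff.1 (Nat.le_zero.1 h7)) e (Finset.mem_univ e)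
          rw [h8]
          rfl
      rw [h6, aeval_C, algebraMap_eq] at hG
      rw [h6, (C_eq_zero).1 hG, C_0]
    | succ N ih =>
      intro G hm hG
      have h9 : ∀ s, ∑ e, aeval f (pderiv e G) * J e s = 0 := by
        intro s
        rw [← pderiv_aeval' f s G, hG, map_zero]
      have h10 : Matrix.vecMul (fun e => aeval f (pderiv e G)) (J * R) = 0 := by
        rw [← Matrix.vecMul_vecMul]
        have h11 : Matrix.vecMul (fun e => aeval f (pderiv e G)) J = 0 := by
          funext s
          exact h9 s
        rw [h11, Matrix.zero_vecMul]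
      have h12 := Matrix.eq_zero_of_vecMul_eq_zero hdet h10
      have h13 : ∀ e, pderiv e G = 0 := by
        intro e
        refine ih _ ?_ (congrFun h12 e)
        intro m hme
        rw [coeff_pderiv] at hme
        have h14 := hm _ (left_ne_zero_of_mul hme)
        have h15 : ∑ e', (m + Finsupp.single e 1 : E →₀ ℕ) e' = ∑ e', m e' + 1 := by
          rw [← Finset.sum_add_distrib.trans (congrArg₂ _ rfl ?_)]
          · rfl
          · rw [Finset.sum_eq_single e]
            · rw [Finsupp.single_eq_same]
            · intro b _ hb
              rw [Finsupp.single_eq_of_ne hb]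
            · intro hb
              exact absurd (Finset.mem_univ _) hb
        omega
      have h16 : G = C (coeff 0 G) := by
        ext m
        rw [coeff_C]
        by_cases hm0 : 0 = m
        · rw [if_pos hm0, hm0]
        · rw [if_neg hm0]
          obtain ⟨e, he⟩ : ∃ e, m e ≠ 0 := by
            by_contra hcon
            push Not at hcon
            exact hm0 (Finsupp.ext fun e => (hcon e).symm)
          have h17 : coeff (m - Finsupp.single e 1) (pderiv e G) = 0 := by
            rw [h13 e, coeff_zero]
          have h18 : m - Finsupp.single e 1 + Finsupp.single e 1 = m := by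
            apply tsub_add_cancel_of_le
            rw [Finsupp.single_le_iff]
            omega
          rw [coeff_pderiv, h18] at h17
          rcases mul_eq_zero.1 h17 with h19 | h19
          · exact h19
          · exfalso
            have h20 : ((((m - Finsupp.single e 1 : E →₀ ℕ) e) + 1 : ℕ) : ℂ) = 0 := by
              push_cast
              exact h19
            exact Nat.succ_ne_zero _ (Nat.cast_eq_zero.1 h20)
      rw [h16, aeval_C, algebraMap_eq] at hG
      rw [h16, (C_eq_zero).1 hG, C_0]
  refine main G.totalDegree G ?_ hG
  intro m hm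
  have h21 := le_totalDegree (mem_support_iff.2 hm)
  rwa [Finsupp.sum_fintype _ _ (fun _ => rfl)] at h21

end Pentad
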