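import Mathlib

/-!
# MP_b77b2b_ag, Lin: residues of subspaces over a valuation ring
-/

set_option autoImplicit false

namespace Pentad

open IsLocalRing

variable {K : Type} [Field K] (B : ValuationSubring K)

/-- Residue as a total function. -/
noncomputable def res (x : K) : ResidueField B := by
  classical
  exact if h : x ∈ B then residue B ⟨x, h⟩ else 0

variable {B}

theorem res_of_mem {x : K} (h : x ∈ B) : res B x = residue B ⟨x, h⟩ := dif_pos h

theorem res_coe (x : B) : res B (x : K) = residue B x := res_of_mem x.2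

theorem res_add {x y : K} (hx : x ∈ B) (hy : y ∈ B) : res B (x + y) = res B x + res B y := by
  rw [res_of_mem hx, res_of_mem hy, res_of_mem (B.add_mem _ _ hx hy), ← map_add]
  rfl

theorem res_mul {x y : K} (hx : x ∈ B) (hy : y ∈ B) : res B (x * y) = res B x * res B y := by
  rw [res_of_mem hx, res_of_mem hy, res_of_mem (B.mul_mem _ _ hx hy), ← map_mul]
  rfl

theorem res_neg {x : K} (hx : x ∈ B) : res B (-x) = -res B x := by
  rw [res_of_mem hx, res_of_mem (B.neg_mem _ hx), ← map_neg]
  rfl

theorem res_zero : res B (0 : K) = 0 := by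
  rw [res_of_mem B.zero_mem]
  exact map_zero _

theorem res_one : res B (1 : K) = 1 := by
  rw [res_of_mem B.one_mem]
  exact map_one _

theorem res_sum {α : Type} (s : Finset α) (f : α → K) (hf : ∀ a ∈ s, f a ∈ B) :
    res B (∑ a ∈ s, f a) = ∑ a ∈ s, res B (f a) := by
  classical
  induction s using Finset.induction_on with
  | empty => simp [res_zero]
  | insert a s ha ih =>
    have h1 : ∀ b ∈ s, f b ∈ B := fun b hb => hf b (Finset.mem_insert_of_mem hb)
    rw [Finset.sum_insert ha, Finset.sum_insert ha, res_add (hf a (Finset.mem_insert_self a s))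
      (B.toSubring.sum_mem h1), ih h1]

theorem mem_of_lt {x : K} (h : B.valuation x < 1) : x ∈ B := B.mem_of_valuation_le_one x h.le

theorem res_eq_zero_iff {x : K} (hx : x ∈ B) : res B x = 0 ↔ B.valuation x < 1 := by
  rw [res_of_mem hx, residue_eq_zero_iff, ValuationSubring.valuation_lt_one_iff]

theorem res_of_lt {x : K} (h : B.valuation x < 1) : res B x = 0 :=
  (res_eq_zero_iff (mem_of_lt h)).2 h

theorem res_surj (c : ResidueField B) : ∃ x : K, x ∈ B ∧ res B x = c := by
  obtain ⟨y, rfl⟩ := residue_surjective c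
  exact ⟨y, y.2, res_coe y⟩

theorem val_eq_one {x : K} (hx : x ∈ B) (h : res B x ≠ 0) : B.valuation x = 1 := by
  have h1 := (B.valuation_le_one_iff x).2 hx
  rcases h1.lt_or_eq with h2 | h2
  · exact absurd (res_of_lt h2) h
  · exact h2

/-- The residue of a subspace. -/
def resSub {ι : Type} (E : Submodule K (ι → K)) : Submodule (ResidueField B) (ι → ResidueField B)
    where
  carrier := {w | ∃ v : ι → K, v ∈ E ∧ (∀ i, v i ∈ B) ∧ ∀ i, res B (v i) = w i}
  add_mem' := by
    rintro a b ⟨v, hv, hvB, hva⟩ ⟨w, hw, hwB, hwb⟩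
    refine ⟨v + w, E.add_mem hv hw, fun i => B.add_mem _ _ (hvB i) (hwB i), fun i => ?_⟩
    rw [Pi.add_apply, res_add (hvB i) (hwB i), hva, hwb]
    rfl
  zero_mem' := ⟨0, E.zero_mem, fun _ => B.zero_mem, fun _ => res_zero⟩
  smul_mem' := by
    rintro c a ⟨v, hv, hvB, hva⟩
    obtain ⟨x, hx, rfl⟩ := res_surj c
    refine ⟨x • v, E.smul_mem x hv, fun i => B.mul_mem _ _ hx (hvB i), fun i => ?_⟩
    rw [Pi.smul_apply, smul_eq_mul, res_mul hx (hvB i), hva]
    rfl

theorem mem_resSub {ι : Type} {E : Submodule K (ι → K)} {w : ι → ResidueField B} :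
    w ∈ resSub (B := B) E ↔ ∃ v : ι → K, v ∈ E ∧ (∀ i, v i ∈ B) ∧ ∀ i, res B (v i) = w i :=
  Iff.rfl

/-- Scaling a nonzero vector so that the largest entry is one. -/
theorem exists_max {ι : Type} [Fintype ι] (v : ι → K) (hv : v ≠ 0) :
    ∃ i, v i ≠ 0 ∧ ∀ j, B.valuation (v j) ≤ B.valuation (v i) := by
  obtain ⟨i0, hi0⟩ : ∃ i, v i ≠ 0 := by
    by_contra hcon
    push Not at hcon
    exact hv (funext hcon)
  obtain ⟨i, -, hi⟩ := Finset.exists_max_image Finset.univ (fun j => B.valuation (v j))
    ⟨i0, Finset.mem_univ i0⟩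
  refine ⟨i, ?_, fun j => hi j (Finset.mem_univ j)⟩
  intro h0
  have h1 := hi i0 (Finset.mem_univ i0)
  rw [h0, map_zero] at h1
  exact hi0 ((map_eq_zero _).1 (le_antisymm h1 zero_le))

theorem div_mem_of_le {x y : K} (hy : y ≠ 0) (h : B.valuation x ≤ B.valuation y) : x / y ∈ B := by
  rw [← B.valuation_le_one_iff, map_div₀]
  exact div_le_one_of_le₀ h zero_le

theorem finrank_resSub_le {ι : Type} [Fintype ι] (E : Submodule K (ι → K)) :
    Module.finrank (ResidueField B) (resSub (B := B) E) ≤ Module.finrank K E := by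
  classical
  let b := Module.finBasis (ResidueField B) (resSub (B := B) E)
  have hb : ∀ r, ∃ v : ι → K, v ∈ E ∧ (∀ i, v i ∈ B) ∧
      ∀ i, res B (v i) = (b r : ι → ResidueField B) i := fun r => (b r).2
  choose v hv hvB hvr using hb
  have hli : LinearIndependent K (fun r => (⟨v r, hv r⟩ : E)) := by
    rw [Fintype.linearIndependent_iff]
    intro g hg
    by_contra hcon
    have hg0 : g ≠ 0 := by
      rintro rfl
      exact hcon fun i => rfl
    obtain ⟨r0, hr0, hmax⟩ := exists_max (B := B) g hg0
    have hdiv : ∀ r, g r / g r0 ∈ B := fun r => div_mem_of_le hr0 (hmax r)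
    have h1 : ∀ i, ∑ r, (g r / g r0) * v r i = 0 := by
      intro i
      have h2 := congrArg (fun e : E => (e : ι → K) i) hg
      simp only [Submodule.coe_sum, Submodule.coe_smul, Finset.sum_apply, Pi.smul_apply,
        smul_eq_mul, ZeroMemClass.coe_zero, Pi.zero_apply] at h2
      have h3 : ∑ r, (g r / g r0) * v r i = (∑ r, g r * v r i) / g r0 := by
        rw [Finset.sum_div]
        exact Finset.sum_congr rfl fun r _ => by ring
      rw [h3, h2, zero_div]
    have h4 : ∑ r, res B (g r / g r0) • b r = 0 := by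
      apply Subtype.ext
      funext i
      simp only [Submodule.coe_sum, Submodule.coe_smul, Finset.sum_apply, Pi.smul_apply,
        smul_eq_mul, ZeroMemClass.coe_zero, Pi.zero_apply]
      have h5 := congrArg (res B) (h1 i)
      rw [res_sum _ _ (fun r _ => B.mul_mem _ _ (hdiv r) (hvB r i)), res_zero] at h5
      rw [← h5]
      refine Finset.sum_congr rfl fun r _ => ?_
      rw [res_mul (hdiv r) (hvB r i), hvr]
    have h6 := Fintype.linearIndependent_iff.1 b.linearIndependent _ h4 r0
    rw [div_self hr0, res_one] at h6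
    exact one_ne_zero h6
  have h7 := hli.fintype_card_le_finrank
  rwa [Fintype.card_fin] at h7

end Pentad
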