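import Pool.Agent.H.MP_b77b2b_ag.Mem

/-!
# MP_b77b2b_ag, Main: tensors satisfying all flattening equations, outside the secant variety
-/

set_option autoImplicit false

namespace Pentad

open MvPolynomial

/-- The entries of the quadratic tensor as polynomials. -/
noncomputable def TTp {n : ℕ} (r : ℕ) (w : Fin (n + 2) → Fin (r + 2)) : MvPolynomial (Pr n) ℂ :=
  (∑ e : Pr n, if w = wd {e.1.1, e.1.2} 0 0 then X e else 0)
    + ∑ t : Fin r, if w = wd ∅ (lt t) (lt t) then 1 else 0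

theorem eval_TTp {n r : ℕ} (Q : Pr n → ℂ) : (fun w => eval Q (TTp r w)) = TT r Q := by
  funext w
  unfold TTp TT
  rw [map_add, map_sum, map_sum]
  congr 1
  · refine Finset.sum_congr rfl fun e _ => ?_
    split_ifs
    · rw [eval_X]
    · rw [map_zero]
  · refine Finset.sum_congr rfl fun t _ => ?_
    split_ifs
    · rw [map_one]
    · rw [map_zero]

theorem mem_all {n r ρ D c m : ℕ} (hn : n = ρ + D) (hρ : 2 * (ρ + c) = D * D - D)
    (hc : 2 * c ≤ D) (hm : m + c ≤ n) (σ : Fin (n + 2) → Fin m)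
    (q : MvPolynomial ((b : Fin m) → ({i : Fin (n + 2) // σ i = b} → Fin (r + 2))) ℂ)
    (hq : ∀ v : Fin (ρ + 2 + r) → (b : Fin m) → ({i : Fin (n + 2) // σ i = b} → Fin (r + 2)) → ℂ,
      eval (fun g => ∑ j, ∏ b, v j b (g b)) q = 0) (Q : Pr n → ℂ) :
    eval (TT r Q) (rename (fun (g : (b : Fin m) → ({i : Fin (n + 2) // σ i = b} → Fin (r + 2)))
        (i : Fin (n + 2)) => g (σ i) ⟨i, rfl⟩) q) = 0 := by
  obtain ⟨ι, F, hF, hτ⟩ := exists_pairs (fun i : Fin n => σ i.castSucc.castSucc) hm hc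
    (by omega)
  have h1 := dom hn hρ (fun i : Fin n => σ i.castSucc.castSucc) ι F hF hτ
    (aeval (TTp r) (rename (fun (g : (b : Fin m) → ({i : Fin (n + 2) // σ i = b} → Fin (r + 2)))
        (i : Fin (n + 2)) => g (σ i) ⟨i, rfl⟩) q)) (by
      intro X y
      rw [eval_aeval, eval_TTp]
      exact vanish X σ y q hq)
  rw [← eval_TTp, ← eval_aeval, h1, map_zero]

theorem exists_indep (E : Type) [Fintype E] : ∃ Q : E → ℂ, AlgebraicIndependent ℚ Q := by
  obtain ⟨s, hs⟩ := exists_isTranscendenceBasis ℚ ℂ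
  have h1 : Cardinal.mk ℂ = Cardinal.mk s := by
    refine IsAlgClosed.cardinal_eq_cardinal_transcendence_basis_of_aleph0_lt' _ hs ?_ ?_
    · exact Cardinal.mkRat.le
    · rw [Cardinal.mk_complex]
      exact Cardinal.aleph0_lt_continuum
  have h2 : Infinite s := by
    rw [Cardinal.infinite_iff, ← h1, Cardinal.mk_complex]
    exact Cardinal.aleph0_le_continuum
  let f : E ↪ s := (Fintype.equivFin E).toEmbedding.trans
    (Fin.valEmbedding.trans (Infinite.natEmbedding s))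
  exact ⟨_, hs.1.comp f f.injective⟩

theorem main {D c r ρ n k : ℕ} (hD : 5 ≤ D) (hc1 : 1 ≤ c) (hc : 2 * c ≤ D)
    (hρ : 2 * (ρ + c) = D * D - D) (hn : n = ρ + D) (hk : k = ρ + 2 + r) :
    ∃ (T : (Fin (n + 2) → Fin (r + 2)) → ℂ) (p : MvPolynomial (Fin (n + 2) → Fin (r + 2)) ℂ),
      (∀ v : Fin k → Fin (n + 2) → Fin (r + 2) → ℂ,
        eval (fun w => ∑ j, ∏ i, v j i (w i)) p = 0) ∧ eval T p ≠ 0 ∧
      ∀ m : ℕ, m + c ≤ n → ∀ (σ : Fin (n + 2) → Fin m)
        (q : MvPolynomial ((b : Fin m) → ({i : Fin (n + 2) // σ i = b} → Fin (r + 2))) ℂ),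
        (∀ v : Fin k → (b : Fin m) → ({i : Fin (n + 2) // σ i = b} → Fin (r + 2)) → ℂ,
          eval (fun g => ∑ j, ∏ b, v j b (g b)) q = 0) →
        eval T (rename (fun (g : (b : Fin m) → ({i : Fin (n + 2) // σ i = b} → Fin (r + 2)))
          (i : Fin (n + 2)) => g (σ i) ⟨i, rfl⟩) q) = 0 := by
  subst hk
  obtain ⟨Q, hQ⟩ := exists_indep (Pr n)
  have hle : D ≤ D * D := Nat.le_mul_self D
  obtain ⟨p, hp1, hp2⟩ := not_mem (k := ρ + 2 + r) (n := n) (r := r) (by omega) (by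
    have h1 : n + r + 2 - (ρ + 2 + r) = D := by omega
    have h2 : n + r + 3 - (ρ + 2 + r) = D + 1 := by omega
    rw [h1, h2, Nat.mul_add, Nat.mul_one]
    omega) Q hQ
  exact ⟨TT r Q, p, hp1, hp2, fun m hm σ q hq => mem_all hn hρ hc hm σ q hq Q⟩

end Pentad
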