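import Pool.Agent.H.MP_b77b2b_ag.Dom

/-!
# MP_b77b2b_ag, Mem: the quadratic tensors satisfy all equations from fewer factors
-/

set_option autoImplicit false

namespace Pentad

open MvPolynomial

/-- Pure after grouping the factors by `σ`. -/
def Coarse {N L m : ℕ} (σ : Fin N → Fin m) (P : (Fin N → Fin L) → ℂ) : Prop :=
  ∃ u : (b : Fin m) → ({i : Fin N // σ i = b} → Fin L) → ℂ,
    ∀ w, P w = ∏ b, u b (fun i => w i.1)

theorem coarse_fine {N L m : ℕ} (σ : Fin N → Fin m) (F : Fin N → Fin L → ℂ) :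
    Coarse σ (fun w => ∏ i, F i (w i)) :=
  ⟨fun _ g => ∏ i, F i.1 (g i), fun w => (Fintype.prod_fiberwise σ fun i => F i (w i)).symm⟩

theorem coarse_smul {N L m : ℕ} {σ : Fin N → Fin m} {P : (Fin N → Fin L) → ℂ} (h : Coarse σ P)
    (b0 : Fin m) (c : ℂ) : Coarse σ (fun w => c * P w) := by
  obtain ⟨u, hu⟩ := h
  refine ⟨fun b g => (if b = b0 then c else 1) * u b g, fun w => ?_⟩
  show c * P w = _
  rw [Finset.prod_mul_distrib, Finset.prod_ite_eq' Finset.univ, if_pos (Finset.mem_univ _), hu]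

/-- The restriction of a word to a block. -/
def Rb {N L m : ℕ} (σ : Fin N → Fin m) (b : Fin m) (w : Fin N → Fin L) :
    {i : Fin N // σ i = b} → Fin L := fun i => w i.1

theorem Rb_iff {N L m : ℕ} (σ : Fin N → Fin m) (w W : Fin N → Fin L) :
    w = W ↔ ∀ b, Rb σ b w = Rb σ b W := by
  constructor
  · rintro rfl b
    rfl
  · intro h1
    funext i
    exact congrFun (h1 (σ i)) ⟨i, rfl⟩

section

variable {N L m : ℕ} (σ : Fin N → Fin m) (W0 : Fin N → Fin L) {ι : Type} [Fintype ι]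
  (W : ι → Fin N → Fin L) (bl : ι → Fin m) (P : ι → Prop) [DecidablePred P] (y : ι → ℂ)

/-- A coarse pure tensor near a pure tensor. -/
def near (s : ℂ) (w : Fin N → Fin L) : ℂ :=
  ∏ b, ((if Rb σ b w = Rb σ b W0 then 1 else 0)
    + s * ∑ e, if P e ∧ bl e = b ∧ Rb σ b w = Rb σ b (W e) then y e else 0)

theorem coarse_near (s : ℂ) : Coarse σ (near σ W0 W bl P y s) :=
  ⟨fun b g => (if g = Rb σ b W0 then 1 else 0)
    + s * ∑ e, if P e ∧ bl e = b ∧ g = Rb σ b (W e) then y e else 0, fun _ => rfl⟩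

theorem prod_delta (s : Finset (Fin m)) (w V : Fin N → Fin L) :
    ∏ b ∈ s, (if Rb σ b w = Rb σ b V then (1 : ℂ) else 0)
      = if ∀ b ∈ s, Rb σ b w = Rb σ b V then 1 else 0 := by
  by_cases h : ∀ b ∈ s, Rb σ b w = Rb σ b V
  · rw [if_pos h]
    exact Finset.prod_eq_one fun b hb => if_pos (h b hb)
  · rw [if_neg h]
    push Not at h
    obtain ⟨b, hb, hbw⟩ := h
    exact Finset.prod_eq_zero hb (if_neg hbw)

theorem near_zero (w : Fin N → Fin L) : near σ W0 W bl P y 0 w = if w = W0 then 1 else 0 := by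
  unfold near
  simp only [zero_mul, add_zero]
  rw [prod_delta]
  congr 1
  rw [Rb_iff σ]
  simp

theorem near_deriv (hW : ∀ e, P e → ∀ i, σ i ≠ bl e → W e i = W0 i) (w : Fin N → Fin L) :
    HasDerivAt (fun s => near σ W0 W bl P y s w) (∑ e, if P e ∧ w = W e then y e else 0) 0 := by
  classical
  have h1 : HasDerivAt (fun s => near σ W0 W bl P y s w)
      (∑ b, (∏ b' ∈ Finset.univ.erase b, ((if Rb σ b' w = Rb σ b' W0 then 1 else 0)
        + (0 : ℂ) * ∑ e, if P e ∧ bl e = b' ∧ Rb σ b' w = Rb σ b' (W e) then y e else 0))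
        • (∑ e, if P e ∧ bl e = b ∧ Rb σ b w = Rb σ b (W e) then y e else 0)) 0 := by
    unfold near
    refine HasDerivAt.fun_finsetProd fun b _ => ?_
    have h2 := ((hasDerivAt_id (0 : ℂ)).mul_const
      (∑ e, if P e ∧ bl e = b ∧ Rb σ b w = Rb σ b (W e) then y e else 0)).const_add
      (if Rb σ b w = Rb σ b W0 then (1 : ℂ) else 0)
    rw [one_mul] at h2
    exact h2
  convert h1 using 1
  have h3 : ∀ b, (∏ b' ∈ Finset.univ.erase b, ((if Rb σ b' w = Rb σ b' W0 then (1 : ℂ) else 0)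
      + (0 : ℂ) * ∑ e, if P e ∧ bl e = b' ∧ Rb σ b' w = Rb σ b' (W e) then y e else 0))
        • (∑ e, if P e ∧ bl e = b ∧ Rb σ b w = Rb σ b (W e) then y e else 0)
      = ∑ e, if bl e = b then (if P e ∧ w = W e then y e else 0) else 0 := by
    intro b
    simp only [zero_mul, add_zero]
    rw [prod_delta, smul_eq_mul, Finset.mul_sum]
    refine Finset.sum_congr rfl fun e _ => ?_
    by_cases hb : bl e = b
    · rw [if_pos hb]
      by_cases hP : P e
      · have h4 : w = W e ↔ (∀ b' ∈ Finset.univ.erase b, Rb σ b' w = Rb σ b' W0)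
            ∧ Rb σ b w = Rb σ b (W e) := by
          have h5 : ∀ b', b' ≠ b → Rb σ b' (W e) = Rb σ b' W0 := by
            intro b' hb'
            funext i
            exact hW e hP i.1 (by rw [i.2, hb]; exact hb')
          rw [Rb_iff σ]
          constructor
          · intro h6
            refine ⟨fun b' hb' => ?_, h6 b⟩
            rw [h6 b', h5 b' (Finset.ne_of_mem_erase hb')]
          · rintro ⟨h6, h7⟩ b'
            by_cases hb' : b' = b
            · rw [hb']
              exact h7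
            · rw [h5 b' hb']
              exact h6 b' (Finset.mem_erase.2 ⟨hb', Finset.mem_univ _⟩)
        by_cases h6 : ∀ b' ∈ Finset.univ.erase b, Rb σ b' w = Rb σ b' W0
        · rw [if_pos h6, one_mul]
          refine if_congr ?_ rfl rfl
          rw [h4]
          exact ⟨fun h => ⟨h.1, h6, h.2.2⟩, fun h => ⟨h.1, hb, h.2.2⟩⟩
        · rw [if_neg h6, zero_mul, if_neg]
          rw [h4]
          exact fun h => h6 h.2.1
      · rw [if_neg (show ¬ (P e ∧ bl e = b ∧ Rb σ b w = Rb σ b (W e)) from fun h => hP h.1),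
          if_neg (show ¬ (P e ∧ w = W e) from fun h => hP h.1), mul_zero]
    · rw [if_neg (show ¬ (P e ∧ bl e = b ∧ Rb σ b w = Rb σ b (W e)) from fun h => hb h.2.1),
        if_neg hb, mul_zero]
  rw [Finset.sum_congr rfl fun b _ => h3 b, Finset.sum_comm]
  refine Finset.sum_congr rfl fun e _ => ?_
  rw [Finset.sum_ite_eq Finset.univ, if_pos (Finset.mem_univ _)]

end

theorem eval_coarse {N L m k : ℕ} {σ : Fin N → Fin m} {ι : Type} [Fintype ι]
    (hι : Fintype.card ι = k)
    (q : MvPolynomial ((b : Fin m) → ({i : Fin N // σ i = b} → Fin L)) ℂ)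
    (hq : ∀ v : Fin k → (b : Fin m) → ({i : Fin N // σ i = b} → Fin L) → ℂ,
      eval (fun g => ∑ j, ∏ b, v j b (g b)) q = 0)
    (P : ι → (Fin N → Fin L) → ℂ) (hP : ∀ j, Coarse σ (P j)) :
    eval (fun w => ∑ j, P j w)
      (rename (fun (g : (b : Fin m) → ({i : Fin N // σ i = b} → Fin L)) (i : Fin N) =>
        g (σ i) ⟨i, rfl⟩) q) = 0 := by
  choose u hu using hP
  let e := Fintype.equivFinOfCardEq hι
  have h1 := hq (fun j => u (e.symm j))
  rw [eval_rename]
  have h2 : ((fun w => ∑ j, P j w) ∘ fun (g : (b : Fin m) → ({i : Fin N // σ i = b} → Fin L))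
      (i : Fin N) => g (σ i) ⟨i, rfl⟩)
      = fun g => ∑ j, ∏ b, u (e.symm j) b (g b) := by
    funext g
    show ∑ j, P j (fun i => g (σ i) ⟨i, rfl⟩) = _
    rw [← e.symm.sum_comp]
    refine Finset.sum_congr rfl fun j _ => ?_
    rw [hu]
    refine Finset.prod_congr rfl fun b _ => ?_
    congr 1
    funext i
    obtain ⟨i, rfl⟩ := i
    rfl
  rw [h2]
  exact h1

/-- A pure tensor. -/
def pw {n r : ℕ} (c : ℂ) (f : Fin n → Fin (r + 2) → ℂ) (w : Fin (n + 2) → Fin (r + 2)) : ℂ :=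
  (∏ i : Fin n, f i (w i.castSucc.castSucc)) * (if w (Fin.last n).castSucc = 0 then c else 0)
    * (if w (Fin.last (n + 1)) = 0 then 1 else 0)

theorem coarse_pw {n r m : ℕ} (σ : Fin (n + 2) → Fin m) (c : ℂ)
    (f : Fin n → Fin (r + 2) → ℂ) : Coarse σ (pw c f) := by
  have h := coarse_fine σ (Fin.snoc (α := fun _ => Fin (r + 2) → ℂ)
    (Fin.snoc (α := fun _ => Fin (r + 2) → ℂ) f (fun x => if x = 0 then c else 0))
    (fun x => if x = 0 then 1 else 0))
  have h2 : (fun w : Fin (n + 2) → Fin (r + 2) => ∏ i, (Fin.snoc (α := fun _ => Fin (r + 2) → ℂ)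
    (Fin.snoc (α := fun _ => Fin (r + 2) → ℂ) f (fun x => if x = 0 then c else 0))
    (fun x => if x = 0 then 1 else 0) : Fin (n + 2) → Fin (r + 2) → ℂ) i (w i)) = pw c f := by
    funext w
    rw [Fin.prod_univ_castSucc, Fin.prod_univ_castSucc]
    simp only [Fin.snoc_castSucc, Fin.snoc_last]
    rfl
  rw [h2] at h
  exact h

/-- The factor of a point `(1, a)`. -/
def pf {n r : ℕ} (a : Fin n → ℂ) (i : Fin n) (x : Fin (r + 2)) : ℂ :=
  if x = 0 then 1 else if x = 1 then a i else 0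

theorem pw_wd {n r : ℕ} (c : ℂ) (a : Fin n → ℂ) (S : Finset (Fin n)) :
    pw (r := r) c (pf a) (wd S 0 0) = c * ∏ i ∈ S, a i := by
  classical
  unfold pw
  have h1 : ∀ i : Fin n, pf (r := r) a i ((wd S 0 0 : Fin (n + 2) → Fin (r + 2))
      i.castSucc.castSucc) = if i ∈ S then a i else 1 := by
    intro i
    unfold wd pf
    simp only [Fin.snoc_castSucc]
    by_cases hi : i ∈ S
    · rw [if_pos hi, if_pos hi, if_neg (by simp), if_pos rfl]
    · rw [if_neg hi, if_neg hi, if_pos rfl]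
  have h2 : (wd S 0 0 : Fin (n + 2) → Fin (r + 2)) (Fin.last n).castSucc = 0 := by
    unfold wd
    simp only [Fin.snoc_castSucc, Fin.snoc_last]
  have h3 : (wd S 0 0 : Fin (n + 2) → Fin (r + 2)) (Fin.last (n + 1)) = 0 := by
    unfold wd
    simp only [Fin.snoc_last]
  rw [h2, h3, if_pos rfl, if_pos rfl, Finset.prod_congr rfl fun i _ => h1 i, Finset.prod_ite_mem,
    Finset.univ_inter]
  ring

theorem pw_not {n r : ℕ} (c : ℂ) (a : Fin n → ℂ) {w : Fin (n + 2) → Fin (r + 2)}
    (h : ∀ S : Finset (Fin n), w ≠ wd S 0 0) : pw c (pf a) w = 0 := by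
  classical
  by_contra hne
  unfold pw at hne
  have h1 : w (Fin.last n).castSucc = 0 := by
    by_contra h2
    apply hne
    rw [if_neg h2]
    ring
  have h2 : w (Fin.last (n + 1)) = 0 := by
    by_contra h2
    apply hne
    rw [if_neg h2]
    ring
  have h3 : ∀ i : Fin n, w i.castSucc.castSucc = 0 ∨ w i.castSucc.castSucc = 1 := by
    intro i
    by_contra h4
    push Not at h4
    apply hne
    rw [Finset.prod_eq_zero (Finset.mem_univ i), zero_mul, zero_mul]
    unfold pf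
    rw [if_neg h4.1, if_neg h4.2]
  apply h (Finset.univ.filter fun i => w i.castSucc.castSucc = 1)
  funext i
  unfold wd
  refine Fin.lastCases ?_ (fun i => ?_) i
  · rw [Fin.snoc_last, h2]
  · rw [Fin.snoc_castSucc]
    refine Fin.lastCases ?_ (fun i => ?_) i
    · rw [Fin.snoc_last, h1]
    · rw [Fin.snoc_castSucc]
      simp only [Finset.mem_filter, Finset.mem_univ, true_and]
      rcases h3 i with h4 | h4
      · rw [h4, if_neg (by simp)]
      · rw [h4, if_pos rfl]

section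

variable {n r ρ : ℕ} (X : Fin n → Fin ρ → ℂ)

/-- The entries of the deformed tensor. -/
def zz (ε : ℂ) (S : Finset (Fin n)) : ℂ :=
  if S.card ≤ 1 then 0 else
    ε ^ (S.card - 2) * ∑ l, ∏ i ∈ S, X i l - ε ^ (2 * S.card - 3) * ∏ i ∈ S, ∑ l, X i l

/-- The deformed tensor. -/
def zA (r : ℕ) (ε : ℂ) (w : Fin (n + 2) → Fin (r + 2)) : ℂ :=
  (∑ S : Finset (Fin n), if w = wd S 0 0 then zz X ε S else 0)
    + ∑ t : Fin r, if w = wd ∅ (lt t) (lt t) then 1 else 0

theorem sum_wd (g : Finset (Fin n) → ℂ) (S : Finset (Fin n)) :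
    (∑ S' : Finset (Fin n), if (wd S 0 0 : Fin (n + 2) → Fin (r + 2)) = wd S' 0 0 then g S' else 0)
      = g S := by
  classical
  rw [Finset.sum_eq_single S]
  · rw [if_pos rfl]
  · intro S' _ hne
    rw [if_neg]
    intro h
    exact hne (wd_inj h).1.symm
  · intro h
    exact absurd (Finset.mem_univ _) h

theorem ext_wd (S : Finset (Fin n)) :
    (∑ t : Fin r, if (wd S 0 0 : Fin (n + 2) → Fin (r + 2)) = wd ∅ (lt t) (lt t) then (1 : ℂ)
      else 0) = 0 := by
  refine Finset.sum_eq_zero fun t _ => ?_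
  rw [if_neg]
  intro h3
  exact lt_ne t (wd_inj h3).2.1.symm

theorem zA_zero : zA X r 0 = TT r (fun e : Pr n => ∑ l, X e.1.1 l * X e.1.2 l) := by
  classical
  funext w
  by_cases hw : ∃ S, w = wd S 0 0
  · obtain ⟨S, rfl⟩ := hw
    unfold zA
    rw [sum_wd, ext_wd, add_zero]
    by_cases h2 : S.card = 2
    · have key : ∀ a b : Fin n, a < b → zz X 0 {a, b}
          = TT r (fun e : Pr n => ∑ l, X e.1.1 l * X e.1.2 l) (wd {a, b} 0 0) := by
        intro a b hab
        rw [TT_pair _ hab.ne]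
        unfold zz QQ
        rw [dif_pos hab, Finset.card_pair hab.ne, if_neg (by norm_num)]
        have h3 : ∑ l, ∏ i ∈ ({a, b} : Finset (Fin n)), X i l = ∑ l, X a l * X b l :=
          Finset.sum_congr rfl fun l _ => Finset.prod_pair hab.ne
        rw [h3]
        norm_num
      obtain ⟨a, b, hab, rfl⟩ := Finset.card_eq_two.1 h2
      rcases lt_or_gt_of_ne hab with h | h
      · exact key a b h
      · rw [Finset.pair_comm]
        exact key b a h
    · rw [TT_card _ h2]
      unfold zz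
      by_cases h1 : S.card ≤ 1
      · rw [if_pos h1]
      · rw [if_neg h1, zero_pow (by omega), zero_pow (by omega)]
        ring
  · push Not at hw
    unfold zA TT
    congr 1
    rw [Finset.sum_eq_zero fun S _ => if_neg (hw S)]
    rw [Finset.sum_eq_zero fun e _ => if_neg (hw _)]

theorem zA_cont : Continuous (zA X r) := by
  classical
  refine continuous_pi fun w => ?_
  unfold zA
  refine Continuous.add ?_ continuous_const
  refine continuous_finset_sum _ fun S _ => ?_
  by_cases h : w = wd S 0 0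
  · simp only [if_pos h]
    unfold zz
    by_cases h1 : S.card ≤ 1
    · simp only [if_pos h1]
      exact continuous_const
    · simp only [if_neg h1]
      refine Continuous.sub ?_ ?_
      · exact (continuous_id.pow _).mul continuous_const
      · exact (continuous_id.pow _).mul continuous_const
  · simp only [if_neg h]
    exact continuous_const

/-- The summands of the deformed tensor. -/
noncomputable def Pt (r : ℕ) (U : (Fin (n + 2) → Fin (r + 2)) → ℂ) (ε : ℂ) :
    Option (Option (Fin ρ ⊕ Fin r)) → (Fin (n + 2) → Fin (r + 2)) → ℂ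
  | none => fun w => ((ε⁻¹) ^ 3 - ρ * (ε⁻¹) ^ 2) * U w
  | some none => pw (-(ε⁻¹) ^ 3) (pf fun i => ε ^ 2 * ∑ l, X i l)
  | some (some (Sum.inl l)) => pw ((ε⁻¹) ^ 2) (pf fun i => ε * X i l)
  | some (some (Sum.inr t)) => fun w => if w = wd ∅ (lt t) (lt t) then 1 else 0

theorem Pt_sum (U : (Fin (n + 2) → Fin (r + 2)) → ℂ) {ε : ℂ} (hε : ε ≠ 0)
    (w : Fin (n + 2) → Fin (r + 2)) :
    ∑ j, Pt X r U ε j w = zA X r ε w
      + ((ε⁻¹) ^ 3 - ρ * (ε⁻¹) ^ 2) * (U w - if w = wd ∅ 0 0 then 1 else 0) := by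
  classical
  rw [Fintype.sum_option, Fintype.sum_option, Fintype.sum_sum_type]
  have hr : ∑ t, Pt X r U ε (some (some (Sum.inr t))) w
      = ∑ t : Fin r, if w = wd ∅ (lt t) (lt t) then 1 else 0 := rfl
  rw [hr]
  have h0 : Pt X r U ε none w = ((ε⁻¹) ^ 3 - ρ * (ε⁻¹) ^ 2) * U w := rfl
  rw [h0]
  unfold zA
  by_cases hw : ∃ S, w = wd S 0 0
  · obtain ⟨S, rfl⟩ := hw
    rw [sum_wd, ext_wd]
    have h1 : (if (wd S 0 0 : Fin (n + 2) → Fin (r + 2)) = wd ∅ 0 0 then (1 : ℂ) else 0)
        = if S = ∅ then 1 else 0 := by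
      simp only [wd_eq_iff, and_self, and_true]
    have h2 : Pt X r U ε (some none) (wd S 0 0)
        = -(ε⁻¹) ^ 3 * ((ε ^ 2) ^ S.card * ∏ i ∈ S, ∑ l, X i l) := by
      show pw _ (pf _) (wd S 0 0) = _
      rw [pw_wd, Finset.prod_mul_distrib, Finset.prod_const]
    have h3 : ∀ l, Pt X r U ε (some (some (Sum.inl l))) (wd S 0 0)
        = (ε⁻¹) ^ 2 * (ε ^ S.card * ∏ i ∈ S, X i l) := by
      intro l
      show pw _ (pf _) (wd S 0 0) = _
      rw [pw_wd, Finset.prod_mul_distrib, Finset.prod_const]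
    rw [h1, h2, Finset.sum_congr rfl fun l _ => h3 l, ← Finset.mul_sum, ← Finset.mul_sum]
    have hi : ε⁻¹ * ε = 1 := inv_mul_cancel₀ hε
    unfold zz
    by_cases h4 : S.card ≤ 1
    · rw [if_pos h4]
      rcases Nat.le_one_iff_eq_zero_or_eq_one.1 h4 with h6 | h6
      · rw [Finset.card_eq_zero] at h6
        subst h6
        simp only [Finset.card_empty, pow_zero, Finset.prod_empty, Finset.sum_const,
          Finset.card_univ, Fintype.card_fin, nsmul_eq_mul, mul_one, if_true]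
        ring
      · rw [h6]
        obtain ⟨i, rfl⟩ := Finset.card_eq_one.1 h6
        rw [if_neg (Finset.singleton_ne_empty i)]
        simp only [Finset.prod_singleton]
        linear_combination (-ε * (ε⁻¹) ^ 2 * ∑ l, X i l) * hi
    · rw [if_neg h4]
      have h5 : S ≠ ∅ := by
        rintro rfl
        simp at h4
      rw [if_neg h5]
      obtain ⟨s, hs⟩ : ∃ s, S.card = s + 2 := ⟨S.card - 2, by omega⟩
      rw [hs, show s + 2 - 2 = s by omega, show 2 * (s + 2) - 3 = 2 * s + 1 by omega]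
      have hi2 : (ε⁻¹) ^ 2 * ε ^ 2 = 1 := by
        rw [← mul_pow, hi, one_pow]
      have hi3 : (ε⁻¹) ^ 3 * ε ^ 3 = 1 := by
        rw [← mul_pow, hi, one_pow]
      linear_combination (ε ^ s * ∑ l, ∏ i ∈ S, X i l) * hi2
        - (ε ^ (2 * s + 1) * ∏ i ∈ S, ∑ l, X i l) * hi3
  · push Not at hw
    rw [Finset.sum_eq_zero fun S _ => if_neg (hw S), if_neg (hw ∅)]
    have h2 : Pt X r U ε (some none) w = 0 := pw_not _ _ hw
    have h3 : ∀ l, Pt X r U ε (some (some (Sum.inl l))) w = 0 := fun l => pw_not _ _ hw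
    rw [h2, Finset.sum_congr rfl fun l _ => h3 l, Finset.sum_const_zero]
    ring

theorem coarse_Pt {m : ℕ} (σ : Fin (n + 2) → Fin m) {U : (Fin (n + 2) → Fin (r + 2)) → ℂ}
    (hU : Coarse σ U) (ε : ℂ) (j : Option (Option (Fin ρ ⊕ Fin r))) :
    Coarse σ (Pt X r U ε j) := by
  match j with
  | none => exact coarse_smul hU (σ 0) _
  | some none => exact coarse_pw σ _ _
  | some (some (Sum.inl l)) => exact coarse_pw σ _ _
  | some (some (Sum.inr t)) =>
    have h := coarse_fine σ (fun (i : Fin (n + 2)) (x : Fin (r + 2)) =>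
      if x = wd ∅ (lt t) (lt t) i then 1 else 0)
    have h2 : (fun w : Fin (n + 2) → Fin (r + 2) => ∏ i,
        (if w i = (wd ∅ (lt t) (lt t) : Fin (n + 2) → Fin (r + 2)) i then (1 : ℂ) else 0))
        = Pt X r U ε (some (some (Sum.inr t))) := by
      funext w
      show _ = if w = wd ∅ (lt t) (lt t) then (1 : ℂ) else 0
      rw [Finset.prod_ite_zero]
      simp only [Finset.prod_const_one, Finset.mem_univ, true_imp_iff, funext_iff]
    rw [h2] at h
    exact h

/-- The parameter of the approximation. -/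
noncomputable def sp (ρ : ℕ) (ε : ℂ) : ℂ := ε ^ 3 * (1 - ρ * ε)⁻¹

theorem sp_tendsto (ρ : ℕ) :
    Filter.Tendsto (sp ρ) (nhdsWithin (0 : ℂ) {0}ᶜ) (nhdsWithin (0 : ℂ) {0}ᶜ) := by
  have h1 : ContinuousAt (fun ε : ℂ => 1 - ρ * ε) 0 := by fun_prop
  have h2 : (1 : ℂ) - ρ * 0 ≠ 0 := by simp
  have h3 : ContinuousAt (sp ρ) 0 :=
    (continuousAt_id.pow 3).mul (h1.inv₀ h2)
  refine tendsto_nhdsWithin_iff.2 ⟨?_, ?_⟩
  · have h4 : sp ρ 0 = 0 := by
      unfold sp
      simp
    have h5 := h3.tendsto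
    rw [h4] at h5
    exact h5.mono_left nhdsWithin_le_nhds
  · have h6 : ∀ᶠ ε : ℂ in nhdsWithin (0 : ℂ) {0}ᶜ, (1 : ℂ) - ρ * ε ≠ 0 :=
      (h1.eventually_ne h2).filter_mono nhdsWithin_le_nhds
    filter_upwards [h6, self_mem_nhdsWithin] with ε h7 h8
    exact mul_ne_zero (pow_ne_zero 3 h8) (inv_ne_zero h7)

theorem sp_inv {ρ : ℕ} {ε : ℂ} (hε : ε ≠ 0) (h : 1 - ρ * ε ≠ 0) :
    (sp ρ ε)⁻¹ = (ε⁻¹) ^ 3 - ρ * (ε⁻¹) ^ 2 := by
  unfold sp
  rw [mul_inv, inv_inv]
  field_simp

/-- The flattened equations vanish at the limit. -/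
theorem vanish {m : ℕ} (σ : Fin (n + 2) → Fin m) (y : Pr n → ℂ)
    (q : MvPolynomial ((b : Fin m) → ({i : Fin (n + 2) // σ i = b} → Fin (r + 2))) ℂ)
    (hq : ∀ v : Fin (ρ + 2 + r) → (b : Fin m) → ({i : Fin (n + 2) // σ i = b} → Fin (r + 2)) → ℂ,
      eval (fun g => ∑ j, ∏ b, v j b (g b)) q = 0) :
    eval (TT r (Qof (fun e => σ e.1.1.castSucc.castSucc = σ e.1.2.castSucc.castSucc) X y))
      (rename (fun (g : (b : Fin m) → ({i : Fin (n + 2) // σ i = b} → Fin (r + 2)))
        (i : Fin (n + 2)) => g (σ i) ⟨i, rfl⟩) q) = 0 := by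
  classical
  set p := rename (fun (g : (b : Fin m) → ({i : Fin (n + 2) // σ i = b} → Fin (r + 2)))
        (i : Fin (n + 2)) => g (σ i) ⟨i, rfl⟩) q with hp
  set E : Pr n → Prop := fun e => σ e.1.1.castSucc.castSucc = σ e.1.2.castSucc.castSucc with hE
  let bl : Pr n → Fin m := fun e => σ e.1.1.castSucc.castSucc
  let W : Pr n → Fin (n + 2) → Fin (r + 2) := fun e => wd {e.1.1, e.1.2} 0 0
  let f : ℂ → (Fin (n + 2) → Fin (r + 2)) → ℂ := near σ (wd ∅ 0 0) W bl E y
  have hW : ∀ e, E e → ∀ i, σ i ≠ bl e → W e i = (wd ∅ 0 0 : Fin (n + 2) → Fin (r + 2)) i := by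
    intro e he i
    show σ i ≠ bl e → (wd {e.1.1, e.1.2} 0 0 : Fin (n + 2) → Fin (r + 2)) i = _
    unfold wd
    refine Fin.lastCases ?_ (fun i => ?_) i
    · intro _
      rw [Fin.snoc_last, Fin.snoc_last]
    · rw [Fin.snoc_castSucc, Fin.snoc_castSucc]
      refine Fin.lastCases ?_ (fun i => ?_) i
      · intro _
        rw [Fin.snoc_last, Fin.snoc_last]
      · intro hi
        have h5 : i ∉ ({e.1.1, e.1.2} : Finset (Fin n)) := by
          intro h
          simp only [Finset.mem_insert, Finset.mem_singleton] at h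
          rcases h with h | h
          · exact hi (by rw [h])
          · exact hi (by rw [h]; exact he.symm)
        rw [Fin.snoc_castSucc, Fin.snoc_castSucc, if_neg h5, if_neg (Finset.notMem_empty i)]
  have hcard : Fintype.card (Option (Option (Fin ρ ⊕ Fin r))) = ρ + 2 + r := by
    rw [Fintype.card_option, Fintype.card_option, Fintype.card_sum, Fintype.card_fin,
      Fintype.card_fin]
    omega
  have h1 : ∀ ε, eval (fun w => ∑ j, Pt X r (f (sp ρ ε)) ε j w) p = 0 := fun ε =>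
    eval_coarse hcard q hq _ fun j => coarse_Pt X σ (coarse_near σ _ W bl E y _) ε j
  have h2 : Filter.Tendsto (fun ε w => ∑ j, Pt X r (f (sp ρ ε)) ε j w) (nhdsWithin 0 {0}ᶜ)
      (nhds (TT r (Qof E X y))) := by
    rw [tendsto_pi_nhds]
    intro w
    have h3 : Filter.Tendsto (fun ε => zA X r ε w + (sp ρ ε)⁻¹ * (f (sp ρ ε) w - f 0 w))
        (nhdsWithin 0 {0}ᶜ) (nhds (zA X r 0 w + ∑ e, if E e ∧ w = W e then y e else 0)) := by
      refine Filter.Tendsto.add ?_ ?_
      · have h4 := ((continuous_apply w).comp (zA_cont (r := r) X)).tendsto 0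
        exact h4.mono_left nhdsWithin_le_nhds
      · have h4 := hasDerivAt_iff_tendsto_slope_zero.1
          (near_deriv σ (wd ∅ 0 0) W bl E y hW w)
        have h5 := h4.comp (sp_tendsto ρ)
        refine h5.congr fun ε => ?_
        simp only [Function.comp, smul_eq_mul, zero_add]
        rfl
    have h4 : zA X r 0 w + (∑ e, if E e ∧ w = W e then y e else 0) = TT r (Qof E X y) w := by
      rw [zA_zero]
      unfold TT Qof
      have h5 : ∀ e : Pr n, (if w = wd {e.1.1, e.1.2} 0 0 then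
          ((∑ l, X e.1.1 l * X e.1.2 l) + if E e then y e else 0) else 0)
          = (if w = wd {e.1.1, e.1.2} 0 0 then ∑ l, X e.1.1 l * X e.1.2 l else 0)
            + if E e ∧ w = W e then y e else 0 := by
        intro e
        show _ = _ + if E e ∧ w = wd {e.1.1, e.1.2} 0 0 then y e else 0
        by_cases h6 : w = wd {e.1.1, e.1.2} 0 0
        · rw [if_pos h6, if_pos h6]
          simp only [h6, and_true]
        · rw [if_neg h6, if_neg h6, if_neg (fun h => h6 h.2), add_zero]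
      rw [Finset.sum_congr rfl fun e _ => h5 e, Finset.sum_add_distrib]
      ring
    rw [← h4]
    refine h3.congr' ?_
    have h5 : ContinuousAt (fun ε : ℂ => 1 - ρ * ε) 0 := by fun_prop
    have h6 : ∀ᶠ ε : ℂ in nhdsWithin (0 : ℂ) {0}ᶜ, (1 : ℂ) - ρ * ε ≠ 0 :=
      (h5.eventually_ne (by simp)).filter_mono nhdsWithin_le_nhds
    filter_upwards [h6, self_mem_nhdsWithin] with ε h7 h8
    rw [Pt_sum X _ h8, sp_inv h8 h7]
    congr 2
    congr 1
    exact near_zero σ _ W bl E y w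
  have h3 := ((MvPolynomial.continuous_eval p).tendsto (TT r (Qof E X y))).comp h2
  have h4 : ((fun x => eval x p) ∘ fun ε w => ∑ j, Pt X r (f (sp ρ ε)) ε j w) = fun _ => 0 := by
    funext ε
    exact h1 ε
  rw [h4] at h3
  exact tendsto_nhds_unique h3 tendsto_const_nhds

end

end Pentad
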