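import Pool.Agent.H.MP_b77b2b_ag.UStruct

/-!
# MP_b77b2b_ag, UChoose: generic functionals
-/

set_option autoImplicit false

namespace Pentad

variable {I : Type} [Fintype I] [DecidableEq I] {D : I → Type} [∀ i, Fintype (D i)]
  [∀ i, DecidableEq (D i)]

theorem exists_generic {κ : Type} [Field κ] (φ : ℂ →+* κ) (f : ((i : I) → D i → ℂ) → ℂ)
    (hf : Continuous f) (ℓ : (i : I) → D i → ℂ) (h0 : f ℓ ≠ 0) {J : Type} [Finite J] (c : J → I)
    (vb : (j : J) → D (c j) → κ) (hv : ∀ j, ∃ a, vb j a ≠ 0) :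
    ∃ ℓ', f ℓ' ≠ 0 ∧ ∀ j, ∑ a, vb j a * φ (ℓ' (c j) a) ≠ 0 := by
  classical
  let S : J → Submodule ℂ ((i : I) → D i → ℂ) := fun j =>
    { carrier := {ℓ' | ∑ a, vb j a * φ (ℓ' (c j) a) = 0}
      add_mem' := by
        intro x y hx hy
        rw [Set.mem_ofPred_eq] at hx hy ⊢
        simp only [Pi.add_apply, map_add, mul_add, Finset.sum_add_distrib, hx, hy, add_zero]
      zero_mem' := by
        rw [Set.mem_ofPred_eq]
        simp only [Pi.zero_apply, map_zero, mul_zero, Finset.sum_const_zero]
      smul_mem' := by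
        intro t x hx
        rw [Set.mem_ofPred_eq] at hx ⊢
        simp only [Pi.smul_apply, smul_eq_mul, map_mul]
        have h1 : ∑ a, vb j a * (φ t * φ (x (c j) a)) = φ t * ∑ a, vb j a * φ (x (c j) a) := by
          rw [Finset.mul_sum]
          exact Finset.sum_congr rfl fun a _ => by ring
        rw [h1, hx, mul_zero] }
  have hS : ∀ j, S j ≠ ⊤ := by
    intro j htop
    obtain ⟨a, ha⟩ := hv j
    have h1 : Function.update (0 : (i : I) → D i → ℂ) (c j) (ea a) ∈ S j := by
      rw [htop]
      exact Submodule.mem_top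
    have h2 : ∑ b, vb j b * φ (Function.update (0 : (i : I) → D i → ℂ) (c j) (ea a) (c j) b) = 0 :=
      h1
    rw [Function.update_self, Finset.sum_eq_single a] at h2
    · simp only [ea, if_true, map_one, mul_one] at h2
      exact ha h2
    · intro b _ hb
      simp only [ea, if_neg hb, map_zero, mul_zero]
    · intro hn
      exact absurd (Finset.mem_univ _) hn
  have hopen : ∀ j, IsOpen ((S j : Set ((i : I) → D i → ℂ))ᶜ) := fun j =>
    (Submodule.closed_of_finiteDimensional (S j)).isOpen_compl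
  have hdense : ∀ j, Dense ((S j : Set ((i : I) → D i → ℂ))ᶜ) := by
    intro j
    rw [← interior_eq_empty_iff_dense_compl]
    by_contra hne
    exact hS j (Submodule.eq_top_of_nonempty_interior' (S j) (Set.nonempty_iff_ne_empty.2 hne))
  have hd : Dense (⋂ j, (S j : Set ((i : I) → D i → ℂ))ᶜ) := dense_iInter_of_isOpen hopen hdense
  have ho : IsOpen {x | f x ≠ 0} := isOpen_ne.preimage hf
  obtain ⟨ℓ', h1, h2⟩ := hd.inter_open_nonempty _ ho ⟨ℓ, h0⟩
  refine ⟨ℓ', h1, fun j h3 => ?_⟩
  exact Set.mem_iInter.1 h2 j h3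

omit [∀ i, DecidableEq (D i)] in
theorem continuous_det (T : ((i : I) → D i) → ℂ) {r : ℕ} (A B : Finset I)
    (xs ys : Fin r → (i : I) → D i → ℂ) :
    Continuous fun ℓ : (i : I) → D i → ℂ => (PM T A B xs ys ℓ).det := by
  refine Continuous.matrix_det (continuous_matrix fun s t => ?_)
  show Continuous fun ℓ : (i : I) → D i → ℂ => ev T (m3 A B (xs s) (ys t) ℓ)
  unfold ev
  refine continuous_finsetSum _ fun w _ => continuous_const.mul ?_
  refine continuous_finsetProd _ fun i _ => ?_
  by_cases hA : i ∈ A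
  · simp only [m3, mix_of_mem hA]
    exact continuous_const
  · by_cases hB : i ∈ B
    · simp only [m3, mix_of_not hA, mix_of_mem hB]
      exact continuous_const
    · simp only [m3, mix_of_not hA, mix_of_not hB]
      fun_prop

end Pentad
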