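import Mathlib

/-!
# MP_b77b2b_ag, UCrit: few critical positions
-/

set_option autoImplicit false

namespace Pentad

open Module

theorem exists_max_nat {F : Type} [Nonempty F] (g : F → ℕ) (M : ℕ) (hM : ∀ f, g f ≤ M) :
    ∃ f1, ∀ f, g f ≤ g f1 := by
  classical
  let P : ℕ → Prop := fun n => ∃ f, g f = n
  obtain ⟨f0⟩ := ‹Nonempty F›
  have h0 : P (g f0) := ⟨f0, rfl⟩
  obtain ⟨f1, hf1⟩ := Nat.findGreatest_spec (P := P) (hM f0) h0
  refine ⟨f1, fun f => ?_⟩
  rw [hf1]
  exact Nat.le_findGreatest (hM f) ⟨f, rfl⟩

/-- If every contraction at the positions in `B` has a kernel on `E` then `E` is large. -/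
theorem crit {V F ι : Type} [NormedAddCommGroup V] [NormedSpace ℂ V] [FiniteDimensional ℂ V]
    [AddCommGroup F] [Module ℂ F] (c : ι → F →ₗ[ℂ] (V →ₗ[ℂ] V))
    (hcomm : ∀ i j, i ≠ j → ∀ f g u, c i f (c j g u) = c j g (c i f u))
    (hinj : ∀ i u, (∀ f, c i f u = 0) → u = 0) (B : Finset ι) :
    ∀ E : Submodule ℂ V, E ≠ ⊥ → (∀ i ∈ B, ∀ f, ∃ u ∈ E, u ≠ 0 ∧ c i f u = 0) →
      B.card < finrank ℂ E := by
  classical
  induction B using Finset.induction_on with
  | empty =>
    intro E hE _
    rw [Finset.card_empty]
    exact Nat.pos_of_ne_zero fun h => hE (Submodule.finrank_eq_zero.1 h)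
  | insert i0 B hi0 ih =>
    intro E hE hB
    obtain ⟨f1, hf1⟩ := exists_max_nat (fun f : F => finrank ℂ (E.map (c i0 f))) (finrank ℂ V)
      fun f => Submodule.finrank_le _
    set E' := E.map (c i0 f1) with hE'
    have hE'0 : E' ≠ ⊥ := by
      obtain ⟨u, huE, hu⟩ := E.exists_mem_ne_zero_of_ne_bot hE
      have h1 : ∃ f, c i0 f u ≠ 0 := by
        by_contra hcon
        push Not at hcon
        exact hu (hinj i0 u hcon)
      obtain ⟨f, hf⟩ := h1
      have h2 : E.map (c i0 f) ≠ ⊥ := by
        intro h3
        have h4 : c i0 f u ∈ E.map (c i0 f) := Submodule.mem_map_of_mem huE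
        rw [h3, Submodule.mem_bot] at h4
        exact hf h4
      have h3 : 0 < finrank ℂ (E.map (c i0 f)) :=
        Nat.pos_of_ne_zero fun h => h2 (Submodule.finrank_eq_zero.1 h)
      intro h4
      have h5 : finrank ℂ (E.map (c i0 f)) ≤ finrank ℂ E' := hf1 f
      have h6 : finrank ℂ E' = 0 := Submodule.finrank_eq_zero.2 h4
      omega
    have hB' : ∀ i ∈ B, ∀ f, ∃ u ∈ E', u ≠ 0 ∧ c i f u = 0 := by
      intro i hi f
      by_contra hcon
      push Not at hcon
      have hne : i ≠ i0 := fun h => hi0 (h ▸ hi)
      have hinjE : ∀ u ∈ E', c i f u = 0 → u = 0 := by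
        intro u hu h
        by_contra h0
        exact hcon u hu h0 h
      obtain ⟨u, huE, hu0, hu⟩ := hB i (Finset.mem_insert_of_mem hi) f
      apply hu0
      apply hinj i0
      intro f2
      let b := finBasis ℂ E'
      have hb : ∀ s, ∃ e ∈ E, c i0 f1 e = b s := fun s => (Submodule.mem_map).1 (b s).2
      choose e heE he using hb
      let a : ℂ → Fin (finrank ℂ E') → V := fun t s => c i f (c i0 (f1 + t • f2) (e s))
      have ha0 : LinearIndependent ℂ (a 0) := by
        rw [Fintype.linearIndependent_iff]
        intro g hg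
        have h1 : c i f (∑ s, g s • (b s : V)) = 0 := by
          rw [map_sum, ← hg]
          refine Finset.sum_congr rfl fun s _ => ?_
          rw [map_smul, ← he]
          simp only [a, zero_smul, add_zero]
        have h2 := hinjE _ (Submodule.sum_mem _ fun s _ => Submodule.smul_mem _ _ (b s).2) h1
        have h3 : ∑ s, g s • b s = 0 := by
          apply Subtype.ext
          rw [Submodule.coe_sum]
          simp only [Submodule.coe_smul, Submodule.coe_zero]
          exact h2
        exact Fintype.linearIndependent_iff.1 b.linearIndependent g h3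
      have hcont : Continuous a := by
        refine continuous_pi fun s => ?_
        have h1 : (fun t : ℂ => a t s)
            = fun t : ℂ => c i f (c i0 f1 (e s)) + t • c i f (c i0 f2 (e s)) := by
          funext t
          simp only [a, map_add, map_smul, LinearMap.add_apply, LinearMap.smul_apply]
        rw [h1]
        fun_prop
      have hopen : IsOpen {t : ℂ | LinearIndependent ℂ (a t)} :=
        isOpen_setOfPred_linearIndependent.preimage hcont
      have hev : ∀ᶠ t in nhds (0 : ℂ), LinearIndependent ℂ (a t) := hopen.mem_nhds ha0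
      obtain ⟨t, ht, ht0⟩ := ((hev.filter_mono nhdsWithin_le_nhds).and
        (self_mem_nhdsWithin : ({0}ᶜ : Set ℂ) ∈ nhdsWithin (0 : ℂ) {0}ᶜ)).exists
      have ht0' : t ≠ 0 := ht0
      have h1 : c i0 f1 u = 0 := by
        apply hinjE _ (Submodule.mem_map_of_mem huE)
        rw [hcomm i i0 hne, hu, map_zero]
      have h2 : c i0 (f1 + t • f2) u = 0 := by
        have hy : LinearIndependent ℂ fun s => c i0 (f1 + t • f2) (e s) :=
          LinearIndependent.of_comp (c i f) ht
        have hle : Submodule.span ℂ (Set.range fun s => c i0 (f1 + t • f2) (e s))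
            ≤ E.map (c i0 (f1 + t • f2)) := by
          rw [Submodule.span_le]
          rintro _ ⟨s, rfl⟩
          exact Submodule.mem_map_of_mem (heE s)
        have heq := Submodule.eq_of_le_of_finrank_le hle (by
          rw [finrank_span_eq_card hy, Fintype.card_fin]
          exact hf1 _)
        have hmem : c i0 (f1 + t • f2) u ∈ Submodule.span ℂ
            (Set.range fun s => c i0 (f1 + t • f2) (e s)) := by
          rw [heq]
          exact Submodule.mem_map_of_mem huE
        obtain ⟨β, hβ⟩ := (Submodule.mem_span_range_iff_exists_fun ℂ).1 hmem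
        have h3 : ∑ s, β s • a t s = 0 := by
          have h4 : c i f (c i0 (f1 + t • f2) u) = 0 := by
            rw [hcomm i i0 hne, hu, map_zero]
          rw [← hβ, map_sum] at h4
          rw [← h4]
          exact Finset.sum_congr rfl fun s _ => by rw [map_smul]
        have h4 := Fintype.linearIndependent_iff.1 ht β h3
        rw [← hβ]
        exact Finset.sum_eq_zero fun s _ => by rw [h4 s, zero_smul]
      rw [map_add, map_smul, LinearMap.add_apply, LinearMap.smul_apply, h1, zero_add] at h2
      exact (smul_eq_zero.1 h2).resolve_left ht0'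
    have h1 := ih E' hE'0 hB'
    have h2 : finrank ℂ E' < finrank ℂ E := by
      obtain ⟨u, huE, hu0, hu⟩ := hB i0 (Finset.mem_insert_self _ _) f1
      have h3 : finrank ℂ E' + finrank ℂ (LinearMap.ker ((c i0 f1).domRestrict E))
          = finrank ℂ E := by
        have h3' := LinearMap.finrank_range_add_finrank_ker ((c i0 f1).domRestrict E)
        rw [LinearMap.range_domRestrict] at h3'
        exact h3'
      have h4 : LinearMap.ker ((c i0 f1).domRestrict E) ≠ ⊥ := by
        intro h5
        have h6 : (⟨u, huE⟩ : E) ∈ LinearMap.ker ((c i0 f1).domRestrict E) := by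
          rw [LinearMap.mem_ker]
          exact hu
        rw [h5, Submodule.mem_bot] at h6
        exact hu0 (congrArg Subtype.val h6)
      have h5 : finrank ℂ (LinearMap.ker ((c i0 f1).domRestrict E)) ≠ 0 :=
        fun h => h4 (Submodule.finrank_eq_zero.1 h)
      omega
    rw [Finset.card_insert_of_notMem hi0]
    omega

end Pentad
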