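import Mathlib

/-!
# MP_b77b2b_ag, UEv: evaluation of tensors at functionals
-/

set_option autoImplicit false

namespace Pentad

/-- Functionals from two families. -/
def mix {I : Type} [DecidableEq I] {R : I → Type} (S : Finset I) (x y : (i : I) → R i) (i : I) :
    R i :=
  if i ∈ S then x i else y i

theorem mix_of_mem {I : Type} [DecidableEq I] {R : I → Type} {S : Finset I} {i : I}
    (h : i ∈ S) (x y : (i : I) → R i) : mix S x y i = x i := if_pos h

theorem mix_of_not {I : Type} [DecidableEq I] {R : I → Type} {S : Finset I} {i : I}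
    (h : i ∉ S) (x y : (i : I) → R i) : mix S x y i = y i := if_neg h

section

variable {I : Type} [Fintype I] [DecidableEq I] {D : I → Type} [∀ i, Fintype (D i)]
  [∀ i, DecidableEq (D i)]

omit [∀ i, DecidableEq (D i)] in
theorem prod_sum_univ {R : Type} [CommSemiring R] (f : (i : I) → D i → R) :
    ∏ i, ∑ a, f i a = ∑ w : (i : I) → D i, ∏ i, f i (w i) := by
  rw [Finset.prod_univ_sum, Fintype.piFinset_univ]

/-- Evaluation of a tensor at functionals. -/
def ev (T : ((i : I) → D i) → ℂ) (x : (i : I) → D i → ℂ) : ℂ := ∑ w, T w * ∏ i, x i (w i)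

/-- The coordinate functionals of a word. -/
def dl {I : Type} {D : I → Type} [∀ i, DecidableEq (D i)] (w : (i : I) → D i) (i : I) (a : D i) :
    ℂ := if a = w i then 1 else 0

theorem ev_dl (T : ((i : I) → D i) → ℂ) (w : (i : I) → D i) : ev T (dl w) = T w := by
  classical
  unfold ev dl
  rw [Finset.sum_eq_single w]
  · simp
  · intro w' _ hne
    have h : ∃ i, w' i ≠ w i := by
      by_contra hcon
      push Not at hcon
      exact hne (funext hcon)
    obtain ⟨i, hi⟩ := h
    rw [Finset.prod_eq_zero (Finset.mem_univ i) (if_neg hi), mul_zero]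
  · intro h
    exact absurd (Finset.mem_univ _) h

/-- The coordinate functional. -/
def ea {E : Type} [DecidableEq E] (a b : E) : ℂ := if b = a then 1 else 0

theorem ev_expand (T : ((i : I) → D i) → ℂ) (z : (i : I) → D i → ℂ) (i : I)
    (f : D i → ℂ) :
    ev T (Function.update z i f) = ∑ a, f a * ev T (Function.update z i (ea a)) := by
  classical
  have h : ∀ (h : D i → ℂ) (w : (i : I) → D i), ∏ j, Function.update z i h j (w j)
      = h (w i) * ∏ j ∈ Finset.univ.erase i, z j (w j) := by
    intro h w
    rw [← Finset.mul_prod_erase Finset.univ _ (Finset.mem_univ i), Function.update_self]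
    congr 1
    refine Finset.prod_congr rfl fun j hj => ?_
    rw [Function.update_of_ne (Finset.ne_of_mem_erase hj)]
  unfold ev
  simp only [h, Finset.mul_sum]
  rw [Finset.sum_comm]
  refine Finset.sum_congr rfl fun w _ => ?_
  rw [Finset.sum_eq_single (w i)]
  · simp only [ea, if_true]
    ring
  · intro a _ hne
    simp only [ea, if_neg hne.symm, zero_mul, mul_zero]
  · intro hn
    exact absurd (Finset.mem_univ _) hn

/-- Expansion of the functionals in a set of positions. -/
theorem ev_mix_expand (T : ((i : I) → D i) → ℂ) (W : Finset I) (x z : (i : I) → D i → ℂ)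
    (w0 : (i : I) → D i) :
    ev T (mix W x z) = ∑ w : (i : I) → D i, (∏ i, mix W x (dl w0) i (w i)) *
      ev T (mix W (dl w) z) := by
  classical
  unfold ev
  simp only [Finset.mul_sum]
  rw [Finset.sum_comm]
  refine Finset.sum_congr rfl fun w' _ => ?_
  have h1 : ∀ w : (i : I) → D i, (∏ i, mix W x (dl w0) i (w i)) *
      (T w' * ∏ i, mix W (dl w) z i (w' i))
      = T w' * ∏ i, (if i ∈ W then x i (w i) * (if w' i = w i then 1 else 0)
        else (if w i = w0 i then 1 else 0) * z i (w' i)) := by
    intro w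
    rw [mul_left_comm, ← Finset.prod_mul_distrib]
    congr 1
    refine Finset.prod_congr rfl fun i _ => ?_
    by_cases hi : i ∈ W
    · rw [if_pos hi, mix_of_mem hi, mix_of_mem hi]
      rfl
    · rw [if_neg hi, mix_of_not hi, mix_of_not hi]
      rfl
  rw [Finset.sum_congr rfl fun w _ => h1 w, ← Finset.mul_sum]
  congr 1
  rw [← prod_sum_univ (fun (i : I) (a : D i) => (if i ∈ W then x i a * (if w' i = a then 1 else 0)
        else (if a = w0 i then 1 else 0) * z i (w' i) : ℂ))]
  refine Finset.prod_congr rfl fun i _ => ?_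
  by_cases hi : i ∈ W
  · simp only [if_pos hi, mix_of_mem hi, mul_ite, mul_one, mul_zero]
    rw [Finset.sum_ite_eq, if_pos (Finset.mem_univ _)]
  · simp only [if_neg hi, mix_of_not hi, ite_mul, one_mul, zero_mul]
    rw [Finset.sum_ite_eq', if_pos (Finset.mem_univ _)]

end

/-- The Schur complement identity. -/
theorem schur {α β : Type} {r : ℕ} (M : α → β → ℂ)
    (h : ∀ (p : Fin (r + 1) → α) (q : Fin (r + 1) → β), (Matrix.of fun s t => M (p s) (q t)).det = 0)
    (p : Fin r → α) (q : Fin r → β) (h0 : (Matrix.of fun s t => M (p s) (q t)).det ≠ 0)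
    (x : α) (y : β) :
    M x y = ∑ t, ∑ s, M x (q t) * (Matrix.of fun s t => M (p s) (q t))⁻¹ t s * M (p s) y := by
  classical
  set P : Matrix (Fin r) (Fin r) ℂ := Matrix.of fun s t => M (p s) (q t) with hP
  let C : Matrix (Fin r) (Fin 1) ℂ := fun s _ => M (p s) y
  let R : Matrix (Fin 1) (Fin r) ℂ := fun _ t => M x (q t)
  let D : Matrix (Fin 1) (Fin 1) ℂ := fun _ _ => M x y
  have hinv : Invertible P := Matrix.invertibleOfIsUnitDet P (isUnit_iff_ne_zero.2 h0)
  have h1 : (Matrix.fromBlocks P C R D).det = 0 := by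
    have h2 := h (Fin.snoc (α := fun _ => α) p x) (Fin.snoc (α := fun _ => β) q y)
    have h3 : (Matrix.of fun s t => M (Fin.snoc (α := fun _ => α) p x s)
        (Fin.snoc (α := fun _ => β) q y t))
        = (Matrix.fromBlocks P C R D).submatrix finSumFinEquiv.symm finSumFinEquiv.symm := by
      ext s t
      refine Fin.lastCases ?_ (fun s => ?_) s <;> refine Fin.lastCases ?_ (fun t => ?_) t
      · rw [Matrix.submatrix_apply]
        have h4 : (finSumFinEquiv.symm (Fin.last r) : Fin r ⊕ Fin 1) = Sum.inr 0 := by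
          rw [Equiv.symm_apply_eq]
          rfl
        rw [h4]
        simp [Matrix.fromBlocks_apply₂₂, D]
      · have h4 : (finSumFinEquiv.symm (Fin.last r) : Fin r ⊕ Fin 1) = Sum.inr 0 := by
          rw [Equiv.symm_apply_eq]
          rfl
        have h5 : (finSumFinEquiv.symm (Fin.castSucc t) : Fin r ⊕ Fin 1) = Sum.inl t := by
          rw [Equiv.symm_apply_eq]
          rfl
        rw [Matrix.submatrix_apply, h4, h5]
        simp [Matrix.fromBlocks_apply₂₁, R]
      · have h4 : (finSumFinEquiv.symm (Fin.last r) : Fin r ⊕ Fin 1) = Sum.inr 0 := by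
          rw [Equiv.symm_apply_eq]
          rfl
        have h5 : (finSumFinEquiv.symm (Fin.castSucc s) : Fin r ⊕ Fin 1) = Sum.inl s := by
          rw [Equiv.symm_apply_eq]
          rfl
        rw [Matrix.submatrix_apply, h4, h5]
        simp [Matrix.fromBlocks_apply₁₂, C]
      · have h5 : ∀ s : Fin r, (finSumFinEquiv.symm (Fin.castSucc s) : Fin r ⊕ Fin 1)
            = Sum.inl s := by
          intro s
          rw [Equiv.symm_apply_eq]
          rfl
        rw [Matrix.submatrix_apply, h5, h5]
        simp [Matrix.fromBlocks_apply₁₁, P]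
    rw [h3, Matrix.det_submatrix_equiv_self] at h2
    exact h2
  rw [Matrix.det_fromBlocks₁₁] at h1
  have h2 : (D - R * ⅟P * C).det = 0 := (mul_eq_zero.1 h1).resolve_left h0
  rw [Matrix.det_fin_one, Matrix.sub_apply, sub_eq_zero] at h2
  have h3 : D 0 0 = M x y := rfl
  rw [h3] at h2
  rw [h2, Matrix.invOf_eq_nonsing_inv, Matrix.mul_assoc, Matrix.mul_apply]
  refine Finset.sum_congr rfl fun t _ => ?_
  rw [Matrix.mul_apply, Finset.mul_sum]
  exact Finset.sum_congr rfl fun s _ => by ring

/-- A linearly independent family of functions has a nonvanishing minor. -/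
theorem exists_minor {W : Type} {r : ℕ} (e : Fin r → W → ℂ) (h : LinearIndependent ℂ e) :
    ∃ w : Fin r → W, (Matrix.of fun s t => e s (w t)).det ≠ 0 := by
  classical
  obtain ⟨κ, a, -, hspan, hli⟩ := exists_linearIndependent' ℂ
    (fun (w : W) (s : Fin r) => e s w)
  have htop : Submodule.span ℂ (Set.range fun (w : W) (s : Fin r) => e s w) = ⊤ := by
    by_contra hne
    obtain ⟨f, hf0, hf⟩ := Submodule.exists_le_ker_of_lt_top _ (lt_top_iff_ne_top.2 hne)
    apply hf0
    have h1 : ∀ w, f (fun s => e s w) = 0 := fun w =>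
      LinearMap.mem_ker.1 (hf (Submodule.subset_span ⟨w, rfl⟩))
    have h2 : ∑ s, f (Pi.single s 1) • e s = 0 := by
      funext w
      rw [Finset.sum_apply, Pi.zero_apply, ← h1 w]
      conv_rhs => rw [← Finset.univ_sum_single (fun s => e s w)]
      rw [map_sum]
      refine Finset.sum_congr rfl fun s _ => ?_
      have h3 : (Pi.single s (e s w) : Fin r → ℂ) = e s w • Pi.single s 1 := by
        rw [← Pi.single_smul, smul_eq_mul, mul_one]
      rw [h3, map_smul, Pi.smul_apply, smul_eq_mul, smul_eq_mul, mul_comm]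
    have h3 := Fintype.linearIndependent_iff.1 h _ h2
    refine LinearMap.pi_ext' fun s => ?_
    refine LinearMap.ext_ring ?_
    rw [LinearMap.comp_apply, LinearMap.single_apply, LinearMap.zero_comp, LinearMap.zero_apply]
    exact h3 s
  rw [htop] at hspan
  let b : Module.Basis κ ℂ (Fin r → ℂ) := Module.Basis.mk hli hspan.ge
  have hfin : Fintype κ := FiniteDimensional.fintypeBasisIndex b
  have hcard : Fintype.card κ = Fintype.card (Fin r) := by
    rw [← Module.finrank_eq_card_basis b, Module.finrank_fintype_fun_eq_card]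
  let q : Fin r ≃ κ := (Fintype.equivOfCardEq hcard).symm
  refine ⟨fun t => a (q t), ?_⟩
  have h1 : LinearIndependent ℂ
      (Matrix.of fun s t => e s (a (q t)) : Matrix (Fin r) (Fin r) ℂ).transpose.row := by
    have h2 := hli.comp q q.injective
    exact h2
  intro h0
  rw [← Matrix.det_transpose] at h0
  have h2 := Matrix.linearIndependent_rows_iff_isUnit.1 h1
  rw [Matrix.isUnit_iff_isUnit_det, h0] at h2
  exact not_isUnit_zero h2

end Pentad
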