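import Pool.Agent.H.MP_b77b2b_ag.UStruct
import Pool.Agent.H.MP_b77b2b_ag.Lin

/-!
# MP_b77b2b_ag, UFam: decompositions over valued fields from the coarsenings
-/

set_option autoImplicit false

namespace Pentad

open IsLocalRing MvPolynomial

section

variable (k : ℕ) {J : Type} [Fintype J] (G : J → Type)

/-- The parametrisation of the secant variety. -/
noncomputable def parG : MvPolynomial ((b : J) → G b) ℂ →+*
    MvPolynomial (Fin k × (b : J) × G b) ℂ :=
  (aeval fun w : (b : J) → G b => ∑ j, ∏ b, X (j, ⟨b, w b⟩) :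
    MvPolynomial ((b : J) → G b) ℂ →ₐ[ℂ] MvPolynomial (Fin k × (b : J) × G b) ℂ).toRingHom

theorem parG_X (w : (b : J) → G b) : parG k G (X w) = ∑ j, ∏ b, X (j, ⟨b, w b⟩) := by
  unfold parG
  exact aeval_X _ _

theorem parG_C (c : ℂ) : parG k G (C c) = C c := by
  unfold parG
  exact aeval_C _ _

theorem eval_parG (p : MvPolynomial ((b : J) → G b) ℂ) (v : Fin k → (b : J) → G b → ℂ) :
    eval (fun t : Fin k × (b : J) × G b => v t.1 t.2.1 t.2.2) (parG k G p)
      = eval (fun w => ∑ j, ∏ b, v j b (w b)) p := by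
  have h1 : (eval (fun t : Fin k × (b : J) × G b => v t.1 t.2.1 t.2.2)).comp (parG k G)
      = eval (fun w => ∑ j, ∏ b, v j b (w b)) := by
    apply MvPolynomial.ringHom_ext
    · intro c
      rw [RingHom.comp_apply, parG_C, eval_C, eval_C]
    · intro w
      rw [RingHom.comp_apply, parG_X, eval_X, map_sum]
      refine Finset.sum_congr rfl fun j _ => ?_
      rw [map_prod]
      refine Finset.prod_congr rfl fun b _ => ?_
      rw [eval_X]
  exact RingHom.congr_fun h1 p

/-- Vanishing on sums of products over the complex numbers gives vanishing over extensions. -/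
theorem parG_eq_zero {p : MvPolynomial ((b : J) → G b) ℂ}
    (hp : ∀ v : Fin k → (b : J) → G b → ℂ, eval (fun w => ∑ j, ∏ b, v j b (w b)) p = 0) :
    parG k G p = 0 := by
  refine MvPolynomial.funext fun t => ?_
  rw [map_zero]
  have h1 := eval_parG k G p (fun j b a => t (j, ⟨b, a⟩))
  have h2 := hp (fun j b a => t (j, ⟨b, a⟩))
  beta_reduce at h1 h2
  rw [h2] at h1
  have ht : (fun t' : Fin k × (b : J) × G b => t (t'.1, ⟨t'.2.1, t'.2.2⟩)) = t :=
    funext fun _ => rfl
  rw [ht] at h1
  exact h1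

theorem eval₂_eq_zero {K : Type} [Field K] (ι : ℂ →+* K) {p : MvPolynomial ((b : J) → G b) ℂ}
    (hp : ∀ v : Fin k → (b : J) → G b → ℂ, eval (fun w => ∑ j, ∏ b, v j b (w b)) p = 0)
    (v : Fin k → (b : J) → G b → K) :
    eval₂ ι (fun w => ∑ j, ∏ b, v j b (w b)) p = 0 := by
  have h1 : (eval₂Hom ι (fun t : Fin k × (b : J) × G b => v t.1 t.2.1 t.2.2)).comp (parG k G)
      = eval₂Hom ι (fun w => ∑ j, ∏ b, v j b (w b)) := by
    apply MvPolynomial.ringHom_ext
    · intro c
      rw [RingHom.comp_apply, parG_C, eval₂Hom_C, eval₂Hom_C]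
    · intro w
      rw [RingHom.comp_apply, parG_X, eval₂Hom_X', map_sum]
      refine Finset.sum_congr rfl fun j _ => ?_
      rw [map_prod]
      refine Finset.prod_congr rfl fun b _ => ?_
      rw [eval₂Hom_X']
  have h2 := RingHom.congr_fun h1 p
  rw [RingHom.comp_apply, parG_eq_zero k G hp, map_zero] at h2
  exact h2.symm

end

/-- A point of the secant variety gives a decomposition over a valued field. -/
theorem exists_valuedG {k : ℕ} {J : Type} [Fintype J] {G : J → Type} (T : ((b : J) → G b) → ℂ)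
    (hT : ∀ p : MvPolynomial ((b : J) → G b) ℂ,
      (∀ v : Fin k → (b : J) → G b → ℂ, eval (fun w => ∑ j, ∏ b, v j b (w b)) p = 0) →
        eval T p = 0) :
    ∃ (K : Type) (_ : Field K) (B : ValuationSubring K) (ι : ℂ →+* B)
      (v : Fin k → (b : J) → G b → K), (∀ j b c, v j b c ≠ 0) ∧
      ∀ w : (b : J) → G b, (∑ j, ∏ b, v j b (w b)) ∈ B ∧
        res B (∑ j, ∏ b, v j b (w b)) = residue B (ι (T w)) := by
  let P := MvPolynomial (Fin k × (b : J) × G b) ℂ
  let K := FractionRing P
  let ψ : MvPolynomial ((b : J) → G b) ℂ →+* K := (algebraMap P K).comp (parG k G)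
  have hψ0 : ∀ p, ψ p = 0 → eval T p = 0 := by
    intro p hp
    refine hT p fun v => ?_
    have h1 : parG k G p = 0 := by
      have h2 : algebraMap P K (parG k G p) = 0 := hp
      exact (map_eq_zero_iff _ (IsFractionRing.injective P K)).1 h2
    rw [← eval_parG, h1, map_zero]
  let I : Ideal ψ.range := (RingHom.ker (eval T)).map ψ.rangeRestrict
  have hI : I ≠ ⊤ := by
    intro h0
    rw [Ideal.eq_top_iff_one] at h0
    obtain ⟨p, hp, hp1⟩ := (Ideal.mem_map_iff_of_surjective _ ψ.rangeRestrict_surjective).1 h0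
    have h1 : ψ p = 1 := congrArg Subtype.val hp1
    have h2 : ψ (p - 1) = 0 := by
      rw [map_sub, map_one, h1, sub_self]
    have h3 := hψ0 _ h2
    rw [map_sub, map_one, RingHom.mem_ker.1 hp, zero_sub] at h3
    exact one_ne_zero (neg_eq_zero.1 h3)
  obtain ⟨B, hAB, hIB⟩ := Ideal.image_subset_nonunits_valuationSubring I hI
  have hmem : ∀ p, ψ p ∈ B := fun p => hAB ⟨p, rfl⟩
  let ψB : MvPolynomial ((b : J) → G b) ℂ →+* B :=
    { toFun := fun p => ⟨ψ p, hmem p⟩
      map_one' := Subtype.ext (map_one ψ)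
      map_mul' := fun p q => Subtype.ext (map_mul ψ p q)
      map_zero' := Subtype.ext (map_zero ψ)
      map_add' := fun p q => Subtype.ext (map_add ψ p q) }
  let ι : ℂ →+* B := ψB.comp C
  have hres : ∀ p, res B (ψ p) = residue B (ι (eval T p)) := by
    intro p
    have h1 : ψ (p - C (eval T p)) ∈ B.nonunits := by
      apply hIB
      refine ⟨ψ.rangeRestrict (p - C (eval T p)), ?_, rfl⟩
      refine Ideal.mem_map_of_mem _ ?_
      rw [RingHom.mem_ker, map_sub, eval_C, sub_self]
    have h2 : residue B (ψB (p - C (eval T p))) = 0 := by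
      rw [residue_eq_zero_iff]
      exact (ValuationSubring.coe_mem_nonunits_iff).1 h1
    rw [map_sub, map_sub, sub_eq_zero] at h2
    rw [res_of_mem (hmem p)]
    exact h2
  let v : Fin k → (b : J) → G b → K := fun j b c => algebraMap P K (X (j, ⟨b, c⟩))
  have hv : ∀ w : (b : J) → G b, ∑ j, ∏ b, v j b (w b) = ψ (X w) := by
    intro w
    show _ = algebraMap P K (parG k G (X w))
    rw [parG_X, map_sum]
    refine Finset.sum_congr rfl fun j _ => ?_
    rw [map_prod]
  refine ⟨K, inferInstance, B, ι, v, fun j b c => ?_, fun w => ?_⟩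
  · show algebraMap P K (X (j, ⟨b, c⟩)) ≠ 0
    rw [Ne, map_eq_zero_iff _ (IsFractionRing.injective P K)]
    exact X_ne_zero _
  · rw [hv, hres, eval_X]
    exact ⟨hmem _, rfl⟩

section

variable {F : Type} [Fintype F] [DecidableEq F] {D : F → Type} [∀ i, Fintype (D i)]
  {R : Type} [CommRing R]

/-- Evaluation over a ring. -/
def evR (c : ((i : F) → D i) → R) (x : (i : F) → D i → R) : R := ∑ g, c g * ∏ i, x i (g i)

theorem evR_expand [∀ i, DecidableEq (D i)] (T : ((i : F) → D i) → R) (z : (i : F) → D i → R)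
    (i : F) (f : D i → R) :
    evR T (Function.update z i f)
      = ∑ a, f a * evR T (Function.update z i (fun b => if b = a then 1 else 0)) := by
  classical
  have h : ∀ (h : D i → R) (w : (i : F) → D i), ∏ j, Function.update z i h j (w j)
      = h (w i) * ∏ j ∈ Finset.univ.erase i, z j (w j) := by
    intro h w
    rw [← Finset.mul_prod_erase Finset.univ _ (Finset.mem_univ i), Function.update_self]
    congr 1
    refine Finset.prod_congr rfl fun j hj => ?_
    rw [Function.update_of_ne (Finset.ne_of_mem_erase hj)]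
  unfold evR
  simp only [h, Finset.mul_sum]
  rw [Finset.sum_comm]
  refine Finset.sum_congr rfl fun w _ => ?_
  rw [Finset.sum_eq_single (w i)]
  · simp only [if_true]
    ring
  · intro a _ hne
    simp only [if_neg hne.symm, zero_mul, mul_zero]
  · intro hn
    exact absurd (Finset.mem_univ _) hn

theorem evR_dl [∀ i, DecidableEq (D i)] (T : ((i : F) → D i) → R) (w : (i : F) → D i) :
    evR T (fun i a => if a = w i then 1 else 0) = T w := by
  classical
  unfold evR
  rw [Finset.sum_eq_single w]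
  · simp
  · intro w' _ hne
    have h : ∃ i, w' i ≠ w i := by
      by_contra hcon
      push Not at hcon
      exact hne (funext hcon)
    obtain ⟨i, hi⟩ := h
    rw [Finset.prod_eq_zero (Finset.mem_univ i) (if_neg hi), mul_zero]
  · intro h
    exact absurd (Finset.mem_univ _) h

end

section

variable {I : Type} {D : I → Type} {m : ℕ}

/-- Words are families of words on the blocks. -/
def joinE (σ : I → Fin m) :
    ((b : Fin m) → ((i : {i : I // σ i = b}) → D i.1)) ≃ ((i : I) → D i) where
  toFun g i := g (σ i) ⟨i, rfl⟩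
  invFun w _ i := w i.1
  left_inv g := by
    funext b i
    obtain ⟨i, rfl⟩ := i
    rfl
  right_inv _ := rfl

/-- All coarsenings to `m` blocks are in the secant variety. -/
def Coarse (T : ((i : I) → D i) → ℂ) (k m : ℕ) : Prop :=
  ∀ (σ : I → Fin m) (q : MvPolynomial ((b : Fin m) → ((i : {i : I // σ i = b}) → D i.1)) ℂ),
    (∀ v : Fin k → (b : Fin m) → ((i : {i : I // σ i = b}) → D i.1) → ℂ,
      eval (fun g => ∑ j, ∏ b, v j b (g b)) q = 0) →
    eval (fun g => T (joinE σ g)) q = 0

end

section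

variable {I : Type} [Fintype I] [DecidableEq I] {D : I → Type} [∀ i, Fintype (D i)]
  [∀ i, DecidableEq (D i)] {T : ((i : I) → D i) → ℂ} {k m : ℕ}

theorem exists_blocks (hT : Coarse T k m) (σ : I → Fin m) :
    ∃ (K : Type) (_ : Field K) (B : ValuationSubring K) (ι : ℂ →+* B)
      (V : Fin k → Fin m → ((i : I) → D i → ℂ) → K),
      (∀ j b w, V j b (dl w) ≠ 0) ∧
      (∀ j b x y, (∀ i, σ i = b → x i = y i) → V j b x = V j b y) ∧
      (∀ j i z (f : D i → ℂ), V j (σ i) (Function.update z i f)
        = ∑ a, (ι (f a) : K) * V j (σ i) (Function.update z i (ea a))) ∧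
      ∀ x, (∑ j, ∏ b, V j b x) ∈ B ∧ res B (∑ j, ∏ b, V j b x) = residue B (ι (ev T x)) := by
  classical
  obtain ⟨K, hK, B, ι, v, hv0, hv⟩ := exists_valuedG (fun g => T (joinE σ g)) (hT σ)
  let V : Fin k → Fin m → ((i : I) → D i → ℂ) → K := fun j b x =>
    evR (v j b) (fun (i : {i : I // σ i = b}) a => (ι (x i.1 a) : K))
  refine ⟨K, hK, B, ι, V, ?_, ?_, ?_, ?_⟩
  · intro j b w
    have h1 : V j b (dl w) = v j b (fun i => w i.1) := by
      rw [← evR_dl (v j b) (fun i => w i.1)]
      show evR (v j b) (fun (i : {i : I // σ i = b}) a => (ι (dl w i.1 a) : K)) = _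
      congr 1
      funext i a
      unfold dl
      split_ifs
      · rw [map_one]
        rfl
      · rw [map_zero]
        rfl
    rw [h1]
    exact hv0 _ _ _
  · intro j b x y hxy
    show evR (v j b) (fun (i : {i : I // σ i = b}) a => (ι (x i.1 a) : K))
      = evR (v j b) (fun (i : {i : I // σ i = b}) a => (ι (y i.1 a) : K))
    congr 1
    funext i a
    rw [hxy i.1 i.2]
  · intro j i z f
    have h1 : ∀ f : D i → ℂ, (fun (i' : {i' : I // σ i' = σ i}) a =>
        (ι (Function.update z i f i'.1 a) : K))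
        = Function.update (fun (i' : {i' : I // σ i' = σ i}) a => (ι (z i'.1 a) : K))
          ⟨i, rfl⟩ (fun a => (ι (f a) : K)) := by
      intro f
      funext i' a
      by_cases h : i' = ⟨i, rfl⟩
      · subst h
        rw [Function.update_self, Function.update_self]
      · rw [Function.update_of_ne h, Function.update_of_ne fun h' => h (Subtype.ext h')]
    have h2 : ∀ f : D i → ℂ, V j (σ i) (Function.update z i f) = evR (v j (σ i))
        (Function.update (fun (i' : {i' : I // σ i' = σ i}) a => (ι (z i'.1 a) : K))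
          ⟨i, rfl⟩ (fun a => (ι (f a) : K))) := by
      intro f
      rw [← h1]
    rw [h2, evR_expand]
    refine Finset.sum_congr rfl fun a _ => ?_
    rw [h2]
    congr 3
    funext b
    unfold ea
    split_ifs
    · rw [map_one]
      rfl
    · rw [map_zero]
      rfl
  · intro x
    have h1 : ∀ j, ∏ b, V j b x = ∑ g : (b : Fin m) → ((i : {i : I // σ i = b}) → D i.1),
        (∏ b, v j b (g b)) * (ι (∏ i, x i (joinE σ g i)) : K) := by
      intro j
      show ∏ b, ∑ g, v j b g * ∏ i, (ι (x i.1 (g i)) : K) = _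
      rw [prod_sum_univ (fun b g => v j b g * ∏ i, (ι (x i.1 (g i)) : K))]
      refine Finset.sum_congr rfl fun g _ => ?_
      rw [Finset.prod_mul_distrib]
      congr 1
      rw [map_prod, ← (Equiv.sigmaFiberEquiv σ).prod_comp, Fintype.prod_sigma]
      push_cast
      refine Finset.prod_congr rfl fun b _ => Finset.prod_congr rfl fun i _ => ?_
      obtain ⟨i, rfl⟩ := i
      rfl
    have h2 : ∑ j, ∏ b, V j b x = ∑ g : (b : Fin m) → ((i : {i : I // σ i = b}) → D i.1),
        (∑ j, ∏ b, v j b (g b)) * (ι (∏ i, x i (joinE σ g i)) : K) := by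
      simp only [h1, Finset.sum_mul]
      rw [Finset.sum_comm]
    rw [h2]
    refine ⟨B.toSubring.sum_mem fun g _ => B.mul_mem _ _ (hv g).1 (ι _).2, ?_⟩
    rw [res_sum _ _ fun g _ => B.mul_mem _ _ (hv g).1 (ι _).2]
    have h3 : ev T x = ∑ g : (b : Fin m) → ((i : {i : I // σ i = b}) → D i.1),
        T (joinE σ g) * ∏ i, x i (joinE σ g i) := by
      unfold ev
      exact ((joinE σ).sum_comp fun w => T w * ∏ i, x i (w i)).symm
    rw [h3, map_sum, map_sum]
    refine Finset.sum_congr rfl fun g _ => ?_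
    rw [res_mul (hv g).1 (ι _).2, (hv g).2, res_coe, map_mul, map_mul]

/-- All flattenings have rank at most `k`. -/
theorem rank_le (hT : Coarse T k m) (hm : 2 ≤ m) : RankLE T k := by
  classical
  intro A xs ys
  let b0 : Fin m := ⟨0, by omega⟩
  let b1 : Fin m := ⟨1, by omega⟩
  let σ : I → Fin m := fun i => if i ∈ A then b0 else b1
  have h01 : b1 ≠ b0 := by
    intro h
    have := congrArg Fin.val h
    simp only [b0, b1] at this
    omega
  obtain ⟨K, hK, B, ι, V, -, hV1, -, hV2⟩ := exists_blocks hT σ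
  let P : Matrix (Fin (k + 1)) (Fin k) K := fun s j => V j b0 (xs s)
  let Q : Matrix (Fin k) (Fin (k + 1)) K := fun j t => ∏ b ∈ Finset.univ.erase b0, V j b (ys t)
  have hPQ : ∀ s t, (P * Q) s t = ∑ j, ∏ b, V j b (mix A (xs s) (ys t)) := by
    intro s t
    rw [Matrix.mul_apply]
    refine Finset.sum_congr rfl fun j _ => ?_
    rw [← Finset.mul_prod_erase Finset.univ _ (Finset.mem_univ b0)]
    have e1 : V j b0 (xs s) = V j b0 (mix A (xs s) (ys t)) := by
      refine hV1 _ _ _ _ fun i hi => ?_
      have hiA : i ∈ A := by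
        by_contra hn
        simp only [σ, if_neg hn] at hi
        exact h01 hi
      rw [mix_of_mem hiA]
    have e2 : ∏ b ∈ Finset.univ.erase b0, V j b (ys t)
        = ∏ b ∈ Finset.univ.erase b0, V j b (mix A (xs s) (ys t)) := by
      refine Finset.prod_congr rfl fun b hb => hV1 _ _ _ _ fun i hi => ?_
      have hiA : i ∉ A := by
        intro hn
        simp only [σ, if_pos hn] at hi
        exact Finset.ne_of_mem_erase hb hi.symm
      rw [mix_of_not hiA]
    show V j b0 (xs s) * ∏ b ∈ Finset.univ.erase b0, V j b (ys t) = _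
    rw [e1, e2]
  have hdet : (P * Q).det = 0 := by
    by_contra hne
    have h1 : (P * Q).rank = k + 1 := by
      rw [Matrix.rank_of_isUnit _ ((Matrix.isUnit_iff_isUnit_det _).2 (isUnit_iff_ne_zero.2 hne)),
        Fintype.card_fin]
    have h2 := (Matrix.rank_mul_le_right P Q).trans (Matrix.rank_le_height Q)
    omega
  let M' : Matrix (Fin (k + 1)) (Fin (k + 1)) B := fun s t => ⟨(P * Q) s t, by
    rw [hPQ]
    exact (hV2 _).1⟩
  have h1 : P * Q = (algebraMap B K).mapMatrix M' := rfl
  rw [h1, ← RingHom.map_det] at hdet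
  have h2 : M'.det = 0 := Subtype.ext hdet
  have h3 : (residue B).mapMatrix M' = ((residue B).comp ι).mapMatrix
      (Matrix.of fun s t => ev T (mix A (xs s) (ys t))) := by
    ext s t
    rw [RingHom.mapMatrix_apply, Matrix.map_apply, RingHom.mapMatrix_apply, Matrix.map_apply,
      RingHom.comp_apply, Matrix.of_apply, ← (hV2 (mix A (xs s) (ys t))).2, ← res_coe]
    congr 1
    exact hPQ s t
  have h4 := congrArg (residue B) h2
  rw [map_zero, RingHom.map_det, h3, ← RingHom.map_det] at h4
  exact (map_eq_zero_iff _ ((residue B).comp ι).injective).1 h4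

/-- Decompositions with given single positions. -/
theorem exists_family (hT : Coarse T k m) (w0 : (i : I) → D i) (C : Finset I)
    (hC : C.card + 1 ≤ m) :
    ∃ (K : Type) (_ : Field K) (B : ValuationSubring K) (ι : ℂ →+* B)
      (v : Fin k → (i : I) → D i → K) (u : Fin k → ((i : I) → D i → ℂ) → K),
      (∀ j, ∀ i ∈ C, ∃ a, v j i a ≠ 0) ∧
      (∀ j x y, (∀ i, i ∉ C → x i = y i) → u j x = u j y) ∧
      ∀ x, (∑ j, (∏ i ∈ C, ∑ a, v j i a * (ι (x i a) : K)) * u j x) ∈ B ∧
        res B (∑ j, (∏ i ∈ C, ∑ a, v j i a * (ι (x i a) : K)) * u j x)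
          = residue B (ι (ev T x)) := by
  classical
  let e : C ≃ Fin C.card := C.equivFin
  let σ : I → Fin m := fun i => if h : i ∈ C then ⟨(e ⟨i, h⟩).1, by have := (e ⟨i, h⟩).2; omega⟩
    else ⟨C.card, by omega⟩
  have hσ : ∀ i ∈ C, ∀ i', σ i' = σ i → i' = i := by
    intro i hi i' h
    by_cases hi' : i' ∈ C
    · simp only [σ, dif_pos hi, dif_pos hi', Fin.mk.injEq] at h
      exact congrArg Subtype.val (e.injective (Fin.ext h))
    · simp only [σ, dif_pos hi, dif_neg hi', Fin.mk.injEq] at h
      have := (e ⟨i, hi⟩).2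
      omega
  obtain ⟨K, hK, B, ι, V, hV0, hV1, hV2, hV3⟩ := exists_blocks hT σ
  let z : (i : I) → D i → ℂ := fun _ _ => 0
  have hsing : ∀ j, ∀ i ∈ C, ∀ x : (i : I) → D i → ℂ, V j (σ i) x
      = ∑ a, V j (σ i) (Function.update z i (ea a)) * (ι (x i a) : K) := by
    intro j i hi x
    have h1 : V j (σ i) x = V j (σ i) (Function.update z i (x i)) := by
      refine hV1 _ _ _ _ fun i' hi' => ?_
      obtain rfl := hσ i hi i' hi'
      rw [Function.update_self]
    rw [h1, hV2]
    exact Finset.sum_congr rfl fun a _ => mul_comm _ _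
  refine ⟨K, hK, B, ι, fun j i a => V j (σ i) (Function.update z i (ea a)),
    fun j x => ∏ b ∈ (C.image σ)ᶜ, V j b x, ?_, ?_, ?_⟩
  · intro j i hi
    by_contra hcon
    push Not at hcon
    apply hV0 j (σ i) w0
    rw [hsing j i hi]
    exact Finset.sum_eq_zero fun a _ => by rw [hcon a, zero_mul]
  · intro j x y hxy
    refine Finset.prod_congr rfl fun b hb => hV1 _ _ _ _ fun i hi => hxy i fun hiC => ?_
    exact Finset.mem_compl.1 hb (Finset.mem_image.2 ⟨i, hiC, hi⟩)
  · intro x
    have h1 : ∑ j, (∏ i ∈ C, ∑ a, V j (σ i) (Function.update z i (ea a)) * (ι (x i a) : K))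
        * ∏ b ∈ (C.image σ)ᶜ, V j b x = ∑ j, ∏ b, V j b x := by
      refine Finset.sum_congr rfl fun j _ => ?_
      rw [← Finset.prod_mul_prod_compl (C.image σ), Finset.prod_image]
      · congr 1
        exact Finset.prod_congr rfl fun i hi => (hsing j i hi x).symm
      · intro i _ i' hi' h
        exact hσ i' hi' i h
    rw [h1]
    exact hV3 x

end

end Pentad
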