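import Pool.Agent.H.MP_b77b2b_ag.Lin

/-!
# MP_b77b2b_ag, UStab: a stable product of modules over a valuation ring
-/

set_option autoImplicit false

namespace Pentad

open IsLocalRing

variable {K : Type} [Field K] {B : ValuationSubring K} {k : ℕ}

theorem card_le_of_indep {n : ℕ} (Y : Submodule B (Fin k → B)) (y : Fin n → Fin k → B)
    (h : ∀ c : Fin n → B, ∑ i, c i • y i ∈ maximalIdeal B • Y → ∀ i, c i ∈ maximalIdeal B) :
    n ≤ k := by
  classical
  by_contra hcon
  push Not at hcon
  let v : Fin n → Fin k → K := fun i j => (y i j : K)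
  have h1 : ¬ LinearIndependent K v := by
    intro h2
    have h3 := h2.fintype_card_le_finrank
    rw [Fintype.card_fin, Module.finrank_fintype_fun_eq_card, Fintype.card_fin] at h3
    omega
  obtain ⟨g, hg, i1, hi1⟩ := Fintype.not_linearIndependent_iff.1 h1
  have hg0 : g ≠ 0 := fun h => hi1 (congrFun h i1)
  obtain ⟨i0, hi0, hmax⟩ := exists_max (B := B) g hg0
  have hdiv : ∀ i, g i / g i0 ∈ B := fun i => div_mem_of_le hi0 (hmax i)
  have h2 := h (fun i => ⟨g i / g i0, hdiv i⟩) (by
    have h3 : ∑ i, (⟨g i / g i0, hdiv i⟩ : B) • y i = 0 := by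
      funext j
      apply Subtype.ext
      have h4 := congrFun hg j
      rw [Finset.sum_apply] at h4
      simp only [Pi.smul_apply, smul_eq_mul, Pi.zero_apply, v] at h4
      rw [Finset.sum_apply]
      push_cast
      simp only [Pi.smul_apply, smul_eq_mul, Pi.zero_apply]
      push_cast
      have h5 : ∑ i, g i / g i0 * (y i j : K) = (∑ i, g i * (y i j : K)) / g i0 := by
        rw [Finset.sum_div]
        exact Finset.sum_congr rfl fun i _ => by ring
      rw [h5, h4, zero_div]
    rw [h3]
    exact Submodule.zero_mem _) i0
  have h3 : (⟨g i0 / g i0, hdiv i0⟩ : B) = 1 := Subtype.ext (div_self hi0)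
  rw [h3] at h2
  exact (Ideal.ne_top_iff_one _).1 (maximalIdeal.isMaximal B).ne_top h2

variable {I : Type} [DecidableEq I] {E : I → Type} [∀ i, Fintype (E i)]

/-- The module of a position. -/
def Nm (g : (i : I) → E i → Fin k → B) (i : I) : Submodule B (Fin k → B) :=
  Submodule.span B (Set.range (g i))

/-- The algebra generated by a set of positions. -/
def Am (g : (i : I) → E i → Fin k → B) (W : Finset I) : Subalgebra B (Fin k → B) :=
  Algebra.adjoin B (⋃ i ∈ W, Set.range (g i))

omit [DecidableEq I] in
theorem Am_fg (g : (i : I) → E i → Fin k → B) (W : Finset I) :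
    (Subalgebra.toSubmodule (Am g W)).FG :=
  fg_adjoin_of_finite (Set.Finite.biUnion W.finite_toSet fun i _ => Set.finite_range (g i))
    fun x _ => Algebra.IsIntegral.isIntegral x

omit [DecidableEq I] in
theorem Nm_fg (g : (i : I) → E i → Fin k → B) (i : I) : (Nm g i).FG :=
  Submodule.fg_span (Set.finite_range (g i))

theorem prod_Nm_fg (g : (i : I) → E i → Fin k → B) (S : Finset I) :
    (∏ i ∈ S, Nm g i).FG := by
  induction S using Finset.induction_on with
  | empty =>
    rw [Finset.prod_empty, Submodule.one_eq_span]
    exact Submodule.fg_span (Set.finite_singleton _)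
  | insert i S hi ih =>
    rw [Finset.prod_insert hi]
    exact (Nm_fg g i).mul ih

/-- The module of a set of positions, with the algebra of the other ones. -/
def Ym (g : (i : I) → E i → Fin k → B) (G S : Finset I) : Submodule B (Fin k → B) :=
  (∏ i ∈ S, Nm g i) * Subalgebra.toSubmodule (Am g (G \ S))

theorem mul_mem_smul {R A : Type} [CommRing R] [CommRing A] [Algebra R A] {J : Ideal R}
    {Y : Submodule R A} {a : A} (h : ∀ y ∈ Y, a * y ∈ Y) {y : A} (hy : y ∈ J • Y) :
    a * y ∈ J • Y := by
  induction hy using Submodule.smul_induction_on' with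
  | smul r hr n hn =>
    rw [mul_smul_comm]
    exact Submodule.smul_mem_smul hr (h n hn)
  | add x _ y _ hx hy =>
    rw [mul_add]
    exact Submodule.add_mem _ hx hy

theorem stab (g : (i : I) → E i → Fin k → B) (G : Finset I)
    (h1 : ∀ i ∈ G, (1 : Fin k → B) ∈ Nm g i) (hk : 0 < k) :
    ∃ S ⊆ G, S.card < k ∧ ∀ z ∈ G \ S, Nm g z * ∏ i ∈ S, Nm g i ≤ ∏ i ∈ S, Nm g i := by
  classical
  by_contra hcon
  push Not at hcon
  let Good : Finset I → Prop := fun S => ∃ y : Fin (S.card + 1) → Fin k → B,
    (∀ i, y i ∈ ∏ i ∈ S, Nm g i) ∧
    ∀ c : Fin (S.card + 1) → B, ∑ i, c i • y i ∈ maximalIdeal B • Ym g G S →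
      ∀ i, c i ∈ maximalIdeal B
  have hlt : ∀ S, Good S → S.card < k := by
    rintro S ⟨y, -, hy⟩
    exact card_le_of_indep _ y hy
  have hjac : maximalIdeal B ≤ Ideal.jacobson ⊥ := (IsLocalRing.jacobson_eq_maximalIdeal ⊥
    bot_ne_top).ge
  have hmulA : ∀ S : Finset I, ∀ a ∈ Am g (G \ S), ∀ y ∈ Ym g G S, a * y ∈ Ym g G S := by
    intro S a ha y hy
    have h2 : a * y ∈ Subalgebra.toSubmodule (Am g (G \ S)) * Ym g G S :=
      Submodule.mul_mem_mul ha hy
    unfold Ym at h2 ⊢
    rw [mul_left_comm, (Subalgebra.isIdempotentElem_toSubmodule _).eq] at h2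
    exact h2
  have hexists : ∀ n : ℕ, n ≤ k → ∃ S ⊆ G, S.card = n ∧ Good S := by
    intro n
    induction n with
    | zero =>
      intro _
      refine ⟨∅, Finset.empty_subset _, Finset.card_empty, fun _ => 1, fun _ => ?_, ?_⟩
      · rw [Finset.prod_empty]
        exact Submodule.one_le.1 le_rfl
      · intro c hc i
        by_contra hci
        have hunit : IsUnit (c i) := by
          by_contra hnu
          exact hci ((mem_maximalIdeal _).2 hnu)
        have hsum : ∑ j, c j • (1 : Fin k → B) = c i • 1 := by
          refine Finset.sum_eq_single i (fun j _ hj => ?_) (fun h => absurd (Finset.mem_univ _) h)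
          exfalso
          apply hj
          apply Fin.ext
          have := i.2
          have := j.2
          simp only [Finset.card_empty] at *
          omega
        rw [hsum] at hc
        obtain ⟨u, hu⟩ := hunit
        have h3 : (1 : Fin k → B) ∈ maximalIdeal B • Ym g G ∅ := by
          have h4 := Submodule.smul_mem _ ((u⁻¹ : Bˣ) : B) hc
          rw [← hu, smul_smul, Units.inv_mul, one_smul] at h4
          exact h4
        have h4 : Ym g G ∅ ≤ maximalIdeal B • Ym g G ∅ := by
          intro y hy
          have h5 : y ∈ Am g (G \ ∅) := by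
            unfold Ym at hy
            rw [Finset.prod_empty, one_mul] at hy
            exact hy
          have h6 := mul_mem_smul (hmulA ∅ y h5) h3
          rwa [mul_one] at h6
        have h5 := Submodule.eq_bot_of_le_smul_of_le_jacobson_bot _ _
          ((prod_Nm_fg g ∅).mul (Am_fg g (G \ ∅))) h4 hjac
        have h6 : (1 : Fin k → B) ∈ Ym g G ∅ := Submodule.smul_le_right h3
        unfold Ym at h6
        rw [h5, Submodule.mem_bot] at h6
        exact one_ne_zero (congrFun h6 ⟨0, hk⟩)
    | succ n ih =>
      intro hn
      obtain ⟨S, hSG, hcard, y, hyS, hy⟩ := ih (by omega)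
      obtain ⟨z0, hz0, hz0'⟩ := hcon S hSG (by omega)
      let Q : Submodule B (Fin k → B) := Submodule.span B (Set.range y) ⊔ maximalIdeal B • Ym g G S
      have hNY : ∀ z ∈ G \ S, Nm g z * ∏ i ∈ S, Nm g i ≤ Ym g G S := by
        intro z hz
        unfold Ym
        rw [mul_comm]
        refine mul_le_mul' le_rfl ?_
        refine Submodule.span_le.2 ?_
        rintro _ ⟨a, rfl⟩
        exact Algebra.subset_adjoin (Set.mem_biUnion hz ⟨a, rfl⟩)
      by_cases hQ : ∀ z ∈ G \ S, Nm g z * ∏ i ∈ S, Nm g i ≤ Q
      · exfalso
        apply hz0'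
        have hgen : ∀ z ∈ G \ S, ∀ a ∈ Nm g z, ∀ q ∈ Q, a * q ∈ Q := by
          intro z hz a ha q hq
          obtain ⟨q1, hq1, q2, hq2, rfl⟩ := Submodule.mem_sup.1 hq
          rw [mul_add]
          refine Submodule.add_mem _ ?_ ?_
          · refine hQ z hz (Submodule.mul_mem_mul ha ?_)
            refine (Submodule.span_le.2 ?_ : Submodule.span B (Set.range y) ≤ _) hq1
            rintro _ ⟨i, rfl⟩
            exact hyS i
          · refine Submodule.mem_sup_right (mul_mem_smul (hmulA S a ?_) hq2)
            refine (Submodule.span_le.2 ?_ : Nm g z ≤ Subalgebra.toSubmodule (Am g (G \ S))) ha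
            rintro _ ⟨b, rfl⟩
            exact Algebra.subset_adjoin (Set.mem_biUnion hz ⟨b, rfl⟩)
        have hadj : ∀ a ∈ Am g (G \ S), ∀ q ∈ Q, a * q ∈ Q := by
          intro a ha
          unfold Am at ha
          induction ha using Algebra.adjoin_induction with
          | mem x hx =>
            obtain ⟨z, hz, hx⟩ := Set.mem_iUnion₂.1 hx
            exact hgen z hz x (Submodule.subset_span hx)
          | algebraMap b =>
            intro q hq
            rw [← Algebra.smul_def]
            exact Submodule.smul_mem _ _ hq
          | add x y _ _ hx hy =>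
            intro q hq
            rw [add_mul]
            exact Submodule.add_mem _ (hx q hq) (hy q hq)
          | mul x y _ _ hx hy =>
            intro q hq
            rw [mul_assoc]
            exact hx _ (hy q hq)
        have hSQ : ∏ i ∈ S, Nm g i ≤ Q := by
          intro q hq
          have h2 := hQ z0 hz0 (Submodule.mul_mem_mul (h1 z0 (Finset.mem_sdiff.1 hz0).1) hq)
          rwa [one_mul] at h2
        have hYQ : Ym g G S ≤ Q := by
          unfold Ym
          rw [Submodule.mul_le]
          intro m hm a ha
          rw [mul_comm]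
          exact hadj a ha m (hSQ hm)
        have h2 : Ym g G S ≤ Submodule.span B (Set.range y) :=
          Submodule.le_of_le_smul_of_le_jacobson_bot
            ((prod_Nm_fg g S).mul (Am_fg g (G \ S))) hjac hYQ
        refine (hNY z0 hz0).trans (h2.trans ?_)
        refine Submodule.span_le.2 ?_
        rintro _ ⟨i, rfl⟩
        exact hyS i
      · push Not at hQ
        obtain ⟨z, hz, hzQ⟩ := hQ
        obtain ⟨y', hy', hy'Q⟩ := SetLike.not_le_iff_exists.1 hzQ
        have hzS : z ∉ S := (Finset.mem_sdiff.1 hz).2
        have hzG : z ∈ G := (Finset.mem_sdiff.1 hz).1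
        have hc : (insert z S).card = S.card + 1 := Finset.card_insert_of_notMem hzS
        refine ⟨insert z S, Finset.insert_subset hzG hSG, by rw [hc, hcard], ?_⟩
        have hle : ∏ i ∈ S, Nm g i ≤ ∏ i ∈ insert z S, Nm g i := by
          intro q hq
          rw [Finset.prod_insert hzS]
          have h2 := Submodule.mul_mem_mul (h1 z hzG) hq
          rwa [one_mul] at h2
        have hYle : Ym g G (insert z S) ≤ Ym g G S := by
          unfold Ym
          rw [Finset.prod_insert hzS, mul_comm (Nm g z), mul_assoc]
          refine mul_le_mul' le_rfl ?_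
          rw [Submodule.mul_le]
          intro m hm a ha
          refine (Am g (G \ S)).mul_mem ?_ ?_
          · refine (Submodule.span_le.2 ?_ : Nm g z ≤ Subalgebra.toSubmodule (Am g (G \ S))) hm
            rintro _ ⟨b, rfl⟩
            exact Algebra.subset_adjoin (Set.mem_biUnion hz ⟨b, rfl⟩)
          · refine (Algebra.adjoin_mono ?_ : Am g (G \ insert z S) ≤ Am g (G \ S)) ha
            refine Set.biUnion_subset_biUnion_left ?_
            intro i hi
            exact Finset.mem_sdiff.2 ⟨(Finset.mem_sdiff.1 hi).1, fun h =>
              (Finset.mem_sdiff.1 hi).2 (Finset.mem_insert_of_mem h)⟩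
        show ∃ y : Fin ((insert z S).card + 1) → Fin k → B, _
        rw [hc]
        refine ⟨Fin.snoc (α := fun _ => Fin k → B) y y', fun i => ?_, fun c hcm => ?_⟩
        · refine Fin.lastCases ?_ (fun i => ?_) i
          · rw [Fin.snoc_last, Finset.prod_insert hzS]
            exact hy'
          · rw [Fin.snoc_castSucc]
            exact hle (hyS i)
        · have hcm' := Submodule.smul_mono (le_refl (maximalIdeal B)) hYle hcm
          rw [Fin.sum_univ_castSucc] at hcm'
          simp only [Fin.snoc_castSucc, Fin.snoc_last] at hcm'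
          have hlast : c (Fin.last _) ∈ maximalIdeal B := by
            by_contra hnm
            have hunit : IsUnit (c (Fin.last _)) := by
              by_contra hnu
              exact hnm ((mem_maximalIdeal _).2 hnu)
            obtain ⟨u, hu⟩ := hunit
            apply hy'Q
            have h2 : y' = ((u⁻¹ : Bˣ) : B) • (c (Fin.last _) • y') := by
              rw [← hu, smul_smul, Units.inv_mul, one_smul]
            rw [h2]
            refine Submodule.smul_mem _ _ ?_
            have h3 : c (Fin.last _) • y' = (∑ i, c (Fin.castSucc i) • y i + c (Fin.last _) • y')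
                - ∑ i, c (Fin.castSucc i) • y i := by
              rw [add_sub_cancel_left]
            rw [h3]
            refine Submodule.sub_mem _ (Submodule.mem_sup_right hcm') (Submodule.mem_sup_left ?_)
            exact Submodule.sum_mem _ fun i _ => Submodule.smul_mem _ _
              (Submodule.subset_span ⟨i, rfl⟩)
          have hrest : ∑ i, c (Fin.castSucc i) • y i ∈ maximalIdeal B • Ym g G S := by
            have h3 : ∑ i, c (Fin.castSucc i) • y i
                = (∑ i, c (Fin.castSucc i) • y i + c (Fin.last _) • y')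
                - c (Fin.last _) • y' := by
              rw [add_sub_cancel_right]
            rw [h3]
            exact Submodule.sub_mem _ hcm' (Submodule.smul_mem_smul hlast (hNY z hz hy'))
          intro i
          refine Fin.lastCases ?_ (fun i => ?_) i
          · exact hlast
          · exact hy _ hrest i
  obtain ⟨S, -, hc, hg⟩ := hexists k le_rfl
  have := hlt S hg
  omega

end Pentad
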