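import Pool.Agent.H.MP_b77b2b_ag.UStruct
import Pool.Agent.H.MP_b77b2b_ag.UStab

/-!
# MP_b77b2b_ag, UFinal: transplanting a factor
-/

set_option autoImplicit false

namespace Pentad

open IsLocalRing

section

variable {I : Type} [DecidableEq I] {D : I → Type} [∀ i, Fintype (D i)] {k r : ℕ}
  {K : Type} [Field K] {B : ValuationSubring K}

/-- The product of the vectors of a set of positions at given functionals. -/
def DB (ι : ℂ →+* B) (g : (i : I) → D i → Fin k → B) (W : Finset I)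
    (x : (i : I) → D i → ℂ) : Fin k → B := ∏ i ∈ W, ∑ a, ι (x i a) • g i a

/-- A weighted sum of coordinates. -/
def th (ω : Fin k → K) (y : Fin k → B) : K := ∑ j, ω j * (y j : K)

theorem th_add (ω : Fin k → K) (y y' : Fin k → B) : th ω (y + y') = th ω y + th ω y' := by
  unfold th
  rw [← Finset.sum_add_distrib]
  refine Finset.sum_congr rfl fun j _ => ?_
  rw [Pi.add_apply]
  push_cast
  ring

theorem th_smul (ω : Fin k → K) (c : B) (y : Fin k → B) : th ω (c • y) = (c : K) * th ω y := by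
  unfold th
  rw [Finset.mul_sum]
  refine Finset.sum_congr rfl fun j _ => ?_
  rw [Pi.smul_apply, smul_eq_mul]
  push_cast
  ring

theorem th_zero (ω : Fin k → K) : th ω (0 : Fin k → B) = 0 := by
  unfold th
  refine Finset.sum_eq_zero fun j _ => ?_
  rw [Pi.zero_apply]
  push_cast
  ring

variable {ι : ℂ →+* B} {g : (i : I) → D i → Fin k → B}

omit [DecidableEq I] in
theorem DB_congr {W : Finset I} {x y : (i : I) → D i → ℂ} (h : ∀ i ∈ W, x i = y i) :
    DB ι g W x = DB ι g W y :=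
  Finset.prod_congr rfl fun i hi => by rw [h i hi]

theorem DB_union {W W' : Finset I} (h : Disjoint W W') (x : (i : I) → D i → ℂ) :
    DB ι g (W ∪ W') x = DB ι g W x * DB ι g W' x := Finset.prod_union h

theorem DB_ext {G W : Finset I} (hWG : W ⊆ G) {ℓ : (i : I) → D i → ℂ}
    (h1 : ∀ i ∈ G, ∑ a, ι (ℓ i a) • g i a = 1) (x : (i : I) → D i → ℂ) :
    DB ι g G (mix W x ℓ) = DB ι g W x := by
  have h2 : DB ι g G (mix W x ℓ) = DB ι g W (mix W x ℓ) * DB ι g (G \ W) (mix W x ℓ) := by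
    rw [← DB_union Finset.disjoint_sdiff, Finset.union_sdiff_of_subset hWG]
  rw [h2]
  have h3 : DB ι g W (mix W x ℓ) = DB ι g W x := DB_congr fun i hi => mix_of_mem hi _ _
  have h4 : DB ι g (G \ W) (mix W x ℓ) = 1 := by
    refine Finset.prod_eq_one fun i hi => ?_
    rw [mix_of_not (Finset.mem_sdiff.1 hi).2, h1 i (Finset.mem_sdiff.1 hi).1]
  rw [h3, h4, mul_one]

theorem DB_mem (W : Finset I) (x : (i : I) → D i → ℂ) : DB ι g W x ∈ ∏ i ∈ W, Nm g i := by
  induction W using Finset.induction_on with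
  | empty =>
    unfold DB
    rw [Finset.prod_empty, Finset.prod_empty]
    exact Submodule.one_le.1 le_rfl
  | insert i W hi ih =>
    unfold DB at ih ⊢
    rw [Finset.prod_insert hi, Finset.prod_insert hi]
    refine Submodule.mul_mem_mul ?_ ih
    exact Submodule.sum_mem _ fun a _ => Submodule.smul_mem _ _ (Submodule.subset_span ⟨a, rfl⟩)

theorem prod_Nm_le [∀ i, DecidableEq (D i)] (S : Finset I) :
    ∏ i ∈ S, Nm g i ≤ Submodule.span B (Set.range (DB ι g S)) := by
  induction S using Finset.induction_on with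
  | empty =>
    rw [Finset.prod_empty, Submodule.one_eq_span]
    refine Submodule.span_mono ?_
    rintro _ rfl
    exact ⟨fun _ _ => 0, Finset.prod_empty⟩
  | insert i S hi ih =>
    rw [Finset.prod_insert hi]
    refine (mul_le_mul' le_rfl ih).trans ?_
    unfold Nm
    rw [Submodule.span_mul_span]
    refine Submodule.span_mono ?_
    rintro _ ⟨_, ⟨a, rfl⟩, _, ⟨x, rfl⟩, rfl⟩
    refine ⟨Function.update x i (ea a), ?_⟩
    show ∏ j ∈ insert i S, ∑ b, ι (Function.update x i (ea a) j b) • g j b = g i a * DB ι g S x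
    rw [Finset.prod_insert hi, Function.update_self]
    congr 1
    · rw [Finset.sum_eq_single a]
      · simp only [ea, if_true, map_one, one_smul]
      · intro b _ hb
        simp only [ea, if_neg hb, map_zero, zero_smul]
      · intro hn
        exact absurd (Finset.mem_univ _) hn
    · refine Finset.prod_congr rfl fun j hj => ?_
      rw [Function.update_of_ne (fun h : j = i => hi (h ▸ hj))]

end

section

variable {I : Type} [Fintype I] [DecidableEq I] {D : I → Type} [∀ i, Fintype (D i)]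
  [∀ i, DecidableEq (D i)] {k r : ℕ} {K : Type} [Field K] {B : ValuationSubring K}

/-- The data of a decomposition over a valued field. -/
structure Dat (T : ((i : I) → D i) → ℂ) (k r : ℕ) (A A' G : Finset I)
    (xs ys : Fin r → (i : I) → D i → ℂ) (ℓ : (i : I) → D i → ℂ) (B : ValuationSubring K)
    (ι : ℂ →+* B) (g : (i : I) → D i → Fin k → B)
    (ω : ((i : I) → D i → ℂ) → ((i : I) → D i → ℂ) → Fin k → K) : Prop where
  hT : RankLE T r
  h0 : (PM T A A' xs ys ℓ).det ≠ 0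
  hG : Disjoint G A'
  h1 : ∀ i ∈ G, ∑ a, ι (ℓ i a) • g i a = 1
  hθ : ∀ α β x, th (ω α β) (DB ι g G x) ∈ B ∧
    res B (th (ω α β) (DB ι g G x)) = residue B (ι (ev T (m3 A A' α β (mix G x ℓ))))

/-- The residue matrix. -/
noncomputable def Psi (T : ((i : I) → D i) → ℂ) (A A' : Finset I)
    (xs ys : Fin r → (i : I) → D i → ℂ) (ℓ : (i : I) → D i → ℂ) (ι : ℂ →+* B)
    (ω : ((i : I) → D i → ℂ) → ((i : I) → D i → ℂ) → Fin k → K) (y : Fin k → B) :
    Matrix (Fin r) (Fin r) (ResidueField B) :=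
  Matrix.of fun t t' => ∑ s, residue B (ι ((PM T A A' xs ys ℓ)⁻¹ t s)) *
    res B (th (ω (xs s) (ys t')) y)

variable {T : ((i : I) → D i) → ℂ} {A A' G : Finset I}
    {xs ys : Fin r → (i : I) → D i → ℂ} {ℓ : (i : I) → D i → ℂ}
    {ι : ℂ →+* B} {g : (i : I) → D i → Fin k → B}
    {ω : ((i : I) → D i → ℂ) → ((i : I) → D i → ℂ) → Fin k → K}

omit [∀ i, DecidableEq (D i)] in
theorem Psi_add {y y' : Fin k → B} (hy : ∀ α β, th (ω α β) y ∈ B)
    (hy' : ∀ α β, th (ω α β) y' ∈ B) :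
    Psi T A A' xs ys ℓ ι ω (y + y') = Psi T A A' xs ys ℓ ι ω y + Psi T A A' xs ys ℓ ι ω y' := by
  ext t t'
  show ∑ s : Fin r, _ = (∑ s : Fin r, _ + ∑ s : Fin r, _ : ResidueField B)
  rw [← Finset.sum_add_distrib]
  refine Finset.sum_congr rfl fun s _ => ?_
  rw [th_add, res_add (hy _ _) (hy' _ _)]
  ring

omit [∀ i, DecidableEq (D i)] in
theorem Psi_smul {y : Fin k → B} (hy : ∀ α β, th (ω α β) y ∈ B) (c : B) :
    Psi T A A' xs ys ℓ ι ω (c • y) = residue B c • Psi T A A' xs ys ℓ ι ω y := by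
  ext t t'
  show ∑ s : Fin r, _ = residue B c * ∑ s : Fin r, _
  rw [Finset.mul_sum]
  refine Finset.sum_congr rfl fun s _ => ?_
  rw [th_smul, res_mul c.2 (hy _ _), res_coe]
  ring

omit [∀ i, DecidableEq (D i)] in
theorem Psi_zero : Psi T A A' xs ys ℓ ι ω 0 = 0 := by
  ext t t'
  show ∑ s : Fin r, _ = (0 : ResidueField B)
  refine Finset.sum_eq_zero fun s _ => ?_
  rw [th_zero, res_zero, mul_zero]

omit [∀ i, DecidableEq (D i)] in
theorem Psi_DB (h : Dat T k r A A' G xs ys ℓ B ι g ω) (x : (i : I) → D i → ℂ) :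
    Psi T A A' xs ys ℓ ι ω (DB ι g G x)
      = ((residue B).comp ι).mapMatrix (XM T A A' xs ys ℓ (mix G x ℓ)) := by
  ext t t'
  rw [RingHom.mapMatrix_apply, Matrix.map_apply]
  unfold XM
  rw [Matrix.mul_apply, map_sum]
  show ∑ s : Fin r, _ = _
  refine Finset.sum_congr rfl fun s _ => ?_
  rw [(h.hθ _ _ _).2, map_mul]
  rfl

theorem Lam_nice (h : Dat T k r A A' G xs ys ℓ B ι g ω) {S : Finset I} (hS : S ⊆ G)
    {y : Fin k → B} (hy : y ∈ ∏ i ∈ S, Nm g i) (α β : (i : I) → D i → ℂ) :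
    th (ω α β) y ∈ B := by
  have h2 := prod_Nm_le (ι := ι) S hy
  clear hy
  induction h2 using Submodule.span_induction with
  | mem y hy =>
    obtain ⟨x, rfl⟩ := hy
    rw [← DB_ext hS h.h1]
    exact (h.hθ _ _ _).1
  | zero => rw [th_zero]; exact B.zero_mem
  | add y z _ _ hy hz => rw [th_add]; exact B.add_mem _ _ hy hz
  | smul c y _ hy => rw [th_smul]; exact B.mul_mem _ _ c.2 hy

theorem Lam_res (h : Dat T k r A A' G xs ys ℓ B ι g ω) {S : Finset I} (hS : S ⊆ G)
    {y : Fin k → B} (hy : y ∈ ∏ i ∈ S, Nm g i) (α β : (i : I) → D i → ℂ) :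
    res B (th (ω α β) y) = ∑ t, ∑ t', residue B (ι (ev T (m3 A A' α (ys t) ℓ))) *
      Psi T A A' xs ys ℓ ι ω y t t' *
      residue B (ι (∑ s, (PM T A A' xs ys ℓ)⁻¹ t' s * ev T (m3 A A' (xs s) β ℓ))) := by
  have h2 := prod_Nm_le (ι := ι) S hy
  clear hy
  have hle : Submodule.span B (Set.range (DB ι g S)) ≤ ∏ i ∈ S, Nm g i := by
    refine Submodule.span_le.2 ?_
    rintro _ ⟨x, rfl⟩
    exact DB_mem S x
  induction h2 using Submodule.span_induction with
  | mem y hy =>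
    obtain ⟨x, rfl⟩ := hy
    rw [← DB_ext hS h.h1, Psi_DB h, (h.hθ _ _ _).2, ev_eq h.hT h.h0, map_sum, map_sum]
    refine Finset.sum_congr rfl fun t _ => ?_
    rw [map_sum, map_sum]
    refine Finset.sum_congr rfl fun t' _ => ?_
    rw [map_mul, map_mul, map_mul, map_mul]
    rfl
  | zero =>
    rw [th_zero, res_zero, Psi_zero]
    refine (Finset.sum_eq_zero fun t _ => Finset.sum_eq_zero fun t' _ => ?_).symm
    rw [Matrix.zero_apply, mul_zero, zero_mul]
  | add y z hy' hz' hy hz =>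
    rw [th_add, res_add (Lam_nice h hS (hle hy') _ _) (Lam_nice h hS (hle hz') _ _), hy, hz,
      Psi_add (Lam_nice h hS (hle hy')) (Lam_nice h hS (hle hz')), ← Finset.sum_add_distrib]
    refine Finset.sum_congr rfl fun t _ => ?_
    rw [← Finset.sum_add_distrib]
    refine Finset.sum_congr rfl fun t' _ => ?_
    rw [Matrix.add_apply]
    ring
  | smul c y hy' hy =>
    rw [th_smul, res_mul c.2 (Lam_nice h hS (hle hy') _ _), hy,
      Psi_smul (Lam_nice h hS (hle hy')), res_coe, Finset.mul_sum]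
    refine Finset.sum_congr rfl fun t _ => ?_
    rw [Finset.mul_sum]
    refine Finset.sum_congr rfl fun t' _ => ?_
    rw [Matrix.smul_apply, smul_eq_mul]
    ring

omit [Fintype I] [∀ i, Fintype (D i)] [∀ i, DecidableEq (D i)] in
theorem Lam_mul {S : Finset I}
    (hst : ∀ z ∈ G \ S, Nm g z * ∏ i ∈ S, Nm g i ≤ ∏ i ∈ S, Nm g i) (W : Finset I)
    (hW : W ⊆ G \ S) : (∏ i ∈ W, Nm g i) * ∏ i ∈ S, Nm g i ≤ ∏ i ∈ S, Nm g i := by
  induction W using Finset.induction_on with
  | empty => rw [Finset.prod_empty, one_mul]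
  | insert i W hi ih =>
    rw [Finset.prod_insert hi, mul_assoc]
    exact (mul_le_mul' le_rfl (ih fun j hj => hW (Finset.mem_insert_of_mem hj))).trans
      (hst i (hW (Finset.mem_insert_self _ _)))

omit [Fintype I] [∀ i, DecidableEq (D i)] in
theorem DB_mul_mem {S : Finset I}
    (hst : ∀ z ∈ G \ S, Nm g z * ∏ i ∈ S, Nm g i ≤ ∏ i ∈ S, Nm g i) {W : Finset I}
    (hW : W ⊆ G \ S) (x : (i : I) → D i → ℂ) {y : Fin k → B} (hy : y ∈ ∏ i ∈ S, Nm g i) :
    DB ι g W x * y ∈ ∏ i ∈ S, Nm g i :=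
  Lam_mul hst W hW (Submodule.mul_mem_mul (DB_mem W x) hy)

theorem Psi_mul (h : Dat T k r A A' G xs ys ℓ B ι g ω) {S : Finset I} (hS : S ⊆ G)
    (hst : ∀ z ∈ G \ S, Nm g z * ∏ i ∈ S, Nm g i ≤ ∏ i ∈ S, Nm g i) {H : Finset I}
    (hH : H ⊆ G \ S) (x : (i : I) → D i → ℂ) {y : Fin k → B} (hy : y ∈ ∏ i ∈ S, Nm g i) :
    Psi T A A' xs ys ℓ ι ω (DB ι g H x * y)
      = ((residue B).comp ι).mapMatrix (XM T A A' xs ys ℓ (mix H x ℓ)) *
        Psi T A A' xs ys ℓ ι ω y := by
  have h2 := prod_Nm_le (ι := ι) S hy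
  clear hy
  have hle : Submodule.span B (Set.range (DB ι g S)) ≤ ∏ i ∈ S, Nm g i := by
    refine Submodule.span_le.2 ?_
    rintro _ ⟨x, rfl⟩
    exact DB_mem S x
  have hHG : H ⊆ G := fun i hi => (Finset.mem_sdiff.1 (hH hi)).1
  have hHS : Disjoint H S := Finset.disjoint_left.2 fun i hi => (Finset.mem_sdiff.1 (hH hi)).2
  have hHA : Disjoint H A' := h.hG.mono_left hHG
  induction h2 using Submodule.span_induction with
  | mem y hy =>
    obtain ⟨z, rfl⟩ := hy
    have e1 : DB ι g H x * DB ι g S z = DB ι g G (mix (H ∪ S) (mix H x z) ℓ) := by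
      rw [DB_ext (Finset.union_subset hHG hS) h.h1, DB_union hHS]
      congr 1
      · exact DB_congr fun i hi => (mix_of_mem hi _ _).symm
      · exact DB_congr fun i hi => (mix_of_not (Finset.disjoint_right.1 hHS hi) _ _).symm
    rw [e1, Psi_DB h, mix_mix_of_subset (Finset.union_subset hHG hS),
      XM_mul h.hT h.h0 hHA hHS, map_mul, ← DB_ext hS h.h1 z, Psi_DB h, mix_mix_of_subset hS]
  | zero => rw [mul_zero, Psi_zero, Matrix.mul_zero]
  | add y z hy' hz' hy hz =>
    rw [mul_add, Psi_add (Lam_nice h hS (DB_mul_mem hst hH x (hle hy')))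
      (Lam_nice h hS (DB_mul_mem hst hH x (hle hz'))), hy, hz,
      Psi_add (Lam_nice h hS (hle hy')) (Lam_nice h hS (hle hz')), Matrix.mul_add]
  | smul c y hy' hy =>
    rw [mul_smul_comm, Psi_smul (Lam_nice h hS (DB_mul_mem hst hH x (hle hy'))), hy,
      Psi_smul (Lam_nice h hS (hle hy')), Matrix.mul_smul]

theorem exists_mult (h : Dat T k r A A' G xs ys ℓ B ι g ω) {S : Finset I} (hS : S ⊆ G)
    (hst : ∀ z ∈ G \ S, Nm g z * ∏ i ∈ S, Nm g i ≤ ∏ i ∈ S, Nm g i) {H : Finset I}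
    (hH : H ⊆ G \ S) {M : Matrix (Fin r) (Fin r) ℂ} (hM : M ∈ Psp T A A' xs ys ℓ H) :
    ∃ y0 : Fin k → B, ∀ y ∈ ∏ i ∈ S, Nm g i, y0 * y ∈ ∏ i ∈ S, Nm g i ∧
      Psi T A A' xs ys ℓ ι ω (y0 * y)
        = ((residue B).comp ι).mapMatrix ((PM T A A' xs ys ℓ)⁻¹ * M) *
          Psi T A A' xs ys ℓ ι ω y := by
  unfold Psp at hM
  induction hM using Submodule.span_induction with
  | mem M hM =>
    obtain ⟨x, rfl⟩ := hM
    exact ⟨DB ι g H x, fun y hy => ⟨DB_mul_mem hst hH x hy, Psi_mul h hS hst hH x hy⟩⟩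
  | zero =>
    refine ⟨0, fun y hy => ?_⟩
    rw [zero_mul, Psi_zero, Matrix.mul_zero, map_zero, Matrix.zero_mul]
    exact ⟨Submodule.zero_mem _, rfl⟩
  | add M N _ _ hM hN =>
    obtain ⟨y1, h1⟩ := hM
    obtain ⟨y2, h2⟩ := hN
    refine ⟨y1 + y2, fun y hy => ?_⟩
    rw [add_mul, Psi_add (Lam_nice h hS (h1 y hy).1) (Lam_nice h hS (h2 y hy).1), (h1 y hy).2,
      (h2 y hy).2, Matrix.mul_add, map_add, Matrix.add_mul]
    exact ⟨Submodule.add_mem _ (h1 y hy).1 (h2 y hy).1, rfl⟩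
  | smul c M _ hM =>
    obtain ⟨y1, h1⟩ := hM
    refine ⟨ι c • y1, fun y hy => ?_⟩
    rw [smul_mul_assoc, Psi_smul (Lam_nice h hS (h1 y hy).1), (h1 y hy).2, Matrix.mul_smul]
    refine ⟨Submodule.smul_mem _ _ (h1 y hy).1, ?_⟩
    have e1 : ((residue B).comp ι).mapMatrix (c • ((PM T A A' xs ys ℓ)⁻¹ * M))
        = residue B (ι c) • ((residue B).comp ι).mapMatrix ((PM T A A' xs ys ℓ)⁻¹ * M) := by
      ext s t
      rw [RingHom.mapMatrix_apply, Matrix.map_apply, Matrix.smul_apply, smul_eq_mul, map_mul]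
      rfl
    rw [e1, Matrix.smul_mul]

theorem decomp (h : Dat T k r A A' G xs ys ℓ B ι g ω) {S : Finset I} (hS : S ⊆ G)
    (hst : ∀ z ∈ G \ S, Nm g z * ∏ i ∈ S, Nm g i ≤ ∏ i ∈ S, Nm g i) {H U : Finset I}
    (hH : H ⊆ G \ S) (hU : U ∪ G = (A ∪ A')ᶜ) (hUG : Disjoint U G)
    (hHU : Psp T A A' xs ys ℓ (H ∪ U) = Psp T A A' xs ys ℓ H) :
    ∃ Y : (i : I) → D i → Fin k → B, ∀ w : (i : I) → D i,
      th (ω (dl w) (dl w)) ((∏ c ∈ U, Y c (w c)) * ∏ i ∈ G, g i (w i)) ∈ B ∧
      res B (th (ω (dl w) (dl w)) ((∏ c ∈ U, Y c (w c)) * ∏ i ∈ G, g i (w i)))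
        = residue B (ι (T w)) := by
  classical
  have hex : ∀ c ∈ U, ∀ a : D c, ∃ y0 : Fin k → B, ∀ y ∈ ∏ i ∈ S, Nm g i,
      y0 * y ∈ ∏ i ∈ S, Nm g i ∧ Psi T A A' xs ys ℓ ι ω (y0 * y)
        = ((residue B).comp ι).mapMatrix (XM T A A' xs ys ℓ (Function.update ℓ c (ea a))) *
          Psi T A A' xs ys ℓ ι ω y := by
    intro c hc a
    refine exists_mult h hS hst hH ?_
    rw [← hHU]
    have e1 : Function.update ℓ c (ea a) = mix (H ∪ U) (Function.update ℓ c (ea a)) ℓ := by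
      funext i
      by_cases hi : i ∈ H ∪ U
      · rw [mix_of_mem hi]
      · rw [mix_of_not hi, Function.update_of_ne]
        rintro rfl
        exact hi (Finset.mem_union_right _ hc)
    rw [e1]
    exact PM_mem_Psp _ _ _
  let Y : (i : I) → D i → Fin k → B := fun c a => if hc : c ∈ U then (hex c hc a).choose else 0
  have hY : ∀ c ∈ U, ∀ a : D c, ∀ y ∈ ∏ i ∈ S, Nm g i,
      Y c a * y ∈ ∏ i ∈ S, Nm g i ∧ Psi T A A' xs ys ℓ ι ω (Y c a * y)
        = ((residue B).comp ι).mapMatrix (XM T A A' xs ys ℓ (Function.update ℓ c (ea a))) *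
          Psi T A A' xs ys ℓ ι ω y := by
    intro c hc a
    have e1 : Y c a = (hex c hc a).choose := dif_pos hc
    rw [e1]
    exact (hex c hc a).choose_spec
  refine ⟨Y, fun w => ?_⟩
  have hgDB : ∏ i ∈ G, g i (w i) = DB ι g G (dl w) := by
    refine Finset.prod_congr rfl fun i _ => ?_
    rw [Finset.sum_eq_single (w i)]
    · simp only [dl, if_true, map_one, one_smul]
    · intro b _ hb
      simp only [dl, if_neg hb, map_zero, zero_smul]
    · intro hn
      exact absurd (Finset.mem_univ _) hn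
  have hG0 : DB ι g G (dl w) ∈ ∏ i ∈ S, Nm g i := by
    have e1 : DB ι g G (dl w) = DB ι g (G \ S) (dl w) * DB ι g S (dl w) := by
      rw [← DB_union Finset.sdiff_disjoint, Finset.sdiff_union_of_subset hS]
    rw [e1]
    exact DB_mul_mem hst (Finset.Subset.refl _) _ (DB_mem S _)
  have hUA : ∀ i ∈ U ∪ G, i ∉ A' := by
    intro i hi hiA
    rw [hU] at hi
    exact Finset.mem_compl.1 hi (Finset.mem_union_right _ hiA)
  have key : ∀ V : Finset I, V ⊆ U →
      (∏ c ∈ V, Y c (w c)) * DB ι g G (dl w) ∈ ∏ i ∈ S, Nm g i ∧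
      Psi T A A' xs ys ℓ ι ω ((∏ c ∈ V, Y c (w c)) * DB ι g G (dl w))
        = ((residue B).comp ι).mapMatrix (XM T A A' xs ys ℓ (mix (V ∪ G) (dl w) ℓ)) := by
    intro V
    induction V using Finset.induction_on with
    | empty =>
      intro _
      rw [Finset.prod_empty, one_mul, Finset.empty_union]
      exact ⟨hG0, Psi_DB h _⟩
    | insert c V hc ih =>
      intro hV
      obtain ⟨i1, i2⟩ := ih fun i hi => hV (Finset.mem_insert_of_mem hi)
      have hcU : c ∈ U := hV (Finset.mem_insert_self _ _)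
      obtain ⟨j1, j2⟩ := hY c hcU (w c) _ i1
      rw [Finset.prod_insert hc, mul_assoc]
      refine ⟨j1, ?_⟩
      rw [j2, i2, ← map_mul]
      congr 1
      have e1 : Function.update ℓ c (ea (w c)) = mix {c} (dl w) ℓ := by
        funext i
        by_cases hi : i = c
        · subst hi
          rw [Function.update_self, mix_of_mem (Finset.mem_singleton_self _)]
          rfl
        · rw [Function.update_of_ne hi, mix_of_not (fun h' => hi (Finset.mem_singleton.1 h'))]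
      rw [e1, ← XM_mul h.hT h.h0 ?_ ?_, mix_self]
      · rw [← Finset.union_assoc, ← Finset.insert_eq]
      · exact Finset.disjoint_singleton_left.2 (hUA c (Finset.mem_union_left _ hcU))
      · refine Finset.disjoint_singleton_left.2 fun h' => ?_
        rcases Finset.mem_union.1 h' with h' | h'
        · exact hc h'
        · exact Finset.disjoint_left.1 hUG hcU h'
  obtain ⟨k1, k2⟩ := key U (Finset.Subset.refl _)
  rw [hgDB]
  refine ⟨Lam_nice h hS k1 _ _, ?_⟩
  rw [Lam_res h hS k1, k2, hU]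
  have e1 : ev T (m3 A A' (dl w) (dl w) (mix (A ∪ A')ᶜ (dl w) ℓ)) = T w := by
    rw [m3_mix_compl]
    unfold m3
    rw [mix_self, mix_self, ev_dl]
  rw [← e1, ev_eq h.hT h.h0, map_sum, map_sum]
  refine Finset.sum_congr rfl fun t _ => ?_
  rw [map_sum, map_sum]
  refine Finset.sum_congr rfl fun t' _ => ?_
  rw [map_mul, map_mul, map_mul, map_mul]
  rfl

end

end Pentad
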