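import Pool.Agent.H.MP_b77b2b_ag.UFam
import Pool.Agent.H.MP_b77b2b_ag.UChoose
import Pool.Agent.H.MP_b77b2b_ag.UFinal

/-!
# MP_b77b2b_ag, UMain: coarsenings with few blocks decide membership in the secant variety
-/

set_option autoImplicit false

namespace Pentad

open IsLocalRing MvPolynomial

section

variable {I : Type} [Fintype I] [DecidableEq I] {D : I → Type} [∀ i, Fintype (D i)]
  [∀ i, DecidableEq (D i)] {k r : ℕ} {K : Type} [Field K] {B : ValuationSubring K}

omit [Fintype I] [DecidableEq I] [∀ i, DecidableEq (D i)] in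
theorem DB_coe (ι : ℂ →+* B) (g : (i : I) → D i → Fin k → B) (W : Finset I)
    (x : (i : I) → D i → ℂ) (j : Fin k) :
    ((DB ι g W x j : B) : K) = ∏ i ∈ W, ∑ a, (ι (x i a) : K) * (g i a j : K) := by
  unfold DB
  rw [Finset.prod_apply]
  push_cast
  refine Finset.prod_congr rfl fun i _ => ?_
  rw [Finset.sum_apply]
  push_cast
  refine Finset.sum_congr rfl fun a _ => ?_
  rw [Pi.smul_apply, smul_eq_mul]
  push_cast
  rfl

/-- A decomposition over a valued field gives membership. -/
theorem eval_eq_zero_of_decomp {T : ((i : I) → D i) → ℂ} (ι : ℂ →+* B)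
    (V : Fin k → (i : I) → D i → K)
    (hV : ∀ w : (i : I) → D i, (∑ j, ∏ i, V j i (w i)) ∈ B ∧
      res B (∑ j, ∏ i, V j i (w i)) = residue B (ι (T w)))
    {p : MvPolynomial ((i : I) → D i) ℂ}
    (hp : ∀ v : Fin k → (i : I) → D i → ℂ, eval (fun w => ∑ j, ∏ i, v j i (w i)) p = 0) :
    eval T p = 0 := by
  have h1 := eval₂_eq_zero k D ((algebraMap B K).comp ι) hp V
  let T' : ((i : I) → D i) → B := fun w => ⟨_, (hV w).1⟩
  have h2 : algebraMap B K (eval₂ ι T' p) = 0 := by
    rw [← h1, ← coe_eval₂Hom, ← coe_eval₂Hom, ← RingHom.comp_apply, comp_eval₂Hom]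
    rfl
  have h3 : eval₂ ι T' p = 0 := Subtype.ext h2
  have h4 : ((residue B).comp ι) (eval T p) = 0 := by
    have e1 : ((residue B).comp ι) (eval T p)
        = eval₂Hom (((residue B).comp ι).comp (RingHom.id ℂ))
          (fun w => ((residue B).comp ι) (T w)) p :=
      map_eval₂Hom (RingHom.id ℂ) T ((residue B).comp ι) p
    have e2 : (residue B) (eval₂ ι T' p)
        = eval₂Hom ((residue B).comp ι) (fun w => residue B (T' w)) p :=
      map_eval₂Hom ι T' (residue B) p
    have e3 : (fun w => residue B (T' w)) = fun w => ((residue B).comp ι) (T w) := by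
      funext w
      rw [← res_of_mem (hV w).1, (hV w).2]
      rfl
    rw [h3, map_zero, e3] at e2
    rw [e1, RingHom.comp_id]
    exact e2.symm
  exact (map_eq_zero_iff _ ((residue B).comp ι).injective).1 h4

theorem prod_split {A A' G U : Finset I} (hAA : Disjoint A A') (hUG : Disjoint U G)
    (hU : U ∪ G = (A ∪ A')ᶜ) (f : I → K) :
    ∏ i, f i = (∏ i ∈ A, f i) * (∏ i ∈ A', f i) * ((∏ i ∈ U, f i) * ∏ i ∈ G, f i) := by
  rw [← Finset.prod_mul_prod_compl (A ∪ A'), Finset.prod_union hAA, ← hU, Finset.prod_union hUG]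

end

theorem main_set {I : Type} [Fintype I] [DecidableEq I] [Nonempty I] {D : I → Type}
    [∀ i, Fintype (D i)] [∀ i, DecidableEq (D i)] {T : ((i : I) → D i) → ℂ} {k m : ℕ}
    (hk : 1 ≤ k) (hm : k ^ 2 + k ≤ m) (hT : Coarse T k m)
    {p : MvPolynomial ((i : I) → D i) ℂ}
    (hp : ∀ v : Fin k → (i : I) → D i → ℂ, eval (fun w => ∑ j, ∏ i, v j i (w i)) p = 0) :
    eval T p = 0 := by
  classical
  by_cases hT0 : ∀ w, T w = 0
  · have h1 : T = fun w => ∑ _j : Fin k, ∏ i : I, (fun (_ : I) (_ : D i) => (0 : ℂ)) i (w i) := by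
      funext w
      rw [hT0 w]
      refine (Finset.sum_eq_zero fun j _ => ?_).symm
      exact Finset.prod_eq_zero (Finset.mem_univ (Classical.arbitrary I)) rfl
    rw [h1]
    exact hp fun _ _ _ => 0
  push Not at hT0
  obtain ⟨w0, hw0⟩ := hT0
  have hk2 : k * k = k ^ 2 := (sq k).symm
  have hrk : RankLE T k := rank_le hT (by nlinarith)
  obtain ⟨r, hr1, hrk', hTr, A, A', hAA, hAc, hA'c, xs, ys, ℓ0, h00⟩ :=
    exists_core ⟨w0, hw0⟩ hrk
  have hcA : Disjoint (A ∪ A')ᶜ A := Finset.disjoint_left.2 fun i hi hA =>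
    Finset.mem_compl.1 hi (Finset.mem_union_left _ hA)
  have hcA' : Disjoint (A ∪ A')ᶜ A' := Finset.disjoint_left.2 fun i hi hA =>
    Finset.mem_compl.1 hi (Finset.mem_union_right _ hA)
  obtain ⟨H, U, hHW, hUW, hcov, hHU, hHH, hHc, hHp⟩ := exists_gens hr1 hTr h00 k _ hcA hcA'
  let G : Finset I := Finset.univ.biUnion H
  have hmemG : ∀ i, i ∈ G ↔ ∃ q, i ∈ H q := by
    intro i
    rw [Finset.mem_biUnion]
    simp only [Finset.mem_univ, true_and]
  have hHG : ∀ q, H q ⊆ G := fun q i hi => (hmemG i).2 ⟨q, hi⟩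
  have hGW : G ⊆ (A ∪ A')ᶜ := by
    intro i hi
    obtain ⟨q, hq⟩ := (hmemG i).1 hi
    exact hHW q hq
  have hUG : Disjoint U G := by
    refine Finset.disjoint_left.2 fun i hi hG => ?_
    obtain ⟨q, hq⟩ := (hmemG i).1 hG
    exact Finset.disjoint_left.1 (hHU q) hq hi
  have hU : U ∪ G = (A ∪ A')ᶜ := by
    refine Finset.Subset.antisymm (Finset.union_subset hUW hGW) fun i hi => ?_
    rcases hcov i hi with h | h
    · exact Finset.mem_union_left _ h
    · exact Finset.mem_union_right _ ((hmemG i).2 h)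
  have hGA : Disjoint G A := hcA.mono_left hGW
  have hGA' : Disjoint G A' := hcA'.mono_left hGW
  have hGc : G.card ≤ k * (r - 1) := by
    refine Finset.card_biUnion_le.trans ?_
    refine (Finset.sum_le_card_nsmul _ _ (r - 1) fun q _ => ?_).trans ?_
    · have := hHc q
      omega
    · rw [Finset.card_univ, Fintype.card_fin, smul_eq_mul]
  let C : Finset I := A ∪ A' ∪ G
  have hCc : C.card + 1 ≤ m := by
    have h1 : C.card ≤ (A ∪ A').card + G.card := Finset.card_union_le _ _
    have h2 : (A ∪ A').card ≤ A.card + A'.card := Finset.card_union_le _ _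
    have h3 : k * (r - 1) ≤ k * (k - 1) := Nat.mul_le_mul_left k (by omega)
    have h4 : k * (k - 1) + k = k * k := by
      obtain ⟨k', rfl⟩ : ∃ k', k = k' + 1 := ⟨k - 1, by omega⟩
      rw [Nat.add_sub_cancel]
      ring
    omega
  obtain ⟨K, hK, B, ι, v, u, hv, hu, hfam⟩ := exists_family hT w0 C hCc
  have hGC : ∀ i ∈ G, i ∈ C := fun i hi => Finset.mem_union_right _ hi
  have hmaxex : ∀ j, ∀ i ∈ G, ∃ a0, v j i a0 ≠ 0 ∧
      ∀ a, B.valuation (v j i a) ≤ B.valuation (v j i a0) := by
    intro j i hi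
    obtain ⟨a, ha⟩ := hv j i (hGC i hi)
    exact exists_max (B := B) (v j i) fun h => ha (congrFun h a)
  let a0 : (j : Fin k) → (i : G) → D i := fun j i => (hmaxex j i i.2).choose
  have ha0 : ∀ (j : Fin k) (i : G), v j i (a0 j i) ≠ 0 := fun j i =>
    (hmaxex j i i.2).choose_spec.1
  have ha0' : ∀ (j : Fin k) (i : G) a, v j i a / v j i (a0 j i) ∈ B := fun j i a =>
    div_mem_of_le (ha0 j i) ((hmaxex j i i.2).choose_spec.2 a)
  obtain ⟨ℓ, h0, hgen⟩ := exists_generic ((residue B).comp ι)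
    (fun ℓ => (PM T A A' xs ys ℓ).det) (continuous_det T A A' xs ys) ℓ0 h00
    (J := Fin k × G) (fun p => p.2.1)
    (fun p a => res B (v p.1 p.2 a / v p.1 p.2 (a0 p.1 p.2))) (by
      rintro ⟨j, i⟩
      refine ⟨a0 j i, ?_⟩
      show res B (v j i (a0 j i) / v j i (a0 j i)) ≠ 0
      rw [div_self (ha0 j i), res_one]
      exact one_ne_zero)
  let lam : Fin k → I → K := fun j i => ∑ a, v j i a * (ι (ℓ i a) : K)
  have hmu : ∀ (j : Fin k) (i : G), (∑ a, v j i a / v j i (a0 j i) * (ι (ℓ i a) : K)) ∈ B ∧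
      B.valuation (∑ a, v j i a / v j i (a0 j i) * (ι (ℓ i a) : K)) = 1 := by
    intro j i
    have h1 : (∑ a, v j i a / v j i (a0 j i) * (ι (ℓ i a) : K)) ∈ B :=
      B.toSubring.sum_mem fun a _ => B.mul_mem _ _ (ha0' j i a) (ι _).2
    refine ⟨h1, val_eq_one h1 ?_⟩
    rw [res_sum _ _ fun a _ => B.mul_mem _ _ (ha0' j i a) (ι _).2]
    have h2 := hgen (j, i)
    convert h2 using 2 with a
    rw [res_mul (ha0' j i _) (ι _).2, res_coe]
    rfl
  have hlam : ∀ (j : Fin k) (i : G), lam j i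
      = v j i (a0 j i) * ∑ a, v j i a / v j i (a0 j i) * (ι (ℓ i a) : K) := by
    intro j i
    show ∑ a, v j i a * (ι (ℓ i a) : K) = _
    rw [Finset.mul_sum]
    refine Finset.sum_congr rfl fun a _ => ?_
    rw [← mul_assoc, mul_div_cancel₀ _ (ha0 j i)]
  have hlam0 : ∀ (j : Fin k) (i : I), i ∈ G → lam j i ≠ 0 := by
    intro j i hi
    have h1 := hlam j ⟨i, hi⟩
    have h2 := (hmu j ⟨i, hi⟩).2
    rw [h1]
    refine mul_ne_zero (ha0 j ⟨i, hi⟩) fun h3 => ?_
    rw [h3, map_zero] at h2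
    exact zero_ne_one h2
  have hgB : ∀ (j : Fin k) (i : I), i ∈ G → ∀ a, v j i a / lam j i ∈ B := by
    intro j i hi a
    have h1 := hlam j ⟨i, hi⟩
    have h2 := (hmu j ⟨i, hi⟩).2
    have h3 := ha0' j ⟨i, hi⟩ a
    have h4 := ha0 j ⟨i, hi⟩
    have h5 : v j i a / lam j i = (v j i a / v j i (a0 j ⟨i, hi⟩)) /
        ∑ a, v j i a / v j i (a0 j ⟨i, hi⟩) * (ι (ℓ i a) : K) := by
      rw [h1, div_div]
    rw [h5]
    refine div_mem_of_le (fun h6 => ?_) ?_
    · rw [h6, map_zero] at h2
      exact zero_ne_one h2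
    · rw [h2]
      exact (B.valuation_le_one_iff _).2 h3
  let g : (i : I) → D i → Fin k → B := fun i a j =>
    if h : v j i a / lam j i ∈ B then ⟨v j i a / lam j i, h⟩ else 0
  have hg : ∀ i ∈ G, ∀ a j, (g i a j : K) = v j i a / lam j i := by
    intro i hi a j
    show ((if h : v j i a / lam j i ∈ B then (⟨v j i a / lam j i, h⟩ : B) else 0 : B) : K) = _
    rw [dif_pos (hgB j i hi a)]
  let ω : ((i : I) → D i → ℂ) → ((i : I) → D i → ℂ) → Fin k → K := fun α β j =>
    (∏ i ∈ A, ∑ a, v j i a * (ι (α i a) : K)) * (∏ i ∈ A', ∑ a, v j i a * (ι (β i a) : K)) *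
      ((∏ i ∈ G, lam j i) * u j ℓ)
  have h1 : ∀ i ∈ G, ∑ a, ι (ℓ i a) • g i a = 1 := by
    intro i hi
    funext j
    apply Subtype.ext
    rw [Finset.sum_apply]
    push_cast
    simp only [Pi.smul_apply, smul_eq_mul, Pi.one_apply]
    push_cast
    rw [← div_self (hlam0 j i hi)]
    show _ = (∑ a, v j i a * (ι (ℓ i a) : K)) / lam j i
    rw [Finset.sum_div]
    refine Finset.sum_congr rfl fun a _ => ?_
    rw [hg i hi]
    ring
  have hd : Dat T k r A A' G xs ys ℓ B ι g ω := by
    refine ⟨hTr, h0, hGA', h1, fun α β x => ?_⟩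
    have e1 : th (ω α β) (DB ι g G x)
        = ∑ j, (∏ i ∈ C, ∑ a, v j i a * (ι (m3 A A' α β (mix G x ℓ) i a) : K)) *
          u j (m3 A A' α β (mix G x ℓ)) := by
      unfold th
      refine Finset.sum_congr rfl fun j _ => ?_
      have e2 : u j (m3 A A' α β (mix G x ℓ)) = u j ℓ := by
        refine hu j _ _ fun i hi => ?_
        have hi1 : i ∉ A := fun h => hi (Finset.mem_union_left _ (Finset.mem_union_left _ h))
        have hi2 : i ∉ A' := fun h => hi (Finset.mem_union_left _ (Finset.mem_union_right _ h))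
        have hi3 : i ∉ G := fun h => hi (Finset.mem_union_right _ h)
        unfold m3
        rw [mix_of_not hi1, mix_of_not hi2, mix_of_not hi3]
      have e3 : ∏ i ∈ C, ∑ a, v j i a * (ι (m3 A A' α β (mix G x ℓ) i a) : K)
          = (∏ i ∈ A, ∑ a, v j i a * (ι (α i a) : K)) *
            (∏ i ∈ A', ∑ a, v j i a * (ι (β i a) : K)) *
            ∏ i ∈ G, ∑ a, v j i a * (ι (x i a) : K) := by
        show ∏ i ∈ A ∪ A' ∪ G, _ = _
        rw [Finset.prod_union (Finset.disjoint_union_left.2 ⟨hGA.symm, hGA'.symm⟩),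
          Finset.prod_union hAA]
        congr 1
        · congr 1
          · refine Finset.prod_congr rfl fun i hi => ?_
            unfold m3
            rw [mix_of_mem hi]
          · refine Finset.prod_congr rfl fun i hi => ?_
            unfold m3
            rw [mix_of_not (Finset.disjoint_right.1 hAA hi), mix_of_mem hi]
        · refine Finset.prod_congr rfl fun i hi => ?_
          unfold m3
          rw [mix_of_not (Finset.disjoint_left.1 hGA hi),
            mix_of_not (Finset.disjoint_left.1 hGA' hi), mix_of_mem hi]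
      have e4 : (∏ i ∈ G, lam j i) * (DB ι g G x j : K)
          = ∏ i ∈ G, ∑ a, v j i a * (ι (x i a) : K) := by
        rw [DB_coe, ← Finset.prod_mul_distrib]
        refine Finset.prod_congr rfl fun i hi => ?_
        rw [Finset.mul_sum]
        refine Finset.sum_congr rfl fun a _ => ?_
        rw [hg i hi]
        field_simp [hlam0 j i hi]
      rw [e2, e3, ← e4]
      show (_ * _ * (_ * _)) * _ = _
      ring
    rw [e1]
    exact hfam _
  obtain ⟨S, hSG, hSc, hst⟩ := stab g G (fun i hi => by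
    rw [← h1 i hi]
    exact Submodule.sum_mem _ fun a _ => Submodule.smul_mem _ _
      (Submodule.subset_span ⟨a, rfl⟩)) hk
  obtain ⟨q, hq⟩ : ∃ q, Disjoint (H q) S := by
    by_contra hcon
    push Not at hcon
    have h2 : ∀ q, ∃ i, i ∈ H q ∧ i ∈ S := fun q => Finset.not_disjoint_iff.1 (hcon q)
    choose s hs1 hs2 using h2
    have h3 : Function.Injective s := by
      intro q q' h
      by_contra hne
      exact Finset.disjoint_left.1 (hHH q q' hne) (hs1 q) (h ▸ hs1 q')
    have h4 : (Finset.univ.image s).card ≤ S.card := by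
      refine Finset.card_le_card fun i hi => ?_
      obtain ⟨q, -, rfl⟩ := Finset.mem_image.1 hi
      exact hs2 q
    rw [Finset.card_image_of_injective _ h3, Finset.card_univ, Fintype.card_fin] at h4
    omega
  have hHS : H q ⊆ G \ S := fun i hi =>
    Finset.mem_sdiff.2 ⟨hHG q hi, Finset.disjoint_left.1 hq hi⟩
  have hPq : Psp T A A' xs ys ℓ (H q ∪ U) = Psp T A A' xs ys ℓ (H q) :=
    Psp_change hTr h00 h0 Finset.subset_union_left
      (hcA'.mono_left (Finset.union_subset (hHW q) hUW)) (hHp q)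
  obtain ⟨Y, hY⟩ := decomp hd hSG hst hHS hU hUG hPq
  let i0 : I := Classical.arbitrary I
  let V0 : Fin k → (i : I) → D i → K := fun j i a =>
    if i ∈ A ∪ A' then v j i a else if i ∈ G then (g i a j : K) else (Y i a j : K)
  let s : Fin k → K := fun j => (∏ i ∈ G, lam j i) * u j ℓ
  refine eval_eq_zero_of_decomp ι (fun j i a => (if i = i0 then s j else 1) * V0 j i a)
    (fun w => ?_) hp
  have hfin : ∑ j, ∏ i, (if i = i0 then s j else 1) * V0 j i (w i)
      = th (ω (dl w) (dl w)) ((∏ c ∈ U, Y c (w c)) * ∏ i ∈ G, g i (w i)) := by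
    unfold th
    refine Finset.sum_congr rfl fun j _ => ?_
    have e0 : ∀ i, ∑ a, v j i a * (ι (dl w i a) : K) = v j i (w i) := by
      intro i
      rw [Finset.sum_eq_single (w i)]
      · simp only [dl, if_true, map_one]
        push_cast
        ring
      · intro b _ hb
        simp only [dl, if_neg hb, map_zero]
        push_cast
        ring
      · intro hn
        exact absurd (Finset.mem_univ _) hn
    rw [Finset.prod_mul_distrib, Finset.prod_ite_eq' Finset.univ i0 (fun _ => s j),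
      if_pos (Finset.mem_univ _), prod_split hAA hUG hU]
    have e1 : ∏ i ∈ A, V0 j i (w i) = ∏ i ∈ A, ∑ a, v j i a * (ι (dl w i a) : K) := by
      refine Finset.prod_congr rfl fun i hi => ?_
      rw [e0]
      exact if_pos (Finset.mem_union_left _ hi)
    have e2 : ∏ i ∈ A', V0 j i (w i) = ∏ i ∈ A', ∑ a, v j i a * (ι (dl w i a) : K) := by
      refine Finset.prod_congr rfl fun i hi => ?_
      rw [e0]
      exact if_pos (Finset.mem_union_right _ hi)
    have e3 : ∏ i ∈ U, V0 j i (w i) = ((∏ c ∈ U, Y c (w c)) j : K) := by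
      rw [Finset.prod_apply]
      push_cast
      refine Finset.prod_congr rfl fun i hi => ?_
      show (if i ∈ A ∪ A' then _ else if i ∈ G then _ else _) = _
      rw [if_neg (Finset.mem_compl.1 (hUW hi)), if_neg (Finset.disjoint_left.1 hUG hi)]
    have e4 : ∏ i ∈ G, V0 j i (w i) = ((∏ i ∈ G, g i (w i)) j : K) := by
      rw [Finset.prod_apply]
      push_cast
      refine Finset.prod_congr rfl fun i hi => ?_
      show (if i ∈ A ∪ A' then _ else if i ∈ G then _ else _) = _
      rw [if_neg (Finset.mem_compl.1 (hGW hi)), if_pos hi]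
    rw [e1, e2, e3, e4, Pi.mul_apply]
    push_cast
    show _ = (_ * _ * (_ * _)) * _
    ring
  rw [hfin]
  exact hY w

end Pentad
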