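import Pool.Agent.H.MP_b77b2b_ag.UEv
import Pool.Agent.H.MP_b77b2b_ag.UCrit

/-!
# MP_b77b2b_ag, UMin: a nonvanishing minor in few positions
-/

set_option autoImplicit false

namespace Pentad

variable {I : Type} [Fintype I] [DecidableEq I] {D : I → Type} [∀ i, Fintype (D i)]
  [∀ i, DecidableEq (D i)]

/-- Functionals from three families. -/
def m3 {I : Type} [DecidableEq I] {R : I → Type} (A B : Finset I) (α β x : (i : I) → R i) :
    (i : I) → R i := mix A α (mix B β x)

theorem m3_comm {I : Type} [DecidableEq I] {R : I → Type} {A B : Finset I} (h : Disjoint A B)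
    (α β x : (i : I) → R i) : m3 A B α β x = m3 B A β α x := by
  funext i
  unfold m3
  by_cases hA : i ∈ A
  · have hB : i ∉ B := Finset.disjoint_left.1 h hA
    rw [mix_of_mem hA, mix_of_not hB, mix_of_mem hA]
  · by_cases hB : i ∈ B
    · rw [mix_of_not hA, mix_of_mem hB, mix_of_mem hB]
    · rw [mix_of_not hA, mix_of_not hB, mix_of_not hB, mix_of_not hA]

/-- The matrix of values at two families. -/
def PM (T : ((i : I) → D i) → ℂ) {r : ℕ} (A B : Finset I) (xs ys : Fin r → (i : I) → D i → ℂ)
    (x : (i : I) → D i → ℂ) : Matrix (Fin r) (Fin r) ℂ :=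
  Matrix.of fun s t => ev T (m3 A B (xs s) (ys t) x)

/-- There is a nonvanishing minor for two sets of positions. -/
def GoodPair (T : ((i : I) → D i) → ℂ) (r : ℕ) (A B : Finset I) : Prop :=
  ∃ (xs ys : Fin r → (i : I) → D i → ℂ) (ℓ : (i : I) → D i → ℂ), (PM T A B xs ys ℓ).det ≠ 0

omit [∀ i, DecidableEq (D i)] in
theorem GoodPair.symm {T : ((i : I) → D i) → ℂ} {r : ℕ} {A B : Finset I} (h : Disjoint A B)
    (hg : GoodPair T r A B) : GoodPair T r B A := by
  obtain ⟨xs, ys, ℓ, h0⟩ := hg
  refine ⟨ys, xs, ℓ, ?_⟩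
  rw [← Matrix.det_transpose]
  have h1 : (PM T B A ys xs ℓ).transpose = PM T A B xs ys ℓ := by
    ext s t
    unfold PM
    rw [Matrix.transpose_apply, Matrix.of_apply, Matrix.of_apply, m3_comm h]
  rwa [h1]

/-- Contraction at a position. -/
def ctr (i : I) : ((j : I) → D j → ℂ) →ₗ[ℂ]
    ((((j : I) → D j) → ℂ) →ₗ[ℂ] (((j : I) → D j) → ℂ)) :=
  LinearMap.mk₂ ℂ (fun f u w => ∑ a, f i a * u (Function.update w i a))
    (fun f g u => by
      funext w
      simp only [Pi.add_apply, add_mul, Finset.sum_add_distrib])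
    (fun c f u => by
      funext w
      simp only [Pi.smul_apply, smul_eq_mul, Finset.mul_sum, mul_assoc])
    (fun f u v => by
      funext w
      simp only [Pi.add_apply, mul_add, Finset.sum_add_distrib])
    (fun c f u => by
      funext w
      simp only [Pi.smul_apply, smul_eq_mul, Finset.mul_sum]
      exact Finset.sum_congr rfl fun a _ => by ring)

omit [Fintype I] [∀ i, DecidableEq (D i)] in
theorem ctr_apply (i : I) (f : (j : I) → D j → ℂ) (u : ((j : I) → D j) → ℂ)
    (w : (j : I) → D j) : ctr i f u w = ∑ a, f i a * u (Function.update w i a) := rfl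

theorem card_lt {T : ((i : I) → D i) → ℂ} {r : ℕ} (hr : 1 ≤ r) {A B : Finset I}
    (hAB : Disjoint A B) (hg : GoodPair T r A B)
    (hmin : ∀ i ∈ B, ¬ GoodPair T r A (B.erase i)) : B.card < r := by
  classical
  obtain ⟨xs, ys, ℓ, h0⟩ := hg
  rcases isEmpty_or_nonempty ((i : I) → D i) with hemp | ⟨⟨w0⟩⟩
  · exfalso
    apply h0
    refine Matrix.det_eq_zero_of_row_eq_zero ⟨0, hr⟩ fun t => ?_
    unfold PM ev
    rw [Matrix.of_apply]
    exact Finset.sum_eq_zero fun w _ => (hemp.false w).elim
  let e : Fin r → (((i : I) → D i) → ℂ) := fun s w => ev T (m3 A B (xs s) (dl w) ℓ)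
  have hexp : ∀ s t, PM T A B xs ys ℓ s t
      = ∑ w : (i : I) → D i, (∏ i, mix B (ys t) (dl w0) i (w i)) * e s w := by
    intro s t
    have h1 : PM T A B xs ys ℓ s t = ev T (mix B (ys t) (mix A (xs s) ℓ)) := by
      show ev T (m3 A B (xs s) (ys t) ℓ) = _
      rw [m3_comm hAB]
      rfl
    rw [h1, ev_mix_expand T B (ys t) _ w0]
    refine Finset.sum_congr rfl fun w _ => ?_
    congr 2
    show _ = m3 A B (xs s) (dl w) ℓ
    rw [m3_comm hAB]
    rfl
  have hli : LinearIndependent ℂ e := by
    rw [Fintype.linearIndependent_iff]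
    intro g hg0
    have h1 : Matrix.vecMul g (PM T A B xs ys ℓ) = 0 := by
      funext t
      unfold Matrix.vecMul dotProduct
      simp only [hexp, Finset.mul_sum]
      rw [Finset.sum_comm]
      refine Finset.sum_eq_zero fun w _ => ?_
      have h2 := congrFun hg0 w
      rw [Finset.sum_apply] at h2
      simp only [Pi.smul_apply, smul_eq_mul, Pi.zero_apply] at h2
      calc ∑ s, g s * ((∏ i, mix B (ys t) (dl w0) i (w i)) * e s w)
          = (∏ i, mix B (ys t) (dl w0) i (w i)) * ∑ s, g s * e s w := by
            rw [Finset.mul_sum]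
            exact Finset.sum_congr rfl fun s _ => by ring
        _ = 0 := by rw [h2, mul_zero]
    exact congrFun (Matrix.eq_zero_of_vecMul_eq_zero h0 h1)
  let E : Submodule ℂ (((i : I) → D i) → ℂ) := Submodule.span ℂ (Set.range e)
  have hE : Module.finrank ℂ E ≤ r := by
    refine (finrank_range_le_card e).trans ?_
    rw [Fintype.card_fin]
  have hE0 : E ≠ ⊥ := by
    intro h1
    have h2 : e ⟨0, hr⟩ ∈ E := Submodule.subset_span ⟨_, rfl⟩
    rw [h1, Submodule.mem_bot] at h2
    exact hli.ne_zero _ h2
  refine lt_of_lt_of_le (crit (ctr (D := D)) ?_ ?_ B E hE0 ?_) hE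
  · intro i j hij f g u
    funext w
    simp only [ctr_apply, Finset.mul_sum]
    rw [Finset.sum_comm]
    refine Finset.sum_congr rfl fun a _ => Finset.sum_congr rfl fun b _ => ?_
    rw [Function.update_comm hij.symm]
    ring
  · intro i u hu
    funext w
    have h1 := congrFun (hu (dl w)) w
    rw [ctr_apply, Finset.sum_eq_single (w i)] at h1
    · simp only [dl, if_true, one_mul, Function.update_eq_self] at h1
      exact h1
    · intro a _ ha
      simp only [dl, if_neg ha, zero_mul]
    · intro hn
      exact absurd (Finset.mem_univ _) hn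
  · intro i hi f
    by_contra hcon
    push Not at hcon
    apply hmin i hi
    have hinj : ∀ u ∈ E, ctr i f u = 0 → u = 0 := by
      intro u hu h1
      by_contra h2
      exact hcon u hu h2 h1
    have hli' : LinearIndependent ℂ (fun s => ctr i f (e s)) := by
      rw [Fintype.linearIndependent_iff]
      intro g hg0
      have h1 : ctr i f (∑ s, g s • e s) = 0 := by
        rw [map_sum, ← hg0]
        exact Finset.sum_congr rfl fun s _ => by rw [map_smul]
      have h2 := hinj _ (Submodule.sum_mem _ fun s _ => Submodule.smul_mem _ _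
        (Submodule.subset_span ⟨s, rfl⟩)) h1
      exact Fintype.linearIndependent_iff.1 hli g h2
    obtain ⟨w, hw⟩ := exists_minor _ hli'
    refine ⟨xs, fun t => dl (w t), Function.update ℓ i (f i), ?_⟩
    have hiA : i ∉ A := fun h => Finset.disjoint_left.1 hAB h hi
    have h1 : PM T A (B.erase i) xs (fun t => dl (w t)) (Function.update ℓ i (f i))
        = Matrix.of fun s t => ctr i f (e s) (w t) := by
      ext s t
      show ev T (m3 A (B.erase i) (xs s) (dl (w t)) (Function.update ℓ i (f i)))
        = ∑ a, f i a * ev T (m3 A B (xs s) (dl (Function.update (w t) i a)) ℓ)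
      have h2 : m3 A (B.erase i) (xs s) (dl (w t)) (Function.update ℓ i (f i))
          = Function.update (m3 A (B.erase i) (xs s) (dl (w t)) ℓ) i (f i) := by
        funext j
        unfold m3
        by_cases hj : j = i
        · subst hj
          rw [Function.update_self, mix_of_not hiA, mix_of_not (Finset.notMem_erase _ _),
            Function.update_self]
        · rw [Function.update_of_ne hj]
          by_cases hjA : j ∈ A
          · rw [mix_of_mem hjA, mix_of_mem hjA]
          · rw [mix_of_not hjA, mix_of_not hjA]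
            by_cases hjB : j ∈ B.erase i
            · rw [mix_of_mem hjB, mix_of_mem hjB]
            · rw [mix_of_not hjB, mix_of_not hjB, Function.update_of_ne hj]
      have h3 : ∀ a, m3 A B (xs s) (dl (Function.update (w t) i a)) ℓ
          = Function.update (m3 A (B.erase i) (xs s) (dl (w t)) ℓ) i (ea a) := by
        intro a
        funext j
        unfold m3
        by_cases hj : j = i
        · subst hj
          rw [Function.update_self, mix_of_not hiA, mix_of_mem hi]
          funext b
          simp only [dl, ea, Function.update_self]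
        · rw [Function.update_of_ne hj]
          by_cases hjA : j ∈ A
          · rw [mix_of_mem hjA, mix_of_mem hjA]
          · rw [mix_of_not hjA, mix_of_not hjA]
            by_cases hjB : j ∈ B
            · rw [mix_of_mem hjB, mix_of_mem (Finset.mem_erase.2 ⟨hj, hjB⟩)]
              funext b
              simp only [dl, Function.update_of_ne hj]
            · rw [mix_of_not hjB, mix_of_not fun h => hjB (Finset.mem_of_mem_erase h)]
      rw [h2, ev_expand]
      exact Finset.sum_congr rfl fun a _ => by rw [h3]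
    rwa [h1]

/-- The maximal rank of the flattenings and a minimal minor. -/
theorem exists_core {T : ((i : I) → D i) → ℂ} {k : ℕ} (hT : ∃ w, T w ≠ 0)
    (hk : ∀ (A : Finset I) (xs ys : Fin (k + 1) → (i : I) → D i → ℂ),
      (Matrix.of fun s t => ev T (mix A (xs s) (ys t))).det = 0) :
    ∃ r : ℕ, 1 ≤ r ∧ r ≤ k ∧
      (∀ (A : Finset I) (xs ys : Fin (r + 1) → (i : I) → D i → ℂ),
        (Matrix.of fun s t => ev T (mix A (xs s) (ys t))).det = 0) ∧
      ∃ A B : Finset I, Disjoint A B ∧ A.card < r ∧ B.card < r ∧ GoodPair T r A B := by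
  classical
  let P : ℕ → Prop := fun r => ∃ (A : Finset I) (xs ys : Fin r → (i : I) → D i → ℂ),
    (Matrix.of fun s t => ev T (mix A (xs s) (ys t))).det ≠ 0
  have hP1 : P 1 := by
    obtain ⟨w, hw⟩ := hT
    refine ⟨∅, fun _ => dl w, fun _ => dl w, ?_⟩
    rw [Matrix.det_fin_one, Matrix.of_apply]
    have h1 : mix (∅ : Finset I) (dl w) (dl w) = dl w := by
      funext i
      exact mix_of_not (Finset.notMem_empty i) _ _
    rw [h1, ev_dl]
    exact hw
  have hk1 : 1 ≤ k := by
    by_contra hcon
    have h0 : k = 0 := by omega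
    subst h0
    obtain ⟨A, xs, ys, h⟩ := hP1
    exact h (hk A xs ys)
  have hr1 : 1 ≤ Nat.findGreatest P k := Nat.le_findGreatest hk1 hP1
  have hspec : P (Nat.findGreatest P k) := Nat.findGreatest_spec hk1 hP1
  have hle : Nat.findGreatest P k ≤ k := Nat.findGreatest_le k
  have hmax : ¬ P (Nat.findGreatest P k + 1) := by
    intro h1
    rcases Nat.lt_or_ge k (Nat.findGreatest P k + 1) with h2 | h2
    · have h3 : Nat.findGreatest P k = k := le_antisymm (Nat.findGreatest_le k) (by omega)
      rw [h3] at h1
      obtain ⟨A', xs', ys', h4⟩ := h1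
      exact h4 (hk A' xs' ys')
    · exact Nat.findGreatest_is_greatest (Nat.lt_succ_self _) h2 h1
  generalize Nat.findGreatest P k = r at hr1 hspec hmax hle
  refine ⟨r, hr1, hle, fun A' xs' ys' => ?_, ?_⟩
  · by_contra h4
    exact hmax ⟨A', xs', ys', h4⟩
  obtain ⟨A, xs, ys, h⟩ := hspec
  let Q : Set (Finset I × Finset I) := {p | Disjoint p.1 p.2 ∧ GoodPair T r p.1 p.2}
  have hQ : Q.Nonempty := by
    refine ⟨(A, Aᶜ), disjoint_compl_right, xs, ys, fun _ _ => 0, ?_⟩
    have h1 : PM T A Aᶜ xs ys (fun _ _ => 0) = Matrix.of fun s t => ev T (mix A (xs s) (ys t)) := by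
      ext s t
      show ev T (m3 A Aᶜ (xs s) (ys t) _) = ev T (mix A (xs s) (ys t))
      congr 1
      funext i
      unfold m3
      by_cases hi : i ∈ A
      · rw [mix_of_mem hi, mix_of_mem hi]
      · rw [mix_of_not hi, mix_of_not hi, mix_of_mem (Finset.mem_compl.2 hi)]
    rw [h1]
    exact h
  obtain ⟨⟨A1, B1⟩, ⟨hd, hg⟩, hmin⟩ := WellFounded.has_min
    (measure fun p : Finset I × Finset I => p.1.card + p.2.card).wf Q hQ
  refine ⟨A1, B1, hd, ?_, card_lt hr1 hd hg fun i hi h2 => ?_, hg⟩
  · refine card_lt hr1 hd.symm (hg.symm hd) fun i hi h2 => ?_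
    have h3 : Disjoint B1 (A1.erase i) := hd.symm.mono_right (Finset.erase_subset _ _)
    refine hmin (A1.erase i, B1) ⟨h3.symm, h2.symm h3⟩ ?_
    show (A1.erase i).card + B1.card < A1.card + B1.card
    have := Finset.card_erase_lt_of_mem hi
    omega
  · have h3 : Disjoint A1 (B1.erase i) := hd.mono_right (Finset.erase_subset _ _)
    refine hmin (A1, B1.erase i) ⟨h3, h2⟩ ?_
    show A1.card + (B1.erase i).card < A1.card + B1.card
    have := Finset.card_erase_lt_of_mem hi
    omega

end Pentad
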