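import Pool.Agent.H.MP_b77b2b_ag.UMin

/-!
# MP_b77b2b_ag, UStruct: the structure of tensors whose flattenings have small rank
-/

set_option autoImplicit false

namespace Pentad

section

variable {I : Type} [DecidableEq I] {R : I → Type}

theorem mix_empty (x y : (i : I) → R i) : mix ∅ x y = y := by
  funext i
  exact mix_of_not (Finset.notMem_empty i) _ _

theorem mix_self (S : Finset I) (x : (i : I) → R i) : mix S x x = x := by
  funext i
  by_cases hi : i ∈ S
  · rw [mix_of_mem hi]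
  · rw [mix_of_not hi]

theorem mix_mix_of_disj {S W : Finset I} (h : Disjoint S W) (x ℓ : (i : I) → R i) :
    mix S ℓ (mix W x ℓ) = mix W x ℓ := by
  funext i
  by_cases hi : i ∈ S
  · rw [mix_of_mem hi, mix_of_not (Finset.disjoint_left.1 h hi)]
  · rw [mix_of_not hi]

theorem mix_mix_union (S W : Finset I) (x y ℓ : (i : I) → R i) :
    mix S x (mix W y ℓ) = mix (S ∪ W) (mix S x y) ℓ := by
  funext i
  by_cases hi : i ∈ S
  · rw [mix_of_mem hi, mix_of_mem (Finset.mem_union_left _ hi), mix_of_mem hi]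
  · rw [mix_of_not hi]
    by_cases hw : i ∈ W
    · rw [mix_of_mem hw, mix_of_mem (Finset.mem_union_right _ hw), mix_of_not hi]
    · rw [mix_of_not hw, mix_of_not fun h => (Finset.mem_union.1 h).elim hi hw]

theorem mix_mix_of_subset {S W : Finset I} (h : S ⊆ W) (x ℓ : (i : I) → R i) :
    mix W (mix S x ℓ) ℓ = mix S x ℓ := by
  funext i
  by_cases hi : i ∈ W
  · rw [mix_of_mem hi]
  · rw [mix_of_not hi, mix_of_not fun h' => hi (h h')]

theorem mix_union_m3 {A B S : Finset I} (hB : Disjoint S B)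
    (α β x x' : (i : I) → R i) :
    mix (A ∪ S) (mix A α x) (mix B β x') = m3 A B α β (mix S x x') := by
  funext i
  unfold m3
  by_cases hA : i ∈ A
  · rw [mix_of_mem (Finset.mem_union_left _ hA), mix_of_mem hA, mix_of_mem hA]
  · rw [mix_of_not hA]
    by_cases hS : i ∈ S
    · rw [mix_of_mem (Finset.mem_union_right _ hS), mix_of_not hA,
        mix_of_not (Finset.disjoint_left.1 hB hS), mix_of_mem hS]
    · rw [mix_of_not fun h => (Finset.mem_union.1 h).elim hA hS]
      by_cases hi : i ∈ B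
      · rw [mix_of_mem hi, mix_of_mem hi]
      · rw [mix_of_not hi, mix_of_not hi, mix_of_not hS]

theorem m3_mix_compl [Fintype I] (A B : Finset I) (α β x y : (i : I) → R i) :
    m3 A B α β (mix (A ∪ B)ᶜ x y) = m3 A B α β x := by
  funext i
  unfold m3
  by_cases hA : i ∈ A
  · rw [mix_of_mem hA, mix_of_mem hA]
  · rw [mix_of_not hA, mix_of_not hA]
    by_cases hB : i ∈ B
    · rw [mix_of_mem hB, mix_of_mem hB]
    · rw [mix_of_not hB, mix_of_not hB, mix_of_mem]
      rw [Finset.mem_compl]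
      exact fun h => (Finset.mem_union.1 h).elim hA hB

theorem m3_mix_disj {A B W : Finset I} (hA : Disjoint W A) (hB : Disjoint W B)
    (α β x ℓ : (i : I) → R i) :
    m3 A B α β (mix W x ℓ) = mix W x (m3 A B α β ℓ) := by
  funext i
  unfold m3
  by_cases hW : i ∈ W
  · rw [mix_of_mem hW, mix_of_not (Finset.disjoint_left.1 hA hW),
      mix_of_not (Finset.disjoint_left.1 hB hW), mix_of_mem hW]
  · rw [mix_of_not hW]
    by_cases h1 : i ∈ A
    · rw [mix_of_mem h1, mix_of_mem h1]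
    · rw [mix_of_not h1, mix_of_not h1]
      by_cases h2 : i ∈ B
      · rw [mix_of_mem h2, mix_of_mem h2]
      · rw [mix_of_not h2, mix_of_not h2, mix_of_not hW]

end

variable {I : Type} [Fintype I] [DecidableEq I] {D : I → Type} [∀ i, Fintype (D i)]

/-- All flattenings have rank at most `r`. -/
def RankLE (T : ((i : I) → D i) → ℂ) (r : ℕ) : Prop :=
  ∀ (A : Finset I) (xs ys : Fin (r + 1) → (i : I) → D i → ℂ),
    (Matrix.of fun s t => ev T (mix A (xs s) (ys t))).det = 0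

variable {T : ((i : I) → D i) → ℂ} {r : ℕ} {A B : Finset I}
  {xs ys : Fin r → (i : I) → D i → ℂ}

theorem master (hT : RankLE T r) {ℓ : (i : I) → D i → ℂ}
    (h0 : (PM T A B xs ys ℓ).det ≠ 0) {S : Finset I} (hB : Disjoint S B)
    (α β x x' : (i : I) → D i → ℂ) :
    ev T (m3 A B α β (mix S x x')) = ∑ t, ∑ s, ev T (m3 A B α (ys t) (mix S x ℓ)) *
      (PM T A B xs ys ℓ)⁻¹ t s * ev T (m3 A B (xs s) β (mix S ℓ x')) := by
  have hP : (Matrix.of fun s t => ev T (mix (A ∪ S) (mix A (xs s) ℓ) (mix B (ys t) ℓ)))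
      = PM T A B xs ys ℓ := by
    ext s t
    show ev T (mix (A ∪ S) (mix A (xs s) ℓ) (mix B (ys t) ℓ)) = ev T (m3 A B (xs s) (ys t) ℓ)
    rw [mix_union_m3 hB, mix_self]
  have h1 := schur (fun X Y => ev T (mix (A ∪ S) X Y)) (fun p q => hT (A ∪ S) p q)
    (fun s => mix A (xs s) ℓ) (fun t => mix B (ys t) ℓ) (by rw [hP]; exact h0)
    (mix A α x) (mix B β x')
  rw [hP] at h1
  simp only [mix_union_m3 hB] at h1
  exact h1

theorem PM_master (hT : RankLE T r) {ℓ : (i : I) → D i → ℂ}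
    (h0 : (PM T A B xs ys ℓ).det ≠ 0) {S : Finset I} (hB : Disjoint S B)
    (x x' : (i : I) → D i → ℂ) :
    PM T A B xs ys (mix S x x') = PM T A B xs ys (mix S x ℓ) * (PM T A B xs ys ℓ)⁻¹ *
      PM T A B xs ys (mix S ℓ x') := by
  ext s t
  rw [Matrix.mul_apply]
  simp only [Matrix.mul_apply, Finset.sum_mul]
  show ev T (m3 A B (xs s) (ys t) (mix S x x')) = _
  rw [master hT h0 hB, Finset.sum_comm]
  rfl

/-- The normalised matrices. -/
noncomputable def XM (T : ((i : I) → D i) → ℂ) (A B : Finset I)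
    (xs ys : Fin r → (i : I) → D i → ℂ) (ℓ x : (i : I) → D i → ℂ) : Matrix (Fin r) (Fin r) ℂ :=
  (PM T A B xs ys ℓ)⁻¹ * PM T A B xs ys x

theorem XM_self {ℓ : (i : I) → D i → ℂ} (h0 : (PM T A B xs ys ℓ).det ≠ 0) :
    XM T A B xs ys ℓ ℓ = 1 :=
  Matrix.nonsing_inv_mul _ (isUnit_iff_ne_zero.2 h0)

theorem XM_mul (hT : RankLE T r) {ℓ : (i : I) → D i → ℂ}
    (h0 : (PM T A B xs ys ℓ).det ≠ 0) {S W : Finset I} (hB : Disjoint S B) (hSW : Disjoint S W)
    (x y : (i : I) → D i → ℂ) :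
    XM T A B xs ys ℓ (mix (S ∪ W) (mix S x y) ℓ)
      = XM T A B xs ys ℓ (mix S x ℓ) * XM T A B xs ys ℓ (mix W y ℓ) := by
  unfold XM
  rw [← mix_mix_union, PM_master hT h0 hB, mix_mix_of_disj hSW]
  simp only [Matrix.mul_assoc]

/-- The values of the tensor through the normalised matrices. -/
theorem ev_eq (hT : RankLE T r) {ℓ : (i : I) → D i → ℂ}
    (h0 : (PM T A B xs ys ℓ).det ≠ 0) (α β x : (i : I) → D i → ℂ) :
    ev T (m3 A B α β x) = ∑ t, ∑ t', ev T (m3 A B α (ys t) ℓ) * XM T A B xs ys ℓ x t t' *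
      ∑ s, (PM T A B xs ys ℓ)⁻¹ t' s * ev T (m3 A B (xs s) β ℓ) := by
  have hd : Disjoint (A ∪ B)ᶜ B :=
    Finset.disjoint_left.2 fun i hi hB =>
      Finset.mem_compl.1 hi (Finset.mem_union_right _ hB)
  have h1 : ∀ s, ev T (m3 A B (xs s) β x) = ∑ t', PM T A B xs ys x s t' *
      ∑ s', (PM T A B xs ys ℓ)⁻¹ t' s' * ev T (m3 A B (xs s') β ℓ) := by
    intro s
    have h2 := master hT h0 hd (xs s) β x ℓ
    simp only [m3_mix_compl, mix_self] at h2
    rw [h2]
    refine Finset.sum_congr rfl fun t' _ => ?_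
    rw [Finset.mul_sum]
    refine Finset.sum_congr rfl fun s' _ => ?_
    rw [mul_assoc]
    rfl
  have h2 := master hT h0 (Finset.disjoint_empty_left B) α β x x
  simp only [mix_empty] at h2
  rw [h2]
  refine Finset.sum_congr rfl fun t _ => ?_
  unfold XM
  simp only [Matrix.mul_apply]
  rw [Finset.sum_congr rfl fun s _ => by rw [h1 s]]
  simp only [Finset.mul_sum, Finset.sum_mul]
  rw [Finset.sum_comm]
  refine Finset.sum_congr rfl fun t' _ => ?_
  rw [Finset.sum_comm]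
  refine Finset.sum_congr rfl fun s _ => Finset.sum_congr rfl fun s' _ => ?_
  ring

/-- The span of the matrices over a set of positions. -/
def Psp (T : ((i : I) → D i) → ℂ) (A B : Finset I)
    (xs ys : Fin r → (i : I) → D i → ℂ) (ℓ : (i : I) → D i → ℂ) (W : Finset I) :
    Submodule ℂ (Matrix (Fin r) (Fin r) ℂ) :=
  Submodule.span ℂ (Set.range fun x : (i : I) → D i → ℂ => PM T A B xs ys (mix W x ℓ))

theorem PM_mem_Psp (ℓ x : (i : I) → D i → ℂ) (W : Finset I) :
    PM T A B xs ys (mix W x ℓ) ∈ Psp T A B xs ys ℓ W :=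
  Submodule.subset_span ⟨x, rfl⟩

theorem Psp_mono (ℓ : (i : I) → D i → ℂ) {W W' : Finset I} (h : W ⊆ W') :
    Psp T A B xs ys ℓ W ≤ Psp T A B xs ys ℓ W' := by
  refine Submodule.span_le.2 ?_
  rintro _ ⟨x, rfl⟩
  show PM T A B xs ys (mix W x ℓ) ∈ Psp T A B xs ys ℓ W'
  rw [← mix_mix_of_subset h]
  exact PM_mem_Psp _ _ _

theorem finrank_Psp_le (hT : RankLE T r) {W : Finset I} (hA : Disjoint W A) (hB : Disjoint W B)
    (ℓ : (i : I) → D i → ℂ) : Module.finrank ℂ (Psp T A B xs ys ℓ W) ≤ r := by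
  by_contra hcon
  push Not at hcon
  unfold Psp at hcon
  obtain ⟨f, hf, -, hli⟩ := Submodule.exists_fun_fin_finrank_span_eq ℂ
    (Set.range fun x : (i : I) → D i → ℂ => PM T A B xs ys (mix W x ℓ))
  choose x hx using hf
  let j := Fin.castLE (n := r + 1) hcon
  have hli' : LinearIndependent ℂ (fun i : Fin (r + 1) => f (j i)) :=
    hli.comp j (Fin.castLE_injective hcon)
  let e : Fin (r + 1) → (Fin r × Fin r → ℂ) := fun i p => f (j i) p.1 p.2
  have hle : LinearIndependent ℂ e := by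
    rw [Fintype.linearIndependent_iff] at hli' ⊢
    intro g hg
    apply hli' g
    ext s t
    have h1 := congrFun hg (s, t)
    rw [Finset.sum_apply] at h1
    rw [Matrix.sum_apply]
    exact h1
  obtain ⟨w, hw⟩ := exists_minor e hle
  apply hw
  have h1 := hT W (fun i => x (j i)) (fun t => m3 A B (xs (w t).1) (ys (w t).2) ℓ)
  rw [← h1]
  congr 1
  ext i t
  have h2 : f (j i) (w t).1 (w t).2 = PM T A B xs ys (mix W (x (j i)) ℓ) (w t).1 (w t).2 := by
    rw [← hx (j i)]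
  show f (j i) (w t).1 (w t).2 = ev T (mix W (x (j i)) (m3 A B (xs (w t).1) (ys (w t).2) ℓ))
  rw [h2, ← m3_mix_disj hA hB]
  rfl

theorem Psp_union_le (hT : RankLE T r) {ℓ : (i : I) → D i → ℂ}
    (h0 : (PM T A B xs ys ℓ).det ≠ 0) {H S V : Finset I} (hB : Disjoint S B)
    (hSV : Disjoint S V) (hSH : Disjoint S H) (hV : Psp T A B xs ys ℓ V ≤ Psp T A B xs ys ℓ H) :
    Psp T A B xs ys ℓ (S ∪ V) ≤ Psp T A B xs ys ℓ (S ∪ H) := by
  refine Submodule.span_le.2 ?_
  rintro _ ⟨x, rfl⟩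
  show PM T A B xs ys (mix (S ∪ V) x ℓ) ∈ Psp T A B xs ys ℓ (S ∪ H)
  have h1 : mix (S ∪ V) x ℓ = mix S x (mix V x ℓ) := by
    rw [mix_mix_union, mix_self]
  rw [h1, PM_master hT h0 hB, mix_mix_of_disj hSV]
  have h2 : PM T A B xs ys (mix V x ℓ) ∈ Psp T A B xs ys ℓ H := hV (PM_mem_Psp _ _ _)
  have h3 : ∀ M ∈ Psp T A B xs ys ℓ H, PM T A B xs ys (mix S x ℓ) * (PM T A B xs ys ℓ)⁻¹ * M
      ∈ Psp T A B xs ys ℓ (S ∪ H) := by
    intro M hM
    induction hM using Submodule.span_induction with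
    | mem M hM =>
      obtain ⟨y, rfl⟩ := hM
      have h4 : PM T A B xs ys (mix S x ℓ) * (PM T A B xs ys ℓ)⁻¹ * PM T A B xs ys (mix H y ℓ)
          = PM T A B xs ys (mix (S ∪ H) (mix S x y) ℓ) := by
        rw [← mix_mix_union, PM_master hT h0 hB x (mix H y ℓ), mix_mix_of_disj hSH]
      simp only [h4]
      exact PM_mem_Psp _ _ _
    | zero => rw [Matrix.mul_zero]; exact Submodule.zero_mem _
    | add M N _ _ hM hN => rw [Matrix.mul_add]; exact Submodule.add_mem _ hM hN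
    | smul c M _ hM => rw [Matrix.mul_smul]; exact Submodule.smul_mem _ _ hM
  exact h3 _ h2

theorem exists_insert (hT : RankLE T r) {ℓ : (i : I) → D i → ℂ}
    (h0 : (PM T A B xs ys ℓ).det ≠ 0) {H W : Finset I} (hHW : H ⊆ W) (hWB : Disjoint W B)
    (hne : Psp T A B xs ys ℓ H ≠ Psp T A B xs ys ℓ W) :
    ∃ c ∈ W \ H, Psp T A B xs ys ℓ H ≠ Psp T A B xs ys ℓ (insert c H) := by
  by_contra hcon
  push Not at hcon
  apply hne
  have h1 : ∀ S : Finset I, S ⊆ W \ H → Psp T A B xs ys ℓ (S ∪ H) ≤ Psp T A B xs ys ℓ H := by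
    intro S
    induction S using Finset.induction_on with
    | empty =>
      intro _
      rw [Finset.empty_union]
    | insert c S hc ih =>
      intro hS
      have hcW : c ∈ W \ H := hS (Finset.mem_insert_self _ _)
      have hSW : S ⊆ W \ H := fun i hi => hS (Finset.mem_insert_of_mem hi)
      have hSH : Disjoint S H := Finset.disjoint_left.2 fun i hi =>
        (Finset.mem_sdiff.1 (hSW hi)).2
      have h2 : insert c S ∪ H = S ∪ insert c H := by
        rw [Finset.insert_union, Finset.union_insert]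
      rw [h2]
      refine le_trans (Psp_union_le hT h0 ?_ ?_ hSH (hcon c hcW).ge) (ih hSW)
      · exact hWB.mono_left fun i hi => (Finset.mem_sdiff.1 (hSW hi)).1
      · exact Finset.disjoint_insert_right.2 ⟨hc, hSH⟩
  refine le_antisymm (Psp_mono ℓ hHW) ?_
  have h2 := h1 (W \ H) (Finset.Subset.refl _)
  rwa [Finset.sdiff_union_of_subset hHW] at h2

theorem exists_gen (hr : 1 ≤ r) (hT : RankLE T r)
    {ℓ : (i : I) → D i → ℂ} (h0 : (PM T A B xs ys ℓ).det ≠ 0) {W : Finset I}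
    (hWA : Disjoint W A) (hWB : Disjoint W B) :
    ∃ H ⊆ W, H.card < r ∧ Psp T A B xs ys ℓ H = Psp T A B xs ys ℓ W := by
  have key : ∀ n : ℕ, (∃ H ⊆ W, H.card ≤ n ∧ Psp T A B xs ys ℓ H = Psp T A B xs ys ℓ W) ∨
      ∃ H ⊆ W, H.card = n ∧ n + 1 ≤ Module.finrank ℂ (Psp T A B xs ys ℓ H) := by
    intro n
    induction n with
    | zero =>
      right
      refine ⟨∅, Finset.empty_subset _, Finset.card_empty, ?_⟩
      have h1 : PM T A B xs ys ℓ ∈ Psp T A B xs ys ℓ ∅ := by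
        have h2 := PM_mem_Psp (T := T) (A := A) (B := B) (xs := xs) (ys := ys) ℓ ℓ ∅
        rwa [mix_empty] at h2
      refine Nat.pos_of_ne_zero fun h2 => ?_
      rw [Submodule.finrank_eq_zero.1 h2, Submodule.mem_bot] at h1
      rw [h1] at h0
      have hne : Nonempty (Fin r) := ⟨⟨0, hr⟩⟩
      exact h0 Matrix.det_zero
    | succ n ih =>
      rcases ih with ⟨H, hH, hc, he⟩ | ⟨H, hH, hc, hf⟩
      · exact Or.inl ⟨H, hH, by omega, he⟩
      · by_cases he : Psp T A B xs ys ℓ H = Psp T A B xs ys ℓ W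
        · exact Or.inl ⟨H, hH, by omega, he⟩
        · obtain ⟨c, hcW, hne⟩ := exists_insert hT h0 hH hWB he
          right
          refine ⟨insert c H, Finset.insert_subset (Finset.mem_sdiff.1 hcW).1 hH, ?_, ?_⟩
          · rw [Finset.card_insert_of_notMem (Finset.mem_sdiff.1 hcW).2, hc]
          · have h1 := Submodule.finrank_lt_finrank_of_lt
              (lt_of_le_of_ne (Psp_mono ℓ (Finset.subset_insert c H)) hne)
            omega
  rcases key (r - 1) with ⟨H, hH, hc, he⟩ | ⟨H, hH, hc, hf⟩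
  · exact ⟨H, hH, by omega, he⟩
  · refine ⟨H, hH, by omega, Submodule.eq_of_le_of_finrank_le (Psp_mono ℓ hH) ?_⟩
    have h1 := finrank_Psp_le (xs := xs) (ys := ys) hT hWA hWB ℓ
    omega

/-- Many disjoint small sets of positions with the same span as together with the rest. -/
theorem exists_gens (hr : 1 ≤ r) (hT : RankLE T r)
    {ℓ : (i : I) → D i → ℂ} (h0 : (PM T A B xs ys ℓ).det ≠ 0) (n : ℕ) :
    ∀ W : Finset I, Disjoint W A → Disjoint W B →
      ∃ (H : Fin n → Finset I) (U : Finset I), (∀ q, H q ⊆ W) ∧ U ⊆ W ∧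
        (∀ i ∈ W, i ∈ U ∨ ∃ q, i ∈ H q) ∧ (∀ q, Disjoint (H q) U) ∧
        (∀ q q', q ≠ q' → Disjoint (H q) (H q')) ∧ (∀ q, (H q).card < r) ∧
        ∀ q, Psp T A B xs ys ℓ (H q ∪ U) = Psp T A B xs ys ℓ (H q) := by
  induction n with
  | zero =>
    intro W _ _
    refine ⟨fun _ => ∅, W, fun q => q.elim0, Finset.Subset.refl _, fun i hi => Or.inl hi,
      fun q => q.elim0, fun q => q.elim0, fun q => q.elim0, fun q => q.elim0⟩
  | succ n ih =>
    intro W hWA hWB
    obtain ⟨H0, hH0, hc0, he0⟩ := exists_gen hr hT h0 hWA hWB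
    obtain ⟨H, U, h1, h2, h3, h4, h5, h6, h7⟩ := ih (W \ H0)
      (hWA.mono_left Finset.sdiff_subset) (hWB.mono_left Finset.sdiff_subset)
    have hd : ∀ V : Finset I, V ⊆ W \ H0 → Disjoint H0 V := fun V hV =>
      Finset.disjoint_left.2 fun i hi hiV => (Finset.mem_sdiff.1 (hV hiV)).2 hi
    refine ⟨Fin.cons H0 H, U, ?_, fun i hi => (Finset.mem_sdiff.1 (h2 hi)).1, ?_, ?_, ?_, ?_, ?_⟩
    · intro q
      refine Fin.cases ?_ (fun q => ?_) q
      · exact hH0
      · exact fun i hi => (Finset.mem_sdiff.1 (h1 q hi)).1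
    · intro i hi
      by_cases hi0 : i ∈ H0
      · exact Or.inr ⟨0, hi0⟩
      · rcases h3 i (Finset.mem_sdiff.2 ⟨hi, hi0⟩) with h | ⟨q, h⟩
        · exact Or.inl h
        · exact Or.inr ⟨q.succ, h⟩
    · intro q
      refine Fin.cases ?_ (fun q => ?_) q
      · exact hd U h2
      · exact h4 q
    · intro q q'
      refine Fin.cases ?_ (fun q => ?_) q <;> refine Fin.cases ?_ (fun q' => ?_) q'
      · intro h
        exact absurd rfl h
      · intro _
        exact hd _ (h1 q')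
      · intro _
        exact (hd _ (h1 q)).symm
      · intro h
        exact h5 q q' fun h' => h (by rw [h'])
    · intro q
      refine Fin.cases ?_ (fun q => ?_) q
      · exact hc0
      · exact h6 q
    · intro q
      refine Fin.cases ?_ (fun q => ?_) q
      · refine le_antisymm ?_ (Psp_mono ℓ Finset.subset_union_left)
        show Psp T A B xs ys ℓ (H0 ∪ U) ≤ Psp T A B xs ys ℓ H0
        rw [he0]
        exact Psp_mono ℓ (Finset.union_subset hH0 fun i hi => (Finset.mem_sdiff.1 (h2 hi)).1)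
      · exact h7 q

theorem finrank_Psp_change (hT : RankLE T r) {ℓ : (i : I) → D i → ℂ}
    (h0 : (PM T A B xs ys ℓ).det ≠ 0) {W : Finset I} (hB : Disjoint W B)
    (ℓ' : (i : I) → D i → ℂ) :
    Module.finrank ℂ (Psp T A B xs ys ℓ' W) ≤ Module.finrank ℂ (Psp T A B xs ys ℓ W) := by
  let Z : Matrix (Fin r) (Fin r) ℂ := (PM T A B xs ys ℓ)⁻¹ * PM T A B xs ys (mix W ℓ ℓ')
  have h1 : Psp T A B xs ys ℓ' W ≤ (Psp T A B xs ys ℓ W).map (LinearMap.mulRight ℂ Z) := by
    refine Submodule.span_le.2 ?_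
    rintro _ ⟨x, rfl⟩
    refine ⟨PM T A B xs ys (mix W x ℓ), PM_mem_Psp _ _ _, ?_⟩
    rw [LinearMap.mulRight_apply]
    show _ = PM T A B xs ys (mix W x ℓ')
    rw [PM_master hT h0 hB x ℓ', Matrix.mul_assoc]
  exact (Submodule.finrank_mono h1).trans (Submodule.finrank_map_le _ _)

theorem Psp_change (hT : RankLE T r) {ℓ ℓ' : (i : I) → D i → ℂ}
    (h0 : (PM T A B xs ys ℓ).det ≠ 0) (h0' : (PM T A B xs ys ℓ').det ≠ 0) {H W : Finset I}
    (hHW : H ⊆ W) (hB : Disjoint W B)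
    (h : Psp T A B xs ys ℓ W = Psp T A B xs ys ℓ H) :
    Psp T A B xs ys ℓ' W = Psp T A B xs ys ℓ' H := by
  refine (Submodule.eq_of_le_of_finrank_le (Psp_mono ℓ' hHW) ?_).symm
  calc Module.finrank ℂ (Psp T A B xs ys ℓ' W)
      ≤ Module.finrank ℂ (Psp T A B xs ys ℓ W) := finrank_Psp_change hT h0 hB ℓ'
    _ = Module.finrank ℂ (Psp T A B xs ys ℓ H) := by rw [h]
    _ ≤ Module.finrank ℂ (Psp T A B xs ys ℓ' H) :=
      finrank_Psp_change hT h0' (hB.mono_left hHW) ℓ

end Pentad
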