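import Mathlib

/-!
# MP_b77b2b_ag, W1: alternating and symmetrising elements span the group algebra

Functions on `Perm (Fin d)` are the elements of the group algebra of the symmetric group. The
two-sided ideal generated by the alternations over `k + 1` positions and by the symmetrisations
over the fibres of the maps `Fin d → Fin k` is everything.
-/

set_option autoImplicit false

namespace Pentad

open Equiv

variable {d k : ℕ}

/-- The permutation of `Fin d` induced by a permutation of the image of `j`. -/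
noncomputable def hat (j : Fin (k + 1) ↪ Fin d) (τ : Perm (Fin (k + 1))) : Perm (Fin d) :=
  τ.viaFintypeEmbedding j

theorem hat_apply (j : Fin (k + 1) ↪ Fin d) (τ : Perm (Fin (k + 1))) (a : Fin (k + 1)) :
    hat j τ (j a) = j (τ a) := Perm.viaFintypeEmbedding_apply_image _ _ _

theorem hat_of_not (j : Fin (k + 1) ↪ Fin d) (τ : Perm (Fin (k + 1))) {b : Fin d}
    (h : b ∉ Set.range j) : hat j τ b = b := Perm.viaFintypeEmbedding_apply_notMem_range _ _ h

theorem hat_one (j : Fin (k + 1) ↪ Fin d) : hat j 1 = 1 := by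
  ext b
  by_cases h : b ∈ Set.range j
  · obtain ⟨a, rfl⟩ := h
    rw [hat_apply]
    rfl
  · rw [hat_of_not j _ h]
    rfl

theorem hat_mul (j : Fin (k + 1) ↪ Fin d) (τ τ' : Perm (Fin (k + 1))) :
    hat j (τ * τ') = hat j τ * hat j τ' := by
  ext b
  by_cases h : b ∈ Set.range j
  · obtain ⟨a, rfl⟩ := h
    have h1 : (hat j τ * hat j τ') (j a) = hat j τ (hat j τ' (j a)) := rfl
    rw [hat_apply, h1, hat_apply, hat_apply]
    rfl
  · rw [hat_of_not j _ h, Perm.mul_apply, hat_of_not j _ h, hat_of_not j _ h]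

/-- The basis elements of the group algebra. -/
def del (g : Perm (Fin d)) : Perm (Fin d) → ℂ := Pi.single g 1

theorem del_apply (g u : Perm (Fin d)) : del g u = if u = g then 1 else 0 := by
  unfold del
  rw [Pi.single_apply]

/-- The alternating elements. -/
noncomputable def AltE (j : Fin (k + 1) ↪ Fin d) (g h : Perm (Fin d)) : Perm (Fin d) → ℂ :=
  ∑ τ : Perm (Fin (k + 1)), ((Perm.sign τ : ℤ) : ℂ) • del (g * hat j τ * h)

/-- The stabiliser of a word. -/
def Stb (c : Fin d → Fin k) : Finset (Perm (Fin d)) :=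
  Finset.univ.filter fun s => ∀ a, c (s a) = c a

theorem mem_Stb {c : Fin d → Fin k} {s : Perm (Fin d)} : s ∈ Stb c ↔ ∀ a, c (s a) = c a := by
  unfold Stb
  rw [Finset.mem_filter]
  exact ⟨fun h => h.2, fun h => ⟨Finset.mem_univ _, h⟩⟩

/-- The symmetrising elements. -/
def SymE (c : Fin d → Fin k) (g h : Perm (Fin d)) : Perm (Fin d) → ℂ :=
  ∑ s ∈ Stb c, del (g * s * h)

/-- The span of the alternating elements. -/
noncomputable def NAlt (k d : ℕ) : Submodule ℂ (Perm (Fin d) → ℂ) :=
  Submodule.span ℂ {y | ∃ (j : Fin (k + 1) ↪ Fin d) (g h : Perm (Fin d)), y = AltE j g h}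

/-- The span of the alternating and the symmetrising elements. -/
noncomputable def NAll (k d : ℕ) : Submodule ℂ (Perm (Fin d) → ℂ) :=
  Submodule.span ℂ ({y | ∃ (j : Fin (k + 1) ↪ Fin d) (g h : Perm (Fin d)), y = AltE j g h} ∪
    {y | ∃ (c : Fin d → Fin k) (g h : Perm (Fin d)), y = SymE c g h})

/-- The sum of the coefficients in a coset. -/
def Cf (w : Fin d → Fin k) (g : Perm (Fin d)) : (Perm (Fin d) → ℂ) →ₗ[ℂ] ℂ :=
  ∑ s ∈ Stb w, LinearMap.proj (g * s)

theorem Cf_apply (w : Fin d → Fin k) (g : Perm (Fin d)) (y : Perm (Fin d) → ℂ) :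
    Cf w g y = ∑ s ∈ Stb w, y (g * s) := by
  unfold Cf
  rw [LinearMap.sum_apply]
  rfl

theorem Cf_del (w : Fin d → Fin k) (g u : Perm (Fin d)) :
    Cf w g (del u) = if ∀ a, w (g⁻¹ (u a)) = w a then 1 else 0 := by
  rw [Cf_apply]
  simp only [del_apply]
  by_cases h : ∀ a, w (g⁻¹ (u a)) = w a
  · rw [if_pos h, Finset.sum_eq_single (g⁻¹ * u)]
    · rw [if_pos (mul_inv_cancel_left g u)]
    · intro s _ hs
      rw [if_neg]
      intro h1
      apply hs
      rw [← h1, inv_mul_cancel_left]
    · intro hn
      exact absurd (mem_Stb.2 h) hn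
  · rw [if_neg h]
    refine Finset.sum_eq_zero fun s hs => ?_
    rw [if_neg]
    intro h1
    apply h
    intro a
    have h2 : g⁻¹ ((g * s) a) = s a := by
      rw [Perm.mul_apply]
      exact g.symm_apply_apply (s a)
    rw [← h1, h2]
    exact mem_Stb.1 hs a

theorem Cf_AltE (w : Fin d → Fin k) (g0 : Perm (Fin d)) (j : Fin (k + 1) ↪ Fin d)
    (g h : Perm (Fin d)) : Cf w g0 (AltE j g h) = 0 := by
  classical
  unfold AltE
  rw [map_sum]
  simp only [map_smul, Cf_del, smul_eq_mul]
  obtain ⟨p, q, hpq, hw⟩ : ∃ p q : Fin (k + 1), p ≠ q ∧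
      w (g0⁻¹ (g (j p))) = w (g0⁻¹ (g (j q))) := by
    have h1 := Fintype.exists_ne_map_eq_of_card_lt (fun p : Fin (k + 1) => w (g0⁻¹ (g (j p))))
      (by simp)
    obtain ⟨p, q, h2, h3⟩ := h1
    exact ⟨p, q, h2, h3⟩
  have hsw : ∀ b, w (g0⁻¹ (g (hat j (swap p q) b))) = w (g0⁻¹ (g b)) := by
    intro b
    by_cases hb : b ∈ Set.range j
    · obtain ⟨a, rfl⟩ := hb
      rw [hat_apply]
      rcases eq_or_ne a p with rfl | h1
      · rw [swap_apply_left, hw]
      · rcases eq_or_ne a q with rfl | h2
        · rw [swap_apply_right, hw]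
        · rw [swap_apply_of_ne_of_ne h1 h2]
    · rw [hat_of_not j _ hb]
  refine Finset.sum_involution (fun τ _ => swap p q * τ) ?_ ?_ ?_ ?_
  · intro τ _
    have h1 : (∀ a, w (g0⁻¹ ((g * hat j (swap p q * τ) * h) a)) = w a) ↔
        ∀ a, w (g0⁻¹ ((g * hat j τ * h) a)) = w a := by
      refine forall_congr' fun a => ?_
      rw [hat_mul]
      simp only [Perm.mul_apply]
      rw [hsw]
    have h2 : ((Perm.sign (swap p q * τ) : ℤ) : ℂ) = -((Perm.sign τ : ℤ) : ℂ) := by
      rw [Perm.sign_mul, Perm.sign_swap hpq]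
      simp
    simp only [h1, h2]
    ring
  · intro τ _ _ h1
    apply hpq
    have h2 : swap p q = 1 := mul_eq_right.1 h1
    exact swap_eq_one_iff.1 h2
  · intro τ _
    exact Finset.mem_univ _
  · intro τ _
    rw [← mul_assoc, swap_mul_self, one_mul]

theorem Cf_NAlt (w : Fin d → Fin k) (g0 : Perm (Fin d)) {y : Perm (Fin d) → ℂ}
    (hy : y ∈ NAlt k d) : Cf w g0 y = 0 := by
  induction hy using Submodule.span_induction with
  | mem y h =>
    obtain ⟨j, g, h, rfl⟩ := h
    exact Cf_AltE w g0 j g h
  | zero => exact map_zero _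
  | add x y _ _ hx hy => rw [map_add, hx, hy, add_zero]
  | smul c x _ hx => rw [map_smul, hx, smul_zero]

/-- The permutations without a decreasing subsequence of length `k + 1`. -/
def Avoid (k : ℕ) (h : Perm (Fin d)) : Prop :=
  ∀ j : Fin (k + 1) → Fin d, StrictMono j → ¬ StrictAnti fun a => h (j a)

/-- The lexicographic key. -/
def key (g : Perm (Fin d)) : Lex (Fin d → Fin d) := toLex fun a => g a

theorem key_lt {g h : Perm (Fin d)} {a : Fin d} (h1 : ∀ b < a, g b = h b) (h2 : g a < h a) :
    key g < key h := ⟨a, h1, h2⟩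

theorem straighten (k : ℕ) (g : Perm (Fin d)) :
    del g ∈ NAlt k d ⊔ Submodule.span ℂ {y | ∃ h : Perm (Fin d), Avoid k h ∧ y = del h} := by
  classical
  have hwf : WellFounded (fun g h : Perm (Fin d) => key g < key h) :=
    InvImage.wf key wellFounded_lt
  induction g using hwf.induction with
  | _ g ih =>
    by_cases hg : Avoid k g
    · exact Submodule.mem_sup_right (Submodule.subset_span ⟨g, hg, rfl⟩)
    · unfold Avoid at hg
      push Not at hg
      obtain ⟨j, hj, hgj⟩ := hg
      let j' : Fin (k + 1) ↪ Fin d := ⟨j, hj.injective⟩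
      have h1 : del g = AltE j' g 1 -
          ∑ τ ∈ Finset.univ.erase (1 : Perm (Fin (k + 1))),
            ((Perm.sign τ : ℤ) : ℂ) • del (g * hat j' τ * 1) := by
        unfold AltE
        rw [← Finset.add_sum_erase Finset.univ _ (Finset.mem_univ (1 : Perm (Fin (k + 1)))),
          add_sub_cancel_right, hat_one, Perm.sign_one]
        simp
      rw [h1]
      refine Submodule.sub_mem _
        (Submodule.mem_sup_left (Submodule.subset_span ⟨j', g, 1, rfl⟩)) ?_
      refine Submodule.sum_mem _ fun τ hτ => Submodule.smul_mem _ _ (ih _ ?_)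
      have hne : τ ≠ 1 := Finset.ne_of_mem_erase hτ
      have hex : ∃ a, τ a ≠ a := by
        by_contra hcon
        push Not at hcon
        exact hne (Equiv.ext hcon)
      obtain ⟨a, ha, hmin⟩ := wellFounded_lt.has_min {a | τ a ≠ a} hex
      have hlt : a < τ a := by
        rcases lt_trichotomy a (τ a) with h | h | h
        · exact h
        · exact absurd h.symm ha
        · exfalso
          have h2 : τ (τ a) = τ a := by
            by_contra h3
            exact hmin (τ a) h3 h
          exact ha (τ.injective h2)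
      rw [mul_one]
      refine key_lt (a := j a) ?_ ?_
      · intro b hb
        rw [Perm.mul_apply]
        by_cases hr : b ∈ Set.range j'
        · obtain ⟨c, rfl⟩ := hr
          rw [hat_apply]
          have h3 : c < a := hj.lt_iff_lt.1 hb
          have h4 : τ c = c := by
            by_contra h5
            exact hmin c h5 h3
          rw [h4]
        · rw [hat_of_not j' _ hr]
      · rw [Perm.mul_apply]
        have h3 : hat j' τ (j a) = j (τ a) := hat_apply j' τ a
        rw [h3]
        exact hgj hlt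

/-- A colouring by increasing classes. -/
theorem exists_colour {h : Perm (Fin d)} (hA : Avoid k h) :
    ∃ c : Fin d → Fin k, ∀ a b, a < b → c a = c b → h a < h b := by
  classical
  let Ch : Fin d → ℕ → Prop := fun a n => ∃ j : Fin (n + 1) → Fin d, StrictMono j ∧
    (StrictAnti fun i => h (j i)) ∧ j (Fin.last n) = a
  have hlt : ∀ a n, Ch a n → n < k := by
    intro a n hn
    by_contra hcon
    push Not at hcon
    obtain ⟨j, h1, h2, -⟩ := hn
    have hle : k + 1 ≤ n + 1 := by omega
    refine hA (fun i => j (Fin.castLE hle i)) ?_ ?_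
    · exact h1.comp (Fin.strictMono_castLE hle)
    · exact h2.comp_strictMono (Fin.strictMono_castLE hle)
  have h0 : ∀ a, Ch a 0 := by
    intro a
    refine ⟨fun _ => a, ?_, ?_, rfl⟩
    · intro x y hxy
      omega
    · intro x y hxy
      omega
  have hstep : ∀ a b n, a < b → h b < h a → Ch a n → Ch b (n + 1) := by
    intro a b n hab hba hn
    obtain ⟨j, h1, h2, h3⟩ := hn
    refine ⟨Fin.snoc (α := fun _ => Fin d) j b, ?_, ?_, ?_⟩
    · intro x y hxy
      refine Fin.lastCases ?_ (fun y => ?_) y hxy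
      · intro hx
        have hx' : x ≠ Fin.last _ := hx.ne
        obtain ⟨x', rfl⟩ := Fin.exists_castSucc_eq.2 hx'
        rw [Fin.snoc_castSucc, Fin.snoc_last]
        exact lt_of_le_of_lt (h1.monotone (Fin.le_last _)) (by rw [h3]; exact hab)
      · intro hx
        obtain ⟨x', rfl⟩ := Fin.exists_castSucc_eq.2 (lt_of_lt_of_le hx (Fin.le_last _)).ne
        rw [Fin.snoc_castSucc, Fin.snoc_castSucc]
        exact h1 (Fin.castSucc_lt_castSucc_iff.1 hx)
    · intro x y hxy
      refine Fin.lastCases ?_ (fun y => ?_) y hxy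
      · intro hx
        obtain ⟨x', rfl⟩ := Fin.exists_castSucc_eq.2 hx.ne
        simp only [Fin.snoc_castSucc, Fin.snoc_last]
        exact lt_of_lt_of_le hba (by rw [← h3]; exact h2.antitone (Fin.le_last _))
      · intro hx
        obtain ⟨x', rfl⟩ := Fin.exists_castSucc_eq.2 (lt_of_lt_of_le hx (Fin.le_last _)).ne
        simp only [Fin.snoc_castSucc]
        exact h2 (Fin.castSucc_lt_castSucc_iff.1 hx)
    · exact Fin.snoc_last _ _
  let f : Fin d → ℕ := fun a => Nat.findGreatest (Ch a) k
  have hf : ∀ a, Ch a (f a) := fun a => Nat.findGreatest_spec (m := 0) (Nat.zero_le _) (h0 a)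
  refine ⟨fun a => ⟨f a, hlt a _ (hf a)⟩, ?_⟩
  intro a b hab hc
  rw [Fin.mk.injEq] at hc
  by_contra hcon
  have hba : h b < h a := lt_of_le_of_ne (not_lt.1 hcon) fun h1 => hab.ne' (h.injective h1)
  have h1 := hstep a b _ hab hba (hf a)
  have h2 : f a + 1 ≤ f b := Nat.le_findGreatest (hlt b _ h1).le h1
  omega

theorem span_avoid {z : Perm (Fin d) → ℂ}
    (hz : z ∈ Submodule.span ℂ {y | ∃ h : Perm (Fin d), Avoid k h ∧ y = del h})
    {g : Perm (Fin d)} (hg : ¬ Avoid k g) : z g = 0 := by
  induction hz using Submodule.span_induction with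
  | mem z hz =>
    obtain ⟨h, hh, rfl⟩ := hz
    rw [del_apply, if_neg]
    rintro rfl
    exact hg hh
  | zero => rfl
  | add x y _ _ hx hy => rw [Pi.add_apply, hx, hy, add_zero]
  | smul c x _ hx => rw [Pi.smul_apply, hx, smul_zero]

theorem kernel {y : Perm (Fin d) → ℂ} (hy : ∀ (w : Fin d → Fin k) g, Cf w g y = 0) :
    y ∈ NAlt k d := by
  classical
  have h1 : y ∈ NAlt k d ⊔ Submodule.span ℂ {y | ∃ h : Perm (Fin d), Avoid k h ∧ y = del h} := by
    have h2 : y = ∑ g, y g • del g := by
      funext u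
      rw [Finset.sum_apply]
      simp only [Pi.smul_apply, del_apply, smul_eq_mul, mul_ite, mul_one, mul_zero]
      rw [Finset.sum_ite_eq, if_pos (Finset.mem_univ _)]
    rw [h2]
    exact Submodule.sum_mem _ fun g _ => Submodule.smul_mem _ _ (straighten k g)
  obtain ⟨n, hn, z, hz, rfl⟩ := Submodule.mem_sup.1 h1
  have hzC : ∀ (w : Fin d → Fin k) g, Cf w g z = 0 := by
    intro w g
    have h3 := hy w g
    rwa [map_add, Cf_NAlt w g hn, zero_add] at h3
  have hsup0 : ∀ g, ¬ Avoid k g → z g = 0 := fun g hg => span_avoid hz hg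
  have hsup : ∀ g, z g ≠ 0 → Avoid k g := fun g hg => by
    by_contra h3
    exact hg (hsup0 g h3)
  have hz0 : z = 0 := by
    by_contra hne
    have hex : ∃ h, z h ≠ 0 := by
      by_contra hcon
      push Not at hcon
      exact hne (funext hcon)
    obtain ⟨h, hh, hmax⟩ := Set.exists_max_image {h | z h ≠ 0} key (Set.toFinite _) hex
    obtain ⟨c, hc⟩ := exists_colour (hsup h hh)
    have h3 := hzC c h
    rw [Cf_apply, Finset.sum_eq_single 1] at h3
    · rw [mul_one] at h3
      exact hh h3
    · intro s hs hs1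
      by_contra h4
      have h5 := hmax (h * s) h4
      rw [← not_lt] at h5
      apply h5
      have hex : ∃ a, s a ≠ a := by
        by_contra hcon
        push Not at hcon
        exact hs1 (Equiv.ext hcon)
      obtain ⟨a, ha, hmin⟩ := wellFounded_lt.has_min {a | s a ≠ a} hex
      have hlt : a < s a := by
        rcases lt_trichotomy a (s a) with h | h | h
        · exact h
        · exact absurd h.symm ha
        · exfalso
          have h2 : s (s a) = s a := by
            by_contra h3
            exact hmin (s a) h3 h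
          exact ha (s.injective h2)
      refine key_lt (a := a) ?_ ?_
      · intro b hb
        rw [Perm.mul_apply]
        have h6 : s b = b := by
          by_contra h7
          exact hmin b h7 hb
        rw [h6]
      · rw [Perm.mul_apply]
        exact hc a (s a) hlt ((mem_Stb.1 hs a).symm)
    · intro hn
      exact absurd (mem_Stb.2 fun a => rfl) hn
  rw [hz0, add_zero]
  exact hn

/-- The unit of the group algebra lies in the span. -/
theorem one_mem_NAll (k d : ℕ) : NAll k d = ⊤ := by
  classical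
  by_contra hne
  obtain ⟨φ, hφ0, hφ⟩ := Submodule.exists_le_ker_of_lt_top _ (lt_top_iff_ne_top.2 hne)
  let y : Perm (Fin d) → ℂ := fun g => (starRingEnd ℂ) (φ (del g))
  have hy : y ∈ NAlt k d := by
    refine kernel fun w g => ?_
    have h1 : φ (SymE w g 1) = 0 :=
      LinearMap.mem_ker.1 (hφ (Submodule.subset_span (Or.inr ⟨w, g, 1, rfl⟩)))
    unfold SymE at h1
    rw [map_sum] at h1
    rw [Cf_apply]
    have h2 := congrArg (starRingEnd ℂ) h1
    rw [map_sum, map_zero] at h2
    rw [← h2]
    refine Finset.sum_congr rfl fun s _ => ?_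
    rw [mul_one]
  have h1 : φ y = 0 := by
    refine LinearMap.mem_ker.1 (hφ ?_)
    exact Submodule.span_mono Set.subset_union_left hy
  have h2 : y = ∑ g, y g • del g := by
    funext u
    rw [Finset.sum_apply]
    simp only [Pi.smul_apply, del_apply, smul_eq_mul, mul_ite, mul_one, mul_zero]
    rw [Finset.sum_ite_eq, if_pos (Finset.mem_univ _)]
  rw [h2, map_sum] at h1
  have h3 : ∑ g, ((Complex.normSq (φ (del g)) : ℝ) : ℂ) = 0 := by
    rw [← h1]
    refine Finset.sum_congr rfl fun g _ => ?_
    rw [map_smul, smul_eq_mul]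
    show _ = (starRingEnd ℂ) (φ (del g)) * φ (del g)
    rw [← Complex.normSq_eq_conj_mul_self]
  have h4 : ∑ g, Complex.normSq (φ (del g)) = 0 := by
    exact_mod_cast h3
  have h5 : ∀ g, φ (del g) = 0 := by
    intro g
    have h6 := (Finset.sum_eq_zero_iff_of_nonneg fun g _ => Complex.normSq_nonneg _).1 h4 g
      (Finset.mem_univ g)
    exact Complex.normSq_eq_zero.1 h6
  apply hφ0
  refine LinearMap.pi_ext' fun g => ?_
  refine LinearMap.ext_ring ?_
  rw [LinearMap.comp_apply, LinearMap.single_apply, LinearMap.zero_comp, LinearMap.zero_apply]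
  exact h5 g

end Pentad
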