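import Pool.Agent.H.MP_b77b2b_ag.W9
import Pool.Agent.H.MP_b77b2b_ag.UMin

/-!
# MP_b77b2b_ag, W10: from labels to coordinates
-/

set_option autoImplicit false

namespace Pentad

open MvPolynomial Matrix

section frame

variable {I : Type} [Fintype I] [DecidableEq I] {k : ℕ} {sA sB : Fin k ↪ I}

theorem w3_lt (hAB : ∀ s t, sA s ≠ sB t) (hk : 0 < k) (q j : Fin k) (i : I) :
    w3 sA sB (fun _ => (q : ℕ)) (fun _ => (j : ℕ)) 0 i < k := by
  rcases cases_I (sA := sA) (sB := sB) i with ⟨s, rfl⟩ | ⟨t, rfl⟩ | h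
  · rw [w3_A]
    exact q.2
  · rw [w3_B hAB]
    exact j.2
  · rw [w3_R _ _ _ h]
    exact hk

theorem all_labels {m D0 : ℕ} (hAB : ∀ s t, sA s ≠ sB t) (hk : 0 < k)
    (hD : CI (CZ k) ≤ Ideal.span {h | h ∈ CI (CZ k) ∧
      ∃ N : Finset ℕ, N.card ≤ D0 ∧ ∀ n v, Sum.inr (n, v) ∈ h.vars → n ∈ N})
    (hm : k + k + D0 < m) {p : MvPolynomial (I → ℕ) ℂ} (hp : VI k p) :
    ∃ M : ℕ, (wG sA sB).det ^ M * p ∈ FI k m fun _ : I => ℕ := by
  refine bounded_labels (q := k) (by omega) ?_
    (fun p hp hl => bounded_mem hAB hk hD hm hp hl) p hp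
  intro i c hc
  rw [AlgHom.map_det]
  congr 1
  ext1 q j
  rw [AlgHom.mapMatrix_apply, Matrix.map_apply]
  unfold wG
  rw [Matrix.of_apply, su_X_of_base]
  exact hc _ (w3_lt hAB hk q j i)

end frame

section theta

variable {I : Type} [Fintype I] [DecidableEq I] {d : I → ℕ}

/-- Substituting functionals for the labels. -/
noncomputable def theta (F : (i : I) → ℕ → Fin (d i) → ℂ) :
    MvPolynomial (I → ℕ) ℂ →ₐ[ℂ] MvPolynomial ((i : I) → Fin (d i)) ℂ :=
  aeval fun x => ∑ w, (∏ i, F i (x i) (w i)) • X w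

theorem eval_theta (F : (i : I) → ℕ → Fin (d i) → ℂ) (T : ((i : I) → Fin (d i)) → ℂ)
    (p : MvPolynomial (I → ℕ) ℂ) : eval T (theta F p)
      = eval (fun x => ∑ w, (∏ i, F i (x i) (w i)) * T w) p := by
  have h1 : (aeval T : MvPolynomial ((i : I) → Fin (d i)) ℂ →ₐ[ℂ] ℂ).comp (theta F)
      = aeval fun x => ∑ w, (∏ i, F i (x i) (w i)) * T w := by
    refine algHom_ext fun x => ?_
    rw [AlgHom.comp_apply]
    unfold theta
    rw [aeval_X, aeval_X, map_sum]
    refine Finset.sum_congr rfl fun w _ => ?_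
    rw [map_smul, aeval_X, smul_eq_mul]
  have h2 := congrArg (fun f => f p) h1
  simp only [AlgHom.comp_apply, aeval_eq_eval] at h2
  exact h2

theorem BV_theta {k m : ℕ} {σ : I → Fin m} (w0 : (i : I) → Fin (d i))
    (F : (i : I) → ℕ → Fin (d i) → ℂ) {p : MvPolynomial (I → ℕ) ℂ} (hp : BV k σ p) :
    BV k σ (theta F p) := by
  classical
  intro u hu
  rw [eval_theta]
  let ext : (b : Fin m) → ((i : {i : I // σ i = b}) → Fin (d i.1)) → (i : I) → Fin (d i) :=
    fun b g i => if h : σ i = b then g ⟨i, h⟩ else w0 i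
  let u' : Fin k → Fin m → (I → ℕ) → ℂ := fun j b x =>
    ∑ g : (i : {i : I // σ i = b}) → Fin (d i.1), u j b (ext b g) *
      ∏ i : {i : I // σ i = b}, F i.1 (x i.1) (g i)
  have h1 : (fun x : I → ℕ => ∑ w, (∏ i, F i (x i) (w i)) * ∑ j, ∏ b, u j b w)
      = fun x => ∑ j, ∏ b, u' j b x := by
    funext x
    simp only [Finset.mul_sum]
    rw [Finset.sum_comm]
    refine Finset.sum_congr rfl fun j _ => ?_
    show _ = ∏ b, ∑ g : (i : {i : I // σ i = b}) → Fin (d i.1), u j b (ext b g) *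
      ∏ i : {i : I // σ i = b}, F i.1 (x i.1) (g i)
    rw [prod_sum_univ (fun (b : Fin m) (g : (i : {i : I // σ i = b}) → Fin (d i.1)) =>
      u j b (ext b g) * ∏ i : {i : I // σ i = b}, F i.1 (x i.1) (g i))]
    let e : ((b : Fin m) → ((i : {i : I // σ i = b}) → Fin (d i.1))) ≃ ((i : I) → Fin (d i)) :=
      { toFun := fun g i => g (σ i) ⟨i, rfl⟩
        invFun := fun w _ i => w i.1
        left_inv := fun g => by
          funext b i
          obtain ⟨i, rfl⟩ := i
          rfl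
        right_inv := fun _ => rfl }
    rw [← e.sum_comp]
    refine Finset.sum_congr rfl fun g _ => ?_
    rw [Finset.prod_mul_distrib, mul_comm]
    congr 1
    · refine Finset.prod_congr rfl fun b _ => ?_
      refine hu _ _ _ _ fun i hi => ?_
      subst hi
      show g (σ i) ⟨i, rfl⟩ = if h : σ i = σ i then g (σ i) ⟨i, h⟩ else w0 i
      rw [dif_pos rfl]
    · rw [← (Equiv.sigmaFiberEquiv σ).prod_comp, Fintype.prod_sigma]
      refine Finset.prod_congr rfl fun b _ => Finset.prod_congr rfl fun i _ => ?_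
      obtain ⟨i, rfl⟩ := i
      rfl
  rw [h1]
  refine hp u' ?_
  intro j b x x' hx
  refine Finset.sum_congr rfl fun g _ => ?_
  congr 1
  refine Finset.prod_congr rfl fun i _ => ?_
  rw [hx i.1 i.2]

theorem FI_theta {k m : ℕ} (w0 : (i : I) → Fin (d i)) (F : (i : I) → ℕ → Fin (d i) → ℂ)
    {p : MvPolynomial (I → ℕ) ℂ} (hp : p ∈ FI k m fun _ : I => ℕ) :
    theta F p ∈ FI k m fun i => Fin (d i) := by
  have h : (FI k m fun _ : I => ℕ) ≤ (FI k m fun i => Fin (d i)).comap (theta F) := by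
    refine Ideal.span_le.2 ?_
    rintro p ⟨σ, hp⟩
    exact Ideal.subset_span ⟨σ, BV_theta w0 F hp⟩
  exact h hp

theorem exists_frame {k : ℕ} {A B : Finset I} (hAB : Disjoint A B) (hA : A.card ≤ k)
    (hB : B.card ≤ k) (hI : k + k ≤ Fintype.card I) :
    ∃ sA sB : Fin k ↪ I, (∀ s t, sA s ≠ sB t) ∧ (∀ i ∈ A, ∃ s, sA s = i) ∧
      ∀ i ∈ B, ∃ t, sB t = i := by
  obtain ⟨A', h1, h2, h3⟩ := Finset.exists_subsuperset_card_eq
    (s := A) (t := Bᶜ) (n := k) (by
      intro i hi
      rw [Finset.mem_compl]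
      exact Finset.disjoint_left.1 hAB hi) hA (by
      rw [Finset.card_compl]
      omega)
  obtain ⟨B', h4, h5, h6⟩ := Finset.exists_subsuperset_card_eq
    (s := B) (t := A'ᶜ) (n := k) (by
      intro i hi
      rw [Finset.mem_compl]
      intro h
      exact Finset.mem_compl.1 (h2 h) hi) hB (by
      rw [Finset.card_compl, h3]
      omega)
  let eA := Finset.equivFinOfCardEq h3
  let eB := Finset.equivFinOfCardEq h6
  refine ⟨eA.symm.toEmbedding.trans (Function.Embedding.subtype _),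
    eB.symm.toEmbedding.trans (Function.Embedding.subtype _), ?_, ?_, ?_⟩
  · intro s t h
    have e1 : ((eA.symm s : A') : I) = ((eB.symm t : B') : I) := h
    have e2 := (eA.symm s).2
    have e3 := (eB.symm t).2
    rw [e1] at e2
    exact Finset.mem_compl.1 (h5 e3) e2
  · intro i hi
    refine ⟨eA ⟨i, h1 hi⟩, ?_⟩
    show ((eA.symm (eA ⟨i, h1 hi⟩) : A') : I) = i
    rw [Equiv.symm_apply_apply]
  · intro i hi
    refine ⟨eB ⟨i, h4 hi⟩, ?_⟩
    show ((eB.symm (eB ⟨i, h4 hi⟩) : B') : I) = i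
    rw [Equiv.symm_apply_apply]

/-- The determinant of the values at functionals. -/
noncomputable def fdet {k : ℕ} (A B : Finset I) (xs ys : Fin k → (i : I) → Fin (d i) → ℂ)
    (ℓ : (i : I) → Fin (d i) → ℂ) : MvPolynomial ((i : I) → Fin (d i)) ℂ :=
  (Matrix.of fun q j : Fin k => ∑ w, (∏ i, m3 A B (xs q) (ys j) ℓ i (w i)) •
    (X w : MvPolynomial ((i : I) → Fin (d i)) ℂ)).det

theorem special {k m D0 : ℕ} (hk : 0 < k)
    (hD : CI (CZ k) ≤ Ideal.span {h | h ∈ CI (CZ k) ∧
      ∃ N : Finset ℕ, N.card ≤ D0 ∧ ∀ n v, Sum.inr (n, v) ∈ h.vars → n ∈ N})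
    (hm : k + k + D0 < m) (w0 : (i : I) → Fin (d i)) {A B : Finset I} (hAB : Disjoint A B)
    (hA : A.card ≤ k) (hB : B.card ≤ k) (hI : k + k ≤ Fintype.card I)
    (xs ys : Fin k → (i : I) → Fin (d i) → ℂ) (ℓ : (i : I) → Fin (d i) → ℂ)
    {p : MvPolynomial ((i : I) → Fin (d i)) ℂ} (hp : VI k p) :
    ∃ M : ℕ, fdet A B xs ys ℓ ^ M * p ∈ FI k m fun i => Fin (d i) := by
  classical
  obtain ⟨sA, sB, hs, hsA, hsB⟩ := exists_frame hAB hA hB hI
  let F : (i : I) → ℕ → Fin (d i) → ℂ := fun i n a =>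
    if h : n < k then (if i ∈ A then xs ⟨n, h⟩ i a else if i ∈ B then ys ⟨n, h⟩ i a else ℓ i a)
    else if n = k + a then 1 else 0
  let p' : MvPolynomial (I → ℕ) ℂ :=
    rename (fun (w : (i : I) → Fin (d i)) (i : I) => k + (w i : ℕ)) p
  have hp' : VI k p' := by
    intro v
    show eval _ (rename _ p) = 0
    rw [eval_rename]
    exact hp fun j i a => v j i (k + a)
  have hF1 : ∀ (w : (i : I) → Fin (d i)) (i : I) (a : Fin (d i)),
      F i (k + (w i : ℕ)) a = if w i = a then 1 else 0 := by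
    intro w i a
    show (if h : k + (w i : ℕ) < k then _ else if k + (w i : ℕ) = k + a then (1 : ℂ) else 0) = _
    rw [dif_neg (by omega)]
    by_cases h : w i = a
    · rw [if_pos h, if_pos (by rw [h])]
    · rw [if_neg h, if_neg]
      intro h2
      exact h (Fin.ext (by omega))
  have hF2 : theta F p' = p := by
    show theta F (rename _ p) = p
    have h1 : (theta F).comp (rename (fun (w : (i : I) → Fin (d i)) (i : I) => k + (w i : ℕ)))
        = AlgHom.id ℂ _ := by
      refine algHom_ext fun w => ?_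
      rw [AlgHom.comp_apply, rename_X]
      unfold theta
      rw [aeval_X, AlgHom.id_apply, Finset.sum_eq_single w]
      · have e1 : ∏ i, F i (k + (w i : ℕ)) (w i) = 1 := by
          refine Finset.prod_eq_one fun i _ => ?_
          rw [hF1, if_pos rfl]
        rw [e1, one_smul]
      · intro w' _ hne
        have h2 : ∃ i, w i ≠ w' i := by
          by_contra hcon
          push Not at hcon
          exact hne (funext hcon).symm
        obtain ⟨i, hi⟩ := h2
        rw [Finset.prod_eq_zero (Finset.mem_univ i) (by rw [hF1, if_neg hi]), zero_smul]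
      · intro h
        exact absurd (Finset.mem_univ _) h
    exact congrArg (fun f => f p) h1
  have hF3 : theta F (wG sA sB).det = fdet A B xs ys ℓ := by
    unfold fdet
    rw [AlgHom.map_det]
    congr 1
    ext1 q j
    rw [AlgHom.mapMatrix_apply, Matrix.map_apply]
    unfold wG theta
    rw [Matrix.of_apply, Matrix.of_apply, aeval_X]
    refine Finset.sum_congr rfl fun w _ => ?_
    congr 1
    refine Finset.prod_congr rfl fun i _ => ?_
    have hlt := w3_lt hs hk q j i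
    show (if h : w3 sA sB (fun _ => (q : ℕ)) (fun _ => (j : ℕ)) 0 i < k then
      (if i ∈ A then xs ⟨_, h⟩ i (w i) else if i ∈ B then ys ⟨_, h⟩ i (w i) else ℓ i (w i))
      else _) = _
    rw [dif_pos hlt]
    unfold m3
    by_cases hiA : i ∈ A
    · rw [if_pos hiA, mix_of_mem hiA]
      obtain ⟨s, rfl⟩ := hsA i hiA
      have e : (⟨w3 sA sB (fun _ => (q : ℕ)) (fun _ => (j : ℕ)) 0 (sA s), hlt⟩ : Fin k) = q := by
        apply Fin.ext
        show w3 sA sB (fun _ => (q : ℕ)) (fun _ => (j : ℕ)) 0 (sA s) = q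
        rw [w3_A]
      rw [e]
    · rw [if_neg hiA, mix_of_not hiA]
      by_cases hiB : i ∈ B
      · rw [if_pos hiB, mix_of_mem hiB]
        obtain ⟨t, rfl⟩ := hsB i hiB
        have e : (⟨w3 sA sB (fun _ => (q : ℕ)) (fun _ => (j : ℕ)) 0 (sB t), hlt⟩ : Fin k) = j := by
          apply Fin.ext
          show w3 sA sB (fun _ => (q : ℕ)) (fun _ => (j : ℕ)) 0 (sB t) = j
          rw [w3_B hs]
        rw [e]
      · rw [if_neg hiB, mix_of_not hiB]
  obtain ⟨M, hM⟩ := all_labels hs hk hD hm hp'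
  refine ⟨M, ?_⟩
  have h1 := FI_theta w0 F hM
  rwa [map_mul, map_pow, hF2, hF3] at h1

end theta

end Pentad
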