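import Pool.Agent.H.MP_b77b2b_ag.W10
import Pool.Agent.H.MP_b77b2b_ag.UFam

/-!
# MP_b77b2b_ag, W11: all minors of order `k`
-/

set_option autoImplicit false

namespace Pentad

open MvPolynomial Matrix

section

variable {I : Type} [Fintype I] [DecidableEq I] {D : I → Type} [∀ i, Fintype (D i)]
  [∀ i, DecidableEq (D i)]

/-- A nonvanishing minor in few positions. -/
theorem exists_small_pair {T : ((i : I) → D i) → ℂ} {r : ℕ} (hr1 : 1 ≤ r) {A : Finset I}
    {xs ys : Fin r → (i : I) → D i → ℂ}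
    (h : (Matrix.of fun s t => ev T (mix A (xs s) (ys t))).det ≠ 0) :
    ∃ A B : Finset I, Disjoint A B ∧ A.card < r ∧ B.card < r ∧ GoodPair T r A B := by
  classical
  let Q : Set (Finset I × Finset I) := {p | Disjoint p.1 p.2 ∧ GoodPair T r p.1 p.2}
  have hQ : Q.Nonempty := by
    refine ⟨(A, Aᶜ), disjoint_compl_right, xs, ys, fun _ _ => 0, ?_⟩
    have h1 : PM T A Aᶜ xs ys (fun _ _ => 0) = Matrix.of fun s t => ev T (mix A (xs s) (ys t)) := by
      ext s t
      show ev T (m3 A Aᶜ (xs s) (ys t) _) = ev T (mix A (xs s) (ys t))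
      congr 1
      funext i
      unfold m3
      by_cases hi : i ∈ A
      · rw [mix_of_mem hi, mix_of_mem hi]
      · rw [mix_of_not hi, mix_of_not hi, mix_of_mem (Finset.mem_compl.2 hi)]
    rw [h1]
    exact h
  obtain ⟨⟨A1, B1⟩, ⟨hd, hg⟩, hmin⟩ := WellFounded.has_min
    (measure fun p : Finset I × Finset I => p.1.card + p.2.card).wf Q hQ
  refine ⟨A1, B1, hd, ?_, card_lt hr1 hd hg fun i hi h2 => ?_, hg⟩
  · refine card_lt hr1 hd.symm (hg.symm hd) fun i hi h2 => ?_
    have h3 : Disjoint B1 (A1.erase i) := hd.symm.mono_right (Finset.erase_subset _ _)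
    refine hmin (A1.erase i, B1) ⟨h3.symm, h2.symm h3⟩ ?_
    show (A1.erase i).card + B1.card < A1.card + B1.card
    have := Finset.card_erase_lt_of_mem hi
    omega
  · have h3 : Disjoint A1 (B1.erase i) := hd.mono_right (Finset.erase_subset _ _)
    refine hmin (A1, B1.erase i) ⟨h3, h2⟩ ?_
    show A1.card + (B1.erase i).card < A1.card + B1.card
    have := Finset.card_erase_lt_of_mem hi
    omega

end

section

variable {I : Type} [Fintype I] [DecidableEq I] {d : I → ℕ}

theorem eval_fdet {k : ℕ} (A B : Finset I) (xs ys : Fin k → (i : I) → Fin (d i) → ℂ)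
    (ℓ : (i : I) → Fin (d i) → ℂ) (T : ((i : I) → Fin (d i)) → ℂ) :
    eval T (fdet A B xs ys ℓ) = (PM T A B xs ys ℓ).det := by
  unfold fdet
  rw [RingHom.map_det]
  congr 1
  ext1 q j
  rw [RingHom.mapMatrix_apply, Matrix.map_apply, Matrix.of_apply, map_sum]
  unfold PM ev
  rw [Matrix.of_apply]
  refine Finset.sum_congr rfl fun w _ => ?_
  rw [smul_eval, eval_X, mul_comm]

/-- The minor of a flattening. -/
noncomputable def fmin {k : ℕ} (A : Finset I) (x y : Fin k → (i : I) → Fin (d i)) :
    MvPolynomial ((i : I) → Fin (d i)) ℂ :=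
  (Matrix.of fun s t : Fin k => (X (mix A (x s) (y t)) :
    MvPolynomial ((i : I) → Fin (d i)) ℂ)).det

theorem local_minor {k m D0 : ℕ} (hk : 0 < k)
    (hD : CI (CZ k) ≤ Ideal.span {h | h ∈ CI (CZ k) ∧
      ∃ N : Finset ℕ, N.card ≤ D0 ∧ ∀ n v, Sum.inr (n, v) ∈ h.vars → n ∈ N})
    (hm : k + k + D0 < m) (hI : k + k ≤ Fintype.card I) (A : Finset I)
    (x y : Fin k → (i : I) → Fin (d i)) {p : MvPolynomial ((i : I) → Fin (d i)) ℂ}
    (hp : VI k p) : ∃ M : ℕ, fmin A x y ^ M * p ∈ FI k m fun i => Fin (d i) := by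
  classical
  let J : Ideal (MvPolynomial ((i : I) → Fin (d i)) ℂ) :=
    Submodule.comap (LinearMap.mulRight (MvPolynomial ((i : I) → Fin (d i)) ℂ) p)
      (FI k m fun i => Fin (d i))
  have hJ : ∀ f, f ∈ J ↔ f * p ∈ FI k m fun i => Fin (d i) := fun f => Iff.rfl
  suffices hsuff : fmin A x y ∈ J.radical by
    obtain ⟨M, hM⟩ := hsuff
    exact ⟨M, (hJ _).1 hM⟩
  rw [← vanishingIdeal_zeroLocus_eq_radical (K := ℂ) J, mem_vanishingIdeal_iff]
  intro T hT
  rw [aeval_eq_eval]
  by_contra hne
  have h1 : (Matrix.of fun s t => ev T (mix A (dl (x s)) (dl (y t)))).det ≠ 0 := by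
    have e1 : eval T (fmin A x y)
        = (Matrix.of fun s t => ev T (mix A (dl (x s)) (dl (y t)))).det := by
      unfold fmin
      rw [RingHom.map_det]
      congr 1
      ext1 s t
      rw [RingHom.mapMatrix_apply, Matrix.map_apply, Matrix.of_apply, Matrix.of_apply, eval_X,
        ← ev_dl T]
      congr 1
      funext i
      by_cases hi : i ∈ A
      · rw [mix_of_mem hi]
        unfold dl
        rw [mix_of_mem hi]
      · rw [mix_of_not hi]
        unfold dl
        rw [mix_of_not hi]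
    rw [← e1]
    exact hne
  obtain ⟨A1, B1, hd, hA1, hB1, xs, ys, ℓ, h2⟩ := exists_small_pair hk h1
  obtain ⟨M, hM⟩ := special hk hD hm (x ⟨0, hk⟩) hd hA1.le hB1.le hI xs ys ℓ hp
  have h3 := hT _ ((hJ _).2 hM)
  rw [aeval_eq_eval] at h3
  have h4 : eval T (fdet A1 B1 xs ys ℓ ^ M) = 0 := h3
  rw [map_pow, eval_fdet] at h4
  exact h2 (eq_zero_of_pow_eq_zero h4)

/-- The ideal of the secant variety is prime. -/
theorem VI_of_mul {k : ℕ} {g p : MvPolynomial ((i : I) → Fin (d i)) ℂ} {M : ℕ}
    (h : VI k (g ^ M * p)) (hg : ¬ VI k g) : VI k p := by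
  have h1 := parG_eq_zero k (fun i => Fin (d i)) h
  rw [map_mul, map_pow] at h1
  rcases mul_eq_zero.1 h1 with h2 | h2
  · exfalso
    apply hg
    intro v
    rw [← eval_parG, eq_zero_of_pow_eq_zero h2, map_zero]
  · intro v
    rw [← eval_parG, h2, map_zero]

theorem not_VI_fmin {k : ℕ} (A : Finset I) (x y : Fin k → (i : I) → Fin (d i))
    (hx : ∀ s s', (∀ i ∈ A, x s i = x s' i) → s = s')
    (hy : ∀ t t', (∀ i, i ∉ A → y t i = y t' i) → t = t') : ¬ VI k (fmin A x y) := by
  classical
  intro h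
  have h1 := h fun j => dl (mix A (x j) (y j))
  unfold fmin at h1
  rw [RingHom.map_det] at h1
  have h2 : (eval fun w : (i : I) → Fin (d i) => ∑ j, ∏ i, dl (mix A (x j) (y j)) i (w i)).mapMatrix
      (Matrix.of fun s t : Fin k => (X (mix A (x s) (y t)) :
        MvPolynomial ((i : I) → Fin (d i)) ℂ)) = 1 := by
    ext1 s t
    rw [RingHom.mapMatrix_apply, Matrix.map_apply, Matrix.of_apply, eval_X, Matrix.one_apply]
    have h3 : ∀ j, (∏ i, dl (mix A (x j) (y j)) i (mix A (x s) (y t) i))
        = if s = j ∧ t = j then 1 else 0 := by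
      intro j
      by_cases hj : s = j ∧ t = j
      · rw [if_pos hj]
        obtain ⟨rfl, rfl⟩ := hj
        exact Finset.prod_eq_one fun i _ => if_pos rfl
      · rw [if_neg hj]
        have h4 : ∃ i, mix A (x s) (y t) i ≠ mix A (x j) (y j) i := by
          by_contra hcon
          push Not at hcon
          apply hj
          constructor
          · refine hx s j fun i hi => ?_
            have h5 := hcon i
            rwa [mix_of_mem hi, mix_of_mem hi] at h5
          · refine hy t j fun i hi => ?_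
            have h5 := hcon i
            rwa [mix_of_not hi, mix_of_not hi] at h5
        obtain ⟨i, hi⟩ := h4
        exact Finset.prod_eq_zero (Finset.mem_univ i) (if_neg hi)
    simp only [h3]
    by_cases hst : s = t
    · subst hst
      rw [if_pos rfl, Finset.sum_eq_single s]
      · rw [if_pos ⟨rfl, rfl⟩]
      · intro j _ hj
        rw [if_neg fun h => hj h.1.symm]
      · intro h
        exact absurd (Finset.mem_univ _) h
    · rw [if_neg hst]
      refine Finset.sum_eq_zero fun j _ => ?_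
      rw [if_neg fun h => hst (h.1.trans h.2.symm)]
  rw [h2, Matrix.det_one] at h1
  exact one_ne_zero h1

end

end Pentad
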