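import Pool.Agent.H.MP_b77b2b_ag.W11

/-!
# MP_b77b2b_ag, W12: one exponent for all minors of order `k`
-/

set_option autoImplicit false

namespace Pentad

open MvPolynomial Matrix

section

variable {I : Type} [Fintype I] [DecidableEq I] {d : I → ℕ}

/-- The ideal of the secant variety. -/
def idVI (k : ℕ) (D : I → Type) : Ideal (MvPolynomial ((i : I) → D i) ℂ) where
  carrier := {p | VI k p}
  add_mem' := by
    intro a b ha hb v
    rw [map_add, ha v, hb v, add_zero]
  zero_mem' := fun v => map_zero _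
  smul_mem' := by
    intro c a ha v
    rw [smul_eq_mul, map_mul, ha v, mul_zero]

omit [DecidableEq I] in
theorem mem_idVI {k : ℕ} {D : I → Type} {p : MvPolynomial ((i : I) → D i) ℂ} :
    p ∈ idVI k D ↔ VI k p := Iff.rfl

theorem BV_VI {k m : ℕ} {D : I → Type} {σ : I → Fin m} {p : MvPolynomial ((i : I) → D i) ℂ}
    (hp : BV k σ p) : VI k p := by
  classical
  intro v
  rw [← hp (fun j b w => ∏ i ∈ Finset.univ.filter (fun i => σ i = b), v j i (w i)) ?_]
  · congr 2
    funext w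
    refine Finset.sum_congr rfl fun j _ => ?_
    exact (Finset.prod_fiberwise Finset.univ σ fun i => v j i (w i)).symm
  · intro j b w w' hw
    refine Finset.prod_congr rfl fun i hi => ?_
    rw [hw i (Finset.mem_filter.1 hi).2]

theorem FI_le_VI (k m : ℕ) (D : I → Type) : FI k m D ≤ idVI k D := by
  refine Ideal.span_le.2 ?_
  rintro p ⟨σ, hp⟩
  exact BV_VI hp

/-- A uniform exponent. -/
theorem uniform {k m D0 : ℕ} (hk : 0 < k)
    (hD : CI (CZ k) ≤ Ideal.span {h | h ∈ CI (CZ k) ∧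
      ∃ N : Finset ℕ, N.card ≤ D0 ∧ ∀ n v, Sum.inr (n, v) ∈ h.vars → n ∈ N})
    (hm : k + k + D0 < m) (hI : k + k ≤ Fintype.card I) (d : I → ℕ) :
    ∃ M : ℕ, ∀ (A : Finset I) (x y : Fin k → (i : I) → Fin (d i)),
      ∀ p, VI k p → fmin A x y ^ M * p ∈ FI k m fun i => Fin (d i) := by
  classical
  obtain ⟨G, hG⟩ := (inferInstance :
    IsNoetherianRing (MvPolynomial ((i : I) → Fin (d i)) ℂ)).noetherian
      (idVI k fun i => Fin (d i))
  have h1 : ∀ (A : Finset I) (x y : Fin k → (i : I) → Fin (d i))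
      (p : MvPolynomial ((i : I) → Fin (d i)) ℂ), ∃ M : ℕ, p ∈ G →
        fmin A x y ^ M * p ∈ FI k m fun i => Fin (d i) := by
    intro A x y p
    by_cases hp : p ∈ G
    · have h2 : p ∈ idVI k fun i => Fin (d i) := by
        rw [← hG]
        exact Submodule.subset_span hp
      obtain ⟨M, hM⟩ := local_minor hk hD hm hI A x y h2
      exact ⟨M, fun _ => hM⟩
    · exact ⟨0, fun h => absurd h hp⟩
  choose e he using h1
  let M := (Finset.univ : Finset (Finset I × (Fin k → (i : I) → Fin (d i)) ×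
    (Fin k → (i : I) → Fin (d i)))).sup fun z => G.sup fun p => e z.1 z.2.1 z.2.2 p
  refine ⟨M, fun A x y p hp => ?_⟩
  have h2 : (idVI k fun i => Fin (d i)) ≤ Submodule.comap
      (LinearMap.mulLeft (MvPolynomial ((i : I) → Fin (d i)) ℂ) (fmin A x y ^ M))
      (FI k m fun i => Fin (d i)) := by
    rw [← hG]
    refine Submodule.span_le.2 fun q hq => ?_
    show fmin A x y ^ M * q ∈ FI k m fun i => Fin (d i)
    have h3 : e A x y q ≤ M := by
      refine le_trans ?_ (Finset.le_sup (f := fun z : Finset I × (Fin k → (i : I) → Fin (d i)) ×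
        (Fin k → (i : I) → Fin (d i)) => G.sup fun p => e z.1 z.2.1 z.2.2 p)
          (Finset.mem_univ (A, x, y)))
      exact Finset.le_sup (f := fun p => e A x y p) hq
    obtain ⟨c, hc⟩ := Nat.exists_eq_add_of_le h3
    rw [hc, pow_add, mul_comm (fmin A x y ^ e A x y q), mul_assoc]
    exact Ideal.mul_mem_left _ _ (he A x y q hq)
  exact h2 hp

end

/-- The local statement. -/
theorem local_main (k : ℕ) (hk : 1 ≤ k) : ∃ n₀ : ℕ, ∀ m, n₀ ≤ m → ∀ n, m < n → ∀ d : Fin n → ℕ,
    ∃ M : ℕ, ∀ (A : Finset (Fin n)) (x y : Fin k → (i : Fin n) → Fin (d i)),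
      (∀ s s', (∀ i ∈ A, x s i = x s' i) → s = s') →
      (∀ t t', (∀ i, i ∉ A → y t i = y t' i) → t = t') →
      ∀ p, VI k p ↔ fmin A x y ^ M * p ∈ FI k m fun i => Fin (d i) := by
  obtain ⟨D0, hD⟩ := CI_few (CZ k)
  refine ⟨k + k + D0 + 1, fun m hm n hn d => ?_⟩
  obtain ⟨M, hM⟩ := uniform (I := Fin n) (by omega) hD (by omega : k + k + D0 < m) (by
    rw [Fintype.card_fin]
    omega) d
  refine ⟨M, fun A x y hx hy p => ⟨fun hp => hM A x y p hp, fun hp => ?_⟩⟩
  exact VI_of_mul (FI_le_VI k m _ hp) (not_VI_fmin A x y hx hy)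

end Pentad
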