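import Pool.Agent.H.MP_b77b2b_ag.W1

/-!
# MP_b77b2b_ag, W2: polynomials in vectors with labels, extension of labels
-/

set_option autoImplicit false

namespace Pentad

open MvPolynomial

variable {Y V : Type}

/-- Polynomials in free variables and in the coordinates of vectors labelled by `ℕ`. -/
abbrev LR (Y V : Type) := MvPolynomial (Y ⊕ (ℕ × V)) ℂ

/-- Linear substitution of the labelled vectors. -/
noncomputable def sb (c : ℕ → ℕ →₀ ℂ) : LR Y V →ₐ[ℂ] LR Y V :=
  aeval (Sum.elim (fun y => X (Sum.inl y))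
    (fun p => (c p.1).sum fun l a => a • X (Sum.inr (l, p.2))))

theorem sb_inl (c : ℕ → ℕ →₀ ℂ) (y : Y) :
    sb (V := V) c (X (Sum.inl y)) = X (Sum.inl y) := by
  unfold sb
  rw [aeval_X, Sum.elim_inl]

theorem sb_inr (c : ℕ → ℕ →₀ ℂ) (n : ℕ) (v : V) :
    sb (Y := Y) c (X (Sum.inr (n, v))) = (c n).sum fun l a => a • X (Sum.inr (l, v)) := by
  unfold sb
  rw [aeval_X, Sum.elim_inr]

theorem sb_rename (c : ℕ → ℕ →₀ ℂ) (y : MvPolynomial Y ℂ) :
    sb (V := V) c (rename Sum.inl y) = rename Sum.inl y := by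
  have h : ((sb (V := V) c).comp (rename Sum.inl)) = (rename Sum.inl : MvPolynomial Y ℂ →ₐ[ℂ] _) := by
    refine algHom_ext fun i => ?_
    rw [AlgHom.comp_apply, rename_X, sb_inl]
  exact congrArg (fun f => f y) h

/-- The weights of the labels. -/
noncomputable def lw : Y ⊕ (ℕ × V) → (ℕ →₀ ℕ) := Sum.elim (fun _ => 0) (fun p => Finsupp.single p.1 1)

/-- Rescaling of the labels. -/
noncomputable def cdiag (t : ℕ → ℂ) (n : ℕ) : ℕ →₀ ℂ := Finsupp.single n (t n)

theorem sb_cdiag_X (t : ℕ → ℂ) (i : Y ⊕ (ℕ × V)) :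
    sb (cdiag t) (X i) = (eval t (monomial (lw i) 1)) • X i := by
  rcases i with y | ⟨n, v⟩
  · rw [sb_inl]
    simp [lw]
  · rw [sb_inr]
    unfold cdiag lw
    rw [Finsupp.sum_single_index (by rw [zero_smul]), Sum.elim_inr, eval_monomial,
      Finsupp.prod_single_index (by rw [pow_zero]), pow_one, one_mul]

theorem sb_cdiag_monomial_one (t : ℕ → ℂ) (m : Y ⊕ (ℕ × V) →₀ ℕ) :
    sb (cdiag t) (monomial m 1)
      = (eval t (monomial (Finsupp.weight lw m) 1)) • monomial m 1 := by
  classical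
  induction m using Finsupp.induction_linear with
  | zero =>
    rw [map_zero]
    have h2 : (monomial (0 : Y ⊕ (ℕ × V) →₀ ℕ)) (1 : ℂ) = (1 : LR Y V) := rfl
    rw [h2, map_one]
    simp
  | add m m' hm hm' =>
    have h1 : (monomial (m + m')) (1 : ℂ) = (monomial m 1 * monomial m' 1 : LR Y V) := by
      rw [monomial_mul, one_mul]
    have h2 : (monomial (Finsupp.weight (lw (Y := Y) (V := V)) (m + m'))) (1 : ℂ)
        = (monomial (Finsupp.weight lw m) 1 * monomial (Finsupp.weight lw m') 1 :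
          MvPolynomial ℕ ℂ) := by
      rw [monomial_mul, one_mul, map_add]
    rw [h1, h2, map_mul, map_mul, hm, hm', smul_mul_smul_comm]
  | single i n =>
    have h1 : (monomial (Finsupp.single i n)) (1 : ℂ) = (X i ^ n : LR Y V) := by
      rw [X_pow_eq_monomial]
    have h2 : (monomial (Finsupp.weight (lw (Y := Y) (V := V)) (Finsupp.single i n))) (1 : ℂ)
        = (monomial (lw i) 1 ^ n : MvPolynomial ℕ ℂ) := by
      rw [monomial_pow, one_pow, Finsupp.weight_single]
    rw [h1, h2, map_pow, map_pow, sb_cdiag_X, smul_pow]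

theorem sb_cdiag_monomial (t : ℕ → ℂ) (m : Y ⊕ (ℕ × V) →₀ ℕ) (a : ℂ) :
    sb (cdiag t) (monomial m a)
      = (eval t (monomial (Finsupp.weight lw m) 1)) • monomial m a := by
  have h1 : (monomial m a : LR Y V) = a • monomial m 1 := by
    rw [smul_monomial, smul_eq_mul, mul_one]
  rw [h1, map_smul, sb_cdiag_monomial_one, smul_comm]

/-- Subspaces stable under rescaling contain the weighted components. -/
theorem comp_mem {J : Submodule ℂ (LR Y V)} (hJ : ∀ t : ℕ → ℂ, ∀ f ∈ J, sb (cdiag t) f ∈ J)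
    (δ : ℕ →₀ ℕ) {f : LR Y V} (hf : f ∈ J) : weightedHomogeneousComponent lw δ f ∈ J := by
  classical
  by_contra hcon
  obtain ⟨φ, h1, h2⟩ := Submodule.exists_le_ker_of_notMem hcon
  apply h1
  let q : MvPolynomial ℕ ℂ := ∑ m ∈ f.support,
    monomial (Finsupp.weight lw m) (φ (monomial m (coeff m f)))
  have hq : q = 0 := by
    refine MvPolynomial.funext fun t => ?_
    rw [map_zero]
    have h3 := LinearMap.mem_ker.1 (h2 (hJ t f hf))
    have h4 : sb (cdiag t) f = ∑ m ∈ f.support,
        (eval t (monomial (Finsupp.weight lw m) 1)) • monomial m (coeff m f) := by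
      conv_lhs => rw [f.as_sum, map_sum]
      exact Finset.sum_congr rfl fun m _ => sb_cdiag_monomial t m _
    rw [h4, map_sum] at h3
    rw [← h3, map_sum]
    refine Finset.sum_congr rfl fun m _ => ?_
    rw [map_smul, smul_eq_mul, eval_monomial, eval_monomial, one_mul, mul_comm]
  have h3 : coeff δ q = φ (weightedHomogeneousComponent lw δ f) := by
    rw [weightedHomogeneousComponent_apply, map_sum, Finset.sum_filter]
    show coeff δ (∑ m ∈ f.support, _) = _
    rw [coeff_sum]
    exact Finset.sum_congr rfl fun m _ => by rw [coeff_monomial]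
  rw [← h3, hq, coeff_zero]

/-- The products of labelled coordinates. -/
noncomputable def mn {d : ℕ} (y : MvPolynomial Y ℂ) (l : Fin d → ℕ) (v : Fin d → V) : LR Y V :=
  rename Sum.inl y * ∏ a, X (Sum.inr (l a, v a))

/-- The weight of a word of labels. -/
noncomputable def wd {d : ℕ} (l : Fin d → ℕ) : ℕ →₀ ℕ := ∑ a, Finsupp.single (l a) 1

theorem lw_rename (y : MvPolynomial Y ℂ) :
    IsWeightedHomogeneous lw (rename Sum.inl y : LR Y V) 0 := by
  induction y using MvPolynomial.induction_on with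
  | C a =>
    rw [rename_C]
    exact isWeightedHomogeneous_C lw a
  | add p q hp hq =>
    rw [map_add]
    exact hp.add hq
  | mul_X p i hp =>
    rw [map_mul, rename_X]
    have h := hp.mul (isWeightedHomogeneous_X ℂ lw (Sum.inl i : Y ⊕ (ℕ × V)))
    have h2 : (0 : ℕ →₀ ℕ) + lw (Sum.inl i : Y ⊕ (ℕ × V)) = 0 := by
      rw [zero_add]
      rfl
    rwa [h2] at h

theorem mn_weight {d : ℕ} (y : MvPolynomial Y ℂ) (l : Fin d → ℕ) (v : Fin d → V) :
    IsWeightedHomogeneous lw (mn y l v) (wd l) := by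
  have h1 : IsWeightedHomogeneous lw (∏ a, X (Sum.inr (l a, v a)) : LR Y V)
      (∑ a, lw (Sum.inr (l a, v a) : Y ⊕ (ℕ × V))) :=
    IsWeightedHomogeneous.prod Finset.univ _ _ fun a _ => isWeightedHomogeneous_X ℂ lw _
  have h2 := (lw_rename (V := V) y).mul h1
  rw [zero_add] at h2
  exact h2

/-- A monomial whose weight is the weight of a word is a product along the word. -/
theorem monomial_eq_mn {d : ℕ} (l : Fin d → ℕ) : ∀ (m : Y ⊕ (ℕ × V) →₀ ℕ),
    Finsupp.weight lw m = wd l → ∀ a : ℂ, ∃ (y : MvPolynomial Y ℂ) (v : Fin d → V),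
      monomial m a = mn y l v := by
  classical
  induction d with
  | zero =>
    intro m hm a
    have h1 : ∀ i ∈ m.support, ∃ y : Y, i = Sum.inl y := by
      intro i hi
      rcases i with y | ⟨n, v⟩
      · exact ⟨y, rfl⟩
      · exfalso
        have h2 : (Finsupp.weight lw m) n = 0 := by
          rw [hm]
          unfold wd
          simp
        rw [Finsupp.weight_apply, Finsupp.sum, Finsupp.finsetSum_apply] at h2
        have h3 := Finset.sum_eq_zero_iff.1 h2 _ hi
        simp only [lw, Sum.elim_inr, Finsupp.smul_apply, Finsupp.single_eq_same, smul_eq_mul,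
          mul_one] at h3
        exact (Finsupp.mem_support_iff.1 hi) h3
    refine ⟨monomial (m.comapDomain Sum.inl Sum.inl_injective.injOn) a, Fin.elim0, ?_⟩
    unfold mn
    rw [Fin.prod_univ_zero, mul_one, rename_monomial,
      Finsupp.mapDomain_comapDomain _ Sum.inl_injective m]
    intro i hi
    obtain ⟨y, rfl⟩ := h1 i hi
    exact ⟨y, rfl⟩
  | succ d ih =>
    intro m hm a
    have h1 : ∃ v : V, m (Sum.inr (l 0, v)) ≠ 0 := by
      by_contra hcon
      push Not at hcon
      have h2 : (Finsupp.weight lw m) (l 0) = 0 := by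
        rw [Finsupp.weight_apply, Finsupp.sum, Finsupp.finsetSum_apply]
        refine Finset.sum_eq_zero fun i hi => ?_
        rcases i with y | ⟨n, v⟩
        · simp [lw]
        · by_cases hn : n = l 0
          · subst hn
            rw [hcon v, zero_smul]
            rfl
          · simp only [lw, Sum.elim_inr, Finsupp.smul_apply, smul_eq_mul, mul_eq_zero]
            right
            exact Finsupp.single_eq_of_ne (Ne.symm hn)
      rw [hm] at h2
      unfold wd at h2
      rw [Finsupp.finsetSum_apply] at h2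
      have h3 := Finset.sum_eq_zero_iff.1 h2 0 (Finset.mem_univ _)
      rw [Finsupp.single_eq_same] at h3
      exact one_ne_zero h3
    obtain ⟨v0, hv0⟩ := h1
    let i0 : Y ⊕ (ℕ × V) := Sum.inr (l 0, v0)
    have hle : Finsupp.single i0 1 ≤ m := by
      rw [Finsupp.single_le_iff]
      exact Nat.one_le_iff_ne_zero.2 hv0
    obtain ⟨m', rfl⟩ := exists_add_of_le hle
    have hm' : Finsupp.weight lw m' = wd (fun a => l a.succ) := by
      rw [map_add, Finsupp.weight_single, one_smul] at hm
      unfold wd at hm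
      rw [Fin.sum_univ_succ] at hm
      exact add_left_cancel hm
    obtain ⟨y, v, hy⟩ := ih (fun a => l a.succ) m' hm' a
    refine ⟨y, Fin.cons v0 v, ?_⟩
    have h2 : (monomial (Finsupp.single i0 1 + m') a : LR Y V) = X i0 * monomial m' a := by
      rw [X, monomial_mul, one_mul]
    rw [h2, hy]
    unfold mn
    rw [Fin.prod_univ_succ]
    simp only [Fin.cons_zero, Fin.cons_succ]
    ring

theorem mem_span_mn {d : ℕ} {l : Fin d → ℕ} {f : LR Y V}
    (hf : IsWeightedHomogeneous lw f (wd l)) :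
    f ∈ Submodule.span ℂ {g | ∃ (y : MvPolynomial Y ℂ) (v : Fin d → V), g = mn y l v} := by
  rw [f.as_sum]
  refine Submodule.sum_mem _ fun m hm => ?_
  obtain ⟨y, v, h⟩ := monomial_eq_mn l m (hf (mem_support_iff.1 hm)) (coeff m f)
  exact Submodule.subset_span ⟨y, v, h⟩

/-- Substituting the vectors of a word. -/
noncomputable def cres {d : ℕ} (l : Fin d → ℕ) (n : ℕ) : ℕ →₀ ℂ :=
  if h : n < d then Finsupp.single (l ⟨n, h⟩) 1 else 0

/-- Polarising along a word. -/
noncomputable def cpol {d : ℕ} (l : Fin d → ℕ) (n : ℕ) : ℕ →₀ ℂ :=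
  ∑ a ∈ Finset.univ.filter (fun a => l a = n), Finsupp.single (a : ℕ) 1

theorem sb_cres_X {d : ℕ} (l : Fin d → ℕ) (a : Fin d) (v : V) :
    sb (Y := Y) (cres l) (X (Sum.inr ((a : ℕ), v))) = X (Sum.inr (l a, v)) := by
  rw [sb_inr]
  unfold cres
  rw [dif_pos a.2, Finsupp.sum_single_index (by rw [zero_smul]), one_smul]

theorem sb_cres_mn {d e : ℕ} (l : Fin d → ℕ) (y : MvPolynomial Y ℂ) (β : Fin e → Fin d)
    (v : Fin e → V) : sb (cres l) (mn y (fun a => (β a : ℕ)) v) = mn y (fun a => l (β a)) v := by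
  unfold mn
  rw [map_mul, sb_rename, map_prod]
  congr 1
  exact Finset.prod_congr rfl fun a _ => sb_cres_X _ _ _

theorem sb_cpol_X {d : ℕ} (l : Fin d → ℕ) (n : ℕ) (v : V) :
    sb (Y := Y) (cpol l) (X (Sum.inr (n, v)))
      = ∑ b ∈ Finset.univ.filter (fun b => l b = n), X (Sum.inr ((b : ℕ), v)) := by
  classical
  rw [sb_inr]
  unfold cpol
  rw [← Finsupp.sum_finsetSum_index (fun _ => by rw [zero_smul]) (fun _ _ _ => by rw [add_smul])]
  refine Finset.sum_congr rfl fun b _ => ?_
  rw [Finsupp.sum_single_index (by rw [zero_smul]), one_smul]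

theorem sb_cpol_mn {d e : ℕ} (l : Fin d → ℕ) (y : MvPolynomial Y ℂ) (l' : Fin e → ℕ)
    (v : Fin e → V) : sb (cpol l) (mn y l' v)
      = ∑ β : Fin e → Fin d with (∀ a, l (β a) = l' a), mn y (fun a => (β a : ℕ)) v := by
  classical
  unfold mn
  rw [map_mul, sb_rename, map_prod]
  simp only [sb_cpol_X]
  rw [Finset.prod_univ_sum, Finset.mul_sum]
  refine Finset.sum_congr ?_ fun β _ => rfl
  ext β
  simp only [Fintype.mem_piFinset, Finset.mem_filter, Finset.mem_univ, true_and]

theorem wd_eq_iff {d e : ℕ} (β : Fin e → Fin d) :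
    wd (fun a => (β a : ℕ)) = wd (fun a : Fin d => (a : ℕ)) ↔ Function.Bijective β := by
  classical
  have h1 : ∀ b : Fin d, (wd (fun a => (β a : ℕ))) b = (Finset.univ.filter fun a => β a = b).card := by
    intro b
    unfold wd
    rw [Finsupp.finsetSum_apply, Finset.card_filter]
    refine Finset.sum_congr rfl fun a _ => ?_
    rw [Finsupp.single_apply]
    simp only [Fin.val_inj]
  have h2 : ∀ b : Fin d, (wd (fun a : Fin d => (a : ℕ))) b = 1 := by
    intro b
    unfold wd
    rw [Finsupp.finsetSum_apply, Finset.sum_eq_single b]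
    · rw [Finsupp.single_eq_same]
    · intro a _ ha
      exact Finsupp.single_eq_of_ne (fun h => ha (Fin.val_injective h).symm)
    · intro h
      exact absurd (Finset.mem_univ _) h
  constructor
  · intro h
    have h3 : ∀ b : Fin d, (Finset.univ.filter fun a => β a = b).card = 1 := by
      intro b
      rw [← h1, h, h2]
    constructor
    · intro a a' haa
      obtain ⟨x, hx⟩ := Finset.card_eq_one.1 (h3 (β a))
      have e1 : a ∈ ({x} : Finset (Fin e)) := by
        rw [← hx]
        simp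
      have e2 : a' ∈ ({x} : Finset (Fin e)) := by
        rw [← hx]
        simp [haa]
      rw [Finset.mem_singleton] at e1 e2
      rw [e1, e2]
    · intro b
      obtain ⟨x, hx⟩ := Finset.card_eq_one.1 (h3 b)
      refine ⟨x, ?_⟩
      have e1 : x ∈ Finset.univ.filter fun a => β a = b := by
        rw [hx]
        exact Finset.mem_singleton_self x
      exact (Finset.mem_filter.1 e1).2
  · intro h
    unfold wd
    exact Fintype.sum_bijective β h _ _ fun a => rfl

theorem comp_sb_cpol {d e : ℕ} (l : Fin d → ℕ) (y : MvPolynomial Y ℂ) (l' : Fin e → ℕ)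
    (v : Fin e → V) :
    weightedHomogeneousComponent lw (wd (fun a : Fin d => (a : ℕ))) (sb (cpol l) (mn y l' v))
      = ∑ β : Fin e → Fin d with ((∀ a, l (β a) = l' a) ∧ Function.Bijective β),
        mn y (fun a => (β a : ℕ)) v := by
  classical
  rw [sb_cpol_mn, map_sum, ← Finset.filter_filter, Finset.sum_filter (s := Finset.filter _ _)]
  refine Finset.sum_congr rfl fun β _ => ?_
  by_cases hβ : Function.Bijective β
  · rw [if_pos hβ, IsWeightedHomogeneous.weightedHomogeneousComponent_same]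
    rw [← (wd_eq_iff β).2 hβ]
    exact mn_weight _ _ _
  · rw [if_neg hβ]
    refine IsWeightedHomogeneous.weightedHomogeneousComponent_ne _ (mn_weight _ _ _) ?_
    intro h
    exact hβ ((wd_eq_iff β).1 h.symm)

theorem sb_comp_cres {d : ℕ} (g h : Equiv.Perm (Fin d)) :
    (sb (Y := Y) (V := V) (cres fun a => ((g a : Fin d) : ℕ))).comp
      (sb (cres fun a => ((h a : Fin d) : ℕ))) = sb (cres fun a => (((g * h) a : Fin d) : ℕ)) := by
  refine algHom_ext fun i => ?_
  rw [AlgHom.comp_apply]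
  rcases i with y | ⟨n, v⟩
  · rw [sb_inl, sb_inl, sb_inl]
  · by_cases hn : n < d
    · have e1 := sb_cres_X (Y := Y) (fun a => ((h a : Fin d) : ℕ)) ⟨n, hn⟩ v
      have e2 := sb_cres_X (Y := Y) (fun a => ((g a : Fin d) : ℕ)) (h ⟨n, hn⟩) v
      have e3 := sb_cres_X (Y := Y) (fun a => (((g * h) a : Fin d) : ℕ)) ⟨n, hn⟩ v
      simp only at e1 e2 e3
      rw [e1, e2, e3]
      rfl
    · have e : ∀ l : Fin d → ℕ, sb (Y := Y) (cres l) (X (Sum.inr (n, v))) = 0 := by
        intro l
        rw [sb_inr]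
        unfold cres
        rw [dif_neg hn, Finsupp.sum_zero_index]
      rw [e, e, map_zero]

/-- The action of the group algebra. -/
noncomputable def act {d : ℕ} (F : LR Y V) : (Equiv.Perm (Fin d) → ℂ) →ₗ[ℂ] LR Y V :=
  ∑ g : Equiv.Perm (Fin d), (LinearMap.proj g).smulRight (sb (cres fun a => ((g a : Fin d) : ℕ)) F)

theorem act_apply {d : ℕ} (F : LR Y V) (y : Equiv.Perm (Fin d) → ℂ) :
    act F y = ∑ g, y g • sb (cres fun a => ((g a : Fin d) : ℕ)) F := by
  unfold act
  rw [LinearMap.sum_apply]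
  rfl

theorem act_del {d : ℕ} (F : LR Y V) (g : Equiv.Perm (Fin d)) :
    act F (del g) = sb (cres fun a => ((g a : Fin d) : ℕ)) F := by
  classical
  rw [act_apply, Finset.sum_eq_single g]
  · rw [del_apply, if_pos rfl, one_smul]
  · intro h _ hh
    rw [del_apply, if_neg hh, zero_smul]
  · intro h
    exact absurd (Finset.mem_univ _) h

theorem act_one {d : ℕ} {F : LR Y V}
    (hF : IsWeightedHomogeneous lw F (wd (fun a : Fin d => (a : ℕ)))) :
    act F (del (1 : Equiv.Perm (Fin d))) = F := by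
  rw [act_del]
  have h1 : Set.EqOn (sb (Y := Y) (V := V)
      (cres fun a => (((1 : Equiv.Perm (Fin d)) a : Fin d) : ℕ))).toLinearMap
      (LinearMap.id : LR Y V →ₗ[ℂ] LR Y V)
      (Submodule.span ℂ {g | ∃ (y : MvPolynomial Y ℂ) (v : Fin d → V),
        g = mn y (fun a : Fin d => (a : ℕ)) v}) := by
    refine LinearMap.eqOn_span' ?_
    rintro _ ⟨y, v, rfl⟩
    exact sb_cres_mn _ y (fun a => a) v
  exact h1 (mem_span_mn hF)

/-- Permuting the labels of a multilinear polynomial. -/
theorem sb_perm_weight {d : ℕ} {F : LR Y V}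
    (hF : IsWeightedHomogeneous lw F (wd (fun a : Fin d => (a : ℕ)))) (h : Equiv.Perm (Fin d)) :
    IsWeightedHomogeneous lw (sb (cres fun a => ((h a : Fin d) : ℕ)) F)
      (wd (fun a : Fin d => (a : ℕ))) := by
  have h1 := mem_span_mn hF
  have h2 : (Submodule.span ℂ {g | ∃ (y : MvPolynomial Y ℂ) (v : Fin d → V),
      g = mn y (fun a : Fin d => (a : ℕ)) v}).map
      (sb (Y := Y) (V := V) (cres fun a => ((h a : Fin d) : ℕ))).toLinearMap
      ≤ weightedHomogeneousSubmodule ℂ lw (wd (fun a : Fin d => (a : ℕ))) := by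
    rw [Submodule.map_span_le]
    rintro _ ⟨y, v, rfl⟩
    rw [AlgHom.toLinearMap_apply, sb_cres_mn (fun a => ((h a : Fin d) : ℕ)) y (fun a => a) v,
      mem_weightedHomogeneousSubmodule, ← (wd_eq_iff (fun a => h a)).2 h.bijective]
    exact mn_weight _ _ _
  exact h2 ⟨F, h1, rfl⟩

theorem alt_mn {d k : ℕ} (j : Fin (k + 1) ↪ Fin d) (y : MvPolynomial Y ℂ) (v : Fin d → V) :
    ∑ τ : Equiv.Perm (Fin (k + 1)), ((Equiv.Perm.sign τ : ℤ) : ℂ) •
        mn y (fun a => ((hat j τ a : Fin d) : ℕ)) v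
      = (rename Sum.inl y * ∏ a ∈ Finset.univ \ Finset.univ.map j, X (Sum.inr ((a : ℕ), v a))) *
        (Matrix.of fun s t => (X (Sum.inr (((j s : Fin d) : ℕ), v (j t))) : LR Y V)).det := by
  classical
  rw [Matrix.det_apply, Finset.mul_sum]
  refine Finset.sum_congr rfl fun τ _ => ?_
  unfold mn
  rw [← Finset.prod_sdiff (Finset.subset_univ (Finset.univ.map j)), Finset.prod_map]
  have h1 : ∏ a ∈ Finset.univ \ Finset.univ.map j,
      (X (Sum.inr (((hat j τ a : Fin d) : ℕ), v a)) : LR Y V)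
      = ∏ a ∈ Finset.univ \ Finset.univ.map j, X (Sum.inr ((a : ℕ), v a)) := by
    refine Finset.prod_congr rfl fun a ha => ?_
    rw [hat_of_not]
    rintro ⟨b, rfl⟩
    rw [Finset.mem_sdiff] at ha
    exact ha.2 (Finset.mem_map_of_mem j (Finset.mem_univ b))
  rw [h1]
  simp only [hat_apply, Matrix.of_apply]
  rw [Int.cast_smul_eq_zsmul, Units.smul_def, mul_smul_comm, mul_assoc]

theorem alt_mem {d k : ℕ} {J : Submodule ℂ (LR Y V)} (hmul : ∀ f ∈ J, ∀ g, g * f ∈ J)
    (hdet : ∀ (l : Fin (k + 1) → ℕ) (v : Fin (k + 1) → V),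
      (Matrix.of fun s t => (X (Sum.inr (l s, v t)) : LR Y V)).det ∈ J)
    (j : Fin (k + 1) ↪ Fin d) {F : LR Y V}
    (hF : IsWeightedHomogeneous lw F (wd (fun a : Fin d => (a : ℕ)))) :
    ∑ τ : Equiv.Perm (Fin (k + 1)), ((Equiv.Perm.sign τ : ℤ) : ℂ) •
      sb (cres fun a => ((hat j τ a : Fin d) : ℕ)) F ∈ J := by
  let L : LR Y V →ₗ[ℂ] LR Y V := ∑ τ : Equiv.Perm (Fin (k + 1)),
    ((Equiv.Perm.sign τ : ℤ) : ℂ) • (sb (cres fun a => ((hat j τ a : Fin d) : ℕ))).toLinearMap
  have hL : ∀ f, L f = ∑ τ : Equiv.Perm (Fin (k + 1)), ((Equiv.Perm.sign τ : ℤ) : ℂ) •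
      sb (cres fun a => ((hat j τ a : Fin d) : ℕ)) f := by
    intro f
    show (∑ τ : Equiv.Perm (Fin (k + 1)), ((Equiv.Perm.sign τ : ℤ) : ℂ) •
      (sb (cres fun a => ((hat j τ a : Fin d) : ℕ))).toLinearMap) f = _
    rw [LinearMap.sum_apply]
    rfl
  rw [← hL]
  have h2 : (Submodule.span ℂ {g | ∃ (y : MvPolynomial Y ℂ) (v : Fin d → V),
      g = mn y (fun a : Fin d => (a : ℕ)) v}).map L ≤ J := by
    rw [Submodule.map_span_le]
    rintro _ ⟨y, v, rfl⟩
    rw [hL]
    have h3 : ∀ τ : Equiv.Perm (Fin (k + 1)), sb (cres fun a => ((hat j τ a : Fin d) : ℕ))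
        (mn y (fun a : Fin d => (a : ℕ)) v) = mn y (fun a => ((hat j τ a : Fin d) : ℕ)) v :=
      fun τ => sb_cres_mn _ y (fun a => a) v
    simp only [h3]
    rw [alt_mn]
    exact hmul _ (hdet _ _) _
  exact h2 ⟨F, mem_span_mn hF, rfl⟩

theorem sym_eq {d k : ℕ} (c : Fin d → Fin k) {F : LR Y V}
    (hF : IsWeightedHomogeneous lw F (wd (fun a : Fin d => (a : ℕ)))) :
    ∑ s ∈ Stb c, sb (cres fun a => ((s a : Fin d) : ℕ)) F
      = weightedHomogeneousComponent lw (wd (fun a : Fin d => (a : ℕ)))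
        (sb (cpol fun a => (c a : ℕ)) (sb (cres fun a => (c a : ℕ)) F)) := by
  classical
  let L : LR Y V →ₗ[ℂ] LR Y V := ∑ s ∈ Stb c,
    (sb (cres fun a => ((s a : Fin d) : ℕ))).toLinearMap
  have hL : ∀ f, L f = ∑ s ∈ Stb c, sb (cres fun a => ((s a : Fin d) : ℕ)) f := by
    intro f
    show (∑ s ∈ Stb c, (sb (cres fun a => ((s a : Fin d) : ℕ))).toLinearMap) f = _
    rw [LinearMap.sum_apply]
    rfl
  let L' : LR Y V →ₗ[ℂ] LR Y V :=
    (weightedHomogeneousComponent lw (wd (fun a : Fin d => (a : ℕ)))) ∘ₗ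
      (sb (cpol fun a => (c a : ℕ))).toLinearMap ∘ₗ (sb (cres fun a => (c a : ℕ))).toLinearMap
  rw [← hL]
  show L F = L' F
  have h1 : Set.EqOn L L' (Submodule.span ℂ {g | ∃ (y : MvPolynomial Y ℂ) (v : Fin d → V),
        g = mn y (fun a : Fin d => (a : ℕ)) v}) := by
    refine LinearMap.eqOn_span' ?_
    rintro _ ⟨y, v, rfl⟩
    rw [hL]
    have h3 : ∀ s : Equiv.Perm (Fin d), sb (cres fun a => ((s a : Fin d) : ℕ))
        (mn y (fun a : Fin d => (a : ℕ)) v) = mn y (fun a => ((s a : Fin d) : ℕ)) v :=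
      fun τ => sb_cres_mn _ y (fun a => a) v
    have h4 : L' (mn y (fun a : Fin d => (a : ℕ)) v)
        = weightedHomogeneousComponent lw (wd (fun a : Fin d => (a : ℕ)))
          (sb (cpol fun a => (c a : ℕ)) (mn y (fun a => (c a : ℕ)) v)) := by
      show weightedHomogeneousComponent lw (wd (fun a : Fin d => (a : ℕ)))
        (sb (cpol fun a => (c a : ℕ)) (sb (cres fun a => (c a : ℕ)) (mn y (fun a : Fin d => (a : ℕ)) v)))
        = _
      congr 2
      exact sb_cres_mn _ y (fun a => a) v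
    rw [h4, comp_sb_cpol]
    simp only [h3]
    refine Finset.sum_bij' (fun s _ => fun a => s a)
      (fun β hβ => Equiv.ofBijective β (Finset.mem_filter.1 hβ).2.2) ?_ ?_ ?_ ?_ ?_
    · intro s hs
      rw [Finset.mem_filter]
      refine ⟨Finset.mem_univ _, fun a => ?_, s.bijective⟩
      exact congrArg Fin.val (mem_Stb.1 hs a)
    · intro β hβ
      rw [mem_Stb]
      intro a
      exact Fin.val_injective ((Finset.mem_filter.1 hβ).2.1 a)
    · intro s _
      exact Equiv.ext fun a => rfl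
    · intro β _
      rfl
    · intro s _
      rfl
  exact h1 (mem_span_mn hF)

theorem exists_wd (δ : ℕ →₀ ℕ) : ∃ (d : ℕ) (l : Fin d → ℕ), δ = wd l := by
  induction δ using Finsupp.induction_linear with
  | zero =>
    refine ⟨0, Fin.elim0, ?_⟩
    unfold wd
    simp
  | add δ δ' h h' =>
    obtain ⟨d, l, rfl⟩ := h
    obtain ⟨d', l', rfl⟩ := h'
    refine ⟨d + d', Fin.append l l', ?_⟩
    unfold wd
    rw [Fin.sum_univ_add]
    simp only [Fin.append_left, Fin.append_right]
  | single n m =>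
    refine ⟨m, fun _ => n, ?_⟩
    unfold wd
    rw [Finset.sum_const, Finset.card_univ, Fintype.card_fin, Finsupp.smul_single, smul_eq_mul,
      mul_one]

theorem vars_cres {d k : ℕ} (c : Fin d → Fin k) {F : LR Y V}
    (hF : IsWeightedHomogeneous lw F (wd (fun a : Fin d => (a : ℕ)))) {n : ℕ} {v : V}
    (hn : Sum.inr (n, v) ∈ (sb (cres fun a => (c a : ℕ)) F).vars) : n < k := by
  classical
  let S : Set (Y ⊕ (ℕ × V)) := {i | ∀ n v, i = Sum.inr (n, v) → n < k}
  have h1 : sb (cres fun a => (c a : ℕ)) F ∈ supported ℂ S := by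
    have h2 : (Submodule.span ℂ {g | ∃ (y : MvPolynomial Y ℂ) (v : Fin d → V),
        g = mn y (fun a : Fin d => (a : ℕ)) v}).map
        (sb (Y := Y) (V := V) (cres fun a => (c a : ℕ))).toLinearMap
        ≤ Subalgebra.toSubmodule (supported ℂ S) := by
      rw [Submodule.map_span_le]
      rintro _ ⟨y, v, rfl⟩
      rw [AlgHom.toLinearMap_apply, sb_cres_mn (fun a => (c a : ℕ)) y (fun a => a) v,
        Subalgebra.mem_toSubmodule]
      unfold mn
      refine mul_mem ?_ (prod_mem fun a _ => ?_)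
      · induction y using MvPolynomial.induction_on with
        | C a =>
          rw [rename_C]
          exact Subalgebra.algebraMap_mem _ a
        | add p q hp hq =>
          rw [map_add]
          exact add_mem hp hq
        | mul_X p i hp =>
          rw [map_mul, rename_X]
          refine mul_mem hp (X_mem_supported.2 ?_)
          intro n v h
          exact absurd h (by simp)
      · refine X_mem_supported.2 ?_
        intro n v' h
        rw [Sum.inr.injEq, Prod.mk.injEq] at h
        rw [← h.1]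
        exact (c a).2
    exact h2 ⟨F, mem_span_mn hF, rfl⟩
  exact mem_supported.1 h1 hn n v rfl

/-- Extension of labels. -/
theorem ext_labels {k : ℕ} (P J : Submodule ℂ (LR Y V))
    (hP : ∀ c, ∀ f ∈ P, sb c f ∈ P) (hJ : ∀ c, ∀ f ∈ J, sb c f ∈ J)
    (hmul : ∀ f ∈ J, ∀ g, g * f ∈ J)
    (hdet : ∀ (l : Fin (k + 1) → ℕ) (v : Fin (k + 1) → V),
      (Matrix.of fun s t => (X (Sum.inr (l s, v t)) : LR Y V)).det ∈ J)
    (hk : ∀ f ∈ P, (∀ n v, Sum.inr (n, v) ∈ f.vars → n < k) → f ∈ J) : P ≤ J := by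
  classical
  have hml : ∀ d : ℕ, ∀ F ∈ P, IsWeightedHomogeneous lw F (wd (fun a : Fin d => (a : ℕ))) →
      F ∈ J := by
    intro d
    have key : ∀ y ∈ NAll k d, ∀ F ∈ P,
        IsWeightedHomogeneous lw F (wd (fun a : Fin d => (a : ℕ))) → act F y ∈ J := by
      intro y hy
      induction hy using Submodule.span_induction with
      | mem y h =>
        intro F hF hw
        rcases h with ⟨j, g, h, rfl⟩ | ⟨c, g, h, rfl⟩
        · have h1 : act F (AltE j g h) = sb (cres fun a => ((g a : Fin d) : ℕ))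
              (∑ τ : Equiv.Perm (Fin (k + 1)), ((Equiv.Perm.sign τ : ℤ) : ℂ) •
                sb (cres fun a => ((hat j τ a : Fin d) : ℕ))
                  (sb (cres fun a => ((h a : Fin d) : ℕ)) F)) := by
            unfold AltE
            rw [map_sum, map_sum]
            refine Finset.sum_congr rfl fun τ _ => ?_
            rw [map_smul, map_smul, act_del, mul_assoc, ← sb_comp_cres, ← sb_comp_cres]
            rfl
          rw [h1]
          exact hJ _ _ (alt_mem hmul hdet j (sb_perm_weight hw h))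
        · have h1 : act F (SymE c g h) = sb (cres fun a => ((g a : Fin d) : ℕ))
              (∑ s ∈ Stb c, sb (cres fun a => ((s a : Fin d) : ℕ))
                  (sb (cres fun a => ((h a : Fin d) : ℕ)) F)) := by
            unfold SymE
            rw [map_sum, map_sum]
            refine Finset.sum_congr rfl fun s _ => ?_
            rw [act_del, mul_assoc, ← sb_comp_cres, ← sb_comp_cres]
            rfl
          rw [h1, sym_eq c (sb_perm_weight hw h)]
          refine hJ _ _ (comp_mem (fun t f hf => hJ _ _ hf) _ (hJ _ _ (hk _ (hP _ _ (hP _ _ hF)) ?_)))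
          intro n v hn
          exact vars_cres c (sb_perm_weight hw h) hn
      | zero => 
        intro F _ _
        rw [map_zero]
        exact Submodule.zero_mem _
      | add x y _ _ hx hy =>
        intro F hF hw
        rw [map_add]
        exact Submodule.add_mem _ (hx F hF hw) (hy F hF hw)
      | smul a x _ hx =>
        intro F hF hw
        rw [map_smul]
        exact Submodule.smul_mem _ _ (hx F hF hw)
    intro F hF hw
    rw [← act_one hw]
    exact key _ (by rw [one_mem_NAll]; trivial) F hF hw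
  intro f hf
  rw [← sum_weightedHomogeneousComponent lw f, finsum_eq_sum _ (weightedHomogeneousComponent_finsupp f)]
  refine Submodule.sum_mem _ fun δ _ => ?_
  have h1 : weightedHomogeneousComponent lw δ f ∈ P := comp_mem (fun t f hf => hP _ _ hf) _ hf
  have h2 : IsWeightedHomogeneous lw (weightedHomogeneousComponent lw δ f) δ :=
    weightedHomogeneousComponent_isWeightedHomogeneous _ _
  generalize weightedHomogeneousComponent lw δ f = f1 at h1 h2
  obtain ⟨d, l, rfl⟩ := exists_wd δ
  have h3 := hml d (weightedHomogeneousComponent lw (wd (fun a : Fin d => (a : ℕ)))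
    (sb (cpol l) f1)) (comp_mem (fun t f hf => hP _ _ hf) _ (hP _ _ h1))
    (weightedHomogeneousComponent_isWeightedHomogeneous _ _)
  have h4 : sb (cres l) (weightedHomogeneousComponent lw (wd (fun a : Fin d => (a : ℕ)))
      (sb (cpol l) f1))
      = ((Finset.univ.filter fun β : Fin d → Fin d =>
          (∀ a, l (β a) = l a) ∧ Function.Bijective β).card : ℂ) • f1 := by
    let L : LR Y V →ₗ[ℂ] LR Y V := (sb (cres l)).toLinearMap ∘ₗ
      (weightedHomogeneousComponent lw (wd (fun a : Fin d => (a : ℕ)))) ∘ₗ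
        (sb (cpol l)).toLinearMap
    let L' : LR Y V →ₗ[ℂ] LR Y V := ((Finset.univ.filter fun β : Fin d → Fin d =>
          (∀ a, l (β a) = l a) ∧ Function.Bijective β).card : ℂ) • LinearMap.id
    show L f1 = L' f1
    have h5 : Set.EqOn L L' (Submodule.span ℂ {g | ∃ (y : MvPolynomial Y ℂ) (v : Fin d → V),
        g = mn y l v}) := by
      refine LinearMap.eqOn_span' ?_
      rintro _ ⟨y, v, rfl⟩
      show sb (cres l) (weightedHomogeneousComponent lw (wd (fun a : Fin d => (a : ℕ)))
        (sb (cpol l) (mn y l v))) = ((Finset.univ.filter fun β : Fin d → Fin d =>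
          (∀ a, l (β a) = l a) ∧ Function.Bijective β).card : ℂ) • mn y l v
      rw [comp_sb_cpol, map_sum, Nat.cast_smul_eq_nsmul, ← Finset.sum_const]
      refine Finset.sum_congr rfl fun β hβ => ?_
      rw [sb_cres_mn]
      congr 1
      funext a
      exact (Finset.mem_filter.1 hβ).2.1 a
    exact h5 (mem_span_mn h2)
  have h5 : ((Finset.univ.filter fun β : Fin d → Fin d =>
          (∀ a, l (β a) = l a) ∧ Function.Bijective β).card : ℂ) ≠ 0 := by
    rw [Nat.cast_ne_zero]
    refine Finset.card_ne_zero.2 ⟨id, ?_⟩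
    rw [Finset.mem_filter]
    exact ⟨Finset.mem_univ _, fun _ => rfl, Function.bijective_id⟩
  have h6 := Submodule.smul_mem J (((Finset.univ.filter fun β : Fin d → Fin d =>
          (∀ a, l (β a) = l a) ∧ Function.Bijective β).card : ℂ)⁻¹) (hJ (cres l) _ h3)
  rwa [h4, smul_smul, inv_mul_cancel₀ h5, one_smul] at h6

end Pentad
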