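import Pool.Agent.H.MP_b77b2b_ag.W2
import Pool.Agent.H.MP_b77b2b_ag.UEv

/-!
# MP_b77b2b_ag, W3: equations from groupings, substitution at one factor, bounded labels suffice
-/

set_option autoImplicit false

namespace Pentad

open MvPolynomial

section

variable {I : Type} [Fintype I] [DecidableEq I] {D : I → Type}

/-- The polynomial vanishes on all sums of `k` pure tensors. -/
def VI (k : ℕ) (p : MvPolynomial ((i : I) → D i) ℂ) : Prop :=
  ∀ v : Fin k → (i : I) → D i → ℂ, eval (fun x => ∑ j, ∏ i, v j i (x i)) p = 0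

/-- The polynomial vanishes on all sums of `k` products along the blocks of `σ`. -/
def BV (k : ℕ) {m : ℕ} (σ : I → Fin m) (p : MvPolynomial ((i : I) → D i) ℂ) : Prop :=
  ∀ u : Fin k → Fin m → ((i : I) → D i) → ℂ,
    (∀ j b w w', (∀ i, σ i = b → w i = w' i) → u j b w = u j b w') →
      eval (fun w => ∑ j, ∏ b, u j b w) p = 0

/-- The ideal of the equations from `m` blocks. -/
noncomputable def FI (k m : ℕ) (D : I → Type) : Ideal (MvPolynomial ((i : I) → D i) ℂ) :=
  Ideal.span {p | ∃ σ : I → Fin m, BV k σ p}

theorem minor_mem_FI {k m : ℕ} (hm : 2 ≤ m) (W : Finset I) (x y : Fin (k + 1) → (i : I) → D i) :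
    (Matrix.of fun s t => (X (mix W (x s) (y t)) : MvPolynomial ((i : I) → D i) ℂ)).det
      ∈ FI k m D := by
  classical
  let b0 : Fin m := ⟨0, by omega⟩
  let b1 : Fin m := ⟨1, by omega⟩
  let σ : I → Fin m := fun i => if i ∈ W then b0 else b1
  have h01 : b1 ≠ b0 := by
    intro h
    have := congrArg Fin.val h
    simp only [b0, b1] at this
    omega
  refine Ideal.subset_span ⟨σ, fun u hu => ?_⟩
  let P : Matrix (Fin (k + 1)) (Fin k) ℂ := fun s j => u j b0 (x s)
  let Q : Matrix (Fin k) (Fin (k + 1)) ℂ := fun j t => ∏ b ∈ Finset.univ.erase b0, u j b (y t)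
  have hPQ : ∀ s t, (P * Q) s t = ∑ j, ∏ b, u j b (mix W (x s) (y t)) := by
    intro s t
    rw [Matrix.mul_apply]
    refine Finset.sum_congr rfl fun j _ => ?_
    rw [← Finset.mul_prod_erase Finset.univ _ (Finset.mem_univ b0)]
    have e1 : u j b0 (x s) = u j b0 (mix W (x s) (y t)) := by
      refine hu _ _ _ _ fun i hi => ?_
      have hiA : i ∈ W := by
        by_contra hn
        simp only [σ, if_neg hn] at hi
        exact h01 hi
      rw [mix_of_mem hiA]
    have e2 : ∏ b ∈ Finset.univ.erase b0, u j b (y t)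
        = ∏ b ∈ Finset.univ.erase b0, u j b (mix W (x s) (y t)) := by
      refine Finset.prod_congr rfl fun b hb => hu _ _ _ _ fun i hi => ?_
      have hiA : i ∉ W := by
        intro hn
        simp only [σ, if_pos hn] at hi
        exact Finset.ne_of_mem_erase hb hi.symm
      rw [mix_of_not hiA]
    show u j b0 (x s) * ∏ b ∈ Finset.univ.erase b0, u j b (y t) = _
    rw [e1, e2]
  have hdet : (P * Q).det = 0 := by
    by_contra hne
    have h1 : (P * Q).rank = k + 1 := by
      rw [Matrix.rank_of_isUnit _ ((Matrix.isUnit_iff_isUnit_det _).2 (isUnit_iff_ne_zero.2 hne)),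
        Fintype.card_fin]
    have h2 := (Matrix.rank_mul_le_right P Q).trans (Matrix.rank_le_height Q)
    omega
  rw [RingHom.map_det, ← hdet]
  congr 1
  ext s t
  rw [RingHom.mapMatrix_apply, Matrix.map_apply, Matrix.of_apply, eval_X, hPQ]

end

section

variable {I : Type} [Fintype I] [DecidableEq I]

/-- Linear substitution of the labels of one factor. -/
noncomputable def su (i : I) (c : ℕ → ℕ →₀ ℂ) :
    MvPolynomial (I → ℕ) ℂ →ₐ[ℂ] MvPolynomial (I → ℕ) ℂ :=
  aeval fun x => (c (x i)).sum fun l a => a • X (Function.update x i l)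

omit [Fintype I] in
theorem su_X (i : I) (c : ℕ → ℕ →₀ ℂ) (x : I → ℕ) :
    su i c (X x) = (c (x i)).sum fun l a => a • X (Function.update x i l) := by
  unfold su
  rw [aeval_X]

omit [Fintype I] in
theorem su_X_of_base {i : I} {c : ℕ → ℕ →₀ ℂ} {x : I → ℕ} (h : c (x i) = Finsupp.single (x i) 1) :
    su i c (X x) = X x := by
  rw [su_X, h, Finsupp.sum_single_index (by rw [zero_smul]), one_smul, Function.update_eq_self]

omit [Fintype I] in
theorem eval_su (i : I) (c : ℕ → ℕ →₀ ℂ) (T : (I → ℕ) → ℂ) (p : MvPolynomial (I → ℕ) ℂ) :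
    eval T (su i c p)
      = eval (fun x => (c (x i)).sum fun l a => a * T (Function.update x i l)) p := by
  have h : (aeval T : MvPolynomial (I → ℕ) ℂ →ₐ[ℂ] ℂ).comp (su i c)
      = aeval (fun x => (c (x i)).sum fun l a => a * T (Function.update x i l)) := by
    refine algHom_ext fun x => ?_
    rw [AlgHom.comp_apply, su_X, aeval_X, map_finsuppSum]
    refine Finsupp.sum_congr fun l _ => ?_
    rw [map_smul, aeval_X, smul_eq_mul]
  have h2 := congrArg (fun f => f p) h
  simp only [AlgHom.comp_apply, aeval_eq_eval] at h2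
  exact h2

theorem VI_su {k : ℕ} {p : MvPolynomial (I → ℕ) ℂ} (hp : VI k p) (i : I) (c : ℕ → ℕ →₀ ℂ) :
    VI k (su i c p) := by
  intro v
  rw [eval_su, ← hp fun j => Function.update (v j) i fun n => (c n).sum fun l a => a * v j i l]
  congr 2
  funext x
  simp only [Finsupp.sum, Finset.mul_sum]
  rw [Finset.sum_comm]
  refine Finset.sum_congr rfl fun j _ => ?_
  rw [← Finset.mul_prod_erase Finset.univ _ (Finset.mem_univ i), Function.update_self,
    Finset.sum_mul]
  refine Finset.sum_congr rfl fun l _ => ?_
  rw [← Finset.mul_prod_erase Finset.univ _ (Finset.mem_univ i), Function.update_self, mul_assoc]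
  congr 2
  refine Finset.prod_congr rfl fun i' hi' => ?_
  rw [Function.update_of_ne (Finset.ne_of_mem_erase hi'),
    Function.update_of_ne (Finset.ne_of_mem_erase hi')]

theorem BV_su {k m : ℕ} {σ : I → Fin m} {p : MvPolynomial (I → ℕ) ℂ} (hp : BV k σ p) (i : I)
    (c : ℕ → ℕ →₀ ℂ) : BV k σ (su i c p) := by
  classical
  intro u hu
  rw [eval_su, ← hp (fun j => Function.update (u j) (σ i)
    fun x => (c (x i)).sum fun l a => a * u j (σ i) (Function.update x i l)) ?_]
  · congr 2
    funext x
    simp only [Finsupp.sum, Finset.mul_sum]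
    rw [Finset.sum_comm]
    refine Finset.sum_congr rfl fun j _ => ?_
    rw [← Finset.mul_prod_erase Finset.univ _ (Finset.mem_univ (σ i)), Function.update_self,
      Finset.sum_mul]
    refine Finset.sum_congr rfl fun l _ => ?_
    rw [← Finset.mul_prod_erase Finset.univ _ (Finset.mem_univ (σ i)), mul_assoc]
    congr 2
    refine Finset.prod_congr rfl fun b hb => ?_
    rw [Function.update_of_ne (Finset.ne_of_mem_erase hb)]
    refine hu _ _ _ _ fun i' hi' => ?_
    rw [Function.update_of_ne]
    rintro rfl
    exact Finset.ne_of_mem_erase hb hi'.symm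
  · intro j b w w' hw
    by_cases hb : b = σ i
    · subst hb
      rw [Function.update_self, hw i rfl]
      refine Finsupp.sum_congr fun l _ => ?_
      congr 1
      refine hu _ _ _ _ fun i' hi' => ?_
      by_cases h : i' = i
      · subst h
        rw [Function.update_self, Function.update_self]
      · rw [Function.update_of_ne h, Function.update_of_ne h, hw i' hi']
    · rw [Function.update_of_ne hb]
      exact hu _ _ _ _ hw

theorem FI_su {k m : ℕ} {p : MvPolynomial (I → ℕ) ℂ} (hp : p ∈ FI k m fun _ : I => ℕ) (i : I)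
    (c : ℕ → ℕ →₀ ℂ) : su i c p ∈ FI k m fun _ : I => ℕ := by
  have h : FI k m (fun _ : I => ℕ) ≤ (FI k m fun _ : I => ℕ).comap (su i c) := by
    refine Ideal.span_le.2 ?_
    rintro p ⟨σ, hp⟩
    exact Ideal.subset_span ⟨σ, BV_su hp i c⟩
  exact h hp

/-- A word from its letter at `i` and the others. -/
def glue (i : I) (n : ℕ) (v : {j : I // j ≠ i} → ℕ) : I → ℕ :=
  fun j => if h : j = i then n else v ⟨j, h⟩

omit [Fintype I] in
theorem glue_self (i : I) (n : ℕ) (v : {j : I // j ≠ i} → ℕ) : glue i n v i = n := dif_pos rfl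

omit [Fintype I] in
theorem glue_of_ne {i j : I} (h : j ≠ i) (n : ℕ) (v : {j : I // j ≠ i} → ℕ) :
    glue i n v j = v ⟨j, h⟩ := dif_neg h

omit [Fintype I] in
theorem update_glue (i : I) (n l : ℕ) (v : {j : I // j ≠ i} → ℕ) :
    Function.update (glue i n v) i l = glue i l v := by
  funext j
  by_cases h : j = i
  · subst h
    rw [Function.update_self, glue_self]
  · rw [Function.update_of_ne h, glue_of_ne h, glue_of_ne h]

/-- Words with a small or a large letter at `i`. -/
def wordEquiv (i : I) (q : ℕ) :
    (I → ℕ) ≃ (Fin q × ({j : I // j ≠ i} → ℕ)) ⊕ (ℕ × ({j : I // j ≠ i} → ℕ)) where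
  toFun x := if h : x i < q then Sum.inl (⟨x i, h⟩, fun j => x j) else
    Sum.inr (x i - q, fun j => x j)
  invFun := Sum.elim (fun p => glue i p.1 p.2) fun p => glue i (q + p.1) p.2
  left_inv x := by
    have h1 : ∀ n, n = x i → glue i n (fun j => x j) = x := by
      intro n hn
      funext j
      by_cases h : j = i
      · subst h
        rw [glue_self, hn]
      · rw [glue_of_ne h]
    dsimp only
    split_ifs with h
    · exact h1 _ rfl
    · exact h1 _ (by
        show q + (x i - q) = x i
        omega)
  right_inv y := by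
    rcases y with ⟨a, v⟩ | ⟨n, v⟩
    · have h1 : glue i (a : ℕ) v i < q := by
        rw [glue_self]
        exact a.2
      simp only [Sum.elim_inl]
      rw [dif_pos h1]
      congr 2
      · exact Fin.ext (glue_self i _ v)
      · funext j
        rw [glue_of_ne j.2]
    · have h1 : ¬ glue i (q + n) v i < q := by
        rw [glue_self]
        omega
      simp only [Sum.elim_inr]
      rw [dif_neg h1]
      congr 2
      · rw [glue_self]
        omega
      · funext j
        rw [glue_of_ne j.2]

omit [Fintype I] in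
theorem wordEquiv_symm_inl (i : I) (q : ℕ) (a : Fin q) (v : {j : I // j ≠ i} → ℕ) :
    (wordEquiv i q).symm (Sum.inl (a, v)) = glue i a v := rfl

omit [Fintype I] in
theorem wordEquiv_symm_inr (i : I) (q n : ℕ) (v : {j : I // j ≠ i} → ℕ) :
    (wordEquiv i q).symm (Sum.inr (n, v)) = glue i (q + n) v := rfl

/-- The substitution at a factor from a substitution of the large labels. -/
noncomputable def cext (q : ℕ) (c : ℕ → ℕ →₀ ℂ) (n : ℕ) : ℕ →₀ ℂ :=
  if n < q then Finsupp.single n 1 else (c (n - q)).embDomain ⟨fun l => q + l, fun a b h => by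
    simpa using h⟩

omit [Fintype I] in
theorem rename_sb (i : I) (q : ℕ) (c : ℕ → ℕ →₀ ℂ)
    (f : LR (Fin q × ({j : I // j ≠ i} → ℕ)) ({j : I // j ≠ i} → ℕ)) :
    rename (wordEquiv i q).symm (sb c f) = su i (cext q c) (rename (wordEquiv i q).symm f) := by
  have h : (rename (wordEquiv i q).symm).comp (sb c)
      = (su i (cext q c)).comp (rename (wordEquiv i q).symm) := by
    refine algHom_ext fun y => ?_
    rw [AlgHom.comp_apply, AlgHom.comp_apply, rename_X]
    rcases y with ⟨a, v⟩ | ⟨n, v⟩
    · rw [sb_inl, rename_X, wordEquiv_symm_inl, su_X_of_base]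
      unfold cext
      rw [glue_self, if_pos a.2]
    · rw [sb_inr, wordEquiv_symm_inr, su_X, map_finsuppSum]
      unfold cext
      rw [glue_self, if_neg (by omega), Finsupp.sum_embDomain]
      have h1 : q + n - q = n := by omega
      rw [h1]
      refine Finsupp.sum_congr fun l _ => ?_
      rw [map_smul, rename_X, wordEquiv_symm_inr, update_glue]
      rfl
  exact congrArg (fun F => F f) h

/-- Bounded labels suffice. -/
theorem bounded_labels {k m q : ℕ} (hm : 2 ≤ m) {g : MvPolynomial (I → ℕ) ℂ}
    (hg : ∀ (i : I) (c : ℕ → ℕ →₀ ℂ), (∀ n < q, c n = Finsupp.single n 1) → su i c g = g)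
    (h0 : ∀ p : MvPolynomial (I → ℕ) ℂ, VI k p → (∀ x ∈ p.vars, ∀ i, x i < q + k) →
      ∃ M : ℕ, g ^ M * p ∈ FI k m fun _ : I => ℕ)
    (p : MvPolynomial (I → ℕ) ℂ) (hp : VI k p) : ∃ M : ℕ, g ^ M * p ∈ FI k m fun _ : I => ℕ := by
  classical
  suffices hQ : ∀ (s : Finset I) (p : MvPolynomial (I → ℕ) ℂ), VI k p →
      (∀ x ∈ p.vars, ∀ i, i ∉ s → x i < q + k) → ∃ M : ℕ, g ^ M * p ∈ FI k m fun _ : I => ℕ from
    hQ Finset.univ p hp fun x _ i hi => absurd (Finset.mem_univ i) hi
  intro s
  induction s using Finset.induction_on with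
  | empty => exact fun p hp hx => h0 p hp fun x hx' i => hx x hx' i (Finset.notMem_empty i)
  | insert i s _ ih =>
    let V : Type := {j : I // j ≠ i} → ℕ
    let Y : Type := Fin q × V
    let e := wordEquiv i q
    let S : Set (I → ℕ) := {x | ∀ j, j ∉ insert i s → x j < q + k}
    let J0 : Submodule ℂ (MvPolynomial (I → ℕ) ℂ) :=
      { carrier := {p | ∃ M : ℕ, g ^ M * p ∈ FI k m fun _ : I => ℕ}
        add_mem' := by
          rintro a b ⟨M, hM⟩ ⟨N, hN⟩
          refine ⟨M + N, ?_⟩
          have h1 : g ^ (M + N) * (a + b) = g ^ N * (g ^ M * a) + g ^ M * (g ^ N * b) := by ring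
          rw [h1]
          exact Ideal.add_mem _ (Ideal.mul_mem_left _ _ hM) (Ideal.mul_mem_left _ _ hN)
        zero_mem' := ⟨0, by rw [mul_zero]; exact Ideal.zero_mem _⟩
        smul_mem' := by
          rintro c a ⟨M, hM⟩
          refine ⟨M, ?_⟩
          rw [mul_smul_comm, smul_eq_C_mul]
          exact Ideal.mul_mem_left _ _ hM }
    let P0 : Submodule ℂ (MvPolynomial (I → ℕ) ℂ) :=
      { carrier := {p | VI k p ∧ p ∈ supported ℂ S}
        add_mem' := by
          rintro a b ⟨h1, h2⟩ ⟨h3, h4⟩
          refine ⟨fun v => ?_, add_mem h2 h4⟩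
          rw [map_add, h1, h3, add_zero]
        zero_mem' := ⟨fun v => map_zero _, (supported ℂ S).zero_mem⟩
        smul_mem' := by
          rintro c a ⟨h1, h2⟩
          refine ⟨fun v => ?_, Subalgebra.smul_mem _ h2 c⟩
          rw [smul_eval, h1, mul_zero] }
    let L : LR Y V →ₐ[ℂ] MvPolynomial (I → ℕ) ℂ := rename e.symm
    have hsupp : ∀ c, ∀ p ∈ supported ℂ S, su i c p ∈ supported ℂ S := by
      intro c p hp
      have h1 : supported ℂ S ≤ (supported ℂ S).comap (su i c) := by
        unfold supported
        refine Algebra.adjoin_le ?_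
        rintro _ ⟨x, hx, rfl⟩
        show su i c (X x) ∈ supported ℂ S
        rw [su_X]
        refine Subalgebra.sum_mem _ fun l _ => Subalgebra.smul_mem _ (X_mem_supported.2 ?_) _
        intro j hj
        rw [Function.update_of_ne]
        · exact hx j hj
        · rintro rfl
          exact hj (Finset.mem_insert_self _ _)
      exact h1 hp
    have main := ext_labels (Y := Y) (V := V) (k := k) (P0.comap L.toLinearMap)
      (J0.comap L.toLinearMap) ?_ ?_ ?_ ?_ ?_
    · intro p hp hx
      have h1 : L (rename e p) = p := by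
        show rename e.symm (rename e p) = p
        rw [rename_rename, Equiv.symm_comp_self, rename_id_apply]
      have h2 : rename e p ∈ P0.comap L.toLinearMap := by
        show L (rename e p) ∈ P0
        rw [h1]
        exact ⟨hp, mem_supported.2 fun x hx' j hj => hx x hx' j hj⟩
      have h3 := main h2
      have h4 : L (rename e p) ∈ J0 := h3
      rw [h1] at h4
      exact h4
    · intro c f hf
      show rename e.symm (sb c f) ∈ P0
      rw [rename_sb]
      exact ⟨VI_su hf.1 _ _, hsupp _ _ hf.2⟩
    · intro c f hf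
      show rename e.symm (sb c f) ∈ J0
      rw [rename_sb]
      obtain ⟨M, hM⟩ := hf
      refine ⟨M, ?_⟩
      have h1 := FI_su hM i (cext q c)
      rw [map_mul, map_pow, hg i (cext q c)] at h1
      · exact h1
      · intro n hn
        unfold cext
        rw [if_pos hn]
    · intro f hf h
      show L (h * f) ∈ J0
      obtain ⟨M, hM⟩ := hf
      refine ⟨M, ?_⟩
      rw [map_mul, mul_left_comm]
      exact Ideal.mul_mem_left _ _ hM
    · intro l v
      refine ⟨0, ?_⟩
      rw [pow_zero, one_mul]
      show L (Matrix.of fun s t => (X (Sum.inr (l s, v t)) : LR Y V)).det ∈ _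
      have h1 := minor_mem_FI (D := fun _ : I => ℕ) hm {i} (fun s => glue i (q + l s) (v 0))
        (fun t => glue i 0 (v t))
      rw [AlgHom.map_det]
      convert h1 using 2
      refine Matrix.ext fun s t => ?_
      rw [AlgHom.mapMatrix_apply, Matrix.map_apply, Matrix.of_apply, Matrix.of_apply]
      show rename e.symm (X (Sum.inr (l s, v t)) : LR Y V) = _
      rw [rename_X]
      congr 1
      funext j
      by_cases hj : j = i
      · subst hj
        rw [mix_of_mem (Finset.mem_singleton_self _), glue_self]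
        exact glue_self j _ _
      · rw [mix_of_not (fun h => hj (Finset.mem_singleton.1 h)), glue_of_ne hj]
        exact glue_of_ne hj _ _
    · intro f hf hn
      refine ih _ hf.1 ?_
      intro x hx j hj
      by_cases hji : j = i
      · subst hji
        have h1 := vars_rename e.symm f hx
        obtain ⟨y, hy, rfl⟩ := Finset.mem_image.1 h1
        rcases y with ⟨a, v⟩ | ⟨n, v⟩
        · show glue j (a : ℕ) v j < _
          rw [glue_self]
          exact lt_of_lt_of_le a.2 (Nat.le_add_right _ _)
        · show glue j (q + n) v j < _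
          rw [glue_self]
          have := hn n v hy
          omega
      · exact mem_supported.1 hf.2 hx j fun h => (Finset.mem_insert.1 h).elim hji hj

end

end Pentad
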