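import Pool.Agent.H.MP_b77b2b_ag.W2

/-!
# MP_b77b2b_ag, W4: ideals of families of points with labelled vectors, few labels suffice
-/

set_option autoImplicit false

namespace Pentad

open MvPolynomial

variable {Y V : Type} {r : ℕ}

/-- A point whose labelled vectors are combinations of `r` vectors. -/
def lpt (y : Y → ℂ) (B : Fin r → V → ℂ) (lam : Fin r → ℕ → ℂ) : Y ⊕ (ℕ × V) → ℂ :=
  Sum.elim y fun p => ∑ j, lam j p.1 * B j p.2

theorem eval_sb_lpt (c : ℕ → ℕ →₀ ℂ) (y : Y → ℂ) (B : Fin r → V → ℂ) (lam : Fin r → ℕ → ℂ)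
    (f : LR Y V) : eval (lpt y B lam) (sb c f)
      = eval (lpt y B fun j n => (c n).sum fun l a => a * lam j l) f := by
  have h : (aeval (lpt y B lam) : LR Y V →ₐ[ℂ] ℂ).comp (sb c)
      = aeval (lpt y B fun j n => (c n).sum fun l a => a * lam j l) := by
    refine algHom_ext fun x => ?_
    rw [AlgHom.comp_apply]
    rcases x with y' | ⟨n, v⟩
    · rw [sb_inl, aeval_X, aeval_X]
      rfl
    · rw [sb_inr, aeval_X, map_finsuppSum]
      show _ = ∑ j, ((c n).sum fun l a => a * lam j l) * B j v
      simp only [Finsupp.sum, Finset.sum_mul]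
      rw [Finset.sum_comm]
      refine Finset.sum_congr rfl fun l _ => ?_
      rw [map_smul, aeval_X, smul_eq_mul]
      show (c n) l * ∑ j, lam j l * B j v = _
      rw [Finset.mul_sum]
      exact Finset.sum_congr rfl fun j _ => by rw [mul_assoc]
  have h2 := congrArg (fun F => F f) h
  simp only [AlgHom.comp_apply, aeval_eq_eval] at h2
  exact h2

/-- The ideal of a family of points. -/
def CI (Z : Set ((Y → ℂ) × (Fin r → V → ℂ))) : Ideal (LR Y V) where
  carrier := {h | ∀ z ∈ Z, ∀ lam, eval (lpt z.1 z.2 lam) h = 0}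
  add_mem' := by
    intro a b ha hb z hz lam
    rw [map_add, ha z hz lam, hb z hz lam, add_zero]
  zero_mem' := fun z _ lam => map_zero _
  smul_mem' := by
    intro c a ha z hz lam
    rw [smul_eq_mul, map_mul, ha z hz lam, mul_zero]

theorem mem_CI {Z : Set ((Y → ℂ) × (Fin r → V → ℂ))} {h : LR Y V} :
    h ∈ CI Z ↔ ∀ z ∈ Z, ∀ lam, eval (lpt z.1 z.2 lam) h = 0 := Iff.rfl

theorem CI_sb {Z : Set ((Y → ℂ) × (Fin r → V → ℂ))} (c : ℕ → ℕ →₀ ℂ) {h : LR Y V}
    (hh : h ∈ CI Z) : sb c h ∈ CI Z := by
  intro z hz lam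
  rw [eval_sb_lpt]
  exact hh z hz _

theorem totalDegree_sb (c : ℕ → ℕ →₀ ℂ) (h : LR Y V) :
    (sb c h).totalDegree ≤ h.totalDegree := by
  classical
  have hX : ∀ x : Y ⊕ (ℕ × V), (sb (Y := Y) (V := V) c (X x)).totalDegree ≤ 1 := by
    intro x
    rcases x with y | ⟨n, v⟩
    · rw [sb_inl, totalDegree_X]
    · rw [sb_inr]
      unfold Finsupp.sum
      refine totalDegree_finsetSum_le fun l _ => (totalDegree_smul_le _ _).trans ?_
      rw [totalDegree_X]
  conv_lhs => rw [h.as_sum, map_sum]
  refine totalDegree_finsetSum_le fun s hs => ?_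
  refine le_trans ?_ (le_totalDegree hs)
  rw [monomial_eq, map_mul, map_finsuppProd]
  have h1 : sb (Y := Y) (V := V) c (C (coeff s h)) = C (coeff s h) := by
    rw [← algebraMap_eq, AlgHom.commutes]
  rw [h1]
  refine (totalDegree_mul _ _).trans ?_
  rw [totalDegree_C, zero_add]
  unfold Finsupp.prod Finsupp.sum
  refine (totalDegree_finsetProd _ _).trans (Finset.sum_le_sum fun x _ => ?_)
  show (sb (Y := Y) (V := V) c (X x ^ s x)).totalDegree ≤ s x
  rw [map_pow]
  refine (totalDegree_pow _ _).trans ?_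
  calc s x * (sb (Y := Y) (V := V) c (X x)).totalDegree ≤ s x * 1 := Nat.mul_le_mul_left _ (hX x)
    _ = s x := mul_one _

theorem weight_card (m : Y ⊕ (ℕ × V) →₀ ℕ) :
    ((Finsupp.weight lw m : ℕ →₀ ℕ)).support.card ≤ m.sum fun _ e => e := by
  classical
  have h1 : (Finsupp.weight (lw (Y := Y) (V := V)) m).support
      ⊆ m.support.biUnion fun x => (lw x).support := by
    intro n hn
    rw [Finsupp.weight_apply] at hn
    have h2 := Finsupp.support_sum hn
    rw [Finset.mem_biUnion] at h2 ⊢
    obtain ⟨x, hx, hx2⟩ := h2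
    exact ⟨x, hx, Finsupp.support_smul hx2⟩
  refine (Finset.card_le_card h1).trans (Finset.card_biUnion_le.trans ?_)
  unfold Finsupp.sum
  refine Finset.sum_le_sum fun x hx => ?_
  have h2 : (lw x).support.card ≤ 1 := by
    rcases x with y | ⟨n, v⟩
    · simp [lw]
    · simp only [lw, Sum.elim_inr]
      exact (Finset.card_le_card Finsupp.support_single_subset).trans (by simp)
  exact h2.trans (Nat.one_le_iff_ne_zero.2 (Finsupp.mem_support_iff.1 hx))

/-- The labels of the variables of a polynomial of given weight. -/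
theorem label_mem {δ : ℕ →₀ ℕ} {f : LR Y V} (hf : IsWeightedHomogeneous lw f δ) {n : ℕ} {v : V}
    (hn : Sum.inr (n, v) ∈ f.vars) : n ∈ δ.support := by
  classical
  rw [mem_vars_iff_mem_support] at hn
  obtain ⟨s, hs, hs2⟩ := hn
  have h1 := hf (mem_support_iff.1 hs)
  rw [← h1, Finsupp.mem_support_iff, Finsupp.weight_apply, Finsupp.sum, Finsupp.finsetSum_apply]
  intro h2
  have h3 := Finset.sum_eq_zero_iff.1 h2 _ hs2
  simp only [lw, Sum.elim_inr, Finsupp.smul_apply, Finsupp.single_eq_same, smul_eq_mul,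
    mul_one] at h3
  exact (Finsupp.mem_support_iff.1 hs2) h3

/-- The ideal is generated by elements with few labels. -/
theorem CI_few [Finite Y] [Fintype V] (Z : Set ((Y → ℂ) × (Fin r → V → ℂ))) :
    ∃ D0 : ℕ, CI Z ≤ Ideal.span {h | h ∈ CI Z ∧
      ∃ N : Finset ℕ, N.card ≤ D0 ∧ ∀ n v, Sum.inr (n, v) ∈ h.vars → n ∈ N} := by
  classical
  let K := Fintype.card V
  let T := Y ⊕ (Fin K × V)
  let em : T → Y ⊕ (ℕ × V) := Sum.map id (Prod.map Fin.val id)
  have hem : Function.Injective em :=
    Function.Injective.sumMap Function.injective_id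
      (Function.Injective.prodMap Fin.val_injective Function.injective_id)
  obtain ⟨G, hG⟩ := (inferInstance : IsNoetherianRing (MvPolynomial T ℂ)).noetherian
    ((CI Z).comap (rename em : MvPolynomial T ℂ →ₐ[ℂ] LR Y V))
  let D0 := G.sup totalDegree
  refine ⟨D0, ?_⟩
  let J1 : Ideal (LR Y V) := Ideal.span {h | h ∈ CI Z ∧ h.totalDegree ≤ D0}
  have hJ1 : CI Z ≤ J1 := by
    have main := ext_labels (Y := Y) (V := V) (k := K) ((CI Z).restrictScalars ℂ)
      (J1.restrictScalars ℂ) ?_ ?_ ?_ ?_ ?_
    · exact main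
    · intro c f hf
      exact CI_sb c hf
    · intro c f hf
      have h1 : J1 ≤ J1.comap (sb c) := by
        refine Ideal.span_le.2 ?_
        rintro h ⟨h1, h2⟩
        exact Ideal.subset_span ⟨CI_sb c h1, (totalDegree_sb c h).trans h2⟩
      exact h1 hf
    · intro f hf g
      exact Ideal.mul_mem_left J1 g hf
    · intro l v
      have h1 : ¬ Function.Injective v := by
        intro h
        have h2 := Fintype.card_le_of_injective v h
        rw [Fintype.card_fin] at h2
        exact absurd h2 (by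
          show ¬ (K + 1 ≤ K)
          omega)
      unfold Function.Injective at h1
      push Not at h1
      obtain ⟨s, t, hst, hne⟩ := h1
      have h2 : (Matrix.of fun s t => (X (Sum.inr (l s, v t)) : LR Y V)).det = 0 := by
        refine Matrix.det_zero_of_column_eq hne fun i => ?_
        rw [Matrix.of_apply, Matrix.of_apply, hst]
      rw [h2]
      exact Submodule.zero_mem _
    · intro f hf hv
      have h1 : ∃ f' : MvPolynomial T ℂ, rename em f' = f := by
        refine exists_rename_eq_of_vars_subset_range f em hem ?_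
        intro x hx
        rcases x with y | ⟨n, v⟩
        · exact ⟨Sum.inl y, rfl⟩
        · exact ⟨Sum.inr (⟨n, hv n v hx⟩, v), rfl⟩
      obtain ⟨f', rfl⟩ := h1
      have h2 : f' ∈ (CI Z).comap (rename em : MvPolynomial T ℂ →ₐ[ℂ] LR Y V) := hf
      rw [← hG] at h2
      have h3 : Ideal.span (G : Set (MvPolynomial T ℂ))
          ≤ J1.comap (rename em : MvPolynomial T ℂ →ₐ[ℂ] LR Y V) := by
        refine Ideal.span_le.2 ?_
        intro h hh
        refine Ideal.subset_span ⟨?_, (totalDegree_rename_le _ _).trans (Finset.le_sup hh)⟩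
        have h4 : h ∈ (CI Z).comap (rename em : MvPolynomial T ℂ →ₐ[ℂ] LR Y V) := by
          rw [← hG]
          exact Ideal.subset_span hh
        exact h4
      exact h3 h2
  refine hJ1.trans (Ideal.span_le.2 ?_)
  rintro h ⟨h1, h2⟩
  rw [SetLike.mem_coe, ← sum_weightedHomogeneousComponent lw h,
    finsum_eq_sum _ (weightedHomogeneousComponent_finsupp h)]
  refine Ideal.sum_mem _ fun δ _ => ?_
  by_cases h0 : weightedHomogeneousComponent lw δ h = 0
  · rw [h0]
    exact Ideal.zero_mem _
  refine Ideal.subset_span ⟨?_, δ.support, ?_, ?_⟩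
  · exact comp_mem (J := (CI Z).restrictScalars ℂ) (fun t f hf => CI_sb _ hf) δ h1
  · rw [weightedHomogeneousComponent_apply] at h0
    obtain ⟨s, hs, -⟩ := Finset.exists_ne_zero_of_sum_ne_zero h0
    rw [Finset.mem_filter] at hs
    rw [← hs.2]
    exact (weight_card s).trans ((le_totalDegree hs.1).trans h2)
  · intro n v hn
    exact label_mem (weightedHomogeneousComponent_isWeightedHomogeneous _ _) hn

end Pentad
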