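import Pool.Agent.H.MP_b77b2b_ag.W3
import Pool.Agent.H.MP_b77b2b_ag.W4

/-!
# MP_b77b2b_ag, W5: the chart
-/

set_option autoImplicit false

namespace Pentad

open MvPolynomial Matrix

section schur

variable {R : Type} [CommRing R] {k : ℕ}

/-- The Schur complement identity over a commutative ring. -/
theorem schurR (M : Matrix (Fin (k + 1)) (Fin (k + 1)) R) (h0 : M.det = 0)
    (hreg : ∀ x, (M.submatrix Fin.succ Fin.succ).det * x = 0 → x = 0) :
    (M.submatrix Fin.succ Fin.succ).det * M 0 0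
      = ((fun j => M 0 (Fin.succ j)) ᵥ* (M.submatrix Fin.succ Fin.succ).adjugate)
        ⬝ᵥ (fun q => M (Fin.succ q) 0) := by
  set G := M.submatrix Fin.succ Fin.succ with hG
  let c : Fin k → R := fun q => M (Fin.succ q) 0
  let z : Fin (k + 1) → R := Fin.cons G.det fun j => -(G.adjugate *ᵥ c) j
  let δ : R := G.det * M 0 0 - ((fun j => M 0 (Fin.succ j)) ᵥ* G.adjugate) ⬝ᵥ c
  have h1 : M *ᵥ z = Pi.single 0 δ := by
    funext i
    refine Fin.cases ?_ (fun q => ?_) i
    · rw [Pi.single_eq_same]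
      show M 0 ⬝ᵥ z = δ
      unfold dotProduct
      rw [Fin.sum_univ_succ]
      simp only [z, Fin.cons_zero, Fin.cons_succ]
      show _ = G.det * M 0 0 - ((fun j => M 0 (Fin.succ j)) ᵥ* G.adjugate) ⬝ᵥ c
      rw [← Matrix.dotProduct_mulVec]
      unfold dotProduct
      simp only [mul_neg, Finset.sum_neg_distrib]
      ring
    · rw [Pi.single_eq_of_ne (Fin.succ_ne_zero q)]
      show M q.succ ⬝ᵥ z = 0
      unfold dotProduct
      rw [Fin.sum_univ_succ]
      simp only [z, Fin.cons_zero, Fin.cons_succ, mul_neg, Finset.sum_neg_distrib]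
      have h2 : ∑ j, M q.succ (Fin.succ j) * (G.adjugate *ᵥ c) j = (G *ᵥ (G.adjugate *ᵥ c)) q := rfl
      rw [h2, Matrix.mulVec_mulVec, Matrix.mul_adjugate, Matrix.smul_mulVec, Matrix.one_mulVec,
        Pi.smul_apply, smul_eq_mul]
      show M q.succ 0 * G.det + -(G.det * M q.succ 0) = 0
      ring
  have h2 : M.adjugate *ᵥ (M *ᵥ z) = 0 := by
    rw [Matrix.mulVec_mulVec, Matrix.adjugate_mul, h0, zero_smul, Matrix.zero_mulVec]
  rw [h1] at h2
  have h3 := congrFun h2 0
  rw [Matrix.mulVec_single, Pi.zero_apply, Pi.smul_apply, Matrix.col_apply,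
    Matrix.adjugate_fin_succ_eq_det_submatrix] at h3
  simp only [Fin.succAbove_zero, Fin.val_zero, add_zero, pow_zero, one_mul, MulOpposite.smul_eq_mul_unop,
    MulOpposite.unop_op] at h3
  exact sub_eq_zero.1 (hreg _ h3)

theorem chart_step (c : Fin k → R) (U W : Matrix (Fin k) (Fin k) R) (κ lam : Fin k → R) :
    (c ᵥ* W) ᵥ* ((U * diagonal κ * W).adjugate * (U * diagonal κ * diagonal lam * W))
      = (U * diagonal κ * W).det • ((fun j => c j * lam j) ᵥ* W) := by
  have h1 : W * ((U * diagonal κ * W).adjugate * (U * diagonal κ * diagonal lam * W))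
      = (U * diagonal κ * W).det • (diagonal lam * W) := by
    rw [Matrix.adjugate_mul_distrib, Matrix.adjugate_mul_distrib]
    have e1 : W * (W.adjugate * ((diagonal κ).adjugate * U.adjugate) *
        (U * diagonal κ * diagonal lam * W))
        = (W * W.adjugate) * ((diagonal κ).adjugate * (U.adjugate * U) * diagonal κ *
          (diagonal lam * W)) := by
      simp only [Matrix.mul_assoc]
    rw [e1]
    simp only [Matrix.mul_adjugate, Matrix.adjugate_mul, Matrix.mul_smul, Matrix.mul_one,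
      Matrix.smul_mul, Matrix.one_mul, smul_smul, Matrix.det_mul]
  rw [Matrix.vecMul_vecMul, h1, Matrix.vecMul_smul, ← Matrix.vecMul_vecMul]
  congr 2
  funext j
  rw [Matrix.vecMul_diagonal]

theorem chart_end (c b : Fin k → R) (U W : Matrix (Fin k) (Fin k) R) (κ : Fin k → R) :
    ((c ᵥ* W) ᵥ* (U * diagonal κ * W).adjugate) ⬝ᵥ (U *ᵥ (fun j => κ j * b j))
      = (U * diagonal κ * W).det * ∑ j, c j * b j := by
  have h0 : (fun j => κ j * b j) = diagonal κ *ᵥ b := by
    funext j
    rw [Matrix.mulVec_diagonal]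
  rw [h0, Matrix.dotProduct_mulVec, Matrix.dotProduct_mulVec]
  have h1 : W * (U * diagonal κ * W).adjugate * U * diagonal κ
      = (U * diagonal κ * W).det • (1 : Matrix (Fin k) (Fin k) R) := by
    rw [Matrix.adjugate_mul_distrib, Matrix.adjugate_mul_distrib]
    have e1 : W * (W.adjugate * ((diagonal κ).adjugate * U.adjugate)) * U * diagonal κ
        = (W * W.adjugate) * ((diagonal κ).adjugate * (U.adjugate * U) * diagonal κ) := by
      simp only [Matrix.mul_assoc]
    rw [e1]
    simp only [Matrix.mul_adjugate, Matrix.adjugate_mul, Matrix.mul_smul, Matrix.mul_one,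
      Matrix.smul_mul, smul_smul, Matrix.det_mul]
  have h3 : ((c ᵥ* W) ᵥ* (U * diagonal κ * W).adjugate ᵥ* U) ᵥ* diagonal κ
      = (U * diagonal κ * W).det • c := by
    have e : W * ((U * diagonal κ * W).adjugate * (U * diagonal κ))
        = W * (U * diagonal κ * W).adjugate * U * diagonal κ := by
      simp only [Matrix.mul_assoc]
    rw [Matrix.vecMul_vecMul, Matrix.vecMul_vecMul, Matrix.vecMul_vecMul, e, h1,
      Matrix.vecMul_smul, Matrix.vecMul_one]
  rw [h3, smul_dotProduct, smul_eq_mul]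
  rfl

/-- The chart expression. -/
noncomputable def tau (a : Fin k → R) (G : Matrix (Fin k) (Fin k) R)
    (Ps : List (Matrix (Fin k) (Fin k) R)) (b : Fin k → R) : R :=
  ((a ᵥ* (Ps.map fun P => G.adjugate * P).prod) ᵥ* G.adjugate) ⬝ᵥ b

theorem map_tau {S : Type} [CommRing S] (φ : R →+* S) (a : Fin k → R)
    (G : Matrix (Fin k) (Fin k) R) (Ps : List (Matrix (Fin k) (Fin k) R)) (b : Fin k → R) :
    φ (tau a G Ps b) = tau (φ ∘ a) (G.map φ) (Ps.map fun P => P.map φ) (φ ∘ b) := by
  unfold tau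
  have h1 : (G.map φ).adjugate = G.adjugate.map φ := (RingHom.map_adjugate φ G).symm
  have h2 : ((Ps.map fun P => P.map φ).map fun P => (G.map φ).adjugate * P).prod
      = ((Ps.map fun P => G.adjugate * P).prod).map φ := by
    have h3 := map_list_prod φ.mapMatrix (Ps.map fun P => G.adjugate * P)
    rw [RingHom.mapMatrix_apply] at h3
    rw [h3, List.map_map, List.map_map, h1]
    congr 1
    refine List.map_congr_left fun P _ => ?_
    rw [Function.comp_apply, Function.comp_apply, map_mul]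
    rfl
  rw [h2, h1, RingHom.map_dotProduct]
  congr 1
  funext i
  rw [Function.comp_apply, RingHom.map_vecMul]
  congr 1
  funext i
  rw [Function.comp_apply, RingHom.map_vecMul]

theorem tau_chart (b κ : Fin k → R) (U W : Matrix (Fin k) (Fin k) R) (l : List (Fin k → R)) :
    ∀ c : Fin k → R, tau (c ᵥ* W) (U * diagonal κ * W)
      (l.map fun lam => U * diagonal κ * diagonal lam * W) (U *ᵥ fun j => κ j * b j)
      = (U * diagonal κ * W).det ^ (l.length + 1)
        * ∑ j, c j * (l.map fun lam => lam j).prod * b j := by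
  induction l with
  | nil =>
    intro c
    unfold tau
    simp only [List.map_nil, List.prod_nil, Matrix.vecMul_one, List.length_nil, zero_add, pow_one,
      mul_one]
    exact chart_end c b U W κ
  | cons lam l ih =>
    intro c
    have h1 := ih fun j => c j * lam j
    unfold tau at h1 ⊢
    simp only [List.map_cons, List.prod_cons, List.length_cons] at h1 ⊢
    rw [← Matrix.vecMul_vecMul, chart_step, Matrix.smul_vecMul, Matrix.smul_vecMul, smul_dotProduct,
      h1, smul_eq_mul, ← mul_assoc, ← pow_succ']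
    congr 1
    exact Finset.sum_congr rfl fun j _ => by rw [mul_assoc, mul_assoc, mul_assoc, mul_assoc]

end schur

section chart

/-- The free variables of the chart. -/
abbrev CY (k : ℕ) := ((Fin k → Fin (k + k)) × Fin k) ⊕ ((Fin k → Fin (k + k)) × Fin k)

/-- The vector coordinates of the chart. -/
abbrev CV (k : ℕ) := Fin k × Fin k

variable {k : ℕ}

/-- The free coordinates of the chart points. -/
def cy (κ : Fin k → ℂ) (u w : Fin k → Fin k → ℕ → ℂ) : CY k → ℂ :=
  Sum.elim (fun p => ∑ r, κ r * (∏ s, u r s (p.1 s)) * ∏ t, w r t p.2)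
    (fun p => ∑ r, κ r * (∏ s, u r s p.2) * ∏ t, w r t (p.1 t))

/-- The vectors of the chart points. -/
def cB (κ : Fin k → ℂ) (u w : Fin k → Fin k → ℕ → ℂ) (r : Fin k) (v : CV k) : ℂ :=
  κ r * (∏ s, u r s v.1) * ∏ t, w r t v.2

/-- The chart points. -/
def CZ (k : ℕ) : Set ((CY k → ℂ) × (Fin k → CV k → ℂ)) :=
  {z | ∃ κ u w, z = (cy κ u w, cB κ u w)}

/-- The matrix of the chart. -/
noncomputable def cG (k : ℕ) : Matrix (Fin k) (Fin k) (LR (CY k) (CV k)) :=
  Matrix.of fun q j => X (Sum.inl (Sum.inl (fun _ => Fin.castAdd k q, j)))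

/-- The matrices of the labels. -/
noncomputable def cP (k : ℕ) (n : ℕ) : Matrix (Fin k) (Fin k) (LR (CY k) (CV k)) :=
  Matrix.of fun q j => X (Sum.inr (n, (q, j)))

/-- The rows of the chart. -/
noncomputable def ca (α : Fin k → Fin (k + k)) : Fin k → LR (CY k) (CV k) :=
  fun j => X (Sum.inl (Sum.inl (α, j)))

/-- The columns of the chart. -/
noncomputable def cb (β : Fin k → Fin (k + k)) : Fin k → LR (CY k) (CV k) :=
  fun q => X (Sum.inl (Sum.inr (β, q)))

/-- The matrix of a family. -/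
def mU (u : Fin k → Fin k → ℕ → ℂ) : Matrix (Fin k) (Fin k) ℂ := Matrix.of fun q r => ∏ s, u r s q

/-- The matrix of a family. -/
def mW (w : Fin k → Fin k → ℕ → ℂ) : Matrix (Fin k) (Fin k) ℂ := Matrix.of fun r j => ∏ t, w r t j

theorem eval_cG (κ : Fin k → ℂ) (u w : Fin k → Fin k → ℕ → ℂ) (lam : Fin k → ℕ → ℂ) :
    (cG k).map (eval (lpt (cy κ u w) (cB κ u w) lam)) = mU u * diagonal κ * mW w := by
  ext q j
  rw [Matrix.map_apply, Matrix.mul_apply]
  unfold cG
  rw [Matrix.of_apply, eval_X]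
  show ∑ r, κ r * (∏ s, u r s ((Fin.castAdd k q : Fin (k + k)) : ℕ)) * ∏ t, w r t j = _
  refine Finset.sum_congr rfl fun r _ => ?_
  rw [Matrix.mul_diagonal]
  unfold mU mW
  rw [Matrix.of_apply, Matrix.of_apply, Fin.val_castAdd]
  ring

theorem eval_cP (κ : Fin k → ℂ) (u w : Fin k → Fin k → ℕ → ℂ) (lam : Fin k → ℕ → ℂ) (n : ℕ) :
    (cP k n).map (eval (lpt (cy κ u w) (cB κ u w) lam))
      = mU u * diagonal κ * diagonal (fun r => lam r n) * mW w := by
  ext q j
  rw [Matrix.map_apply, Matrix.mul_apply]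
  unfold cP
  rw [Matrix.of_apply, eval_X]
  show ∑ r, lam r n * (κ r * (∏ s, u r s q) * ∏ t, w r t j) = _
  refine Finset.sum_congr rfl fun r _ => ?_
  rw [Matrix.mul_diagonal, Matrix.mul_diagonal]
  unfold mU mW
  rw [Matrix.of_apply, Matrix.of_apply]
  ring

theorem eval_ca (κ : Fin k → ℂ) (u w : Fin k → Fin k → ℕ → ℂ) (lam : Fin k → ℕ → ℂ)
    (α : Fin k → Fin (k + k)) :
    eval (lpt (cy κ u w) (cB κ u w) lam) ∘ ca α
      = (fun r => κ r * ∏ s, u r s (α s)) ᵥ* mW w := by
  funext j
  rw [Function.comp_apply]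
  unfold ca
  rw [eval_X]
  rfl

theorem eval_cb (κ : Fin k → ℂ) (u w : Fin k → Fin k → ℕ → ℂ) (lam : Fin k → ℕ → ℂ)
    (β : Fin k → Fin (k + k)) :
    eval (lpt (cy κ u w) (cB κ u w) lam) ∘ cb β
      = mU u *ᵥ (fun r => κ r * ∏ t, w r t (β t)) := by
  funext q
  rw [Function.comp_apply]
  unfold cb
  rw [eval_X]
  show ∑ r, κ r * (∏ s, u r s q) * ∏ t, w r t (β t) = ∑ r, (∏ s, u r s q) * (κ r * _)
  exact Finset.sum_congr rfl fun r _ => by ring

theorem eval_tau (κ : Fin k → ℂ) (u w : Fin k → Fin k → ℕ → ℂ) (lam : Fin k → ℕ → ℂ)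
    (α β : Fin k → Fin (k + k)) (l : List ℕ) :
    eval (lpt (cy κ u w) (cB κ u w) lam) (tau (ca α) (cG k) (l.map fun n => cP k n) (cb β))
      = (mU u * diagonal κ * mW w).det ^ (l.length + 1) * ∑ r, (κ r * ∏ s, u r s (α s))
        * (l.map fun n => lam r n).prod * ∏ t, w r t (β t) := by
  rw [map_tau, eval_ca, eval_cb, eval_cG, List.map_map]
  have h1 : l.map ((fun P : Matrix (Fin k) (Fin k) (LR (CY k) (CV k)) =>
      P.map (eval (lpt (cy κ u w) (cB κ u w) lam))) ∘ fun n => cP k n)
      = (l.map fun n r => lam r n).map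
        fun lam' => mU u * diagonal κ * diagonal lam' * mW w := by
    rw [List.map_map]
    refine List.map_congr_left fun n _ => ?_
    rw [Function.comp_apply, Function.comp_apply, eval_cP]
  rw [h1, tau_chart, List.length_map]
  simp only [List.map_map]
  rfl

end chart

end Pentad
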