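import Pool.Agent.H.MP_b77b2b_ag.W5

/-!
# MP_b77b2b_ag, W6: frames, elements of the chart ideal give equations from groupings
-/

set_option autoImplicit false

namespace Pentad

open MvPolynomial Matrix

section frame

variable {I : Type} [Fintype I] [DecidableEq I] {k : ℕ} (sA sB : Fin k ↪ I)

/-- The word with letters `α` on the first positions, `β` on the second, `γ` elsewhere. -/
noncomputable def w3 (α β : Fin k → ℕ) (γ : I → ℕ) : I → ℕ :=
  Function.extend sA α (Function.extend sB β γ)

/-- The other positions. -/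
def rst : Finset I := (Finset.univ.map sA ∪ Finset.univ.map sB)ᶜ

variable {sA sB}

omit [Fintype I] [DecidableEq I] in
theorem w3_A (α β : Fin k → ℕ) (γ : I → ℕ) (s : Fin k) : w3 sA sB α β γ (sA s) = α s :=
  sA.injective.extend_apply _ _ _

omit [Fintype I] [DecidableEq I] in
theorem w3_B (hAB : ∀ s t, sA s ≠ sB t) (α β : Fin k → ℕ) (γ : I → ℕ) (t : Fin k) :
    w3 sA sB α β γ (sB t) = β t := by
  unfold w3
  rw [Function.extend_apply', sB.injective.extend_apply]
  rintro ⟨s, hs⟩
  exact hAB s t hs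

theorem mem_rst {i : I} : i ∈ rst sA sB ↔ (∀ s, sA s ≠ i) ∧ ∀ t, sB t ≠ i := by
  unfold rst
  rw [Finset.mem_compl, Finset.mem_union, Finset.mem_map, Finset.mem_map]
  simp only [Finset.mem_univ, true_and, not_or, not_exists, ne_eq]

theorem w3_R (α β : Fin k → ℕ) (γ : I → ℕ) {i : I} (hi : i ∈ rst sA sB) :
    w3 sA sB α β γ i = γ i := by
  rw [mem_rst] at hi
  unfold w3
  rw [Function.extend_apply', Function.extend_apply']
  · rintro ⟨t, ht⟩
    exact hi.2 t ht
  · rintro ⟨s, hs⟩
    exact hi.1 s hs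

theorem cases_I (i : I) : (∃ s, sA s = i) ∨ (∃ t, sB t = i) ∨ i ∈ rst sA sB := by
  rw [mem_rst]
  by_cases h1 : ∃ s, sA s = i
  · exact Or.inl h1
  · by_cases h2 : ∃ t, sB t = i
    · exact Or.inr (Or.inl h2)
    · push Not at h1 h2
      exact Or.inr (Or.inr ⟨h1, h2⟩)

theorem prod_frame {M : Type} [CommMonoid M] (hAB : ∀ s t, sA s ≠ sB t) (f : I → M) :
    ∏ i, f i = (∏ s, f (sA s)) * (∏ t, f (sB t)) * ((rst sA sB).toList.map f).prod := by
  rw [Finset.prod_map_toList]
  unfold rst
  rw [← Finset.prod_mul_prod_compl (Finset.univ.map sA ∪ Finset.univ.map sB) f,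
    Finset.prod_union, Finset.prod_map, Finset.prod_map]
  rw [Finset.disjoint_left]
  intro i h1 h2
  obtain ⟨s, -, rfl⟩ := Finset.mem_map.1 h1
  obtain ⟨t, -, h3⟩ := Finset.mem_map.1 h2
  exact hAB s t h3.symm

theorem VI_smul {p : MvPolynomial (I → ℕ) ℂ} (hp : VI k p) (i0 : I) (c : Fin k → ℂ)
    (v : Fin k → I → ℕ → ℂ) : eval (fun x => ∑ j, c j * ∏ i, v j i (x i)) p = 0 := by
  rw [← hp fun j => Function.update (v j) i0 fun n => c j * v j i0 n]
  congr 2
  funext x
  refine Finset.sum_congr rfl fun j _ => ?_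
  rw [← Finset.mul_prod_erase Finset.univ _ (Finset.mem_univ i0),
    ← Finset.mul_prod_erase Finset.univ _ (Finset.mem_univ i0), Function.update_self, mul_assoc]
  congr 2
  refine Finset.prod_congr rfl fun i hi => ?_
  rw [Function.update_of_ne (Finset.ne_of_mem_erase hi)]

/-- Cutting the labels. -/
def cl (hk : 0 < k) (n : ℕ) : Fin (k + k) := if h : n < k + k then ⟨n, h⟩ else ⟨0, by omega⟩

theorem cl_of_lt (hk : 0 < k) {n : ℕ} (h : n < k + k) : (cl hk n : ℕ) = n := by
  unfold cl
  rw [dif_pos h]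

variable (sA sB)

/-- The words in the chart. -/
noncomputable def cPhi (hk : 0 < k) (sec : I → ℕ → ℕ) :
    MvPolynomial (I → ℕ) ℂ →ₐ[ℂ] LR (CY k) (CV k) :=
  aeval fun w => tau (ca fun s => cl hk (w (sA s))) (cG k)
    (((rst sA sB).toList.map fun i => sec i (w i)).map fun n => cP k n)
    (cb fun t => cl hk (w (sB t)))

variable {sA sB}

theorem cPhi_mem (hAB : ∀ s t, sA s ≠ sB t) (hk : 0 < k) (sec : I → ℕ → ℕ)
    {p : MvPolynomial (I → ℕ) ℂ} (hp : VI k p) : cPhi sA sB hk sec p ∈ CI (CZ k) := by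
  rintro _ ⟨κ, u, w, rfl⟩ lam
  let D := (mU u * diagonal κ * mW w).det ^ ((rst sA sB).toList.length + 1)
  let v : Fin k → I → ℕ → ℂ := fun r => Function.extend sA (fun s e => u r s (cl hk e))
    (Function.extend sB (fun t e => w r t (cl hk e)) fun i e => lam r (sec i e))
  have h1 : (aeval (lpt (cy κ u w) (cB κ u w) lam) : LR (CY k) (CV k) →ₐ[ℂ] ℂ).comp
      (cPhi sA sB hk sec) = aeval fun x => ∑ r, (D * κ r) * ∏ i, v r i (x i) := by
    refine algHom_ext fun x => ?_
    rw [AlgHom.comp_apply]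
    unfold cPhi
    rw [aeval_X, aeval_X, aeval_eq_eval]
    show eval (lpt (cy κ u w) (cB κ u w) lam) _ = _
    rw [eval_tau, List.length_map, Finset.mul_sum]
    refine Finset.sum_congr rfl fun r _ => ?_
    rw [prod_frame hAB]
    have e1 : ∀ s, v r (sA s) = fun e => u r s (cl hk e) := fun s =>
      sA.injective.extend_apply _ _ _
    have e2 : ∀ t, v r (sB t) = fun e => w r t (cl hk e) := by
      intro t
      show Function.extend sA _ _ _ = _
      rw [Function.extend_apply', sB.injective.extend_apply]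
      rintro ⟨s, hs⟩
      exact hAB s t hs
    have e3 : ∀ i ∈ rst sA sB, v r i = fun e => lam r (sec i e) := by
      intro i hi
      rw [mem_rst] at hi
      show Function.extend sA _ _ _ = _
      rw [Function.extend_apply', Function.extend_apply']
      · rintro ⟨t, ht⟩
        exact hi.2 t ht
      · rintro ⟨s, hs⟩
        exact hi.1 s hs
    have e4 : (((rst sA sB).toList.map fun i => sec i (x i)).map fun n => lam r n)
        = (rst sA sB).toList.map fun i => v r i (x i) := by
      rw [List.map_map]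
      refine List.map_congr_left fun i hi => ?_
      rw [Function.comp_apply, e3 i (Finset.mem_toList.1 hi)]
    rw [e4]
    simp only [e1, e2]
    show D * _ = _
    ring
  have h2 := congrArg (fun f => f p) h1
  simp only [AlgHom.comp_apply, aeval_eq_eval] at h2
  refine Eq.trans h2 ?_
  exact VI_smul hp (sA ⟨0, hk⟩) _ _

end frame

end Pentad
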