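import Pool.Agent.H.MP_b77b2b_ag.W6

/-!
# MP_b77b2b_ag, W7: elements of the chart ideal with few labels give equations from groupings
-/

set_option autoImplicit false

namespace Pentad

open MvPolynomial Matrix

section frame

variable {I : Type} [Fintype I] [DecidableEq I] {k : ℕ} (sA sB : Fin k ↪ I)

/-- From the chart to the tensors. -/
noncomputable def cpsi (ε : ℕ → I × ℕ) : LR (CY k) (CV k) →ₐ[ℂ] MvPolynomial (I → ℕ) ℂ :=
  aeval (Sum.elim
    (Sum.elim (fun p => X (w3 sA sB (fun s => (p.1 s : ℕ)) (fun _ => (p.2 : ℕ)) 0))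
      (fun p => X (w3 sA sB (fun _ => (p.2 : ℕ)) (fun t => (p.1 t : ℕ)) 0)))
    (fun p => if (ε p.1).1 ∈ rst sA sB then
      X (w3 sA sB (fun _ => (p.2.1 : ℕ)) (fun _ => (p.2.2 : ℕ))
        (Function.update 0 (ε p.1).1 (ε p.1).2)) else 0))

variable {sA sB}

/-- The values of the block functions at the words of the chart. -/
theorem block_val {m : ℕ} (hAB : ∀ s t, sA s ≠ sB t) {R0 : Finset I} (hR : R0 ⊆ rst sA sB)
    {σ : I → Fin m}
    (hσ : ∀ i ∈ Finset.univ.map sA ∪ Finset.univ.map sB ∪ R0, ∀ i', σ i' = σ i → i' = i)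
    {u : Fin m → (I → ℕ) → ℂ} (hu : ∀ b w w', (∀ i, σ i = b → w i = w' i) → u b w = u b w')
    (α β : Fin k → ℕ) {γ : I → ℕ} (hγ : ∀ i, i ∉ R0 → γ i = 0) :
    ∏ b, u b (w3 sA sB α β γ)
      = (∏ s, u (σ (sA s)) fun _ => α s) * (∏ t, u (σ (sB t)) fun _ => β t)
        * (∏ i ∈ R0, u (σ i) fun _ => γ i)
        * ∏ b ∈ Finset.univ \ (Finset.univ.map sA ∪ Finset.univ.map sB ∪ R0).image σ,
          u b fun _ => 0 := by
  classical
  set E := Finset.univ.map sA ∪ Finset.univ.map sB ∪ R0 with hE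
  have hd1 : Disjoint (Finset.univ.map sA) (Finset.univ.map sB) := by
    rw [Finset.disjoint_left]
    intro i h1 h2
    obtain ⟨s, -, rfl⟩ := Finset.mem_map.1 h1
    obtain ⟨t, -, h3⟩ := Finset.mem_map.1 h2
    exact hAB s t h3.symm
  have hd2 : Disjoint (Finset.univ.map sA ∪ Finset.univ.map sB) R0 := by
    rw [Finset.disjoint_left]
    intro i h1 h2
    have h3 := hR h2
    unfold rst at h3
    exact Finset.mem_compl.1 h3 h1
  have h1 : ∀ i ∈ E, u (σ i) (w3 sA sB α β γ) = u (σ i) fun _ => w3 sA sB α β γ i := by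
    intro i hi
    refine hu _ _ _ fun i' hi' => ?_
    rw [hσ i hi i' hi']
  rw [← Finset.prod_sdiff (Finset.subset_univ (E.image σ)), mul_comm]
  congr 1
  · rw [Finset.prod_image (fun i hi i' hi' h => hσ i' hi' i h), hE, Finset.prod_union hd2,
      Finset.prod_union hd1, Finset.prod_map, Finset.prod_map]
    congr 1
    · congr 1
      · refine Finset.prod_congr rfl fun s _ => ?_
        rw [h1, w3_A]
        rw [hE]
        exact Finset.mem_union_left _ (Finset.mem_union_left _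
          (Finset.mem_map_of_mem _ (Finset.mem_univ s)))
      · refine Finset.prod_congr rfl fun t _ => ?_
        rw [h1, w3_B hAB]
        rw [hE]
        exact Finset.mem_union_left _ (Finset.mem_union_right _
          (Finset.mem_map_of_mem _ (Finset.mem_univ t)))
    · refine Finset.prod_congr rfl fun i hi => ?_
      rw [h1, w3_R _ _ _ (hR hi)]
      rw [hE]
      exact Finset.mem_union_right _ hi
  · refine Finset.prod_congr rfl fun b hb => ?_
    refine hu _ _ _ fun i hi => ?_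
    have h2 : i ∉ E := by
      intro h
      subst hi
      exact (Finset.mem_sdiff.1 hb).2 (Finset.mem_image_of_mem σ h)
    rcases cases_I (sA := sA) (sB := sB) i with ⟨s, rfl⟩ | ⟨t, rfl⟩ | h
    · exact absurd (Finset.mem_union_left _ (Finset.mem_union_left _
        (Finset.mem_map_of_mem _ (Finset.mem_univ s)))) h2
    · exact absurd (Finset.mem_union_left _ (Finset.mem_union_right _
        (Finset.mem_map_of_mem _ (Finset.mem_univ t)))) h2
    · rw [w3_R _ _ _ h]
      exact hγ i fun hi => h2 (Finset.mem_union_right _ hi)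

/-- The generic case. -/
theorem BV_generic {m : ℕ} (hAB : ∀ s t, sA s ≠ sB t) (ε : ℕ → I × ℕ) {R0 : Finset I}
    (hR : R0 ⊆ rst sA sB) {σ : I → Fin m}
    (hσ : ∀ i ∈ Finset.univ.map sA ∪ Finset.univ.map sB ∪ R0, ∀ i', σ i' = σ i → i' = i)
    {u : Fin k → Fin m → (I → ℕ) → ℂ}
    (hu : ∀ j b w w', (∀ i, σ i = b → w i = w' i) → u j b w = u j b w')
    (hne : ∀ j b, u j b (fun _ => 0) ≠ 0)
    {h : LR (CY k) (CV k)} (hh : h ∈ CI (CZ k))
    (hl : ∀ n v, Sum.inr (n, v) ∈ h.vars → (ε n).1 ∈ rst sA sB → (ε n).1 ∈ R0) :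
    eval (fun w => ∑ j, ∏ b, u j b w) (cpsi sA sB ε h) = 0 := by
  classical
  let Ω : Fin k → ℂ := fun j =>
    ∏ b ∈ Finset.univ \ (Finset.univ.map sA ∪ Finset.univ.map sB ∪ R0).image σ,
      u j b fun _ => 0
  let κ : Fin k → ℂ := fun j => (∏ i ∈ R0, u j (σ i) fun _ => 0) * Ω j
  let uu : Fin k → Fin k → ℕ → ℂ := fun j s e => u j (σ (sA s)) fun _ => e
  let ww : Fin k → Fin k → ℕ → ℂ := fun j t e => u j (σ (sB t)) fun _ => e
  let lam : Fin k → ℕ → ℂ := fun j n => if (ε n).1 ∈ R0 then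
    (u j (σ (ε n).1) fun _ => (ε n).2) / (u j (σ (ε n).1) fun _ => 0) else 0
  have hval : ∀ (α β : Fin k → ℕ) (γ : I → ℕ), (∀ i, i ∉ R0 → γ i = 0) →
      ∑ j, ∏ b, u j b (w3 sA sB α β γ)
        = ∑ j, (∏ s, uu j s (α s)) * (∏ t, ww j t (β t)) *
          (∏ i ∈ R0, u j (σ i) fun _ => γ i) * Ω j := by
    intro α β γ hγ
    exact Finset.sum_congr rfl fun j _ => block_val hAB hR hσ (hu j) α β hγ
  have h1 := hh (cy κ uu ww, cB κ uu ww) ⟨κ, uu, ww, rfl⟩ lam
  rw [← h1]
  let T : (I → ℕ) → ℂ := fun w => ∑ j, ∏ b, u j b w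
  refine hom_congr_vars (f₁ := (eval T).comp (cpsi sA sB ε : LR (CY k) (CV k) →+* _))
    (f₂ := eval (lpt (cy κ uu ww) (cB κ uu ww) lam)) (p₁ := h) (p₂ := h) ?_ ?_ rfl
  · refine RingHom.ext fun c => ?_
    rw [RingHom.comp_apply, RingHom.comp_apply, RingHom.comp_apply, eval_C]
    show eval T (cpsi sA sB ε (C c)) = c
    have e1 : cpsi sA sB ε (C c) = C c := by
      rw [← algebraMap_eq, ← algebraMap_eq, AlgHom.commutes]
    rw [e1, eval_C]
  · intro x hx _
    rw [RingHom.comp_apply, eval_X]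
    show eval T (cpsi sA sB ε (X x)) = _
    unfold cpsi
    rw [aeval_X]
    rcases x with (⟨α, j⟩ | ⟨β, q⟩) | ⟨n, q, j⟩
    · simp only [Sum.elim_inl]
      rw [eval_X]
      show ∑ j, ∏ b, u j b _ = ∑ r, κ r * (∏ s, uu r s (α s)) * ∏ t, ww r t j
      rw [hval _ _ 0 fun _ _ => rfl]
      refine Finset.sum_congr rfl fun r _ => ?_
      show _ * (∏ i ∈ R0, u r (σ i) fun _ => 0) * Ω r
        = ((∏ i ∈ R0, u r (σ i) fun _ => 0) * Ω r) * _ * _
      ring
    · simp only [Sum.elim_inl, Sum.elim_inr]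
      rw [eval_X]
      show ∑ j, ∏ b, u j b _ = ∑ r, κ r * (∏ s, uu r s q) * ∏ t, ww r t (β t)
      rw [hval _ _ 0 fun _ _ => rfl]
      refine Finset.sum_congr rfl fun r _ => ?_
      show _ * (∏ i ∈ R0, u r (σ i) fun _ => 0) * Ω r
        = ((∏ i ∈ R0, u r (σ i) fun _ => 0) * Ω r) * _ * _
      ring
    · simp only [Sum.elim_inr]
      show _ = ∑ r, lam r n * (κ r * (∏ s, uu r s q) * ∏ t, ww r t j)
      by_cases hn : (ε n).1 ∈ rst sA sB
      · have hn2 := hl n (q, j) hx hn
        rw [if_pos hn, eval_X]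
        show ∑ j, ∏ b, u j b _ = _
        rw [hval]
        · refine Finset.sum_congr rfl fun r _ => ?_
          show _ * _ * _ * Ω r = lam r n * (((∏ i ∈ R0, u r (σ i) fun _ => 0) * Ω r) * _ * _)
          have e1 : ∏ i ∈ R0, (u r (σ i) fun _ =>
              (Function.update (0 : I → ℕ) (ε n).1 (ε n).2) i)
              = (u r (σ (ε n).1) fun _ => (ε n).2) *
                ∏ i ∈ R0.erase (ε n).1, u r (σ i) fun _ => 0 := by
            rw [← Finset.mul_prod_erase R0 _ hn2]
            congr 1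
            · congr 1
              funext _
              rw [Function.update_self]
            · refine Finset.prod_congr rfl fun i hi => ?_
              congr 1
              funext _
              rw [Function.update_of_ne (Finset.ne_of_mem_erase hi)]
              rfl
          have e2 : lam r n = (u r (σ (ε n).1) fun _ => (ε n).2) / (u r (σ (ε n).1) fun _ => 0) :=
            if_pos hn2
          rw [e1, e2, ← Finset.mul_prod_erase R0 (fun i => u r (σ i) fun _ => 0) hn2]
          have e3 := hne r (σ (ε n).1)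
          field_simp
        · intro i hi
          rw [Function.update_of_ne]
          · rfl
          · rintro rfl
            exact hi hn2
      · rw [if_neg hn, map_zero]
        symm
        refine Finset.sum_eq_zero fun r _ => ?_
        have e2 : lam r n = 0 := if_neg fun h => hn (hR h)
        rw [e2, zero_mul]

/-- The general case. -/
theorem BV_few {m : ℕ} (hAB : ∀ s t, sA s ≠ sB t) (ε : ℕ → I × ℕ) {R0 : Finset I}
    (hR : R0 ⊆ rst sA sB) {σ : I → Fin m}
    (hσ : ∀ i ∈ Finset.univ.map sA ∪ Finset.univ.map sB ∪ R0, ∀ i', σ i' = σ i → i' = i)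
    {h : LR (CY k) (CV k)} (hh : h ∈ CI (CZ k))
    (hl : ∀ n v, Sum.inr (n, v) ∈ h.vars → (ε n).1 ∈ rst sA sB → (ε n).1 ∈ R0) :
    BV k σ (cpsi sA sB ε h) := by
  classical
  intro u hu
  let F : Polynomial ℂ := aeval (fun w => ∑ j, ∏ b, (Polynomial.C (u j b w) + Polynomial.X))
    (cpsi sA sB ε h)
  have hF : ∀ t : ℂ, F.eval t = eval (fun w => ∑ j, ∏ b, (u j b w + t)) (cpsi sA sB ε h) := by
    intro t
    have e1 : (Polynomial.aeval t : Polynomial ℂ →ₐ[ℂ] ℂ).comp
        (aeval (fun w => ∑ j, ∏ b, (Polynomial.C (u j b w) + Polynomial.X)) :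
          MvPolynomial (I → ℕ) ℂ →ₐ[ℂ] Polynomial ℂ)
        = aeval (fun w => ∑ j, ∏ b, (u j b w + t)) := by
      refine algHom_ext fun w => ?_
      rw [AlgHom.comp_apply, aeval_X, aeval_X, map_sum]
      refine Finset.sum_congr rfl fun j _ => ?_
      rw [map_prod]
      refine Finset.prod_congr rfl fun b _ => ?_
      rw [map_add, Polynomial.aeval_C, Polynomial.aeval_X]
      rfl
    have e2 := congrArg (fun f => f (cpsi sA sB ε h)) e1
    simp only [AlgHom.comp_apply, aeval_eq_eval, Polynomial.coe_aeval_eq_eval] at e2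
    exact e2
  let S : Set ℂ := Set.range fun p : Fin k × Fin m => -(u p.1 p.2 fun _ => 0)
  have hS : S.Finite := Set.finite_range _
  have hF0 : F = 0 := by
    refine Polynomial.eq_zero_of_infinite_isRoot F (hS.infinite_compl.mono ?_)
    intro t ht
    show F.eval t = 0
    rw [hF]
    refine BV_generic (u := fun j b w => u j b w + t) hAB ε hR hσ ?_ ?_ hh hl
    · intro j b w w' hw
      show u j b w + t = u j b w' + t
      rw [hu j b w w' hw]
    · intro j b h0
      refine ht ⟨(j, b), ?_⟩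
      exact (eq_neg_of_add_eq_zero_right h0).symm
  have h2 := hF 0
  rw [hF0, Polynomial.eval_zero] at h2
  simp only [add_zero] at h2
  exact h2.symm

omit [Fintype I] in
theorem exists_sigma {m : ℕ} (E : Finset I) (hE : E.card < m) :
    ∃ σ : I → Fin m, ∀ i ∈ E, ∀ i', σ i' = σ i → i' = i := by
  refine ⟨fun i => if h : i ∈ E then ⟨E.equivFin ⟨i, h⟩, lt_trans (Fin.is_lt _) hE⟩
    else ⟨E.card, hE⟩, ?_⟩
  intro i hi i' h
  simp only [dif_pos hi] at h
  by_cases hi' : i' ∈ E
  · rw [dif_pos hi'] at h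
    have h2 := congrArg Fin.val h
    simp only at h2
    have h3 := E.equivFin.injective (Fin.ext h2)
    exact congrArg Subtype.val h3
  · rw [dif_neg hi'] at h
    have h2 := congrArg Fin.val h
    simp only at h2
    have h3 := (E.equivFin ⟨i, hi⟩).2
    omega

/-- The image of the chart ideal. -/
theorem cpsi_mem {m D0 : ℕ} (hAB : ∀ s t, sA s ≠ sB t) (ε : ℕ → I × ℕ)
    (hD : CI (CZ k) ≤ Ideal.span {h | h ∈ CI (CZ k) ∧
      ∃ N : Finset ℕ, N.card ≤ D0 ∧ ∀ n v, Sum.inr (n, v) ∈ h.vars → n ∈ N})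
    (hm : k + k + D0 < m) {h : LR (CY k) (CV k)} (hh : h ∈ CI (CZ k)) :
    cpsi sA sB ε h ∈ FI k m fun _ : I => ℕ := by
  classical
  have h1 : Ideal.span {h | h ∈ CI (CZ k) ∧
      ∃ N : Finset ℕ, N.card ≤ D0 ∧ ∀ n v, Sum.inr (n, v) ∈ h.vars → n ∈ N}
      ≤ (FI k m fun _ : I => ℕ).comap (cpsi sA sB ε) := by
    refine Ideal.span_le.2 ?_
    rintro h ⟨hh, N, hN, hv⟩
    let R0 : Finset I := (N.image fun n => (ε n).1) ∩ rst sA sB
    have hR0 : R0.card ≤ D0 :=
      (Finset.card_le_card Finset.inter_subset_left).trans (Finset.card_image_le.trans hN)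
    obtain ⟨σ, hσ⟩ := exists_sigma (m := m) (Finset.univ.map sA ∪ Finset.univ.map sB ∪ R0) (by
      refine lt_of_le_of_lt (Finset.card_union_le _ _) ?_
      have e1 := Finset.card_union_le (Finset.univ.map sA) (Finset.univ.map sB)
      rw [Finset.card_map, Finset.card_map, Finset.card_univ, Fintype.card_fin] at e1
      omega)
    refine Ideal.subset_span ⟨σ, BV_few hAB ε Finset.inter_subset_right hσ hh ?_⟩
    intro n v hn hn2
    exact Finset.mem_inter.2 ⟨Finset.mem_image.2 ⟨n, hv n v hn, rfl⟩, hn2⟩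
  exact h1 (hD hh)

end frame

end Pentad
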