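import Pool.Agent.H.MP_b77b2b_ag.W7

/-!
# MP_b77b2b_ag, W8: reconstruction from the chart
-/

set_option autoImplicit false

namespace Pentad

open MvPolynomial Matrix

section sat

variable {R : Type} [CommRing R]

/-- The saturation of an ideal. -/
def satI (g : R) (F : Ideal R) : Ideal R where
  carrier := {f | ∃ M : ℕ, g ^ M * f ∈ F}
  add_mem' := by
    rintro a b ⟨M, hM⟩ ⟨N, hN⟩
    refine ⟨M + N, ?_⟩
    have h1 : g ^ (M + N) * (a + b) = g ^ N * (g ^ M * a) + g ^ M * (g ^ N * b) := by ring
    rw [h1]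
    exact Ideal.add_mem _ (Ideal.mul_mem_left _ _ hM) (Ideal.mul_mem_left _ _ hN)
  zero_mem' := ⟨0, by rw [mul_zero]; exact Ideal.zero_mem _⟩
  smul_mem' := by
    rintro c a ⟨M, hM⟩
    refine ⟨M, ?_⟩
    rw [smul_eq_mul, mul_left_comm]
    exact Ideal.mul_mem_left _ _ hM

theorem mem_satI {g : R} {F : Ideal R} {f : R} : f ∈ satI g F ↔ ∃ M : ℕ, g ^ M * f ∈ F := Iff.rfl

theorem le_satI (g : R) (F : Ideal R) : F ≤ satI g F := fun f hf => ⟨0, by
  rwa [pow_zero, one_mul]⟩

theorem of_mul_mem_satI {g : R} {F : Ideal R} {f : R} (h : g * f ∈ satI g F) : f ∈ satI g F := by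
  obtain ⟨M, hM⟩ := h
  refine ⟨M + 1, ?_⟩
  rw [pow_succ, mul_assoc]
  exact hM

end sat

theorem aeval_mul_hom {σ R : Type} [CommRing R] [Algebra ℂ R] {p : MvPolynomial σ ℂ} {e : ℕ}
    (hp : p.IsHomogeneous e) (c : R) (f : σ → R) :
    aeval (fun x => c * f x) p = c ^ e * aeval f p := by
  rw [aeval_def, aeval_def, eval₂_eq, eval₂_eq, Finset.mul_sum]
  refine Finset.sum_congr rfl fun s hs => ?_
  have h1 : ∑ i ∈ s.support, s i = e := by
    have h2 := hp (mem_support_iff.1 hs)
    rw [Finsupp.weight_apply] at h2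
    simpa [Finsupp.sum] using h2
  simp only [mul_pow]
  rw [Finset.prod_mul_distrib, Finset.prod_pow_eq_pow_sum, h1]
  ring

section

variable {I : Type} [Fintype I] [DecidableEq I] {k : ℕ}

theorem VI_comp {p : MvPolynomial (I → ℕ) ℂ} (hp : VI k p) (i0 : I) (e : ℕ) :
    VI k (homogeneousComponent e p) := by
  intro v
  let T : (I → ℕ) → ℂ := fun x => ∑ j, ∏ i, v j i (x i)
  let F : Polynomial ℂ := ∑ e ∈ Finset.range (p.totalDegree + 1),
    Polynomial.C (eval T (homogeneousComponent e p)) * Polynomial.X ^ e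
  have hF : F = 0 := by
    refine Polynomial.funext fun t => ?_
    rw [Polynomial.eval_zero, Polynomial.eval_finsetSum]
    have h1 := VI_smul hp i0 (fun _ => t) v
    have h2 : (fun x : I → ℕ => ∑ j : Fin k, t * ∏ i, v j i (x i)) = fun x => t * T x := by
      funext x
      rw [← Finset.mul_sum]
    rw [h2] at h1
    have h3 : ∀ e, eval (fun x => t * T x) (homogeneousComponent e p)
        = t ^ e * eval T (homogeneousComponent e p) := by
      intro e
      have h4 := aeval_mul_hom (homogeneousComponent_isHomogeneous e p) t T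
      simp only [aeval_eq_eval] at h4
      exact h4
    rw [← h1]
    conv_rhs => rw [← sum_homogeneousComponent p, map_sum]
    refine Finset.sum_congr rfl fun e _ => ?_
    rw [h3, Polynomial.eval_mul, Polynomial.eval_C, Polynomial.eval_pow, Polynomial.eval_X, mul_comm]
  by_cases he : e ≤ p.totalDegree
  · have h1 : F.coeff e = eval T (homogeneousComponent e p) := by
      rw [Polynomial.finsetSum_coeff, Finset.sum_eq_single e]
      · rw [Polynomial.coeff_C_mul_X_pow, if_pos rfl]
      · intro e' _ hne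
        rw [Polynomial.coeff_C_mul_X_pow, if_neg hne.symm]
      · intro h
        exact absurd (Finset.mem_range.2 (by omega)) h
    show eval T _ = 0
    rw [← h1, hF, Polynomial.coeff_zero]
  · rw [homogeneousComponent_eq_zero _ _ (by omega), map_zero]

end

end Pentad
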