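import Pool.Agent.H.MP_b77b2b_ag.W8

/-!
# MP_b77b2b_ag, W9: polynomials with bounded labels are in the saturation
-/

set_option autoImplicit false

namespace Pentad

open MvPolynomial Matrix

section frame

variable {I : Type} [Fintype I] [DecidableEq I] {k : ℕ} (sA sB : Fin k ↪ I)

/-- The matrix of base words. -/
noncomputable def wG : Matrix (Fin k) (Fin k) (MvPolynomial (I → ℕ) ℂ) :=
  Matrix.of fun q j => X (w3 sA sB (fun _ => (q : ℕ)) (fun _ => (j : ℕ)) 0)

/-- The matrix of words with one letter changed. -/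
noncomputable def wP (i : I) (e : ℕ) : Matrix (Fin k) (Fin k) (MvPolynomial (I → ℕ) ℂ) :=
  Matrix.of fun q j => X (w3 sA sB (fun _ => (q : ℕ)) (fun _ => (j : ℕ)) (Function.update 0 i e))

variable {sA sB}

theorem w3_congr (hAB : ∀ s t, sA s ≠ sB t) {α β : Fin k → ℕ} {γ x : I → ℕ}
    (h1 : ∀ s, x (sA s) = α s) (h2 : ∀ t, x (sB t) = β t) (h3 : ∀ i ∈ rst sA sB, x i = γ i) :
    x = w3 sA sB α β γ := by
  funext i
  rcases cases_I (sA := sA) (sB := sB) i with ⟨s, rfl⟩ | ⟨t, rfl⟩ | h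
  · rw [h1, w3_A]
  · rw [h2, w3_B hAB]
  · rw [h3 i h, w3_R _ _ _ h]

theorem schur_step {m : ℕ} (hm : 2 ≤ m) (hAB : ∀ s t, sA s ≠ sB t) {Q : Type} [CommRing Q]
    (π : MvPolynomial (I → ℕ) ℂ →+* Q) (hπ : ∀ p ∈ FI k m fun _ : I => ℕ, π p = 0)
    (hreg : ∀ x, ((wG sA sB).map π).det * x = 0 → x = 0) (W : Finset I)
    (hWA : ∀ s, sA s ∈ W) (hWB : ∀ t, sB t ∉ W) (w : I → ℕ) :
    ((wG sA sB).map π).det * π (X w)
      = ((fun j : Fin k => π (X (mix W w (w3 sA sB 0 (fun _ => (j : ℕ)) 0))))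
          ᵥ* ((wG sA sB).map π).adjugate)
        ⬝ᵥ (fun q : Fin k => π (X (mix W (w3 sA sB (fun _ => (q : ℕ)) 0 0) w))) := by
  let x : Fin (k + 1) → I → ℕ := Fin.cons w fun q : Fin k => w3 sA sB (fun _ => (q : ℕ)) 0 0
  let y : Fin (k + 1) → I → ℕ := Fin.cons w fun j : Fin k => w3 sA sB 0 (fun _ => (j : ℕ)) 0
  let M : Matrix (Fin (k + 1)) (Fin (k + 1)) Q := Matrix.of fun s t => π (X (mix W (x s) (y t)))
  have hM : M.det = 0 := by
    rw [← hπ _ (minor_mem_FI (D := fun _ : I => ℕ) hm W x y), RingHom.map_det]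
    rfl
  have hG : M.submatrix Fin.succ Fin.succ = (wG sA sB).map π := by
    ext q j
    rw [Matrix.submatrix_apply, Matrix.map_apply]
    show π (X (mix W (w3 sA sB (fun _ => (q : ℕ)) 0 0) (w3 sA sB 0 (fun _ => (j : ℕ)) 0)))
      = π (X (w3 sA sB (fun _ => (q : ℕ)) (fun _ => (j : ℕ)) 0))
    congr 2
    refine w3_congr hAB (fun s => ?_) (fun t => ?_) fun i hi => ?_
    · rw [mix_of_mem (hWA s), w3_A]
    · rw [mix_of_not (hWB t), w3_B hAB]
    · unfold mix
      rw [w3_R _ _ _ hi, w3_R _ _ _ hi, ite_self]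
  have h1 := schurR M hM (by rwa [hG])
  rw [hG] at h1
  have h2 : M 0 0 = π (X w) := by
    show π (X (mix W w w)) = _
    congr 2
    funext i
    unfold mix
    rw [ite_self]
  rw [h2] at h1
  exact h1

theorem step_one {m : ℕ} (hm : 2 ≤ m) (hAB : ∀ s t, sA s ≠ sB t) {Q : Type} [CommRing Q]
    (π : MvPolynomial (I → ℕ) ℂ →+* Q) (hπ : ∀ p ∈ FI k m fun _ : I => ℕ, π p = 0)
    (hreg : ∀ x, ((wG sA sB).map π).det * x = 0 → x = 0) (W : Finset I)
    (hWA : ∀ s, sA s ∈ W) (hWB : ∀ t, sB t ∉ W) (w : I → ℕ) {i : I} (hi : i ∈ rst sA sB)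
    (hiW : i ∉ W) :
    (fun j : Fin k => π (X (mix W w (w3 sA sB 0 (fun _ => (j : ℕ)) 0))))
        ᵥ* (((wG sA sB).map π).adjugate * (wP sA sB i (w i)).map π)
      = ((wG sA sB).map π).det •
        fun j : Fin k => π (X (mix (insert i W) w (w3 sA sB 0 (fun _ => (j : ℕ)) 0))) := by
  funext j
  rw [Pi.smul_apply, smul_eq_mul, schur_step hm hAB π hπ hreg W hWA hWB, ← Matrix.vecMul_vecMul]
  have hi2 := mem_rst.1 hi
  have h1 : ∀ j' : Fin k, mix W (mix (insert i W) w (w3 sA sB 0 (fun _ => (j : ℕ)) 0))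
      (w3 sA sB 0 (fun _ => (j' : ℕ)) 0) = mix W w (w3 sA sB 0 (fun _ => (j' : ℕ)) 0) := by
    intro j'
    funext i'
    by_cases h : i' ∈ W
    · rw [mix_of_mem h, mix_of_mem h, mix_of_mem (Finset.mem_insert_of_mem h)]
    · rw [mix_of_not h, mix_of_not h]
  have h2 : ∀ q : Fin k, mix W (w3 sA sB (fun _ => (q : ℕ)) 0 0)
      (mix (insert i W) w (w3 sA sB 0 (fun _ => (j : ℕ)) 0))
      = w3 sA sB (fun _ => (q : ℕ)) (fun _ => (j : ℕ)) (Function.update 0 i (w i)) := by
    intro q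
    refine w3_congr hAB (fun s => ?_) (fun t => ?_) fun i' hi' => ?_
    · rw [mix_of_mem (hWA s), w3_A]
    · have h3 : sB t ∉ insert i W := by
        rw [Finset.mem_insert, not_or]
        exact ⟨hi2.2 t, hWB t⟩
      rw [mix_of_not (hWB t), mix_of_not h3, w3_B hAB]
    · by_cases h : i' ∈ W
      · rw [mix_of_mem h, w3_R _ _ _ hi', Function.update_of_ne]
        rintro rfl
        exact hiW h
      · rw [mix_of_not h]
        by_cases h3 : i' = i
        · subst h3
          rw [mix_of_mem (Finset.mem_insert_self _ _), Function.update_self]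
        · have h4 : i' ∉ insert i W := by
            rw [Finset.mem_insert, not_or]
            exact ⟨h3, h⟩
          rw [mix_of_not h4, w3_R _ _ _ hi', Function.update_of_ne h3]
  simp only [h1, h2]
  rfl

theorem step_list {m : ℕ} (hm : 2 ≤ m) (hAB : ∀ s t, sA s ≠ sB t) {Q : Type} [CommRing Q]
    (π : MvPolynomial (I → ℕ) ℂ →+* Q) (hπ : ∀ p ∈ FI k m fun _ : I => ℕ, π p = 0)
    (hreg : ∀ x, ((wG sA sB).map π).det * x = 0 → x = 0) (w : I → ℕ) (l : List I) :
    ∀ W : Finset I, (∀ s, sA s ∈ W) → (∀ t, sB t ∉ W) → l.Nodup →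
      (∀ i ∈ l, i ∈ rst sA sB ∧ i ∉ W) →
    (fun j : Fin k => π (X (mix W w (w3 sA sB 0 (fun _ => (j : ℕ)) 0))))
        ᵥ* (l.map fun i => ((wG sA sB).map π).adjugate * (wP sA sB i (w i)).map π).prod
      = ((wG sA sB).map π).det ^ l.length •
        fun j : Fin k => π (X (mix (W ∪ l.toFinset) w (w3 sA sB 0 (fun _ => (j : ℕ)) 0))) := by
  induction l with
  | nil =>
    intro W _ _ _ _
    rw [List.map_nil, List.prod_nil, Matrix.vecMul_one, List.length_nil, pow_zero, one_smul,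
      List.toFinset_nil, Finset.union_empty]
  | cons i l ih =>
    intro W hWA hWB hnd hl
    rw [List.nodup_cons] at hnd
    have h1 := hl i List.mem_cons_self
    have hi2 := mem_rst.1 h1.1
    rw [List.map_cons, List.prod_cons, ← Matrix.vecMul_vecMul,
      step_one hm hAB π hπ hreg W hWA hWB w h1.1 h1.2, Matrix.smul_vecMul,
      ih (insert i W) (fun s => Finset.mem_insert_of_mem (hWA s)) ?_ hnd.2 ?_, smul_smul,
      ← pow_succ', List.length_cons, List.toFinset_cons, Finset.union_insert, Finset.insert_union]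
    · intro t
      rw [Finset.mem_insert, not_or]
      exact ⟨hi2.2 t, hWB t⟩
    · intro i' hi'
      have h2 := hl i' (List.mem_cons_of_mem _ hi')
      refine ⟨h2.1, ?_⟩
      rw [Finset.mem_insert, not_or]
      refine ⟨?_, h2.2⟩
      rintro rfl
      exact hnd.1 hi'

/-- Reconstruction of the words from the chart. -/
theorem cpsi_cPhi_X {m : ℕ} (hm : 2 ≤ m) (hAB : ∀ s t, sA s ≠ sB t) (hk : 0 < k)
    {ε : ℕ → I × ℕ} {sec : I → ℕ → ℕ} (hsec : ∀ i e, ε (sec i e) = (i, e)) {Q : Type} [CommRing Q]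
    (π : MvPolynomial (I → ℕ) ℂ →+* Q) (hπ : ∀ p ∈ FI k m fun _ : I => ℕ, π p = 0)
    (hreg : ∀ x, ((wG sA sB).map π).det * x = 0 → x = 0) {w : I → ℕ}
    (hw : ∀ i, w i < k + k) :
    π (cpsi sA sB ε (cPhi sA sB hk sec (X w)))
      = ((wG sA sB).map π).det ^ ((rst sA sB).card + 1) * π (X w) := by
  classical
  let φ : LR (CY k) (CV k) →+* Q :=
    π.comp (cpsi sA sB ε : LR (CY k) (CV k) →+* MvPolynomial (I → ℕ) ℂ)
  have hφ : ∀ x, φ x = π (cpsi sA sB ε x) := fun _ => rfl
  have e0 : cPhi sA sB hk sec (X w) = tau (ca fun s => cl hk (w (sA s))) (cG k)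
    (((rst sA sB).toList.map fun i => sec i (w i)).map fun n => cP k n)
    (cb fun t => cl hk (w (sB t))) := by
    unfold cPhi
    rw [aeval_X]
  have e1 : (cG k).map φ = (wG sA sB).map π := by
    ext q j
    rw [Matrix.map_apply, Matrix.map_apply, hφ]
    unfold cG wG cpsi
    rw [Matrix.of_apply, Matrix.of_apply, aeval_X]
    rfl
  have e2 : ∀ i ∈ rst sA sB, (cP k (sec i (w i))).map φ = (wP sA sB i (w i)).map π := by
    intro i hi
    ext q j
    rw [Matrix.map_apply, Matrix.map_apply, hφ]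
    unfold cP wP cpsi
    rw [Matrix.of_apply, Matrix.of_apply, aeval_X, Sum.elim_inr]
    simp only [hsec]
    rw [if_pos hi]
  let A : Finset I := Finset.univ.map sA
  let B : Finset I := Finset.univ.map sB
  have hA1 : ∀ s, sA s ∈ A := fun s => Finset.mem_map_of_mem _ (Finset.mem_univ s)
  have hA2 : ∀ t, sB t ∉ A := by
    intro t h
    obtain ⟨s, -, h3⟩ := Finset.mem_map.1 h
    exact hAB s t h3
  have hA3 : ∀ i ∈ rst sA sB, i ∉ A := by
    intro i hi h
    obtain ⟨s, -, h3⟩ := Finset.mem_map.1 h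
    exact (mem_rst.1 hi).1 s h3
  have hW : A ∪ (rst sA sB).toList.toFinset = Bᶜ := by
    rw [Finset.toList_toFinset]
    ext i
    rw [Finset.mem_union, Finset.mem_compl]
    constructor
    · rintro (h | h)
      · obtain ⟨s, -, rfl⟩ := Finset.mem_map.1 h
        intro h2
        obtain ⟨t, -, h3⟩ := Finset.mem_map.1 h2
        exact hAB s t h3.symm
      · intro h2
        obtain ⟨t, -, h3⟩ := Finset.mem_map.1 h2
        exact (mem_rst.1 h).2 t h3
    · intro h
      rcases cases_I (sA := sA) (sB := sB) i with ⟨s, rfl⟩ | ⟨t, rfl⟩ | h2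
      · exact Or.inl (hA1 s)
      · exact absurd (Finset.mem_map_of_mem _ (Finset.mem_univ t)) h
      · exact Or.inr h2
  have e3 : φ ∘ ca (fun s => cl hk (w (sA s)))
      = fun j : Fin k => π (X (mix A w (w3 sA sB 0 (fun _ => (j : ℕ)) 0))) := by
    funext j
    rw [Function.comp_apply, hφ]
    unfold ca cpsi
    rw [aeval_X]
    show π (X (w3 sA sB (fun s => ((cl hk (w (sA s)) : Fin (k + k)) : ℕ)) (fun _ => (j : ℕ)) 0)) = _
    congr 2
    symm
    refine w3_congr hAB (fun s => ?_) (fun t => ?_) fun i hi => ?_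
    · rw [mix_of_mem (hA1 s), cl_of_lt hk (hw _)]
    · rw [mix_of_not (hA2 t), w3_B hAB]
    · rw [mix_of_not (hA3 i hi), w3_R _ _ _ hi]
  have e4 : φ ∘ cb (fun t => cl hk (w (sB t)))
      = fun q : Fin k => π (X (mix Bᶜ (w3 sA sB (fun _ => (q : ℕ)) 0 0) w)) := by
    funext q
    rw [Function.comp_apply, hφ]
    unfold cb cpsi
    rw [aeval_X]
    show π (X (w3 sA sB (fun _ => (q : ℕ)) (fun t => ((cl hk (w (sB t)) : Fin (k + k)) : ℕ)) 0)) = _
    congr 2
    symm
    have hB1 : ∀ t, sB t ∉ Bᶜ := fun t h =>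
      Finset.mem_compl.1 h (Finset.mem_map_of_mem _ (Finset.mem_univ t))
    refine w3_congr hAB (fun s => ?_) (fun t => ?_) fun i hi => ?_
    · rw [mix_of_mem (by rw [← hW]; exact Finset.mem_union_left _ (hA1 s)), w3_A]
    · rw [mix_of_not (hB1 t), cl_of_lt hk (hw _)]
    · rw [mix_of_mem, w3_R _ _ _ hi]
      rw [← hW, Finset.toList_toFinset]
      exact Finset.mem_union_right _ hi
  rw [e0, ← hφ, map_tau, e1, e3, e4]
  unfold tau
  have e5 : (((((rst sA sB).toList.map fun i => sec i (w i)).map fun n => cP k n).map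
      fun P => P.map φ).map fun P => ((wG sA sB).map π).adjugate * P)
      = (rst sA sB).toList.map
        fun i => ((wG sA sB).map π).adjugate * (wP sA sB i (w i)).map π := by
    simp only [List.map_map]
    refine List.map_congr_left fun i hi => ?_
    simp only [Function.comp_apply]
    rw [e2 i (Finset.mem_toList.1 hi)]
  rw [e5, step_list hm hAB π hπ hreg w _ A hA1 hA2 (Finset.nodup_toList _) ?_, hW,
    Matrix.smul_vecMul, smul_dotProduct, ← schur_step hm hAB π hπ hreg Bᶜ ?_ ?_ w, smul_eq_mul,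
    Finset.length_toList]
  · ring
  · intro s
    rw [← hW]
    exact Finset.mem_union_left _ (hA1 s)
  · intro t h
    exact Finset.mem_compl.1 h (Finset.mem_map_of_mem _ (Finset.mem_univ t))
  · intro i hi
    have h := Finset.mem_toList.1 hi
    exact ⟨h, hA3 i h⟩

/-- Polynomials with bounded labels are in the saturation. -/
theorem bounded_mem {m D0 : ℕ} (hAB : ∀ s t, sA s ≠ sB t) (hk : 0 < k)
    (hD : CI (CZ k) ≤ Ideal.span {h | h ∈ CI (CZ k) ∧
      ∃ N : Finset ℕ, N.card ≤ D0 ∧ ∀ n v, Sum.inr (n, v) ∈ h.vars → n ∈ N})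
    (hm : k + k + D0 < m) {p : MvPolynomial (I → ℕ) ℂ} (hp : VI k p)
    (hl : ∀ x ∈ p.vars, ∀ i, x i < k + k) :
    ∃ M : ℕ, (wG sA sB).det ^ M * p ∈ FI k m fun _ : I => ℕ := by
  classical
  have i0 : I := sA ⟨0, hk⟩
  obtain ⟨ε, hε⟩ : ∃ ε : ℕ → I × ℕ, Function.Surjective ε := by
    have : Nonempty (I × ℕ) := ⟨(i0, 0)⟩
    exact exists_surjective_nat _
  let sec : I → ℕ → ℕ := fun i e => Function.surjInv hε (i, e)
  have hsec : ∀ i e, ε (sec i e) = (i, e) := fun i e => Function.surjInv_eq hε (i, e)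
  let J := satI (wG sA sB).det (FI k m fun _ : I => ℕ)
  suffices hsuff : p ∈ J from hsuff
  have hJ : ∀ q ∈ FI k m fun _ : I => ℕ, Ideal.Quotient.mk J q = 0 := fun q hq =>
    Ideal.Quotient.eq_zero_iff_mem.2 (le_satI _ _ hq)
  have hdet : ((wG sA sB).map (Ideal.Quotient.mk J)).det = Ideal.Quotient.mk J (wG sA sB).det := by
    rw [RingHom.map_det]
    rfl
  have hreg : ∀ x, ((wG sA sB).map (Ideal.Quotient.mk J)).det * x = 0 → x = 0 := by
    intro x
    obtain ⟨f, rfl⟩ := Ideal.Quotient.mk_surjective x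
    rw [hdet, ← map_mul, Ideal.Quotient.eq_zero_iff_mem, Ideal.Quotient.eq_zero_iff_mem]
    exact of_mul_mem_satI
  have hm2 : 2 ≤ m := by omega
  have hcomp : ∀ e, homogeneousComponent e p ∈ J := by
    intro e
    set pe := homogeneousComponent e p with hpe
    have h1 : VI k pe := VI_comp hp i0 e
    have h2 : pe.IsHomogeneous e := homogeneousComponent_isHomogeneous e p
    have h3 : ∀ x ∈ pe.vars, ∀ i, x i < k + k := by
      intro x hx
      refine hl x ?_
      rw [mem_vars_iff_mem_support] at hx ⊢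
      obtain ⟨s, hs, hs2⟩ := hx
      refine ⟨s, ?_, hs2⟩
      rw [mem_support_iff] at hs ⊢
      rw [hpe, coeff_homogeneousComponent] at hs
      by_contra h0
      rw [h0, ite_self] at hs
      exact hs rfl
    have h4 : cpsi sA sB ε (cPhi sA sB hk sec pe) ∈ FI k m fun _ : I => ℕ :=
      cpsi_mem hAB ε hD hm (cPhi_mem hAB hk sec h1)
    let g1 := (wG sA sB).det ^ ((rst sA sB).card + 1)
    have h5 : Ideal.Quotient.mk J (cpsi sA sB ε (cPhi sA sB hk sec pe))
        = Ideal.Quotient.mk J (aeval (fun x => g1 * X x) pe) := by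
      refine hom_congr_vars (f₁ := (Ideal.Quotient.mk J).comp
          (((cpsi sA sB ε).comp (cPhi sA sB hk sec) : MvPolynomial (I → ℕ) ℂ →ₐ[ℂ] _) :
            MvPolynomial (I → ℕ) ℂ →+* MvPolynomial (I → ℕ) ℂ))
        (f₂ := (Ideal.Quotient.mk J).comp
          ((aeval (fun x => g1 * X x) : MvPolynomial (I → ℕ) ℂ →ₐ[ℂ] _) :
            MvPolynomial (I → ℕ) ℂ →+* MvPolynomial (I → ℕ) ℂ)) (p₁ := pe) (p₂ := pe) ?_ ?_ rfl
      · refine RingHom.ext fun c => ?_
        simp only [RingHom.comp_apply]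
        congr 1
        have e1 : ∀ f : MvPolynomial (I → ℕ) ℂ →ₐ[ℂ] MvPolynomial (I → ℕ) ℂ, f (C c) = C c := by
          intro f
          rw [← algebraMap_eq, AlgHom.commutes]
        exact (e1 ((cpsi sA sB ε).comp (cPhi sA sB hk sec))).trans
          (e1 (aeval fun x => g1 * X x)).symm
      · intro x hx _
        simp only [RingHom.comp_apply]
        have e1 := cpsi_cPhi_X hm2 hAB hk hsec (Ideal.Quotient.mk J) hJ hreg (h3 x hx)
        refine Eq.trans e1 ?_
        rw [hdet]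
        show _ = Ideal.Quotient.mk J (aeval (fun x => g1 * X x) (X x))
        rw [aeval_X, map_mul, map_pow]
    rw [hJ _ h4, aeval_mul_hom h2, aeval_X_left_apply, eq_comm, Ideal.Quotient.eq_zero_iff_mem,
      ← pow_mul] at h5
    obtain ⟨M, hM⟩ := h5
    refine ⟨M + ((rst sA sB).card + 1) * e, ?_⟩
    rw [pow_add, mul_assoc]
    exact hM
  rw [← sum_homogeneousComponent p]
  exact Ideal.sum_mem _ fun e _ => hcomp e

end frame

end Pentad
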